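import Pool.Agent.LHE.Stmts1

/-!
# No point of the walk is between the two arcs of a finger
-/

namespace LHE

open Set LG LH

namespace ADJ

variable {N : ℕ}

theorem px_mul (P : Pg N) (i k : ℤ) : P.x (i + k * N) = P.x i :=
  (Function.Periodic.int_mul (f := P.x) (c := (N : ℤ)) P.px k) i

theorem py_mul (P : Pg N) (i k : ℤ) : P.y (i + k * N) = P.y i :=
  (Function.Periodic.int_mul (f := P.y) (c := (N : ℤ)) P.py k) i

theorem pz_mul (P : Pg N) (i k : ℤ) : P.z (i + k * N) = P.z i :=
  (Function.Periodic.int_mul (f := P.z) (c := (N : ℤ)) P.pz k) i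

theorem pl_mul (P : Pg N) (i k : ℤ) (t : ℝ) : P.l (i + k * N) t = P.l i t := by
  unfold Pg.l
  rw [px_mul, py_mul, pz_mul]

theorem adj_left {X : Finset ℝ} {a a' b : ℝ} (h : AdjX X a b) (h' : AdjX X a' b) : a = a' := by
  rcases lt_trichotomy a a' with h1 | h1 | h1
  · exact absurd ⟨h1, h'.2.2.1⟩ (h.2.2.2 a' h'.1)
  · exact h1
  · exact absurd ⟨h1, h.2.2.1⟩ (h'.2.2.2 a h.1)

theorem adj_right {X : Finset ℝ} {a b b' : ℝ} (h : AdjX X a b) (h' : AdjX X a b') : b = b' := by
  rcases lt_trichotomy b b' with h1 | h1 | h1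
  · exact absurd ⟨h.2.2.1, h1⟩ (h'.2.2.2 b h.2.1)
  · exact h1
  · exact absurd ⟨h'.2.2.1, h1⟩ (h.2.2.2 b' h'.2.1)

theorem mem_zip {α : Type*} (a b : α) (v z : List α) : ∀ (u : List α) (c : α),
    (a, b) ∈ (c :: (u ++ a :: b :: v)).zip (u ++ a :: b :: v ++ z)
  | [], c => by
    simp only [List.nil_append, List.cons_append, List.zip_cons_cons]
    exact List.mem_cons_of_mem _ List.mem_cons_self
  | d :: u, c => by
    have h := mem_zip a b v z u d
    simp only [List.cons_append, List.zip_cons_cons] at h ⊢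
    exact List.mem_cons_of_mem _ h

theorem mem_cp {α : Type*} (a b : α) (u v : List α) : (a, b) ∈ cp (u ++ a :: b :: v) := by
  unfold cp
  cases u with
  | nil =>
    rw [List.nil_append, List.rotate_cons_succ, List.rotate_zero, List.cons_append,
      List.zip_cons_cons]
    exact List.mem_cons_self
  | cons c u =>
    rw [List.cons_append, List.rotate_cons_succ, List.rotate_zero]
    exact mem_zip a b v [c] u c

/-- The shift of an edge into a period. -/
theorem exists_shift (hN : 0 < N) (A j : ℤ) : ∃ k : ℤ, A ≤ j + k * N ∧ j + k * N < A + N := by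
  have h0 : (0 : ℤ) < N := by exact_mod_cast hN
  refine ⟨-((j - A) / N), ?_, ?_⟩
  · have h1 := Int.emod_add_mul_ediv (j - A) N
    have h2 := Int.emod_nonneg (j - A) h0.ne'
    nlinarith
  · have h1 := Int.emod_add_mul_ediv (j - A) N
    have h2 := Int.emod_lt_of_pos (j - A) h0
    nlinarith

/-- The edge of a turn near a line of a finger is not in the finger. -/
theorem turn_out {P : Pg N} {s : Bool} {A C D : ℤ} {τ δ : ℝ} (hF : Fg P s A C D τ δ)
    {t t₁ : ℝ} {e pe g qe : ℤ} (he : e ∈ Ico A C) (hcr : Crs P s t e) (hτ : τ ≤ sn s * t)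
    (h1 : pe ≤ g) (h2 : g < qe)
    (H : ((∀ m, pe < m → m ≤ qe → sn s * t₁ < sn s * P.x m ∧ sn s * P.x m < sn s * t) ∧
        sn s * P.x pe < sn s * t₁ ∧ sn s * P.x (qe + 1) < sn s * t₁) ∨
      ((∀ m, pe < m → m ≤ qe → sn s * t < sn s * P.x m ∧ sn s * P.x m < sn s * t₁) ∧
        sn s * t₁ < sn s * P.x pe ∧ sn s * t₁ < sn s * P.x (qe + 1))) :
    ¬ (A ≤ g ∧ g < D) := by
  rintro ⟨hA, hD⟩
  have hAC := hF.AC
  have hCD := hF.CD
  have hm1 : ∀ a b, A ≤ a → a ≤ b → b ≤ C → sn s * P.x a ≤ sn s * P.x b := fun a b ha hab hb =>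
    hF.m1 ⟨ha, hab.trans hb⟩ ⟨ha.trans hab, hb⟩ hab
  have hm2 : ∀ a b, C ≤ a → a ≤ b → b ≤ D → sn s * P.x b ≤ sn s * P.x a := fun a b ha hab hb =>
    hF.m2 ⟨ha, hab.trans hb⟩ ⟨ha.trans hab, hb⟩ hab
  have hC : sn s * t < sn s * P.x C :=
    lt_of_lt_of_le hcr.2 (hm1 (e + 1) C (by linarith [he.1]) (by have := he.2; omega) le_rfl)
  rcases H with ⟨H1, H2, H3⟩ | ⟨H1, H2, H3⟩
  · rcases lt_or_ge g C with hg | hg
    · rcases lt_or_ge qe C with hq | hq
      · have h3 := hm1 (g + 1) (qe + 1) (by omega) (by omega) (by omega)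
        have h4 := (H1 (g + 1) (by omega) (by omega)).1
        linarith
      · have h4 := (H1 C (by omega) (by omega)).2
        linarith
    · rcases lt_or_ge pe C with hp | hp
      · have h4 := (H1 C (by omega) (by omega)).2
        linarith
      · have h3 := hm2 pe (g + 1) (by omega) (by omega) (by omega)
        have h4 := (H1 (g + 1) (by omega) (by omega)).1
        linarith
  · rcases lt_or_ge g C with hg | hg
    · rcases lt_or_ge pe A with hp | hp
      · have h4 := (H1 A (by omega) (by omega)).1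
        have h5 := hF.xa
        linarith
      · have h3 := hm1 pe (g + 1) (by omega) (by omega) (by omega)
        have h4 := (H1 (g + 1) (by omega) (by omega)).2
        linarith
    · rcases lt_or_ge qe D with hq | hq
      · have h3 := hm2 (g + 1) (qe + 1) (by omega) (by omega) (by omega)
        have h4 := (H1 (g + 1) (by omega) (by omega)).2
        linarith
      · have h4 := (H1 D (by omega) (by omega)).1
        have h5 := hF.xd
        linarith

theorem not_btw_of_gap {a b c : ℝ} (h : c ∉ uIcc a b) : ¬ Btw a b c := by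
  intro hb
  apply h
  rw [mem_uIcc]
  rcases hb with ⟨h1, h2⟩ | ⟨h1, h2⟩
  · exact Or.inl ⟨h1.le, h2.le⟩
  · exact Or.inr ⟨h1.le, h2.le⟩

theorem not_btw_left (a b : ℝ) : ¬ Btw a b a := by
  rintro (⟨h1, h2⟩ | ⟨h1, h2⟩) <;> linarith

theorem not_btw_right (a b : ℝ) : ¬ Btw a b b := by
  rintro (⟨h1, h2⟩ | ⟨h1, h2⟩) <;> linarith

/-- The near vertex of an edge which crosses a line. -/
theorem near_of_crs {P : Pg N} {s : Bool} {t δ : ℝ} {e : ℤ} (hδ : |P.x (e + 1) - P.x e| < δ)
    (h : Crs P s t e) : |P.x e - t| < 2 * δ := by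
  rw [abs_lt] at hδ ⊢
  obtain ⟨h1, h2⟩ := h
  rcases sn_or s with hs | hs <;> rw [hs] at h1 h2 <;> constructor <;> linarith

/-- The case of an item which passes. -/
theorem pass_case {P : Pg N} {s : Bool} {A C D : ℤ} {τ δ : ℝ} (hF : Fg P s A C D τ δ)
    (hst : ∀ i, |P.x (i + 1) - P.x i| < δ) {t : ℝ} {e f g : ℤ} (hτ : τ ≤ sn s * t)
    (he : e ∈ Ico A C) (hf : f ∈ Ico C D) (hce : Crs P s t e) (hcf : Crs P (!s) t f)
    (hg1 : A ≤ g) (hg2 : g < A + N) (hcg : Crs P s t g ∨ Crs P (!s) t g) :
    ¬ Btw (P.l e t) (P.l f t) (P.l g t) := by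
  have hAC := hF.AC
  have hCD := hF.CD
  have hm1 : ∀ a b, A ≤ a → a ≤ b → b ≤ C → sn s * P.x a ≤ sn s * P.x b := fun a b ha hab hb =>
    hF.m1 ⟨ha, hab.trans hb⟩ ⟨ha.trans hab, hb⟩ hab
  have hm2 : ∀ a b, C ≤ a → a ≤ b → b ≤ D → sn s * P.x b ≤ sn s * P.x a := fun a b ha hab hb =>
    hF.m2 ⟨ha, hab.trans hb⟩ ⟨ha.trans hab, hb⟩ hab
  obtain ⟨he1, he2⟩ := he
  obtain ⟨hf1, hf2⟩ := hf
  unfold Crs at hce hcf hcg
  rw [sn_not] at hcf hcg
  rcases lt_or_ge g C with hg | hg
  · have h0 := hm1 g (g + 1) (by omega) (by omega) (by omega)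
    have hcg' : sn s * P.x g < sn s * t ∧ sn s * t < sn s * P.x (g + 1) := by
      rcases hcg with h | ⟨h, h'⟩
      · exact h
      · exfalso; linarith
    have h1 : g = e := by
      rcases lt_trichotomy g e with h | h | h
      · have := hm1 (g + 1) e (by omega) (by omega) (by omega)
        exfalso; linarith [hce.1, hcg'.2]
      · exact h
      · have := hm1 (e + 1) g (by omega) (by omega) (by omega)
        exfalso; linarith [hce.2, hcg'.1]
    rw [h1]
    exact not_btw_left _ _
  · rcases lt_or_ge g D with hg' | hg'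
    · have h0 := hm2 g (g + 1) (by omega) (by omega) (by omega)
      have hcg' : sn s * P.x (g + 1) < sn s * t ∧ sn s * t < sn s * P.x g := by
        rcases hcg with ⟨h, h'⟩ | ⟨h, h'⟩
        · exfalso; linarith
        · constructor <;> linarith
      have h1 : g = f := by
        rcases lt_trichotomy g f with h | h | h
        · have := hm2 (g + 1) f (by omega) (by omega) (by omega)
          exfalso; linarith [hcf.1, hcg'.1]
        · exact h
        · have := hm2 (f + 1) g (by omega) (by omega) (by omega)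
          exfalso; linarith [hcf.2, hcg'.2]
      rw [h1]
      exact not_btw_right _ _
    · apply not_btw_of_gap
      refine hF.gap t hτ e ⟨he1, he2⟩ f ⟨hf1, hf2⟩ g ⟨hg', hg2⟩
        (near_of_crs (s := s) (hst e) hce) (near_of_crs (s := !s) (hst f) ?_) ?_
      · unfold Crs; rw [sn_not]; exact hcf
      · rcases hcg with h | h
        · exact near_of_crs (s := s) (hst g) h
        · refine near_of_crs (s := !s) (hst g) ?_
          unfold Crs; rw [sn_not]; exact h

/-- The case of a turn. -/
theorem turn_case {P : Pg N} {s : Bool} {A C D : ℤ} {τ δ : ℝ} (hF : Fg P s A C D τ δ)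
    (hst : ∀ i, |P.x (i + 1) - P.x i| < δ) {t t₁ : ℝ} {e f pe g qe : ℤ} (hτ : τ ≤ sn s * t)
    (he : e ∈ Ico A C) (hf : f ∈ Ico C D) (hce : Crs P s t e) (hcf : Crs P (!s) t f)
    (hg1 : A ≤ g) (hg2 : g < A + N) (h1 : pe ≤ g) (h2 : g < qe) (hmesh : |t₁ - t| < δ)
    (H : (∀ m, pe < m → m ≤ qe → t₁ < P.x m ∧ P.x m < t) ∧ P.x pe < t₁ ∧ P.x (qe + 1) < t₁ ∨
      (∀ m, pe < m → m ≤ qe → t < P.x m ∧ P.x m < t₁) ∧ t₁ < P.x pe ∧ t₁ < P.x (qe + 1)) :
    ¬ Btw (P.l e t) (P.l f t) (P.l g t) := by
  have hout : ¬ (A ≤ g ∧ g < D) := by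
    refine turn_out hF (t₁ := t₁) he hce hτ h1 h2 ?_
    rcases sn_or s with hs | hs <;> rw [hs]
    · rcases H with ⟨H1, H2, H3⟩ | ⟨H1, H2, H3⟩
      · left
        refine ⟨fun m h h' => ?_, by linarith, by linarith⟩
        obtain ⟨h3, h4⟩ := H1 m h h'
        constructor <;> linarith
      · right
        refine ⟨fun m h h' => ?_, by linarith, by linarith⟩
        obtain ⟨h3, h4⟩ := H1 m h h'
        constructor <;> linarith
    · rcases H with ⟨H1, H2, H3⟩ | ⟨H1, H2, H3⟩
      · right
        refine ⟨fun m h h' => ?_, by linarith, by linarith⟩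
        obtain ⟨h3, h4⟩ := H1 m h h'
        constructor <;> linarith
      · left
        refine ⟨fun m h h' => ?_, by linarith, by linarith⟩
        obtain ⟨h3, h4⟩ := H1 m h h'
        constructor <;> linarith
  have hD : D ≤ g := by
    by_contra h
    exact hout ⟨hg1, by omega⟩
  apply not_btw_of_gap
  refine hF.gap t hτ e he f hf g ⟨hD, hg2⟩ (near_of_crs (s := s) (hst e) hce)
    (near_of_crs (s := !s) (hst f) hcf) ?_
  have h3 := hst g
  rw [abs_lt] at h3 hmesh ⊢
  rcases H with ⟨H1, -, -⟩ | ⟨H1, -, -⟩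
  · obtain ⟨h4, h5⟩ := H1 (g + 1) (by omega) (by omega)
    constructor <;> linarith
  · obtain ⟨h4, h5⟩ := H1 (g + 1) (by omega) (by omega)
    constructor <;> linarith

/-- The neighbours of an element of a chain. -/
theorem nbrs {R : It → It → Prop} {i j z : It} {w : List It} (hj : j ∈ w)
    (hc : List.IsChain R ((i :: w) ++ [z])) :
    ∃ p q, R p j ∧ R j q ∧ (p, j) ∈ cp (i :: w) ∧ ((j, q) ∈ cp (i :: w) ∨ q = z) ∧
      p ∈ i :: w ∧ (q ∈ i :: w ∨ q = z) := by
  obtain ⟨u, v, rfl⟩ := List.append_of_mem hj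
  obtain ⟨u', p, hu⟩ : ∃ u' p, i :: u = u' ++ [p] :=
    ⟨(i :: u).dropLast, (i :: u).getLast (List.cons_ne_nil _ _),
      (List.dropLast_append_getLast _).symm⟩
  have hl : i :: (u ++ j :: v) = u' ++ p :: j :: v := by
    rw [← List.cons_append, hu, List.append_assoc]
    rfl
  rw [hl] at hc ⊢
  have hp : R p j := by
    rw [List.append_assoc] at hc
    have h1 := (List.isChain_append.1 hc).2.1
    rw [List.cons_append, List.cons_append, List.isChain_cons_cons] at h1
    exact h1.1
  cases v with
  | nil =>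
    refine ⟨p, z, hp, ?_, mem_cp _ _ _ _, Or.inr rfl, by simp, Or.inr rfl⟩
    rw [List.append_assoc] at hc
    have h1 := (List.isChain_append.1 hc).2.1
    rw [List.cons_append, List.cons_append, List.isChain_cons_cons, List.nil_append,
      List.isChain_cons_cons] at h1
    exact h1.2.1
  | cons q v =>
    refine ⟨p, q, hp, ?_, mem_cp _ _ _ _, Or.inl ?_, by simp, Or.inl (by simp)⟩
    · rw [List.append_assoc] at hc
      have h1 := (List.isChain_append.1 hc).2.1
      rw [List.cons_append, List.cons_append, List.cons_append, List.isChain_cons_cons,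
        List.isChain_cons_cons] at h1
      exact h1.2.1
    · have := mem_cp j q (u' ++ [p]) v
      rwa [List.append_assoc] at this

end ADJ

open ADJ in
theorem t_ADJ : Stmt_ADJ := by
  intro N P X s A C D τ δ i w hX hM hG hi hF hst t ht hτ e he f hf hce hcf
  have hAC := hF.AC
  have hCD := hF.CD
  have hDA := hF.DA
  have hN : 0 < N := by
    have : (0 : ℤ) < N := by omega
    exact_mod_cast this
  rintro p hp hpt
  rw [List.mem_map] at hp
  obtain ⟨j, hj, rfl⟩ := hp
  have hjt : j.t = t := hpt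
  change ¬ Btw (P.l e t) (P.l f t) (P.l j.e j.t)
  rw [hjt]
  obtain ⟨k, hk1, hk2⟩ := exists_shift hN A j.e
  rw [← pl_mul P j.e k t]
  obtain ⟨⟨i', w', hiw, hok, hch⟩, hcp⟩ := hG
  obtain ⟨rfl, rfl⟩ := List.cons.inj hiw
  have hx : ∀ m : ℤ, P.x (m + k * N) = P.x m := fun m => px_mul P m k
  have hx1 : ∀ m : ℤ, P.x (m + k * N + 1) = P.x (m + 1) := fun m => by
    rw [show m + k * (N : ℤ) + 1 = (m + 1) + k * N by ring]
    exact px_mul P (m + 1) k
  by_cases hT : Tn j
  · -- a turn
    have hjw : j ∈ w := by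
      rcases List.mem_cons.1 hj with h | h
      · rw [h] at hT; exact absurd hT hi
      · exact h
    obtain ⟨p, q, hpj, hjq, hcp1, hcp2, hpm, hqm⟩ := nbrs hjw hch
    have hpT : ¬ Tn p := fun h => hcp _ hcp1 ⟨h, hT⟩
    have hqT : ¬ Tn q := by
      rcases hcp2 with h | h
      · exact fun h' => hcp _ h ⟨hT, h'⟩
      · rw [h]; exact hi
    have hpok : ItOK P p := hok p hpm
    have hqok : ItOK P q := by
      rcases hqm with h | h
      · exact hok q h
      · have h3 := hok i List.mem_cons_self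
        rw [h]
        constructor
        · intro hk
          have h4 := h3.1 hk
          change P.x (i.e + N) < i.t ∧ i.t < P.x (i.e + N + 1)
          rw [P.px, show i.e + (N : ℤ) + 1 = (i.e + 1) + N by ring, P.px]
          exact h4
        · intro hk
          have h4 := h3.2 hk
          change P.x (i.e + N + 1) < i.t ∧ i.t < P.x (i.e + N)
          rw [P.px, show i.e + (N : ℤ) + 1 = (i.e + 1) + N by ring, P.px]
          exact h4
    have hle := hpj.le
    have hlt := hjq.tl hT
    rcases hT with hR | hL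
    · -- right turn
      have hpd : p.k.fw ∧ p.t < j.t := by
        rcases hpj.dir with ⟨h3, -, h5⟩ | ⟨-, h4, -⟩
        · exact ⟨h3, h5⟩
        · rw [hR] at h4; exact absurd trivial h4
      have hqd : ¬ q.k.ar ∧ q.t < j.t := by
        rcases hjq.dir with ⟨h3, -, -⟩ | ⟨-, h4, h5⟩
        · rw [hR] at h3; exact absurd h3 id
        · exact ⟨h4, h5⟩
      have hpk : p.k = .rt := by
        have h3 := hpd.1
        unfold Tn at hpT
        cases h : p.k <;> simp_all [Kd.fw]
      have hqk : q.k = .lt := by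
        have h3 := hqd.1
        unfold Tn at hqT
        cases h : q.k <;> simp_all [Kd.ar]
      have hpa : AdjX X p.t j.t := by
        rcases hpj.adj with h | h
        · exact h
        · exact absurd h.2.2.1 (not_lt.2 hpd.2.le)
      have hqa : AdjX X q.t j.t := by
        rcases hjq.adj with h | h
        · exact absurd h.2.2.1 (not_lt.2 hqd.2.le)
        · exact h
      have hpq : q.t = p.t := adj_left hqa hpa
      have hm := hM _ _ hpa
      have hp3 := hpok.1 hpk
      have hq3 := hqok.2 hqk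
      rw [hjt] at hm hpd hpa
      refine turn_case hF hst (t₁ := p.t) (pe := p.e + k * N) (qe := q.e + k * N) hτ he hf hce hcf
        hk1 hk2 (by linarith) (by linarith) ?_ (Or.inl ⟨?_, ?_, ?_⟩)
      · rw [abs_lt]; constructor <;> linarith [hpd.2]
      · intro m hm1 hm2
        rw [← px_mul P m (-k)]
        rcases le_or_gt (m + -k * N) j.e with h | h
        · have h3 := hpj.ins (m + -k * N) (by linarith) h
          rw [hjt] at h3
          rcases h3 with h3 | h3
          · exact h3
          · exfalso; linarith [hpd.2, h3.1, h3.2]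
        · have h3 := hjq.ins (m + -k * N) h (by linarith)
          rw [hjt, hpq] at h3
          rcases h3 with h3 | h3
          · exfalso; linarith [hpd.2, h3.1, h3.2]
          · exact h3
      · rw [hx]; exact hp3.1
      · rw [hx1, ← hpq]; exact hq3.1
    · -- left turn
      have hpd : ¬ p.k.fw ∧ j.t < p.t := by
        rcases hpj.dir with ⟨-, h4, -⟩ | ⟨h3, -, h5⟩
        · rw [hL] at h4; exact absurd h4 id
        · exact ⟨h3, h5⟩
      have hqd : q.k.ar ∧ j.t < q.t := by
        rcases hjq.dir with ⟨-, h4, h5⟩ | ⟨h3, -, -⟩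
        · exact ⟨h4, h5⟩
        · rw [hL] at h3; exact absurd trivial h3
      have hpk : p.k = .lt := by
        have h3 := hpd.1
        unfold Tn at hpT
        cases h : p.k <;> simp_all [Kd.fw]
      have hqk : q.k = .rt := by
        have h3 := hqd.1
        unfold Tn at hqT
        cases h : q.k <;> simp_all [Kd.ar]
      have hpa : AdjX X j.t p.t := by
        rcases hpj.adj with h | h
        · exact absurd h.2.2.1 (not_lt.2 hpd.2.le)
        · exact h
      have hqa : AdjX X j.t q.t := by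
        rcases hjq.adj with h | h
        · exact h
        · exact absurd h.2.2.1 (not_lt.2 hqd.2.le)
      have hpq : q.t = p.t := adj_right hqa hpa
      have hm := hM _ _ hpa
      have hp3 := hpok.2 hpk
      have hq3 := hqok.1 hqk
      rw [hjt] at hm hpd hpa
      refine turn_case hF hst (t₁ := p.t) (pe := p.e + k * N) (qe := q.e + k * N) hτ he hf hce hcf
        hk1 hk2 (by linarith) (by linarith) ?_ (Or.inr ⟨?_, ?_, ?_⟩)
      · rw [abs_lt]; constructor <;> linarith [hpd.2]
      · intro m hm1 hm2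
        rw [← px_mul P m (-k)]
        rcases le_or_gt (m + -k * N) j.e with h | h
        · have h3 := hpj.ins (m + -k * N) (by linarith) h
          rw [hjt] at h3
          rcases h3 with h3 | h3
          · exfalso; linarith [hpd.2, h3.1, h3.2]
          · exact h3
        · have h3 := hjq.ins (m + -k * N) h (by linarith)
          rw [hjt, hpq] at h3
          rcases h3 with h3 | h3
          · exact h3
          · exfalso; linarith [hpd.2, h3.1, h3.2]
      · rw [hx]; exact hp3.2
      · rw [hx1, ← hpq]; exact hq3.2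
  · -- passing
    have hjok := hok j hj
    refine pass_case hF hst hτ he hf hce hcf hk1 hk2 ?_
    have hjk : j.k = .rt ∨ j.k = .lt := by
      unfold Tn at hT
      cases h : j.k <;> simp_all
    unfold Crs
    rw [sn_not, hx, hx1]
    rcases hjk with h | h
    · have h3 := hjok.1 h
      rw [hjt] at h3
      rcases sn_or s with hs | hs <;> rw [hs]
      · left; constructor <;> linarith [h3.1, h3.2]
      · right; constructor <;> linarith [h3.1, h3.2]
    · have h3 := hjok.2 h
      rw [hjt] at h3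
      rcases sn_or s with hs | hs <;> rw [hs]
      · right; constructor <;> linarith [h3.1, h3.2]
      · left; constructor <;> linarith [h3.1, h3.2]

end LHE
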