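import Pool.Agent.LHE.Stmts2
import Pool.Agent.LHS.BAS

/-!
# The indices of the arcs of the polygons
-/

namespace LHE

open Set LG LH

namespace AR1

theorem per {α : Type*} (f : ℤ → α) (K : ℤ) (h : ∀ k, f (k + K) = f k) (k j : ℤ) :
    f (k + j * K) = f k := by
  induction j using Int.induction_on with
  | zero => rw [zero_mul, add_zero]
  | succ i ih => rw [add_mul, one_mul, ← add_assoc, h, ih]
  | pred i ih =>
    have h1 := h (k + (-(i : ℤ) - 1) * K)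
    have e : k + (-(i : ℤ) - 1) * K + K = k + -(i : ℤ) * K := by ring
    rw [e, ih] at h1
    exact h1.symm

theorem per' (f : ℤ → ℝ) (K : ℤ) (h : ∀ k, f (k + K) = f k + 1) (k j : ℤ) :
    f (k + j * K) = f k + j := by
  induction j using Int.induction_on with
  | zero => rw [zero_mul, add_zero, Int.cast_zero, add_zero]
  | succ i ih =>
    rw [add_mul, one_mul, ← add_assoc, h, ih]
    push_cast
    ring
  | pred i ih =>
    have h1 := h (k + (-(i : ℤ) - 1) * K)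
    have e : k + (-(i : ℤ) - 1) * K + K = k + -(i : ℤ) * K := by ring
    rw [e, ih] at h1
    push_cast at h1 ⊢
    linarith

theorem x_add_int (Λ : LC.LegKnot) (u : ℝ) (j : ℤ) : Λ.x (u + j) = Λ.x u := by
  have hp : Function.Periodic Λ.x 1 := (LHS.t_BAS Λ).2.2.2.1
  have h := hp.int_mul j u
  rwa [mul_one] at h

theorem exists_lb {α : Type*} (S : Finset α) (f : α → ℝ) (h : ∀ x ∈ S, 0 < f x) :
    ∃ γ > (0 : ℝ), ∀ x ∈ S, γ ≤ f x := by
  rcases S.eq_empty_or_nonempty with rfl | hS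
  · exact ⟨1, one_pos, fun x hx => absurd hx (Finset.notMem_empty x)⟩
  · obtain ⟨y, hy, hmin⟩ := S.exists_min_image f hS
    exact ⟨f y, h y hy, hmin⟩

theorem loc {f : ℝ → ℝ} {f' x : ℝ} (hf : HasDerivAt f f' x) (h : 0 < f') :
    ∃ δ > (0 : ℝ), ∀ u, |u - x| < δ → (u < x → f u < f x) ∧ (x < u → f x < f u) := by
  have h1 := (hasDerivAt_iff_tendsto_slope.mp hf).eventually (lt_mem_nhds h)
  rw [eventually_nhdsWithin_iff, Metric.eventually_nhds_iff] at h1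
  obtain ⟨δ, hδ, h2⟩ := h1
  refine ⟨δ, hδ, fun u hu => ⟨fun hux => ?_, fun hux => ?_⟩⟩
  · have h3 := h2 (show dist u x < δ by rwa [Real.dist_eq]) (ne_of_lt hux)
    rw [slope_def_field, div_pos_iff] at h3
    rcases h3 with ⟨h4, h5⟩ | ⟨h4, h5⟩
    · linarith
    · linarith
  · have h3 := h2 (show dist u x < δ by rwa [Real.dist_eq]) (ne_of_gt hux)
    rw [slope_def_field, div_pos_iff] at h3
    rcases h3 with ⟨h4, h5⟩ | ⟨h4, h5⟩
    · linarith
    · linarith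

end AR1

open AR1 in
theorem t_AR1 : Stmt_AR1 := by
  intro hEST Λ K θ s a b g X A
  obtain ⟨C, hC, N₁, hN₁, hE⟩ := hEST Λ
  have hK0 : (0 : ℤ) < K := by exact_mod_cast A.d.Kpos
  -- reduction to `0 ≤ k < K`
  have hred : ∀ k : ℤ, ∃ k₀ ∈ Finset.range K, ∃ j : ℤ, k = (k₀ : ℤ) + j * K := by
    intro k
    have h1 : 0 ≤ k % K := Int.emod_nonneg k hK0.ne'
    have h2 : k % K < K := Int.emod_lt_of_pos k hK0
    refine ⟨(k % K).toNat, ?_, k / K, ?_⟩
    · rw [Finset.mem_range]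
      omega
    · rw [Int.toNat_of_nonneg h1]
      have := Int.emod_add_mul_ediv k K
      linarith
  have hθ : ∀ k j : ℤ, θ (k + j * K) = θ k + j := per' θ K A.pθ
  -- the least gap
  obtain ⟨m, hm, hmgap⟩ := exists_lb (Finset.range K) (fun k : ℕ => θ ((k : ℤ) + 1) - θ k)
    (fun k _ => sub_pos.mpr (A.mono k))
  have hgap : ∀ k : ℤ, m ≤ θ (k + 1) - θ k := by
    intro k
    obtain ⟨k₀, hk₀, j, rfl⟩ := hred k
    have e : (k₀ : ℤ) + j * K + 1 = (k₀ : ℤ) + 1 + j * K := by ring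
    rw [e, hθ, hθ]
    have := hmgap k₀ hk₀
    linarith
  -- the local monotonicity
  have hloc0 : ∀ k : ℕ, ∃ δ > (0 : ℝ), ∀ u, |u - θ k| < δ →
      (u < θ k → sn (g k) * Λ.x u < sn (g k) * s k) ∧
      (θ k < u → sn (g k) * s k < sn (g k) * Λ.x u) := by
    intro k
    have hx : HasDerivAt Λ.x (deriv Λ.x (θ k)) (θ k) := (LHS.t_BAS Λ).2.2.2.2.2.2.1 _
    obtain ⟨δ, hδ, h1⟩ := loc (hx.const_mul (sn (g k))) (A.der k)
    refine ⟨δ, hδ, fun u hu => ?_⟩
    have h2 := h1 u hu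
    rwa [A.hit] at h2
  choose δ hδ hloc1 using hloc0
  obtain ⟨δm, hδm, hδmin⟩ := exists_lb (Finset.range K) δ (fun k _ => hδ k)
  have hloc : ∀ k : ℤ, ∀ u, |u - θ k| < δm →
      (u < θ k → sn (g k) * Λ.x u < sn (g k) * s k) ∧
      (θ k < u → sn (g k) * s k < sn (g k) * Λ.x u) := by
    intro k
    obtain ⟨k₀, hk₀, j, rfl⟩ := hred k
    intro u hu
    rw [hθ] at hu ⊢
    rw [per s K A.d.ps, per g K A.d.pg]
    have h1 : |u - j - θ k₀| < δ k₀ := by
      have e : u - j - θ k₀ = u - (θ k₀ + j) := by ring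
      rw [e]
      exact lt_of_lt_of_le hu (hδmin k₀ hk₀)
    have h2 := hloc1 k₀ (u - j) h1
    have h3 : Λ.x (u - j) = Λ.x u := by
      have := x_add_int Λ (u - j) j
      rw [sub_add_cancel] at this
      exact this.symm
    rw [h3] at h2
    exact ⟨fun h => h2.1 (by linarith), fun h => h2.2 (by linarith)⟩
  -- the least gap of `X`
  obtain ⟨γ, hγ, hγX⟩ := exists_lb ((X ×ˢ X).filter fun p : ℝ × ℝ => p.1 < p.2)
    (fun p => p.2 - p.1) (fun p hp => sub_pos.mpr (Finset.mem_filter.mp hp).2)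
  -- membership of the lines
  have hsX : ∀ k, s k ∈ X := by
    intro k
    rw [A.d.st]
    split
    · exact (A.d.adj k).1
    · exact (A.d.adj k).2.1
  refine ⟨N₁ + ⌈1 / m⌉₊ + ⌈1 / δm⌉₊ + ⌈C / γ⌉₊ + 1, by omega, ?_⟩
  intro N hN P hP
  have hN1 : N₁ ≤ N := by omega
  have hNpos : 0 < N := by omega
  have hN0 : (0 : ℝ) < N := by exact_mod_cast hNpos
  have hNR : (N₁ : ℝ) + ⌈1 / m⌉₊ + ⌈1 / δm⌉₊ + ⌈C / γ⌉₊ + 1 ≤ N := by exact_mod_cast hN
  have c1 : 1 / m ≤ ⌈1 / m⌉₊ := Nat.le_ceil _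
  have c2 : 1 / δm ≤ ⌈1 / δm⌉₊ := Nat.le_ceil _
  have c3 : C / γ ≤ ⌈C / γ⌉₊ := Nat.le_ceil _
  have z1 : (0 : ℝ) ≤ N₁ := Nat.cast_nonneg _
  have z2 : (0 : ℝ) ≤ ⌈1 / m⌉₊ := Nat.cast_nonneg _
  have z3 : (0 : ℝ) ≤ ⌈1 / δm⌉₊ := Nat.cast_nonneg _
  have z4 : (0 : ℝ) ≤ ⌈C / γ⌉₊ := Nat.cast_nonneg _
  have d1 : 1 ≤ m * N := by
    have h1 : 1 / m ≤ N := by linarith
    rw [div_le_iff₀ hm] at h1
    linarith
  have d2 : 1 / (N : ℝ) < δm := by
    have h1 : 1 / δm < N := by linarith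
    rw [div_lt_iff₀ hδm] at h1
    rw [div_lt_iff₀ hN0]
    linarith
  have d3 : C / N < γ := by
    have h1 : C / γ < N := by linarith
    rw [div_lt_iff₀ hγ] at h1
    rw [div_lt_iff₀ hN0]
    linarith
  have hPx : ∀ i : ℤ, P.x i = Λ.x ((i : ℝ) / N) := by
    intro i
    rw [hP.1]
    rfl
  have hrat : ∀ (i : ℤ) (k : ℤ), (i : ℝ) / N ≠ θ k := by
    intro i k h
    have h1 := A.irr (s k) (hsX k) ((i : ℚ) / (N : ℚ))
    apply h1
    push_cast
    rw [h]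
    exact A.hit k
  refine ⟨?_, ?_, ?_, ?_, ?_, ?_, ?_⟩
  · intro k
    rw [← Int.add_one_le_iff, Int.le_floor]
    push_cast
    have h1 := hgap k
    have h2 : 1 ≤ (N : ℝ) * (θ (k + 1) - θ k) := by
      have := mul_le_mul_of_nonneg_left h1 hN0.le
      linarith
    have h3 := Int.floor_le ((N : ℝ) * θ k)
    linarith
  · intro k
    rw [A.pθ, mul_add, mul_one]
    exact Int.floor_add_natCast _ _
  · intro k
    have h1 := Int.floor_le ((N : ℝ) * θ k)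
    have h2 := Int.lt_floor_add_one ((N : ℝ) * θ k)
    have h3 : (⌊(N : ℝ) * θ k⌋ : ℝ) / N < θ k := by
      refine lt_of_le_of_ne ?_ (hrat _ _)
      rw [div_le_iff₀ hN0]
      linarith
    have h4 : θ k < ((⌊(N : ℝ) * θ k⌋ + 1 : ℤ) : ℝ) / N := by
      rw [lt_div_iff₀ hN0]
      push_cast
      linarith
    have e5 : ((⌊(N : ℝ) * θ k⌋ + 1 : ℤ) : ℝ) / N = (⌊(N : ℝ) * θ k⌋ : ℝ) / N + 1 / N := by
      push_cast
      ring
    unfold Crs
    rw [hPx, hPx]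
    constructor
    · refine (hloc k _ ?_).1 h3
      rw [abs_lt]
      rw [e5] at h4
      constructor <;> linarith
    · refine (hloc k _ ?_).2 h4
      rw [abs_lt]
      rw [e5] at h4 ⊢
      constructor <;> linarith
  · intro k i h1 h2
    rw [Int.floor_lt] at h1
    rw [Int.le_floor] at h2
    rw [hPx]
    refine A.ins k _ ⟨?_, ?_⟩
    · rw [lt_div_iff₀ hN0]
      linarith
    · refine lt_of_le_of_ne ?_ (hrat _ _)
      rw [div_le_iff₀ hN0]
      linarith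
  · obtain ⟨c, hc, h⟩ := A.lo
    exact ⟨c, hc, fun i => by rw [hPx]; exact h _⟩
  · obtain ⟨c, hc, h⟩ := A.hi
    exact ⟨c, hc, fun i => by rw [hPx]; exact h _⟩
  · intro c d hcd i
    have h1 := ((hE N hN1 P hP).2 i).2.2.1
    have h2 := hγX (c, d) (Finset.mem_filter.mpr ⟨Finset.mem_product.mpr ⟨hcd.1, hcd.2.1⟩, hcd.2.2.1⟩)
    simp only at h2
    linarith

end LHE
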