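import Pool.Agent.LHE.Stmts2

/-!
# The arcs of the polygons are monotone
-/

namespace LHE

open Set LG LH
open scoped ContDiff

namespace AR2

/-- A continuous function which is positive at `a` and has no zero on `[a, b]` is bounded below on
a neighbourhood. -/
theorem pos_nhds {f : ℝ → ℝ} (hf : Continuous f) {a b : ℝ} (hab : a ≤ b) (h0 : 0 < f a)
    (hn : ∀ u ∈ Icc a b, f u ≠ 0) :
    ∃ ε > (0 : ℝ), ∃ η > (0 : ℝ), ∀ u ∈ Icc (a - ε) (b + ε), η ≤ f u := by
  have hpos : ∀ u ∈ Icc a b, 0 < f u := by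
    intro u hu
    by_contra hneg
    push Not at hneg
    have h1 : (0 : ℝ) ∈ f '' Icc a u :=
      intermediate_value_Icc' hu.1 hf.continuousOn ⟨hneg, h0.le⟩
    obtain ⟨v, hv, hv0⟩ := h1
    exact hn v ⟨hv.1, hv.2.trans hu.2⟩ hv0
  obtain ⟨m, hm, hmin⟩ := isCompact_Icc.exists_isMinOn (nonempty_Icc.mpr hab) hf.continuousOn
  have hm0 := hpos m hm
  have hev : ∀ c ∈ Icc a b, ∃ δ > (0 : ℝ), ∀ u, |u - c| < δ → f m / 2 ≤ f u := by
    intro c hc
    obtain ⟨δ, hδ, h⟩ := Metric.continuousAt_iff.mp (hf.continuousAt (x := c)) (f m / 2)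
      (by linarith)
    refine ⟨δ, hδ, fun u hu => ?_⟩
    have h1 := h (x := u) (by rw [Real.dist_eq]; exact hu)
    rw [Real.dist_eq, abs_lt] at h1
    have h2 : f m ≤ f c := hmin hc
    linarith [h1.1]
  obtain ⟨δ₁, hδ₁, h₁⟩ := hev a ⟨le_rfl, hab⟩
  obtain ⟨δ₂, hδ₂, h₂⟩ := hev b ⟨hab, le_rfl⟩
  refine ⟨min δ₁ δ₂ / 2, by positivity, f m / 2, by linarith, fun u hu => ?_⟩
  have hmin1 : min δ₁ δ₂ ≤ δ₁ := min_le_left _ _
  have hmin2 : min δ₁ δ₂ ≤ δ₂ := min_le_right _ _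
  have hp : 0 < min δ₁ δ₂ := lt_min hδ₁ hδ₂
  obtain ⟨hu1, hu2⟩ := hu
  by_cases hua : u < a
  · refine h₁ u ?_
    rw [abs_lt]
    constructor <;> linarith
  · by_cases hub : b < u
    · refine h₂ u ?_
      rw [abs_lt]
      constructor <;> linarith
    · have h3 : f m ≤ f u := hmin ⟨not_lt.mp hua, not_lt.mp hub⟩
      linarith

/-- The same with a sign. -/
theorem sign_nhds {f : ℝ → ℝ} (hf : Continuous f) {a b : ℝ} (hab : a ≤ b)
    (hn : ∀ u ∈ Icc a b, f u ≠ 0) :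
    ∃ (s : Bool), ∃ ε > (0 : ℝ), ∃ η > (0 : ℝ), ∀ u ∈ Icc (a - ε) (b + ε), η ≤ sn s * f u := by
  rcases lt_or_gt_of_ne (hn a ⟨le_rfl, hab⟩) with h | h
  · refine ⟨false, ?_⟩
    have h1 := pos_nhds (f := fun u => sn false * f u) (continuous_const.mul hf) hab
      (by simp only [sn_false]; linarith)
      (fun u hu h0 => hn u hu (by simpa [sn_false] using h0))
    exact h1
  · refine ⟨true, ?_⟩
    have h1 := pos_nhds (f := fun u => sn true * f u) (continuous_const.mul hf) hab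
      (by simp only [sn_true]; linarith)
      (fun u hu h0 => hn u hu (by simpa [sn_true] using h0))
    exact h1

theorem smooth_x (Λ : LC.LegKnot) : ContDiff ℝ ∞ Λ.x :=
  contDiff_fst.comp Λ.smooth

theorem smooth_y (Λ : LC.LegKnot) : ContDiff ℝ ∞ Λ.y :=
  contDiff_fst.comp (contDiff_snd.comp Λ.smooth)

theorem cont_deriv {f : ℝ → ℝ} (h : ContDiff ℝ ∞ f) : Continuous (deriv f) :=
  h.continuous_deriv (by simp)

theorem diff_of {f : ℝ → ℝ} (h : ContDiff ℝ ∞ f) : Differentiable ℝ f :=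
  h.differentiable (by simp)

theorem step_mono {f : ℤ → ℝ} {p q : ℤ} (h : ∀ i, p ≤ i → i < q → f i < f (i + 1)) :
    StrictMonoOn f (Icc p q) := by
  intro i hi j hj hij
  have key : ∀ n : ℕ, i + 1 + n ≤ q → f i < f (i + 1 + n) := by
    intro n
    induction n with
    | zero =>
      intro hq
      simp only [Nat.cast_zero, add_zero] at hq ⊢
      exact h i hi.1 (by omega)
    | succ n ih =>
      intro hq
      push_cast at hq ⊢
      have h1 := ih (by omega)
      have h2 := h (i + 1 + n) (by have := hi.1; omega) (by omega)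
      have h3 : i + 1 + (n : ℤ) + 1 = i + 1 + (n + 1) := by ring
      rw [h3] at h2
      exact h1.trans h2
  have h4 := key (j - (i + 1)).toNat (by have := hj.2; omega)
  have h5 : i + 1 + ((j - (i + 1)).toNat : ℤ) = j := by omega
  rwa [h5] at h4

/-- A large enough number. -/
theorem exists_large (c : ℝ) : ∃ n : ℕ, 0 < n ∧ ∀ N : ℕ, n ≤ N → c < N := by
  obtain ⟨n, hn⟩ := exists_nat_gt c
  refine ⟨n + 1, Nat.succ_pos n, fun N hN => ?_⟩
  have : (n : ℝ) + 1 ≤ N := by exact_mod_cast hN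
  linarith

theorem floor_bounds {N : ℕ} (_ : 0 < N) (θ : ℝ) :
    (⌊(N : ℝ) * θ⌋ : ℝ) ≤ N * θ ∧ N * θ < (⌊(N : ℝ) * θ⌋ : ℝ) + 1 :=
  ⟨Int.floor_le _, Int.lt_floor_add_one _⟩

theorem case_x (Λ : LC.LegKnot) (t t' : ℝ) (htt : t ≤ t')
    (hd : ∀ u ∈ Icc t t', deriv Λ.x u ≠ 0) :
    ∃ N₀ : ℕ, 0 < N₀ ∧ ∀ N ≥ N₀, ∀ P : Pg N, IsPN Λ N P →
      StrictMonoOn P.x (Icc ⌊N * t⌋ (⌊N * t'⌋ + 1)) ∨
        StrictAntiOn P.x (Icc ⌊N * t⌋ (⌊N * t'⌋ + 1)) := by
  obtain ⟨s, ε, hε, η, hη, hb⟩ := sign_nhds (cont_deriv (smooth_x Λ)) htt hd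
  obtain ⟨N₀, hN₀, hlarge⟩ := exists_large (1 / ε)
  refine ⟨N₀, hN₀, fun N hN P hP => ?_⟩
  have hNpos : 0 < N := lt_of_lt_of_le hN₀ hN
  have hNr : (0 : ℝ) < N := by exact_mod_cast hNpos
  have hNε : 1 < N * ε := by
    have := hlarge N hN
    rwa [div_lt_iff₀ hε] at this
  have hmem : ∀ i : ℤ, i ∈ Icc ⌊N * t⌋ (⌊N * t'⌋ + 1) → (i : ℝ) / N ∈ Icc (t - ε) (t' + ε) := by
    intro i hi
    obtain ⟨h1, h2⟩ := hi
    have h1' : (⌊(N : ℝ) * t⌋ : ℝ) ≤ i := by exact_mod_cast h1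
    have h2' : (i : ℝ) ≤ (⌊(N : ℝ) * t'⌋ : ℝ) + 1 := by exact_mod_cast h2
    have h3 := (floor_bounds hNpos t).2
    have h4 := (floor_bounds hNpos t').1
    constructor
    · rw [le_div_iff₀ hNr]
      nlinarith
    · rw [div_le_iff₀ hNr]
      nlinarith
  have hlt : ∀ i j : ℤ, i < j → (i : ℝ) / N < (j : ℝ) / N := by
    intro i j hij
    have : (i : ℝ) < j := by exact_mod_cast hij
    exact div_lt_div_of_pos_right this hNr
  have hxc : Continuous Λ.x := (diff_of (smooth_x Λ)).continuous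
  have hPx : ∀ i : ℤ, P.x i = Λ.x (i / N) := by
    intro i
    rw [hP.1]
    rfl
  cases s
  · right
    have hs : StrictAntiOn Λ.x (Icc (t - ε) (t' + ε)) := by
      refine strictAntiOn_of_deriv_neg (convex_Icc _ _) hxc.continuousOn fun u hu => ?_
      have := hb u (interior_subset hu)
      rw [sn_false] at this
      linarith
    intro i hi j hj hij
    rw [hPx, hPx]
    exact hs (hmem i hi) (hmem j hj) (hlt i j hij)
  · left
    have hs : StrictMonoOn Λ.x (Icc (t - ε) (t' + ε)) := by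
      refine strictMonoOn_of_deriv_pos (convex_Icc _ _) hxc.continuousOn fun u hu => ?_
      have := hb u (interior_subset hu)
      rw [sn_true] at this
      linarith
    intro i hi j hj hij
    rw [hPx, hPx]
    exact hs (hmem i hi) (hmem j hj) (hlt i j hij)

theorem case_y (hE : Stmt_EST) (Λ : LC.LegKnot) (t t' : ℝ) (htt : t ≤ t')
    (hd : ∀ u ∈ Icc t t', deriv Λ.y u ≠ 0) :
    ∃ N₀ : ℕ, 0 < N₀ ∧ ∀ N ≥ N₀, ∀ P : Pg N, IsPN Λ N P →
      StrictMonoOn P.y (Icc ⌊N * t⌋ ⌊N * t'⌋) ∨ StrictAntiOn P.y (Icc ⌊N * t⌋ ⌊N * t'⌋) := by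
  obtain ⟨s, ε, hε, η, hη, hb⟩ := sign_nhds (cont_deriv (smooth_y Λ)) htt hd
  obtain ⟨K, hK, N₁, hN₁, hest⟩ := hE Λ
  obtain ⟨N₂, hN₂, hlarge⟩ := exists_large (1 / ε + K * K / η)
  refine ⟨max N₁ N₂, lt_max_of_lt_left hN₁, fun N hN P hP => ?_⟩
  have hN1 : N₁ ≤ N := (le_max_left _ _).trans hN
  have hN2 : N₂ ≤ N := (le_max_right _ _).trans hN
  have hNpos : 0 < N := lt_of_lt_of_le hN₁ hN1
  have hNr : (0 : ℝ) < N := by exact_mod_cast hNpos
  have hL := hlarge N hN2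
  have hNε : 1 < N * ε := by
    have h1 : 1 / ε < N := lt_of_le_of_lt (le_add_of_nonneg_right (by positivity)) hL
    rwa [div_lt_iff₀ hε] at h1
  have hNK : K * K < N * η := by
    have h1 : K * K / η < N := lt_of_le_of_lt (le_add_of_nonneg_left (by positivity)) hL
    rwa [div_lt_iff₀ hη] at h1
  obtain ⟨hmu, hall⟩ := hest N hN1 P hP
  have hstep : ∀ i : ℤ, ⌊N * t⌋ ≤ i → i < ⌊N * t'⌋ → 0 < sn s * (P.y (i + 1) - P.y i) := by
    intro i h1 h2
    have h1' : (⌊(N : ℝ) * t⌋ : ℝ) ≤ i := by exact_mod_cast h1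
    have h2' : (i : ℝ) + 1 ≤ (⌊(N : ℝ) * t'⌋ : ℝ) := by exact_mod_cast h2
    have h3 := (floor_bounds hNpos t).2
    have h4 := (floor_bounds hNpos t').1
    set u₀ : ℝ := ((i : ℝ) + 1 / 2) / N with hu₀
    set u₁ : ℝ := (((i + 1 : ℤ) : ℝ) + 1 / 2) / N with hu₁
    have hdiff : u₁ - u₀ = 1 / N := by
      rw [hu₀, hu₁]
      push_cast
      field_simp
      ring
    have hlt : u₀ < u₁ := by
      have : 0 < 1 / (N : ℝ) := by positivity
      linarith
    obtain ⟨ξ, hξ, hξd⟩ := exists_deriv_eq_slope Λ.y hlt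
      ((diff_of (smooth_y Λ)).continuous.continuousOn)
      (fun x _ => ((diff_of (smooth_y Λ)) x).differentiableWithinAt)
    have hm : ξ ∈ Icc (t - ε) (t' + ε) := by
      constructor
      · refine le_trans ?_ hξ.1.le
        rw [hu₀, le_div_iff₀ hNr]
        nlinarith
      · refine le_trans hξ.2.le ?_
        rw [hu₁, div_le_iff₀ hNr]
        push_cast
        nlinarith
    have hbd := hb ξ hm
    have hslope : Λ.y u₁ - Λ.y u₀ = deriv Λ.y ξ * (1 / N) := by
      rw [hξd, hdiff]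
      field_simp
    have h2nd := (hall i).2.2.2.1
    have hx : ∀ j : ℤ, P.x j = x0 Λ N j := fun j => by rw [hP.1]
    have hx0 : P.x (i + 2) - 2 * P.x (i + 1) + P.x i =
        (x0 Λ N (i + 1 + 1) - x0 Λ N (i + 1)) - (x0 Λ N (i + 1) - x0 Λ N i) := by
      rw [hx, hx, hx]
      have : i + 1 + 1 = i + 2 := by ring
      rw [this]
      ring
    have hcast : (fun j : ℤ => x0 Λ N j) = fun j => x0 Λ N j := rfl
    have hy : P.y (i + 1) - P.y i = (Λ.y u₁ - Λ.y u₀) -
        mu Λ N * (P.x (i + 2) - 2 * P.x (i + 1) + P.x i) := by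
      rw [hP.2.1, hx0]
      unfold y1 y0
      rw [← hu₀, ← hu₁]
      ring
    have hprod : |mu Λ N * (P.x (i + 2) - 2 * P.x (i + 1) + P.x i)| ≤ K * (K / N ^ 2) := by
      rw [abs_mul]
      exact mul_le_mul hmu h2nd (abs_nonneg _) hK.le
    have hsm : K * (K / N ^ 2) < η * (1 / N) := by
      rw [show K * (K / (N : ℝ) ^ 2) = (K * K) * (1 / N) * (1 / N) by field_simp]
      rw [show η * (1 / (N : ℝ)) = (N * η) * (1 / N) * (1 / N) by field_simp]
      have : 0 < 1 / (N : ℝ) := by positivity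
      exact mul_lt_mul_of_pos_right (mul_lt_mul_of_pos_right hNK this) this
    have hmain : η * (1 / N) ≤ sn s * (Λ.y u₁ - Λ.y u₀) := by
      rw [hslope, ← mul_assoc]
      exact mul_le_mul_of_nonneg_right hbd (by positivity)
    rw [hy]
    rw [abs_le] at hprod
    rcases sn_or s with h | h
    · rw [h] at hmain ⊢
      linarith [hprod.1, hprod.2]
    · rw [h] at hmain ⊢
      linarith [hprod.1, hprod.2]
  cases s
  · right
    have h1 : StrictMonoOn (fun i => -P.y i) (Icc ⌊(N : ℝ) * t⌋ ⌊(N : ℝ) * t'⌋) := by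
      refine step_mono fun i hi hi' => ?_
      have := hstep i hi hi'
      rw [sn_false] at this
      linarith
    intro i hi j hj hij
    have := h1 hi hj hij
    simp only at this
    linarith
  · left
    refine step_mono fun i hi hi' => ?_
    have := hstep i hi hi'
    rw [sn_true] at this
    linarith

theorem ty_shift {N : ℕ} (P : Pg N) (p q j : ℤ) (h : Ty P p q) : Ty P (p + j * N) (q + j * N) := by
  have hx : ∀ i, P.x (i - j * N) = P.x i := fun i =>
    (Function.Periodic.int_mul (f := P.x) (c := (N : ℤ)) P.px j).sub_eq i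
  have hy : ∀ i, P.y (i - j * N) = P.y i := fun i =>
    (Function.Periodic.int_mul (f := P.y) (c := (N : ℤ)) P.py j).sub_eq i
  have hm : ∀ {a b i : ℤ}, i ∈ Icc (a + j * N) (b + j * N) → i - j * N ∈ Icc a b := by
    intro a b i hi
    exact ⟨by have := hi.1; linarith, by have := hi.2; linarith⟩
  have hq : q + j * N + 1 = (q + 1) + j * N := by ring
  rcases h with (h | h) | h | h
  · left; left
    rw [hq]
    intro i hi i' hi' hii
    rw [← hx i, ← hx i']
    exact h (hm hi) (hm hi') (by linarith)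
  · left; right
    rw [hq]
    intro i hi i' hi' hii
    rw [← hx i, ← hx i']
    exact h (hm hi) (hm hi') (by linarith)
  · right; left
    intro i hi i' hi' hii
    rw [← hy i, ← hy i']
    exact h (hm hi) (hm hi') (by linarith)
  · right; right
    intro i hi i' hi' hii
    rw [← hy i, ← hy i']
    exact h (hm hi) (hm hi') (by linarith)

end AR2

theorem t_AR2 : Stmt_AR2 := by
  intro hE Λ K θ s a b g X hA
  have hone : ∀ k : ℤ, ∃ N₀ : ℕ, 0 < N₀ ∧ ∀ N ≥ N₀, ∀ P : Pg N, IsPN Λ N P →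
      Ty P ⌊N * θ k⌋ ⌊N * θ (k + 1)⌋ := by
    intro k
    rcases hA.ty k with h | h
    · obtain ⟨N₀, hN₀, h1⟩ := AR2.case_x Λ (θ k) (θ (k + 1)) (hA.mono k).le h
      exact ⟨N₀, hN₀, fun N hN P hP => Or.inl (h1 N hN P hP)⟩
    · obtain ⟨N₀, hN₀, h1⟩ := AR2.case_y hE Λ (θ k) (θ (k + 1)) (hA.mono k).le h
      exact ⟨N₀, hN₀, fun N hN P hP => Or.inr (h1 N hN P hP)⟩
  choose N₀ hpos hN₀ using hone
  refine ⟨1 + ∑ r ∈ Finset.range K, N₀ r, by omega, fun N hN P hP k => ?_⟩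
  have hK := hA.d.Kpos
  have hKz : (0 : ℤ) < K := by exact_mod_cast hK
  set r : ℤ := k % K with hr
  set j : ℤ := k / K with hj
  have hk : k = r + j * K := by
    have := Int.emod_add_mul_ediv k K
    rw [hr, hj]
    linarith [mul_comm (K : ℤ) (k / K)]
  have hr0 : 0 ≤ r := Int.emod_nonneg _ (by omega)
  have hrK : r < K := Int.emod_lt_of_pos _ hKz
  have hθ : ∀ i : ℤ, θ (i + j * K) = θ i + j := by
    have h1 : ∀ n : ℕ, ∀ i : ℤ, θ (i + n * K) = θ i + n := by
      intro n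
      induction n with
      | zero => intro i; simp
      | succ n ih =>
        intro i
        have : i + ((n + 1 : ℕ) : ℤ) * K = (i + n * K) + K := by push_cast; ring
        rw [this, hA.pθ, ih]
        push_cast
        ring
    intro i
    rcases Int.eq_nat_or_neg j with ⟨n, hn | hn⟩
    · rw [hn]
      exact_mod_cast h1 n i
    · have h2 := h1 n (i + j * K)
      have h3 : i + j * K + n * K = i := by rw [hn]; ring
      rw [h3] at h2
      rw [h2, hn]
      push_cast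
      ring
  have hfl : ∀ i : ℤ, ⌊(N : ℝ) * θ (i + j * K)⌋ = ⌊(N : ℝ) * θ i⌋ + j * N := by
    intro i
    rw [hθ]
    have : (N : ℝ) * (θ i + j) = N * θ i + ((j * N : ℤ) : ℝ) := by
      push_cast
      ring
    rw [this, Int.floor_add_intCast]
  have hk1 : k + 1 = (r + 1) + j * K := by rw [hk]; ring
  rw [hk1, hk, hfl, hfl]
  apply AR2.ty_shift
  obtain ⟨n, hn⟩ := Int.eq_ofNat_of_zero_le hr0
  have hnK : n < K := by rw [hn] at hrK; exact_mod_cast hrK
  have hle : N₀ r ≤ N := by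
    have h1 : N₀ (n : ℤ) ≤ ∑ r ∈ Finset.range K, N₀ r :=
      Finset.single_le_sum (f := fun r : ℕ => N₀ (r : ℤ)) (fun _ _ => Nat.zero_le _)
        (Finset.mem_range.mpr hnK)
    rw [hn]
    omega
  exact hN₀ r N hle P hP

end LHE
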