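import Pool.Agent.LHE.Stmts2

/-!
# AR3: the arcs of the polygons are separated
-/

namespace LHE

open Set LG LH

namespace AR3

theorem cx (Λ : LC.LegKnot) : Continuous Λ.x :=
  continuous_fst.comp Λ.smooth.continuous

theorem cy (Λ : LC.LegKnot) : Continuous Λ.y :=
  (continuous_fst.comp continuous_snd).comp Λ.smooth.continuous

theorem cz (Λ : LC.LegKnot) : Continuous (zz Λ) :=
  (continuous_snd.comp continuous_snd).comp Λ.smooth.continuous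

theorem px (Λ : LC.LegKnot) (u : ℝ) : Λ.x (u + 1) = Λ.x u := by
  unfold LC.LegKnot.x
  rw [Λ.periodic]

theorem py (Λ : LC.LegKnot) (u : ℝ) : Λ.y (u + 1) = Λ.y u := by
  unfold LC.LegKnot.y
  rw [Λ.periodic]

theorem pz (Λ : LC.LegKnot) (u : ℝ) : zz Λ (u + 1) = zz Λ u := by
  unfold zz
  rw [Λ.periodic]

theorem cTL (Λ : LC.LegKnot) (t : ℝ) : Continuous fun u => TL Λ u t :=
  (cz Λ).add ((cy Λ).mul (continuous_const.sub (cx Λ)))

theorem pTL (Λ : LC.LegKnot) (t u : ℝ) : TL Λ (u + 1) t = TL Λ u t := by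
  unfold TL
  rw [px, py, pz]

/-- Uniform continuity of periodic functions. -/
theorem uc {f : ℝ → ℝ} (hc : Continuous f) (hp : ∀ u, f (u + 1) = f u) {ε : ℝ} (hε : 0 < ε) :
    ∃ δ > 0, ∀ u v, |u - v| < δ → |f u - f v| < ε := by
  have h := isCompact_Icc.uniformContinuousOn_of_continuous
    (hc.continuousOn (s := Icc (-1 : ℝ) 2))
  rw [Metric.uniformContinuousOn_iff] at h
  obtain ⟨δ, hδ, h⟩ := h ε hε
  refine ⟨min δ 1, lt_min hδ one_pos, fun u v huv => ?_⟩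
  have hp' : Function.Periodic f 1 := hp
  have hf : ∀ w : ℝ, f (w - (⌊u⌋ : ℝ)) = f w := by
    intro w
    have := hp'.sub_int_mul_eq (x := w) ⌊u⌋
    rwa [mul_one] at this
  have h1 := Int.floor_le u
  have h2 := Int.lt_floor_add_one u
  have h3 := abs_lt.1 (lt_of_lt_of_le huv (min_le_right _ _))
  have h4 := h (u - ⌊u⌋) ⟨by linarith, by linarith⟩ (v - ⌊u⌋)
    ⟨by linarith [h3.1, h3.2], by linarith [h3.1, h3.2]⟩ (by
      rw [Real.dist_eq]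
      have : u - ⌊u⌋ - (v - ⌊u⌋) = u - v := by ring
      rw [this]
      exact lt_of_lt_of_le huv (min_le_left _ _))
  rw [Real.dist_eq, hf, hf] at h4
  exact h4

/-- Boundedness of periodic functions. -/
theorem bd {f : ℝ → ℝ} (hc : Continuous f) (hp : ∀ u, f (u + 1) = f u) :
    ∃ M > 0, ∀ u, |f u| ≤ M := by
  have hp' : Function.Periodic f 1 := hp
  have h := hp'.isBounded_of_continuous one_ne_zero hc
  obtain ⟨M, hM⟩ := h.exists_norm_le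
  refine ⟨max M 1, lt_max_of_lt_right one_pos, fun u => ?_⟩
  exact (hM _ ⟨u, rfl⟩).trans (le_max_left _ _)

/-- The lines of the edges are close to the tangent lines. -/
theorem approx (hE : Stmt_EST) (Λ : LC.LegKnot) (t : ℝ) {ε : ℝ} (hε : 0 < ε) :
    ∃ N₀ : ℕ, 0 < N₀ ∧ ∀ N ≥ N₀, ∀ P : Pg N, IsPN Λ N P → ∀ i : ℤ,
      |P.l i t - (TL Λ (i / N) t - zz Λ 0)| < ε := by
  obtain ⟨K, hK, N₁, hN₁, h1⟩ := hE Λ
  obtain ⟨M, hM, h2⟩ := bd (f := fun u => t - Λ.x u) (continuous_const.sub (cx Λ))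
    (fun u => by simp only [px])
  have hδ : 0 < ε / (4 * (M + 1)) := by positivity
  obtain ⟨ρ, hρ, h3⟩ := uc (cy Λ) (py Λ) hδ
  obtain ⟨N₂, h4⟩ := exists_nat_gt (K / (ε / (4 * (M + 1))))
  obtain ⟨N₃, h5⟩ := exists_nat_gt (1 / ρ)
  refine ⟨N₁ + N₂ + N₃, by omega, fun N hN P hP i => ?_⟩
  have hN1 : N₁ ≤ N := by omega
  have hN0 : (0 : ℝ) < N := by
    have : 0 < N := by omega
    exact_mod_cast this
  have hN2 : (N₂ : ℝ) ≤ N := by
    have : N₂ ≤ N := by omega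
    exact_mod_cast this
  have hN3 : (N₃ : ℝ) ≤ N := by
    have : N₃ ≤ N := by omega
    exact_mod_cast this
  have e1 := (h1 N hN1 P hP).2 i
  have e2 : K / N < ε / (4 * (M + 1)) := by
    rw [div_lt_iff₀ hN0, mul_comm]
    have := lt_of_lt_of_le h4 hN2
    rwa [div_lt_iff₀ hδ] at this
  have e3 : 1 / (N : ℝ) < ρ := by
    rw [div_lt_iff₀ hN0, mul_comm]
    have := lt_of_lt_of_le h5 hN3
    rwa [div_lt_iff₀ hρ] at this
  have e4 : |Λ.y ((i + 1 / 2) / N) - Λ.y (i / N)| < ε / (4 * (M + 1)) := by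
    apply h3
    have : ((i : ℝ) + 1 / 2) / N - i / N = 1 / 2 * (1 / N) := by ring
    rw [this, abs_of_nonneg (by positivity)]
    have : 0 < 1 / (N : ℝ) := by positivity
    linarith
  have hx : P.x i = Λ.x (i / N) := by rw [hP.1]; rfl
  have e5 : |P.y i - Λ.y (i / N)| < 2 * (ε / (4 * (M + 1))) := by
    have : P.y i - Λ.y (i / N) = (P.y i - Λ.y ((i + 1 / 2) / N)) +
      (Λ.y ((i + 1 / 2) / N) - Λ.y (i / N)) := by ring
    rw [this]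
    have := abs_add_le (P.y i - Λ.y ((i + 1 / 2) / N)) (Λ.y ((i + 1 / 2) / N) - Λ.y (i / N))
    linarith [e1.1]
  have e6 : P.l i t - (TL Λ (i / N) t - zz Λ 0) = (P.z i - (zz Λ (i / N) - zz Λ 0)) +
      (P.y i - Λ.y (i / N)) * (t - Λ.x (i / N)) := by
    unfold Pg.l TL
    rw [hx]
    ring
  rw [e6]
  have e7 : |(P.y i - Λ.y (i / N)) * (t - Λ.x (i / N))| ≤ 2 * (ε / (4 * (M + 1))) * M := by
    rw [abs_mul]
    exact mul_le_mul e5.le (h2 _) (abs_nonneg _) (by positivity)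
  have e8 := abs_add_le (P.z i - (zz Λ (i / N) - zz Λ 0))
    ((P.y i - Λ.y (i / N)) * (t - Λ.x (i / N)))
  have e9 : ε / (4 * (M + 1)) * (4 * (M + 1)) = ε := by
    field_simp
  nlinarith [e1.2.1]

/-- The parameters `i / N` are close to the arc. -/
theorem arc (Λ : LC.LegKnot) (t : ℝ) {ε : ℝ} (hε : 0 < ε) :
    ∃ N₀ : ℕ, 0 < N₀ ∧ ∀ N : ℕ, N₀ ≤ N → ∀ p q : ℝ, p ≤ q → ∀ i : ℤ, ⌊N * p⌋ ≤ i → i ≤ ⌊N * q⌋ →
      ∃ u ∈ Icc p q, |TL Λ u t - TL Λ (i / N) t| < ε := by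
  obtain ⟨ρ, hρ, h3⟩ := uc (cTL Λ t) (pTL Λ t) hε
  obtain ⟨N₃, h5⟩ := exists_nat_gt (1 / ρ)
  refine ⟨N₃ + 1, by omega, fun N hN p q hpq i h1 h2 => ?_⟩
  have hN0 : (0 : ℝ) < N := by
    have : 0 < N := by omega
    exact_mod_cast this
  have hN3 : (N₃ : ℝ) ≤ N := by
    have : N₃ ≤ N := by omega
    exact_mod_cast this
  have e3 : 1 / (N : ℝ) < ρ := by
    rw [div_lt_iff₀ hN0, mul_comm]
    have := lt_of_lt_of_le h5 hN3
    rwa [div_lt_iff₀ hρ] at this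
  have e4 : (i : ℝ) / N ≤ q := by
    rw [div_le_iff₀ hN0, mul_comm]
    exact Int.le_floor.1 h2
  have e5 : p - 1 / N < (i : ℝ) / N := by
    rw [lt_div_iff₀ hN0, sub_mul, one_div, inv_mul_cancel₀ hN0.ne', mul_comm]
    have := Int.lt_floor_add_one ((N : ℝ) * p)
    have h6 : ((⌊(N : ℝ) * p⌋ : ℤ) : ℝ) ≤ i := by exact_mod_cast h1
    linarith
  refine ⟨max p (i / N), ⟨le_max_left _ _, max_le hpq e4⟩, h3 _ _ ?_⟩
  rcases le_total p ((i : ℝ) / N) with h | h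
  · rw [max_eq_right h, sub_self, abs_zero]
    exact hρ
  · rw [max_eq_left h, abs_of_nonneg (by linarith)]
    linarith

/-- A margin for separated arcs. -/
theorem margin (Λ : LC.LegKnot) (t p q p' q' : ℝ)
    (h : ∀ u ∈ Icc p q, ∀ v ∈ Icc p' q', TL Λ u t < TL Λ v t) :
    ∃ γ > 0, ∀ u ∈ Icc p q, ∀ v ∈ Icc p' q', γ ≤ TL Λ v t - TL Λ u t := by
  have hc : IsCompact (Icc p q ×ˢ Icc p' q') := isCompact_Icc.prod isCompact_Icc
  have hf : Continuous fun w : ℝ × ℝ => TL Λ w.2 t - TL Λ w.1 t :=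
    ((cTL Λ t).comp continuous_snd).sub ((cTL Λ t).comp continuous_fst)
  obtain ⟨γ, h1, h2⟩ := hc.exists_forall_le' hf.continuousOn (a := 0)
    (fun w hw => sub_pos.2 (h w.1 hw.1 w.2 hw.2))
  exact ⟨γ, h1, fun u hu v hv => h2 (u, v) ⟨hu, hv⟩⟩

/-- Separation of two arcs at one line, in one order. -/
theorem half (hE : Stmt_EST) (Λ : LC.LegKnot) (t p q p' q' : ℝ) (hpq : p ≤ q) (hpq' : p' ≤ q')
    (h : ∀ u ∈ Icc p q, ∀ v ∈ Icc p' q', TL Λ u t < TL Λ v t) :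
    ∃ N₀ : ℕ, 0 < N₀ ∧ ∀ N ≥ N₀, ∀ P : Pg N, IsPN Λ N P →
      ∀ i ∈ Icc ⌊N * p⌋ ⌊N * q⌋, ∀ j ∈ Icc ⌊N * p'⌋ ⌊N * q'⌋, P.l i t < P.l j t := by
  obtain ⟨γ, hγ, h1⟩ := margin Λ t p q p' q' h
  have hγ' : 0 < γ / 5 := by positivity
  obtain ⟨N₁, hN₁, h2⟩ := approx hE Λ t hγ'
  obtain ⟨N₂, hN₂, h3⟩ := arc Λ t hγ'
  refine ⟨N₁ + N₂, by omega, fun N hN P hP i hi j hj => ?_⟩
  obtain ⟨u, hu, e1⟩ := h3 N (by omega) p q hpq i hi.1 hi.2
  obtain ⟨v, hv, e2⟩ := h3 N (by omega) p' q' hpq' j hj.1 hj.2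
  have e3 := h2 N (by omega) P hP i
  have e4 := h2 N (by omega) P hP j
  have e5 := h1 u hu v hv
  rw [abs_lt] at e1 e2 e3 e4
  linarith [e1.1, e1.2, e2.1, e2.2, e3.1, e3.2, e4.1, e4.2]

/-- Separation of two arcs at one line. -/
theorem one (hE : Stmt_EST) (Λ : LC.LegKnot) (t p q p' q' : ℝ) (hpq : p ≤ q) (hpq' : p' ≤ q')
    (h : (∀ u ∈ Icc p q, ∀ v ∈ Icc p' q', TL Λ u t < TL Λ v t) ∨
      ∀ u ∈ Icc p q, ∀ v ∈ Icc p' q', TL Λ v t < TL Λ u t) :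
    ∃ N₀ : ℕ, 0 < N₀ ∧ ∀ N ≥ N₀, ∀ P : Pg N, IsPN Λ N P →
      Sep P ⌊N * p⌋ ⌊N * q⌋ ⌊N * p'⌋ ⌊N * q'⌋ t := by
  rcases h with h | h
  · obtain ⟨N₀, h1, h2⟩ := half hE Λ t p q p' q' hpq hpq' h
    exact ⟨N₀, h1, fun N hN P hP => Or.inl (h2 N hN P hP)⟩
  · obtain ⟨N₀, h1, h2⟩ := half hE Λ t p' q' p q hpq' hpq (fun u hu v hv => h v hv u hu)
    exact ⟨N₀, h1, fun N hN P hP => Or.inr fun i hi j hj => h2 N hN P hP j hj i hi⟩

/-- Periodicity with integer multiples. -/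
theorem per {K : ℕ} {f : ℤ → ℝ} (h : ∀ k, f (k + K) = f k) (k j : ℤ) : f (k + j * K) = f k :=
  (Function.Periodic.int_mul (h : Function.Periodic f (K : ℤ)) j) k

theorem pth {K : ℕ} (hK : 0 < K) {θ : ℤ → ℝ} (h : ∀ k, θ (k + K) = θ k + 1) (k j : ℤ) :
    θ (k + j * K) = θ k + j := by
  have hK' : (K : ℝ) ≠ 0 := by exact_mod_cast hK.ne'
  have h1 := per (K := K) (f := fun k : ℤ => θ k - k / K) (fun k => by
    rw [h]
    push_cast
    field_simp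
    ring) k j
  push_cast at h1
  have h2 : ((k : ℝ) + j * K) / K = k / K + j := by
    field_simp
  rw [h2] at h1
  linarith

theorem pl {N : ℕ} (P : Pg N) (i j : ℤ) (t : ℝ) : P.l (i + j * N) t = P.l i t := by
  unfold Pg.l
  rw [per P.px, per P.py, per P.pz]

theorem sep_shift {N : ℕ} (P : Pg N) {p q p' q' : ℤ} {t : ℝ} (j j' : ℤ)
    (h : Sep P p q p' q' t) :
    Sep P (p + j * N) (q + j * N) (p' + j' * N) (q' + j' * N) t := by
  have e : ∀ i c : ℤ, P.l (i - c * N) t = P.l i t := by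
    intro i c
    have := pl P (i - c * N) c t
    rw [sub_add_cancel] at this
    exact this.symm
  rcases h with h | h
  · left
    intro i hi i' hi'
    have := h (i - j * N) ⟨by linarith [hi.1], by linarith [hi.2]⟩ (i' - j' * N)
      ⟨by linarith [hi'.1], by linarith [hi'.2]⟩
    rwa [e, e] at this
  · right
    intro i hi i' hi'
    have := h (i - j * N) ⟨by linarith [hi.1], by linarith [hi.2]⟩ (i' - j' * N)
      ⟨by linarith [hi'.1], by linarith [hi'.2]⟩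
    rwa [e, e] at this

theorem fl {K : ℕ} (hK : 0 < K) {θ : ℤ → ℝ} (h : ∀ k, θ (k + K) = θ k + 1) (N : ℕ) (k j : ℤ) :
    ⌊(N : ℝ) * θ (k + j * K)⌋ = ⌊(N : ℝ) * θ k⌋ + j * N := by
  rw [pth hK h, mul_add]
  have : (N : ℝ) * (j : ℝ) = ((j * N : ℤ) : ℝ) := by push_cast; ring
  rw [this, Int.floor_add_intCast]

theorem red {K : ℕ} (hK : 0 < K) (k : ℤ) : ∃ m ∈ Finset.range K, ∃ j : ℤ, k = m + j * K := by
  have hK' : (0 : ℤ) < K := by exact_mod_cast hK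
  refine ⟨(k % K).toNat, ?_, k / K, ?_⟩
  · rw [Finset.mem_range]
    have h1 := Int.emod_lt_of_pos k hK'
    have h2 := Int.emod_nonneg k hK'.ne'
    omega
  · rw [Int.toNat_of_nonneg (Int.emod_nonneg k hK'.ne')]
    have := Int.emod_add_mul_ediv k K
    linarith

end AR3

theorem t_AR3 : Stmt_AR3 := by
  intro hE Λ K θ s a b g X hA
  have hex : ∀ k l : ℤ, ∃ N₀ : ℕ, 0 < N₀ ∧ ∀ N ≥ N₀, ∀ P : Pg N, IsPN Λ N P →
      ¬ Cg K k l → a k = a l → ∀ t, t = a k ∨ t = b k →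
        Sep P ⌊N * θ k⌋ ⌊N * θ (k + 1)⌋ ⌊N * θ l⌋ ⌊N * θ (l + 1)⌋ t := by
    intro k l
    by_cases hc : ¬ Cg K k l ∧ a k = a l
    · obtain ⟨N₁, h1, h2⟩ := AR3.one hE Λ (a k) (θ k) (θ (k + 1)) (θ l) (θ (l + 1))
        (hA.mono k).le (hA.mono l).le (hA.sep k l hc.1 hc.2 (a k) (Or.inl rfl))
      obtain ⟨N₂, h3, h4⟩ := AR3.one hE Λ (b k) (θ k) (θ (k + 1)) (θ l) (θ (l + 1))
        (hA.mono k).le (hA.mono l).le (hA.sep k l hc.1 hc.2 (b k) (Or.inr rfl))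
      refine ⟨N₁ + N₂, by omega, fun N hN P hP _ _ t ht => ?_⟩
      rcases ht with rfl | rfl
      · exact h2 N (by omega) P hP
      · exact h4 N (by omega) P hP
    · exact ⟨1, one_pos, fun N _ P _ h1 h2 => absurd ⟨h1, h2⟩ hc⟩
  choose n hn0 hn using hex
  have hK := hA.d.Kpos
  have hle : ∀ k ∈ Finset.range K, ∀ l ∈ Finset.range K,
      n k l ≤ ∑ k ∈ Finset.range K, ∑ l ∈ Finset.range K, n (k : ℤ) (l : ℤ) := by
    intro k hk l hl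
    refine (Finset.single_le_sum (f := fun l : ℕ => n (k : ℤ) (l : ℤ))
      (fun _ _ => Nat.zero_le _) hl).trans ?_
    exact Finset.single_le_sum (f := fun k : ℕ => ∑ l ∈ Finset.range K, n (k : ℤ) (l : ℤ))
      (fun _ _ => Nat.zero_le _) hk
  refine ⟨∑ k ∈ Finset.range K, ∑ l ∈ Finset.range K, n (k : ℤ) (l : ℤ), ?_, ?_⟩
  · have h0 := hle 0 (Finset.mem_range.2 hK) 0 (Finset.mem_range.2 hK)
    exact lt_of_lt_of_le (hn0 _ _) h0
  · intro N hN P hP k l hkl hab t ht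
    obtain ⟨k₀, hk₀, j, rfl⟩ := AR3.red hK k
    obtain ⟨l₀, hl₀, j', rfl⟩ := AR3.red hK l
    have e1 : ((k₀ : ℤ) + j * K) + 1 = ((k₀ : ℤ) + 1) + j * K := by ring
    have e2 : ((l₀ : ℤ) + j' * K) + 1 = ((l₀ : ℤ) + 1) + j' * K := by ring
    rw [AR3.per hA.d.pa, AR3.per hA.d.pa] at hab
    rw [AR3.per hA.d.pa, AR3.per hA.d.pb] at ht
    have hkl' : ¬ Cg K (k₀ : ℤ) (l₀ : ℤ) := by
      rintro ⟨i, hi⟩
      apply hkl
      refine ⟨i + j' - j, ?_⟩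
      rw [hi]
      ring
    have h1 := hn (k₀ : ℤ) (l₀ : ℤ) N ((hle k₀ hk₀ l₀ hl₀).trans hN) P hP hkl' hab t ht
    rw [e1, e2, AR3.fl hK hA.pθ, AR3.fl hK hA.pθ, AR3.fl hK hA.pθ, AR3.fl hK hA.pθ]
    exact AR3.sep_shift P j j' h1

end LHE
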