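import Pool.Agent.LHE.Stmts2

/-!
# Heights of the points of the walk of arcs
-/

namespace LHE

open Set LG LH

namespace AR4

theorem shift (f : ℝ → ℝ) (hp : ∀ u, f (u + 1) = f u) (u : ℝ) (k : ℤ) : f (u - k) = f u := by
  have hp' : Function.Periodic f 1 := hp
  have h := hp'.int_mul k (u - k)
  rw [mul_one, sub_add_cancel] at h
  exact h.symm

theorem uc (f : ℝ → ℝ) (hf : Continuous f) (hp : ∀ u, f (u + 1) = f u) (η : ℝ) (hη : 0 < η) :
    ∃ δ > 0, ∀ u v, |u - v| < δ → |f u - f v| < η := by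
  have hu : UniformContinuousOn f (Icc (-1) 2) :=
    isCompact_Icc.uniformContinuousOn_of_continuous hf.continuousOn
  obtain ⟨δ, hδ, h⟩ := Metric.uniformContinuousOn_iff.1 hu η hη
  refine ⟨min δ 1, lt_min hδ one_pos, fun u v huv => ?_⟩
  have h1 := Int.floor_le u
  have h2 := Int.lt_floor_add_one u
  have h3 := lt_of_lt_of_le huv (min_le_left _ _)
  have h4 := abs_lt.1 (lt_of_lt_of_le huv (min_le_right _ _))
  have h5 := h (u - ⌊u⌋) ⟨by linarith, by linarith⟩ (v - ⌊u⌋)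
    ⟨by linarith [h4.2], by linarith [h4.1]⟩ (by
      rw [Real.dist_eq, sub_sub_sub_cancel_right]; exact h3)
  rw [Real.dist_eq, shift f hp, shift f hp] at h5
  exact h5

theorem xcont (Λ : LC.LegKnot) : Continuous Λ.x := continuous_fst.comp Λ.smooth.continuous

theorem ycont (Λ : LC.LegKnot) : Continuous Λ.y :=
  continuous_fst.comp (continuous_snd.comp Λ.smooth.continuous)

theorem zcont (Λ : LC.LegKnot) : Continuous (zz Λ) :=
  continuous_snd.comp (continuous_snd.comp Λ.smooth.continuous)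

theorem xper (Λ : LC.LegKnot) (u : ℝ) : Λ.x (u + 1) = Λ.x u := by
  unfold LC.LegKnot.x
  rw [Λ.periodic u]

theorem yper (Λ : LC.LegKnot) (u : ℝ) : Λ.y (u + 1) = Λ.y u := by
  unfold LC.LegKnot.y
  rw [Λ.periodic u]

theorem zper (Λ : LC.LegKnot) (u : ℝ) : zz Λ (u + 1) = zz Λ u := by
  unfold zz
  rw [Λ.periodic u]

theorem main (hE : Stmt_EST) (Λ : LC.LegKnot) (D : ℝ) (hD : 0 ≤ D) (ε : ℝ) (hε : 0 < ε) :
    ∃ N₀ : ℕ, 0 < N₀ ∧ ∀ N ≥ N₀, ∀ P : Pg N, IsPN Λ N P → ∀ θ t : ℝ, |t - Λ.x θ| ≤ D →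
      |P.l ⌊N * θ⌋ t - (TL Λ θ t - zz Λ 0)| < ε := by
  obtain ⟨K, hK, N₁, hN₁, hEst⟩ := hE Λ
  have hpos : 0 < 3 * (1 + K + D) := by positivity
  set η : ℝ := ε / (3 * (1 + K + D)) with hη
  have hη0 : 0 < η := div_pos hε hpos
  obtain ⟨δ₁, hδ₁, hx⟩ := uc Λ.x (xcont Λ) (xper Λ) η hη0
  obtain ⟨δ₂, hδ₂, hy⟩ := uc Λ.y (ycont Λ) (yper Λ) η hη0
  obtain ⟨δ₃, hδ₃, hz⟩ := uc (zz Λ) (zcont Λ) (zper Λ) η hη0
  obtain ⟨n₁, hn₁⟩ := exists_nat_gt (1 / δ₁)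
  obtain ⟨n₂, hn₂⟩ := exists_nat_gt (1 / δ₂)
  obtain ⟨n₃, hn₃⟩ := exists_nat_gt (1 / δ₃)
  obtain ⟨n₄, hn₄⟩ := exists_nat_gt (3 * (K * (1 + D)) / ε)
  refine ⟨N₁ + n₁ + n₂ + n₃ + n₄, by omega, fun N hN P hP θ t ht => ?_⟩
  have hNN₁ : N₁ ≤ N := by omega
  have hN0 : (0 : ℝ) < N := by
    have : 0 < N := by omega
    exact_mod_cast this
  have inv_lt : ∀ (n : ℕ) (δ : ℝ), 0 < δ → 1 / δ < n → n ≤ N → 1 / (N : ℝ) < δ := by
    intro n δ hδ h1 h2
    have h3 : 1 / δ < N := lt_of_lt_of_le h1 (by exact_mod_cast h2)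
    rw [div_lt_iff₀ hδ] at h3
    rw [div_lt_iff₀ hN0]
    linarith
  have i1 := inv_lt n₁ δ₁ hδ₁ hn₁ (by omega)
  have i2 := inv_lt n₂ δ₂ hδ₂ hn₂ (by omega)
  have i3 := inv_lt n₃ δ₃ hδ₃ hn₃ (by omega)
  have i4 : K * (1 + D) / N ≤ ε / 3 := by
    have h3 : 3 * (K * (1 + D)) / ε < N :=
      lt_of_lt_of_le hn₄ (by exact_mod_cast (show n₄ ≤ N by omega))
    rw [div_lt_iff₀ hε] at h3
    rw [div_le_iff₀ hN0]
    linarith
  obtain ⟨-, hall⟩ := hEst N hNN₁ P hP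
  obtain ⟨h1, h2, -, -, h5⟩ := hall ⌊(N : ℝ) * θ⌋
  have f1 := Int.floor_le ((N : ℝ) * θ)
  have f2 := Int.lt_floor_add_one ((N : ℝ) * θ)
  generalize ⌊(N : ℝ) * θ⌋ = e at *
  have g1 : (e : ℝ) / N ≤ θ := by
    rw [div_le_iff₀ hN0]; linarith
  have g2 : θ < (e : ℝ) / N + 1 / N := by
    rw [← add_div, lt_div_iff₀ hN0]; linarith
  have hmid : ((e : ℝ) + 1 / 2) / N = (e : ℝ) / N + 1 / N / 2 := by
    rw [add_div]; ring
  have hinv : 0 < 1 / (N : ℝ) := by positivity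
  have a1 : |Λ.x θ - Λ.x ((e : ℝ) / N)| < η := hx _ _ (by
    rw [abs_lt]; constructor <;> linarith)
  have a2 : |Λ.y (((e : ℝ) + 1 / 2) / N) - Λ.y θ| < η := hy _ _ (by
    rw [hmid, abs_lt]; constructor <;> linarith)
  have a3 : |zz Λ ((e : ℝ) / N) - zz Λ θ| < η := hz _ _ (by
    rw [abs_lt]; constructor <;> linarith)
  have hPx : P.x e = Λ.x ((e : ℝ) / N) := by rw [hP.1]; rfl
  have key : P.l e t - (TL Λ θ t - zz Λ 0) =
      (P.z e - (zz Λ ((e : ℝ) / N) - zz Λ 0)) + (zz Λ ((e : ℝ) / N) - zz Λ θ) +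
        P.y e * (Λ.x θ - Λ.x ((e : ℝ) / N)) +
        ((P.y e - Λ.y (((e : ℝ) + 1 / 2) / N)) + (Λ.y (((e : ℝ) + 1 / 2) / N) - Λ.y θ)) *
          (t - Λ.x θ) := by
    unfold Pg.l TL
    rw [hPx]
    ring
  have b3 : |P.y e * (Λ.x θ - Λ.x ((e : ℝ) / N))| ≤ K * η := by
    rw [abs_mul]
    exact mul_le_mul h5 a1.le (abs_nonneg _) hK.le
  have b4 : |((P.y e - Λ.y (((e : ℝ) + 1 / 2) / N)) + (Λ.y (((e : ℝ) + 1 / 2) / N) - Λ.y θ)) *
      (t - Λ.x θ)| ≤ (K / N + η) * D := by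
    rw [abs_mul]
    refine mul_le_mul ((abs_add_le _ _).trans (add_le_add h1 a2.le)) ht (abs_nonneg _) ?_
    positivity
  have hsum : η * (1 + K + D) = ε / 3 := by
    rw [hη]
    field_simp
  have hKD : K / N + K / N * D = K * (1 + D) / N := by ring
  rw [key]
  refine lt_of_le_of_lt (abs_add_le _ _) ?_
  refine lt_of_le_of_lt (add_le_add ((abs_add_le _ _).trans (add_le_add (abs_add_le _ _) b3)) b4) ?_
  nlinarith

end AR4

theorem t_AR4 : Stmt_AR4 := by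
  intro hE Λ K θ s a b g X hA ε hε
  obtain ⟨N₀, hN₀, h⟩ := AR4.main hE Λ (∑ t ∈ X, 2 * |t|)
    (Finset.sum_nonneg fun t _ => by positivity) ε hε
  refine ⟨N₀, hN₀, fun N hN P hP k => ?_⟩
  have hX : ∀ t ∈ X, ∀ t' ∈ X, |t - t'| ≤ ∑ t ∈ X, 2 * |t| := by
    intro t ht t' ht'
    by_cases htt : t = t'
    · rw [htt, sub_self, abs_zero]
      exact Finset.sum_nonneg fun t _ => by positivity
    · have h1 := Finset.single_le_sum (f := fun t : ℝ => |t|) (fun i _ => abs_nonneg i) ht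
      have h2 := Finset.single_le_sum (f := fun t : ℝ => |t|) (fun i _ => abs_nonneg i) ht'
      rw [← Finset.mul_sum]
      have h3 := abs_sub t t'
      linarith [abs_sub t t']
  obtain ⟨haX, hbX, -, -⟩ := hA.d.adj k
  have hs : s k ∈ X := by
    rw [hA.d.st k]
    split
    · exact haX
    · exact hbX
  have ho : oL a b g k ∈ X := by
    unfold oL
    split
    · exact hbX
    · exact haX
  constructor
  · have h1 := h N hN P hP (θ k) (s k) (by rw [hA.hit k, sub_self, abs_zero]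
                                           exact Finset.sum_nonneg fun t _ => by positivity)
    have h2 : TL Λ (θ k) (s k) = zz Λ (θ k) := by
      unfold TL
      rw [hA.hit k, sub_self, mul_zero, add_zero]
    rwa [h2] at h1
  · exact h N hN P hP (θ k) (oL a b g k) (by rw [hA.hit k]; exact hX _ ho _ hs)

end LHE
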