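import Pool.Agent.LHE.Stmts3

/-!
# The combinatorial data of the arcs of a lattice path
-/

namespace LHE

open Set LG LH

namespace ARD

/-- The start of the arc `k`. -/
theorem st_code (m : ℤ → ℤ) (k : ℤ) :
    cs m k = if gd m k = true then ca m k else ca m k + 1 := by
  unfold cs gd ca
  rcases (show k % 3 = 0 ∨ k % 3 = 1 ∨ k % 3 = 2 by omega) with h | h | h
  · rw [if_pos h, if_neg (show ¬ k % 3 = 2 by omega), if_pos h]
    by_cases h1 : sg m (k / 3 - 1) = 1
    · rw [if_pos h1, if_pos (decide_eq_true h1), if_pos h1]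
    · rw [if_neg h1, if_neg (fun h' => h1 (of_decide_eq_true h')), if_neg h1]
      ring
  · rw [if_neg (show ¬ k % 3 = 0 by omega), if_pos h, if_neg (show ¬ k % 3 = 2 by omega),
      if_neg (show ¬ k % 3 = 0 by omega), if_pos h]
    by_cases h1 : sg m (k / 3 - 1) = 1
    · rw [if_pos h1, if_pos (decide_eq_true h1)]
    · rw [if_neg h1, if_neg (fun h' => h1 (of_decide_eq_true h'))]
  · rw [if_neg (show ¬ k % 3 = 0 by omega), if_neg (show ¬ k % 3 = 1 by omega), if_pos h,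
      if_neg (show ¬ k % 3 = 0 by omega), if_neg (show ¬ k % 3 = 1 by omega)]
    by_cases h1 : sg m (k / 3) = 1
    · rw [if_pos h1, if_pos (decide_eq_true h1), if_pos h1]
    · rw [if_neg h1, if_neg (fun h' => h1 (of_decide_eq_true h')), if_neg h1]
      ring

/-- The end of the arc `k`. -/
theorem en_code (m : ℤ → ℤ) (dm : ∀ i, m (i + 1) = m i + 1 ∨ m (i + 1) = m i - 1) (k : ℤ) :
    cs m (k + 1) = if gd m (k + 1) = true then ca m k + 1 else ca m k := by
  unfold cs gd ca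
  rcases (show k % 3 = 0 ∨ k % 3 = 1 ∨ k % 3 = 2 by omega) with h | h | h
  · have e : (k + 1) / 3 = k / 3 := by omega
    rw [if_neg (show ¬ (k + 1) % 3 = 0 by omega), if_pos (show (k + 1) % 3 = 1 by omega),
      if_neg (show ¬ (k + 1) % 3 = 2 by omega), if_pos h, e]
    by_cases h1 : sg m (k / 3 - 1) = 1
    · rw [if_pos h1, if_pos (decide_eq_true h1), if_pos h1]
      ring
    · rw [if_neg h1, if_neg (fun h' => h1 (of_decide_eq_true h')), if_neg h1]
  · have e : (k + 1) / 3 = k / 3 := by omega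
    rw [if_neg (show ¬ (k + 1) % 3 = 0 by omega), if_neg (show ¬ (k + 1) % 3 = 1 by omega),
      if_pos (show (k + 1) % 3 = 2 by omega), if_neg (show ¬ k % 3 = 0 by omega), if_pos h, e]
    by_cases h1 : sg m (k / 3) = 1
    · rw [if_pos h1, if_pos (decide_eq_true h1)]
    · rw [if_neg h1, if_neg (fun h' => h1 (of_decide_eq_true h'))]
  · have e : (k + 1) / 3 = k / 3 + 1 := by omega
    rw [if_pos (show (k + 1) % 3 = 0 by omega), if_neg (show ¬ (k + 1) % 3 = 2 by omega),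
      if_neg (show ¬ k % 3 = 0 by omega), if_neg (show ¬ k % 3 = 1 by omega), e,
      add_sub_cancel_right]
    by_cases h1 : sg m (k / 3) = 1
    · rw [if_pos h1, if_pos (decide_eq_true h1), if_pos h1]
      unfold sg at h1
      omega
    · rw [if_neg h1, if_neg (fun h' => h1 (of_decide_eq_true h')), if_neg h1]
      unfold sg at h1
      rcases dm (k / 3) with h2 | h2 <;> omega

theorem sg_per {L : ℕ} {m : ℤ → ℤ} (pm : ∀ i, m (i + L) = m i) (i : ℤ) :
    sg m (i + L) = sg m i := by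
  unfold sg
  rw [pm i, show i + (L : ℤ) + 1 = i + 1 + L by ring, pm (i + 1)]

theorem kdiv (L : ℕ) (k : ℤ) : (k + ((3 * L : ℕ) : ℤ)) / 3 = k / 3 + L := by
  push_cast
  omega

theorem kmod (L : ℕ) (k : ℤ) : (k + ((3 * L : ℕ) : ℤ)) % 3 = k % 3 := by
  push_cast
  omega

theorem cs_per {L : ℕ} {m : ℤ → ℤ} (pm : ∀ i, m (i + L) = m i) (k : ℤ) :
    cs m (k + ((3 * L : ℕ) : ℤ)) = cs m k := by
  unfold cs
  rw [kdiv, kmod, pm, show k / 3 + (L : ℤ) - 1 = k / 3 - 1 + L by ring, sg_per pm, sg_per pm]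

theorem ca_per {L : ℕ} {m : ℤ → ℤ} (pm : ∀ i, m (i + L) = m i) (k : ℤ) :
    ca m (k + ((3 * L : ℕ) : ℤ)) = ca m k := by
  unfold ca
  rw [kdiv, kmod, pm, show k / 3 + (L : ℤ) - 1 = k / 3 - 1 + L by ring, sg_per pm, sg_per pm]

theorem gd_per {L : ℕ} {m : ℤ → ℤ} (pm : ∀ i, m (i + L) = m i) (k : ℤ) :
    gd m (k + ((3 * L : ℕ) : ℤ)) = gd m k := by
  unfold gd
  rw [kdiv, kmod, show k / 3 + (L : ℤ) - 1 = k / 3 - 1 + L by ring, sg_per pm, sg_per pm]

theorem ca_rng {m : ℤ → ℤ} {lo hi : ℤ} (h : Rng m lo hi) (k : ℤ) :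
    lo ≤ ca m k ∧ ca m k + 1 ≤ hi := by
  have h1 := h (k / 3)
  unfold ca
  split_ifs <;> omega

end ARD

theorem t_ARD : Stmt_ARD := by
  intro hN X₀ w ε L m z lo hi hX hw hwX hD hR
  obtain ⟨-, hadj⟩ := hN X₀ w ε hX hw hwX
  refine ⟨by have := hD.Lpos; omega, fun k => ?_, fun k => ?_, fun k => ?_, fun k => ?_,
    fun k => ?_, fun k => ?_, fun k => ?_, ⟨0, ?_⟩⟩
  · unfold sR
    rw [ARD.cs_per hD.pm]
  · unfold aR
    rw [ARD.ca_per hD.pm]
  · unfold bR
    rw [ARD.ca_per hD.pm]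
  · exact ARD.gd_per hD.pm k
  · obtain ⟨h1, h2⟩ := ARD.ca_rng hR k
    exact (hadj lo hi _ _).2 ⟨ca m k, h1, h2, rfl, rfl⟩
  · unfold sR aR bR
    rw [ARD.st_code m k]
    by_cases h : gd m k = true
    · rw [if_pos h, if_pos h]
    · rw [if_neg h, if_neg h]
  · unfold sR aR bR
    rw [ARD.en_code m hD.dm k]
    by_cases h : gd m (k + 1) = true
    · rw [if_pos h, if_pos h]
    · rw [if_neg h, if_neg h]
  · unfold gd
    simp

end LHE
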