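import Pool.Agent.LHE.Stmts1

/-!
# CRE: an edge which crosses a line
-/

namespace LHE

open Set LG LH

namespace CRE

variable {N : ℕ}

/-- No vertex of the polygon is on a line of a good set. -/
theorem av {P : Pg N} {X : Finset ℝ} (h : GoodX P X) {t : ℝ} (ht : t ∈ X) (i : ℤ) :
    P.x i ≠ t := by
  obtain ⟨b, hb, hbi⟩ := h.hi
  by_cases htb : b ≤ t
  · exact ne_of_lt (lt_of_lt_of_le (hbi i) htb)
  · push Not at htb
    have hne : (X.filter (fun u => t < u)).Nonempty :=
      ⟨b, Finset.mem_filter.mpr ⟨hb, htb⟩⟩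
    have hm := Finset.min'_mem _ hne
    rw [Finset.mem_filter] at hm
    have hadj : AdjX X t ((X.filter (fun u => t < u)).min' hne) := by
      refine ⟨ht, hm.1, hm.2, ?_⟩
      rintro u hu ⟨h1, h2⟩
      have := Finset.min'_le _ u (Finset.mem_filter.mpr ⟨hu, h1⟩)
      exact absurd h2 (not_lt.mpr this)
    exact ((h.gd _ _ hadj).av i).1

/-- Discrete intermediate values. -/
theorem aux {P : Pg N} {X : Finset ℝ} (h : GoodX P X) (s : Bool) {t : ℝ} (ht : t ∈ X) (A : ℤ)
    (hA : sn s * P.x A < sn s * t) :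
    ∀ n : ℕ, sn s * t < sn s * P.x (A + n) → ∃ e ∈ Ico A (A + n), Crs P s t e := by
  intro n
  induction n with
  | zero =>
    intro h0
    simp only [Nat.cast_zero, add_zero] at h0
    exact absurd (lt_trans hA h0) (lt_irrefl _)
  | succ n ih =>
    intro hn
    rcases lt_trichotomy (sn s * t) (sn s * P.x (A + n)) with h1 | h1 | h1
    · obtain ⟨e, he, hc⟩ := ih h1
      refine ⟨e, ⟨he.1, lt_of_lt_of_le he.2 ?_⟩, hc⟩
      push_cast
      omega
    · exfalso
      have h2 : t = P.x (A + n) := by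
        have h3 : sn s * (sn s * t) = sn s * (sn s * P.x (A + n)) := by rw [h1]
        rw [← mul_assoc, ← mul_assoc, sn_sq, one_mul, one_mul] at h3
        exact h3
      exact av h ht (A + n) h2.symm
    · refine ⟨A + n, ⟨by omega, by push_cast; omega⟩, h1, ?_⟩
      have h2 : A + (n : ℤ) + 1 = A + ((n + 1 : ℕ) : ℤ) := by push_cast; ring
      rw [h2]
      exact hn

end CRE

theorem t_CRE : Stmt_CRE := by
  intro N P X s A C hX hAC t ht hA hC
  obtain ⟨n, hn⟩ : ∃ n : ℕ, C = A + n := ⟨(C - A).toNat, by omega⟩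
  subst hn
  exact CRE.aux hX s ht A hA n hC

end LHE
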