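import Pool.Agent.LHE.Stmts1

/-!
# The order of the two arcs at a cusp
-/

namespace LHE

open Set LG LH

namespace CUS

theorem local_y (Y : ℝ → ℝ) (m c : ℝ) (hY : HasDerivAt Y m c) (hm : 0 < m) :
    ∃ ε > 0, (∀ u, c - ε < u → u < c → Y u < Y c) ∧ ∀ u, c < u → u < c + ε → Y c < Y u := by
  have h1 : ∀ᶠ u in nhdsWithin c {c}ᶜ, 0 < slope Y c u :=
    (hasDerivAt_iff_tendsto_slope.1 hY).eventually (lt_mem_nhds hm)
  rw [eventually_nhdsWithin_iff, Metric.eventually_nhds_iff] at h1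
  obtain ⟨ε, hε, h⟩ := h1
  refine ⟨ε, hε, fun u hu hu' => ?_, fun u hu hu' => ?_⟩
  · have h2 : 0 < slope Y c u := by
      refine h ?_ hu'.ne
      rw [Real.dist_eq, abs_lt]
      constructor <;> linarith
    rw [slope_def_field] at h2
    by_contra hcon
    have h3 : (Y u - Y c) / (u - c) ≤ 0 :=
      div_nonpos_of_nonneg_of_nonpos (by linarith) (by linarith)
    linarith
  · have h2 : 0 < slope Y c u := by
      refine h ?_ hu.ne'
      rw [Real.dist_eq, abs_lt]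
      constructor <;> linarith
    rw [slope_def_field] at h2
    by_contra hcon
    have h3 : (Y u - Y c) / (u - c) ≤ 0 :=
      div_nonpos_of_nonpos_of_nonneg (by linarith) (by linarith)
    linarith

theorem mono (X X' : ℝ → ℝ) (a c : ℝ) (hX : ∀ u, HasDerivAt X (X' u) u)
    (h1 : ∀ u ∈ Ioo a c, 0 < X' u) : StrictMonoOn X (Icc a c) := by
  refine strictMonoOn_of_deriv_pos (convex_Icc a c)
    (fun u _ => (hX u).continuousAt.continuousWithinAt) fun u hu => ?_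
  rw [interior_Icc] at hu
  rw [(hX u).deriv]
  exact h1 u hu

theorem anti (X X' : ℝ → ℝ) (a c : ℝ) (hX : ∀ u, HasDerivAt X (X' u) u)
    (h1 : ∀ u ∈ Ioo a c, X' u < 0) : StrictAntiOn X (Icc a c) := by
  refine strictAntiOn_of_deriv_neg (convex_Icc a c)
    (fun u _ => (hX u).continuousAt.continuousWithinAt) fun u hu => ?_
  rw [interior_Icc] at hu
  rw [(hX u).deriv]
  exact h1 u hu

theorem core (X Y Z X' : ℝ → ℝ) (m a c d : ℝ) (hX : ∀ u, HasDerivAt X (X' u) u)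
    (hZ : ∀ u, HasDerivAt Z (Y u * X' u) u) (hY : HasDerivAt Y m c) (hm : 0 < m)
    (h1 : ∀ u ∈ Ioo a c, 0 < X' u) (h2 : ∀ u ∈ Ioo c d, X' u < 0)
    (hinj : ∀ u ∈ Icc a d, ∀ v ∈ Icc a d, X u = X v → Z u = Z v → u = v) :
    ∀ u₁ ∈ Icc a c, ∀ u₂ ∈ Icc c d, X u₁ = X u₂ → u₁ ≠ c → Z u₂ < Z u₁ := by
  intro u₁ hu₁ u₂ hu₂ hx hne
  have hXc : Continuous X := continuous_iff_continuousAt.2 fun u => (hX u).continuousAt
  have hZc : Continuous Z := continuous_iff_continuousAt.2 fun u => (hZ u).continuousAt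
  have hmo := mono X X' a c hX h1
  have han := anti X X' c d hX h2
  have hu1c : u₁ < c := lt_of_le_of_ne hu₁.2 hne
  have hac : a ≤ c := hu₁.1.trans hu₁.2
  have hcd : c ≤ d := hu₂.1.trans hu₂.2
  have hXu1 : X u₁ < X c := hmo hu₁ (right_mem_Icc.2 hac) hu1c
  have hu2c : c < u₂ := by
    rcases hu₂.1.lt_or_eq with h | h
    · exact h
    · rw [← h] at hx
      exact absurd hx hXu1.ne
  -- the local pair
  obtain ⟨ε, hε, hy1, hy2⟩ := local_y Y m c hY hm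
  obtain ⟨v, hv, w, hw, hvw, hzz⟩ : ∃ v ∈ Ico u₁ c, ∃ w ∈ Ioc c u₂, X v = X w ∧ Z w < Z v := by
    set v' := max u₁ (c - ε / 2) with hv'
    set w' := min u₂ (c + ε / 2) with hw'
    have hv1 : u₁ ≤ v' := le_max_left _ _
    have hv2 : c - ε / 2 ≤ v' := le_max_right _ _
    have hv3 : v' < c := max_lt hu1c (by linarith)
    have hw1 : w' ≤ u₂ := min_le_left _ _
    have hw2 : w' ≤ c + ε / 2 := min_le_right _ _
    have hw3 : c < w' := lt_min hu2c (by linarith)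
    have hG : ∀ u, HasDerivAt (fun u => Z u - Y c * X u) (Y u * X' u - Y c * X' u) u :=
      fun u => (hZ u).sub ((hX u).const_mul (Y c))
    have hG1 := anti (fun u => Z u - Y c * X u) (fun u => Y u * X' u - Y c * X' u) v' c hG
      (fun u hu => by
        have e1 := hy1 u (by linarith [hu.1]) hu.2
        have e2 := h1 u ⟨by linarith [hu.1, hu₁.1], hu.2⟩
        nlinarith)
    have hG2 := anti (fun u => Z u - Y c * X u) (fun u => Y u * X' u - Y c * X' u) c w' hG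
      (fun u hu => by
        have e1 := hy2 u hu.1 (by linarith [hu.2])
        have e2 := h2 u ⟨hu.1, by linarith [hu.2, hu₂.2]⟩
        nlinarith)
    have key : ∀ v w, v' ≤ v → v < c → c < w → w ≤ w' → X v = X w → Z w < Z v := by
      intro v w a1 a2 a3 a4 a5
      have e1 := hG1 ⟨a1, a2.le⟩ (right_mem_Icc.2 hv3.le) a2
      have e2 := hG2 (left_mem_Icc.2 hw3.le) ⟨a3.le, a4⟩ a3
      have e3 : Z w - Y c * X w < Z v - Y c * X v := lt_trans e2 e1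
      rw [a5] at e3
      linarith
    have hXv' : X v' < X c := hmo ⟨hu₁.1.trans hv1, hv3.le⟩ (right_mem_Icc.2 hac) hv3
    have hXw' : X w' < X c := han (left_mem_Icc.2 hcd) ⟨hw3.le, hw1.trans hu₂.2⟩ hw3
    rcases le_total (X v') (X w') with hle | hle
    · obtain ⟨v, hv, hXv⟩ := intermediate_value_Icc hv3.le hXc.continuousOn ⟨hle, hXw'.le⟩
      have hvc : v < c := by
        rcases hv.2.lt_or_eq with h | h
        · exact h
        · rw [h] at hXv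
          exact absurd hXv hXw'.ne'
      exact ⟨v, ⟨hv1.trans hv.1, hvc⟩, w', ⟨hw3, hw1⟩, hXv, key v w' hv.1 hvc hw3 le_rfl hXv⟩
    · obtain ⟨w, hw, hXw⟩ := intermediate_value_Icc' hw3.le hXc.continuousOn ⟨hle, hXv'.le⟩
      have hwc : c < w := by
        rcases hw.1.lt_or_eq with h | h
        · exact h
        · rw [← h] at hXw
          exact absurd hXw hXv'.ne'
      exact ⟨v', ⟨hv1, hv3⟩, w, ⟨hwc, hw.2.trans hw1⟩, hXw.symm,
        key v' w le_rfl hv3 hwc hw.2 hXw.symm⟩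
  -- connectedness
  by_contra hcon
  have hcomp : IsCompact (Icc u₁ v ×ˢ Icc c u₂) := isCompact_Icc.prod isCompact_Icc
  have hcl1 : IsClosed {p : ℝ × ℝ | X p.1 = X p.2 ∧ Z p.1 ≤ Z p.2} :=
    (isClosed_eq (hXc.comp continuous_fst) (hXc.comp continuous_snd)).inter
      (isClosed_le (hZc.comp continuous_fst) (hZc.comp continuous_snd))
  have hcl2 : IsClosed {p : ℝ × ℝ | X p.1 = X p.2 ∧ Z p.2 ≤ Z p.1} :=
    (isClosed_eq (hXc.comp continuous_fst) (hXc.comp continuous_snd)).inter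
      (isClosed_le (hZc.comp continuous_snd) (hZc.comp continuous_fst))
  have hD1 : IsClosed (Prod.fst '' ((Icc u₁ v ×ˢ Icc c u₂) ∩
      {p : ℝ × ℝ | X p.1 = X p.2 ∧ Z p.1 ≤ Z p.2})) :=
    ((hcomp.inter_right hcl1).image continuous_fst).isClosed
  have hD2 : IsClosed (Prod.fst '' ((Icc u₁ v ×ˢ Icc c u₂) ∩
      {p : ℝ × ℝ | X p.1 = X p.2 ∧ Z p.2 ≤ Z p.1})) :=
    ((hcomp.inter_right hcl2).image continuous_fst).isClosed
  have hpre : IsPreconnected (Icc u₁ v) := isPreconnected_Icc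
  rw [isPreconnected_closed_iff] at hpre
  obtain ⟨r, hr, ⟨⟨r1, w1⟩, ⟨⟨hr1, hw1⟩, hx1, hz1⟩, e1⟩, ⟨⟨r2, w2⟩, ⟨⟨hr2, hw2⟩, hx2, hz2⟩, e2⟩⟩ :=
    hpre _ _ hD1 hD2 (by
      intro r hr
      have hra : r ∈ Icc a c := ⟨hu₁.1.trans hr.1, hr.2.trans hv.2.le⟩
      have e1 : X u₁ ≤ X r := hmo.monotoneOn hu₁ hra hr.1
      have e2 : X r ≤ X c := hmo.monotoneOn hra (right_mem_Icc.2 hac) hra.2
      obtain ⟨w, hw, hXw⟩ := intermediate_value_Icc' hu2c.le hXc.continuousOn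
        (show X r ∈ Icc (X u₂) (X c) from ⟨by rw [← hx]; exact e1, e2⟩)
      rcases le_total (Z r) (Z w) with h | h
      · exact Or.inl ⟨(r, w), ⟨⟨hr, hw⟩, hXw.symm, h⟩, rfl⟩
      · exact Or.inr ⟨(r, w), ⟨⟨hr, hw⟩, hXw.symm, h⟩, rfl⟩)
      ⟨u₁, left_mem_Icc.2 hv.1, (u₁, u₂), ⟨⟨left_mem_Icc.2 hv.1, right_mem_Icc.2 hu2c.le⟩, hx,
        not_lt.1 hcon⟩, rfl⟩
      ⟨v, right_mem_Icc.2 hv.1, (v, w), ⟨⟨right_mem_Icc.2 hv.1, ⟨hw.1.le, hw.2⟩⟩, hvw, hzz.le⟩, rfl⟩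
  change r1 = r at e1
  change r2 = r at e2
  subst e1
  subst e2
  change X r2 = X w1 at hx1
  change X r2 = X w2 at hx2
  change Z r2 ≤ Z w1 at hz1
  change Z w2 ≤ Z r2 at hz2
  have hw1' : w1 ∈ Icc c d := ⟨hw1.1, hw1.2.trans hu₂.2⟩
  have hw2' : w2 ∈ Icc c d := ⟨hw2.1, hw2.2.trans hu₂.2⟩
  have hww : w1 = w2 := han.injOn hw1' hw2' (hx1.symm.trans hx2)
  subst hww
  have hzeq : Z r2 = Z w1 := le_antisymm hz1 hz2
  have hrc : r2 < c := lt_of_le_of_lt hr.2 hv.2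
  have := hinj r2 ⟨hu₁.1.trans hr.1, hrc.le.trans hcd⟩ w1 ⟨hac.trans hw1.1, hw1'.2⟩ hx1 hzeq
  rw [this] at hrc
  exact absurd hw1.1 (not_le.2 hrc)

theorem hasDeriv (Λ : LC.LegKnot) (u : ℝ) : HasDerivAt Λ.γ (deriv Λ.γ u) u :=
  ((Λ.smooth.differentiable (by simp)) u).hasDerivAt

theorem hx (Λ : LC.LegKnot) (u : ℝ) : HasDerivAt Λ.x (deriv Λ.γ u).1 u := by
  have h := (hasFDerivAt_fst (𝕜 := ℝ) (E := ℝ) (F := ℝ × ℝ) (p := Λ.γ u)).comp_hasDerivAt u
    (hasDeriv Λ u)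
  exact h

theorem h2 (Λ : LC.LegKnot) (u : ℝ) : HasDerivAt (fun v => (Λ.γ v).2) (deriv Λ.γ u).2 u := by
  have h := (hasFDerivAt_snd (𝕜 := ℝ) (E := ℝ) (F := ℝ × ℝ) (p := Λ.γ u)).comp_hasDerivAt u
    (hasDeriv Λ u)
  exact h

theorem hy (Λ : LC.LegKnot) (u : ℝ) : HasDerivAt Λ.y (deriv Λ.γ u).2.1 u := by
  have h := (hasFDerivAt_fst (𝕜 := ℝ) (E := ℝ) (F := ℝ) (p := (Λ.γ u).2)).comp_hasDerivAt u
    (h2 Λ u)
  exact h

theorem hz (Λ : LC.LegKnot) (u : ℝ) : HasDerivAt (zz Λ) (Λ.y u * deriv Λ.x u) u := by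
  have h := (hasFDerivAt_snd (𝕜 := ℝ) (E := ℝ) (F := ℝ) (p := (Λ.γ u).2)).comp_hasDerivAt u
    (h2 Λ u)
  have h3 : HasDerivAt (zz Λ) (deriv Λ.γ u).2.2 u := h
  have h4 := Λ.legendrian u
  unfold LC.alpha at h4
  have h5 : (deriv Λ.γ u).2.2 - Λ.y u * (deriv Λ.γ u).1 = 0 := h4
  rw [(hx Λ u).deriv]
  rw [sub_eq_zero] at h5
  rw [← h5]
  exact h3

end CUS

theorem t_CUS : Stmt_CUS := by
  intro Λ s o a c d _ _ h1 h2 hinj hpos
  have hX : ∀ u, HasDerivAt (fun u => sn s * Λ.x u) (sn s * deriv Λ.x u) u := fun u => by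
    have h := (CUS.hx Λ u).const_mul (sn s)
    rw [(CUS.hx Λ u).deriv]
    exact h
  have hZ : ∀ u, HasDerivAt (fun u => sn o * zz Λ u)
      (sn o * (sn s * Λ.y u) * (sn s * deriv Λ.x u)) u := fun u => by
    have h := (CUS.hz Λ u).const_mul (sn o)
    have e : sn o * (sn s * Λ.y u) * (sn s * deriv Λ.x u) = sn o * (Λ.y u * deriv Λ.x u) := by
      have := sn_sq s
      calc sn o * (sn s * Λ.y u) * (sn s * deriv Λ.x u) =
          (sn s * sn s) * (sn o * (Λ.y u * deriv Λ.x u)) := by ring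
        _ = _ := by rw [this, one_mul]
    rw [e]
    exact h
  have hY : HasDerivAt (fun u => sn o * (sn s * Λ.y u)) (sn o * (sn s * deriv Λ.y c)) c := by
    have h := ((CUS.hy Λ c).const_mul (sn s)).const_mul (sn o)
    rw [(CUS.hy Λ c).deriv]
    exact h
  intro u₁ hu₁ u₂ hu₂ hx hne
  refine CUS.core (fun u => sn s * Λ.x u) (fun u => sn o * (sn s * Λ.y u))
    (fun u => sn o * zz Λ u) (fun u => sn s * deriv Λ.x u) _ a c d hX hZ hY hpos h1 h2 ?_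
    u₁ hu₁ u₂ hu₂ (congrArg (fun t => sn s * t) hx) hne
  intro u hu v hv hxe hze
  have hs : sn s ≠ 0 := by rcases sn_or s with h | h <;> rw [h] <;> norm_num
  have ho : sn o ≠ 0 := by rcases sn_or o with h | h <;> rw [h] <;> norm_num
  have e1 : Λ.x u = Λ.x v := mul_left_cancel₀ hs hxe
  have e2 : zz Λ u = zz Λ v := mul_left_cancel₀ ho hze
  refine hinj hu hv ?_
  exact Prod.ext e1 e2

end LHE
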