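import Pool.Agent.LHE.Stmts1
import Pool.Agent.LHS.BAS
import Pool.Agent.LHS.CTN
import Pool.Agent.LHS.BD1
import Pool.Agent.LHS.BD2
import Pool.Agent.LHS.BD3
import Pool.Agent.LHS.MID
import Pool.Agent.LHS.MUB
import Pool.Agent.LHS.ZAP

/-!
# The polygons approximate the knot
-/

namespace LHE

open Set LG LH
open scoped ContDiff

namespace EST

/-- The uniform bounds of one knot. -/
theorem ex_Bd (Λ : LC.LegKnot) : ∃ M η c : ℝ, 1 ≤ M ∧ 0 < c ∧ LHS.Bd Λ M η c := by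
  have hF : LHS.Fam (fun _ => Λ) := (Λ.smooth.comp contDiff_snd).contDiffOn
  obtain ⟨M, hM, h1⟩ := LHS.t_BD1 LHS.t_BAS LHS.t_CTN _ hF
  obtain ⟨η, -, h2⟩ := LHS.t_BD2 LHS.t_BAS LHS.t_CTN _ hF
  obtain ⟨c, hc, h3⟩ := LHS.t_BD3 LHS.t_BAS LHS.t_CTN _ hF
  have h0 : (0 : ℝ) ∈ Icc (0 : ℝ) 1 := ⟨le_refl _, zero_le_one⟩
  obtain ⟨a1, a2, a3, a4⟩ := h1 0 h0
  exact ⟨M, η, c, hM, hc, ⟨a1, a2, a3, a4, h2 0 h0, h3 0 h0⟩⟩

/-- The second difference. -/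
theorem second_diff (Λ : LC.LegKnot) {M : ℝ}
    (hd : ∀ u v, |deriv Λ.x u - deriv Λ.x v| ≤ M * |u - v|) (u h : ℝ) (hh : 0 ≤ h) :
    |Λ.x (u + h + h) - 2 * Λ.x (u + h) + Λ.x u| ≤ M * h * h := by
  have hx : ∀ v, HasDerivAt Λ.x (deriv Λ.x v) v := (LHS.t_BAS Λ).2.2.2.2.2.2.1
  have hg : ∀ v ∈ Icc u (u + h), HasDerivWithinAt (fun v => Λ.x (v + h) - Λ.x v)
      (deriv Λ.x (v + h) - deriv Λ.x v) (Icc u (u + h)) v := by
    intro v _
    exact (((hx (v + h)).comp_add_const v h).sub (hx v)).hasDerivWithinAt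
  have hb : ∀ v ∈ Icc u (u + h), ‖deriv Λ.x (v + h) - deriv Λ.x v‖ ≤ M * h := by
    intro v _
    rw [Real.norm_eq_abs]
    refine (hd _ _).trans (le_of_eq ?_)
    rw [add_sub_cancel_left, abs_of_nonneg hh]
  have h1 := (convex_Icc u (u + h)).norm_image_sub_le_of_norm_hasDerivWithin_le hg hb
    (left_mem_Icc.mpr (by linarith)) (right_mem_Icc.mpr (by linarith))
  rw [Real.norm_eq_abs, Real.norm_eq_abs, add_sub_cancel_left, abs_of_nonneg hh] at h1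
  have e : Λ.x (u + h + h) - 2 * Λ.x (u + h) + Λ.x u =
      Λ.x (u + h + h) - Λ.x (u + h) - (Λ.x (u + h) - Λ.x u) := by ring
  rw [e]
  exact h1

end EST

open EST in
theorem t_EST : Stmt_EST := by
  intro Λ
  obtain ⟨M, η, c, hM, hc, hB⟩ := ex_Bd Λ
  have hMID := LHS.t_MID LHS.t_BAS
  have hMUB := LHS.t_MUB LHS.t_BAS hMID
  have hZAP := LHS.t_ZAP LHS.t_BAS hMID hMUB
  set B : ℝ := 4 * M ^ 2 / c ^ 2 with hBdef
  have hB0 : 0 ≤ B := by positivity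
  have hM0 : 0 < M := by linarith
  set Z : ℝ := M ^ 2 + 4 * M ^ 4 / c ^ 2 with hZdef
  have hZ0 : 0 ≤ Z := by positivity
  have hBM : 0 ≤ B * M := by positivity
  refine ⟨B + B * M + Z + M + 1, by positivity, ⌈2 * M / c⌉₊ + 1, Nat.succ_pos _, ?_⟩
  intro N hN P hP
  have hN1 : 1 ≤ N := le_trans (Nat.succ_le_succ (Nat.zero_le _)) hN
  have hNR : (1 : ℝ) ≤ N := by exact_mod_cast hN1
  have hN0 : (0 : ℝ) < N := by linarith
  have hcN : 2 * M ≤ c * N := by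
    have h1 : 2 * M / c ≤ ⌈2 * M / c⌉₊ := Nat.le_ceil _
    have h2 : ((⌈2 * M / c⌉₊ + 1 : ℕ) : ℝ) ≤ N := by exact_mod_cast hN
    push_cast at h2
    have h3 : 2 * M / c ≤ N := by linarith
    rw [div_le_iff₀ hc] at h3
    linarith
  obtain ⟨hpx, hpy, hpz⟩ := hP
  have hmu : |mu Λ N| ≤ B := (hMUB Λ M η c hM hc hB N hN1 hcN).2
  have hxx : ∀ i : ℤ, |P.x (i + 1) - P.x i| ≤ M / N := by
    intro i
    rw [hpx]
    unfold x0
    have h1 := hB.xl (((i + 1 : ℤ) : ℝ) / N) ((i : ℝ) / N)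
    have h2 : (((i + 1 : ℤ) : ℝ) / N - (i : ℝ) / N) = 1 / N := by
      push_cast
      ring
    rw [h2, abs_of_pos (by positivity : (0 : ℝ) < 1 / N)] at h1
    have h3 : M * (1 / (N : ℝ)) = M / N := by ring
    rwa [h3] at h1
  have hyy : ∀ i : ℤ, |P.y i - Λ.y ((i + 1 / 2) / N)| ≤ B * M / N := by
    intro i
    rw [hpy]
    unfold y1 y0
    have h1 : Λ.y (((i : ℝ) + 1 / 2) / N) - mu Λ N * (x0 Λ N (i + 1) - x0 Λ N i) -
        Λ.y (((i : ℝ) + 1 / 2) / N) = -(mu Λ N * (x0 Λ N (i + 1) - x0 Λ N i)) := by ring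
    rw [h1, abs_neg, abs_mul]
    have h2 := hxx i
    rw [hpx] at h2
    calc |mu Λ N| * |x0 Λ N (i + 1) - x0 Λ N i| ≤ B * (M / N) :=
          mul_le_mul hmu h2 (abs_nonneg _) hB0
      _ = B * M / N := by ring
  have hle : ∀ a : ℝ, a ≤ B + B * M + Z + M + 1 → a / N ≤ (B + B * M + Z + M + 1) / N :=
    fun a ha => div_le_div_of_nonneg_right ha hN0.le
  refine ⟨hmu.trans (by linarith), fun i => ⟨?_, ?_, ?_, ?_, ?_⟩⟩
  · exact (hyy i).trans (hle _ (by linarith))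
  · exact (hZAP Λ M η c hM hc hB N hN1 hcN P ⟨hpx, hpy, hpz⟩ i).trans (hle _ (by linarith))
  · exact (hxx i).trans (hle _ (by linarith))
  · rw [hpx]
    unfold x0
    have h1 := second_diff Λ hB.xd ((i : ℝ) / N) (1 / N) (by positivity)
    have e1 : (i : ℝ) / N + 1 / N = ((i + 1 : ℤ) : ℝ) / N := by push_cast; ring
    have e2 : ((i + 1 : ℤ) : ℝ) / N + 1 / N = ((i + 2 : ℤ) : ℝ) / N := by push_cast; ring
    rw [e1, e2] at h1
    refine h1.trans ?_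
    have e3 : M * (1 / (N : ℝ)) * (1 / N) = M / N ^ 2 := by ring
    rw [e3]
    exact div_le_div_of_nonneg_right (by linarith) (by positivity)
  · have h1 := hyy i
    have h2 := hB.yb (((i : ℝ) + 1 / 2) / N)
    have h3 : B * M / N ≤ B * M := div_le_self hBM hNR
    have h4 : |P.y i| ≤ |P.y i - Λ.y ((i + 1 / 2) / N)| + |Λ.y ((i + 1 / 2) / N)| := by
      have := abs_add_le (P.y i - Λ.y ((i + 1 / 2) / N)) (Λ.y ((i + 1 / 2) / N))
      rwa [sub_add_cancel] at this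
    linarith

end LHE
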