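import Pool.Agent.LHE.Stmts1

/-!
# The walk of a polygon with a zigzag has two fingers (EXT)
-/

namespace LHE

open Set LG LH

namespace EXT

variable {N : ℕ}

theorem tn_sh (i : It) : Tn (i.sh N) ↔ Tn i := Iff.rfl

theorem not_tn_pass (s : Bool) (t : ℝ) (e : ℤ) : ¬ Tn ⟨pass s, t, e⟩ := by
  cases s
  · rintro (h | h)
    · change Kd.lt = Kd.R at h
      exact absurd h (by decide)
    · change Kd.lt = Kd.L at h
      exact absurd h (by decide)
  · rintro (h | h)
    · change Kd.rt = Kd.R at h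
      exact absurd h (by decide)
    · change Kd.rt = Kd.L at h
      exact absurd h (by decide)

theorem pass_ne (s : Bool) : pass (!s) ≠ pass s := by
  cases s
  · decide
  · decide

/-- A relation for the cyclically consecutive pairs gives a chain. -/
theorem chain_aux (R : It → It → Prop) (z z' : It) (hz : ∀ x, R x z → R x z') :
    ∀ l : List It, (∀ x ∈ l.zip (l.tail ++ [z]), R x.1 x.2) → List.IsChain R (l ++ [z']) := by
  intro l
  induction l with
  | nil => intro _; exact List.IsChain.singleton _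
  | cons a l ih =>
    cases l with
    | nil =>
      intro h
      refine List.IsChain.cons_cons (hz _ ?_) (List.IsChain.singleton _)
      exact h (a, z) (by simp)
    | cons b l =>
      intro h
      refine List.IsChain.cons_cons ?_ (ih ?_)
      · exact h (a, b) (by simp)
      · intro x hx
        refine h x ?_
        have : (a :: b :: l).zip ((a :: b :: l).tail ++ [z]) =
            (a, b) :: (b :: l).zip ((b :: l).tail ++ [z]) := rfl
        rw [this]
        exact List.mem_cons_of_mem _ hx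

theorem cp_eq (a : It) (l : List It) : cp (a :: l) = (a :: l).zip ((a :: l).tail ++ [a]) := by
  rw [cp]
  simp

theorem sn_nn (s : Bool) : (!(!s)) = s := Bool.not_not s

/-- An item crosses its line. -/
theorem crs_item (P : Pg N) (s : Bool) {t : ℝ} {e : ℤ} (h : ItOK P ⟨pass s, t, e⟩) :
    Crs P s t e := by
  cases s
  · have h1 := h.2 rfl
    unfold Crs
    rw [sn_false]
    constructor
    · have := h1.2
      change (-1 : ℝ) * P.x e < -1 * t
      change t < P.x e at this
      linarith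
    · have := h1.1
      change (-1 : ℝ) * t < -1 * P.x (e + 1)
      change P.x (e + 1) < t at this
      linarith
  · have h1 := h.1 rfl
    unfold Crs
    rw [sn_true]
    constructor
    · have := h1.1
      change (1 : ℝ) * P.x e < 1 * t
      change P.x e < t at this
      linarith
    · have := h1.2
      change (1 : ℝ) * t < 1 * P.x (e + 1)
      change t < P.x (e + 1) at this
      linarith

theorem itok_sh (P : Pg N) {i : It} (h : ItOK P i) : ItOK P (i.sh N) := by
  have e1 : P.x (i.e + N) = P.x i.e := P.px i.e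
  have e2 : P.x (i.e + N + 1) = P.x (i.e + 1) := by
    have : i.e + N + 1 = i.e + 1 + N := by ring
    rw [this]
    exact P.px (i.e + 1)
  refine ⟨fun hk => ?_, fun hk => ?_⟩
  · have := h.1 hk
    change P.x (i.e + N) < i.t ∧ i.t < P.x (i.e + N + 1)
    rw [e1, e2]
    exact this
  · have := h.2 hk
    change P.x (i.e + N + 1) < i.t ∧ i.t < P.x (i.e + N)
    rw [e1, e2]
    exact this

/-- The points of a finger of items. -/
theorem fi_pf (P : Pg N) (s : Bool) (A C D : ℤ) (X : Finset ℝ) (τ : ℝ)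
    (V : ℝ → ℝ → ℝ → Prop)
    (H : ∀ t ∈ X, τ ≤ sn s * t → ∀ e ∈ Ico A C, ∀ f ∈ Ico C D, Crs P s t e → Crs P (!s) t f →
      V t (P.l e t) (P.l f t)) :
    ∀ (t : ℝ) (F : List It), FI P s A C D X t F → τ ≤ sn s * t → PF s V t (F.map (pt P)) := by
  intro t F hF
  induction hF with
  | tip t t' e h =>
    intro _
    exact PF.tip t t' _ h
  | step t t' e f F hup hX he hf hce hcf _ ih =>
    intro ht
    have ht' : τ ≤ sn s * t' := ht.trans hup.le
    have h1 := ih ht'
    rw [List.cons_append, List.map_cons, List.map_append]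
    exact PF.step t t' _ _ _ hup (H t' hX ht' e he f hf hce hcf) h1

theorem pt_pass (P : Pg N) (s : Bool) (t : ℝ) (e : ℤ) :
    pt P ⟨pass s, t, e⟩ = ⟨pass s, t, P.l e t⟩ := rfl

end EXT

theorem t_EXT : Stmt_EXT := by
  intro hWON hMSH hCRE hROT hFNG hADJ N P X s A C D B ξ₁ ξ₂ δ o w hZ hX hw hm1 hm2
  have hxC : ξ₂ < sn s * P.x C := by
    have := hZ.f2.xa
    rw [sn_not] at this
    linarith
  obtain ⟨ξ, hξX, hξ1, hξ2⟩ := hMSH N P X s ξ₁ ξ₂ A C hX hm2 hZ.lt hZ.f1.xa hxC
  obtain ⟨e, he, hce⟩ := hCRE N P X s A C hX hZ.f1.AC ξ hξX (hZ.f1.xa.trans hξ1)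
    (hξ2.trans hxC)
  -- the crossing is an item of the walk
  obtain ⟨j₀, hj₀⟩ : ∃ j : ℤ, (⟨pass s, ξ, e + j * N⟩ : It) ∈ w := by
    have h1 := hWON P X w hw.1 ξ hξX e
    cases s
    · refine h1.2 ?_ ?_
      · have := hce.2
        rw [sn_false] at this
        linarith
      · have := hce.1
        rw [sn_false] at this
        linarith
    · refine h1.1 ?_ ?_
      · have := hce.1
        rw [sn_true] at this
        linarith
      · have := hce.2
        rw [sn_true] at this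
        linarith
  obtain ⟨w₁, hw₁, hrot⟩ := hROT N P X w hw _ hj₀ (-j₀)
  have hee : e + j₀ * N + -j₀ * N = e := by ring
  simp only [hee] at hw₁ hrot
  set i : It := ⟨pass s, ξ, e⟩ with hi
  have hiT : ¬ Tn i := EXT.not_tn_pass s ξ e
  -- the chain
  obtain ⟨⟨i', w'', heq, hok, hch⟩, hcp⟩ := hw₁
  obtain ⟨rfl, rfl⟩ := List.cons.inj heq
  rw [List.cons_append] at hch
  have hokl : ∀ j ∈ i :: (w₁ ++ [i.sh N]), ItOK P j := by
    intro j hj
    rcases List.mem_cons.mp hj with hj | hj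
    · rw [hj]; exact hok i List.mem_cons_self
    · rcases List.mem_append.mp hj with hj | hj
      · exact hok j (List.mem_cons_of_mem _ hj)
      · rw [List.mem_singleton.mp hj]
        exact EXT.itok_sh P (hok i List.mem_cons_self)
  have hch2 : List.IsChain (fun i j => ¬ (Tn i ∧ Tn j)) (i :: (w₁ ++ [i.sh N])) := by
    have h1 := EXT.chain_aux (fun i j => ¬ (Tn i ∧ Tn j)) i (i.sh N) (fun x hx => hx) (i :: w₁) ?_
    · rw [List.cons_append] at h1
      exact h1
    · intro x hx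
      rw [← EXT.cp_eq] at hx
      exact hcp x hx
  have hDA : D ≤ (i.sh N).e := by
    have h1 := he.1
    have h2 := hZ.f1.DA
    change D ≤ e + N
    linarith
  obtain ⟨F₁, j, l', hl', hjk, hjt, hje, hF₁⟩ := hFNG N P X s A C D hX hZ.f1.AC hZ.f1.CD
    hZ.f1.m1 hZ.f1.m2 i (w₁ ++ [i.sh N]) hch hokl hch2 rfl he hξX (hZ.f1.xd.trans hξ1)
    ⟨i.sh N, by simp, hDA⟩
  obtain ⟨l'', hl'', hw₁eq⟩ : ∃ l'', l' = l'' ++ [i.sh N] ∧ w₁ = F₁ ++ j :: l'' := by
    rcases List.eq_nil_or_concat l' with h0 | ⟨l'', b, hb⟩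
    · rw [h0] at hl'
      have h2 := List.append_inj' hl' rfl
      have h3 : i.sh N = j := by simpa using h2.2
      rw [← h3] at hjk
      exact absurd hjk.symm (EXT.pass_ne s)
    · rw [List.concat_eq_append] at hb
      rw [hb] at hl'
      have h2 : w₁ ++ [i.sh N] = (F₁ ++ j :: l'') ++ [b] := by
        rw [hl']
        simp
      have h3 := List.append_inj' h2 rfl
      have h4 : i.sh N = b := by simpa using h3.2
      exact ⟨l'', by rw [hb, h4], h3.1⟩
  -- the second finger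
  have hsuf : i :: (w₁ ++ [i.sh N]) = (i :: F₁) ++ (j :: (l'' ++ [i.sh N])) := by
    rw [hw₁eq]
    simp
  have hBA : B ≤ (i.sh N).e := by
    have h1 := he.1
    have h2 := hZ.BA
    change B ≤ e + N
    linarith
  have hxB : sn (!s) * P.x B < sn (!s) * j.t := by
    have h1 := hZ.f2.xd
    rw [hjt, sn_not] at *
    change -sn s * P.x B < -sn s * ξ
    linarith
  obtain ⟨G₁, k, l₃, hl₃, hkk, hkt, hke, hG₁⟩ := hFNG N P X (!s) C D B hX hZ.f2.AC hZ.f2.CD
    hZ.f2.m1 hZ.f2.m2 j (l'' ++ [i.sh N]) (by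
      rw [hsuf] at hch
      exact hch.right_of_append) (by
      intro z hz
      refine hokl z ?_
      rw [hsuf]
      exact List.mem_append_right _ hz) (by
      rw [hsuf] at hch2
      exact hch2.right_of_append) hjk hje (by rw [hjt]; exact hξX) hxB
    ⟨i.sh N, by simp, hBA⟩
  rw [Bool.not_not] at hkk
  obtain ⟨r₁, hl₂⟩ : ∃ r₁, l'' = G₁ ++ k :: r₁ := by
    rcases List.eq_nil_or_concat l₃ with h0 | ⟨r₁, b, hb⟩
    · rw [h0] at hl₃
      have h2 := List.append_inj' hl₃ rfl
      have h3 : i.sh N = k := by simpa using h2.2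
      rw [← h3] at hke
      exact absurd hke.2 (not_lt.mpr hBA)
    · rw [List.concat_eq_append] at hb
      rw [hb] at hl₃
      have h2 : l'' ++ [i.sh N] = (G₁ ++ k :: r₁) ++ [b] := by
        rw [hl₃]
        simp
      exact ⟨r₁, (List.append_inj' h2 rfl).1⟩
  have hkt' : k.t = ξ := hkt.trans hjt
  have hj' : j = ⟨pass (!s), ξ, j.e⟩ := by
    rcases j with ⟨k0, t0, e0⟩
    simp only at hjk hjt
    rw [hjk, hjt]
  have hk' : k = ⟨pass s, ξ, k.e⟩ := by
    rcases k with ⟨k0, t0, e0⟩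
    simp only at hkk hkt'
    rw [hkk, hkt']
  have hjmem : j ∈ i :: (w₁ ++ [i.sh N]) := by
    rw [hw₁eq]
    simp
  have hkmem : k ∈ i :: (w₁ ++ [i.sh N]) := by
    rw [hw₁eq, hl₂]
    simp
  have hcj : Crs P (!s) ξ j.e := by
    have h1 := hokl j hjmem
    rw [hj'] at h1
    exact EXT.crs_item P (!s) h1
  have hck : Crs P s ξ k.e := by
    have h1 := hokl k hkmem
    rw [hk'] at h1
    exact EXT.crs_item P s h1
  -- the conditions
  have hGW : GW P X (i :: w₁) := ⟨⟨i, w₁, rfl, hok, by rw [List.cons_append]; exact hch⟩, hcp⟩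
  have H1 : ∀ t ∈ X, ξ₁ ≤ sn s * t → ∀ e ∈ Ico A C, ∀ f ∈ Ico C D, Crs P s t e →
      Crs P (!s) t f → AO ((i :: w₁).map (pt P)) o t (P.l e t) (P.l f t) := by
    intro t ht hτ e he f hf h1 h2
    exact ⟨hADJ N P X s A C D ξ₁ δ i w₁ hX hm1 hGW hiT hZ.f1 hZ.st t ht hτ e he f hf h1 h2,
      hZ.o1 t hτ e he f hf h1 h2⟩
  have H2 : ∀ t ∈ X, -ξ₂ ≤ sn (!s) * t → ∀ e ∈ Ico C D, ∀ f ∈ Ico D B, Crs P (!s) t e →
      Crs P (!(!s)) t f → AO ((i :: w₁).map (pt P)) o t (P.l e t) (P.l f t) := by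
    intro t ht hτ e he f hf h1 h2
    exact ⟨hADJ N P X (!s) C D B (-ξ₂) δ i w₁ hX hm1 hGW hiT hZ.f2 hZ.st t ht hτ e he f hf h1 h2,
      hZ.o2 t hτ e he f hf h1 h2⟩
  have hτ2 : -ξ₂ ≤ sn (!s) * ξ := by
    rw [sn_not]
    linarith
  refine ⟨(i :: w₁).map (pt P), ξ, P.l e ξ, P.l j.e ξ, P.l k.e ξ, F₁.map (pt P), G₁.map (pt P),
    r₁.map (pt P), hrot, ?_, ?_, ?_, ?_, ?_⟩
  · rw [hw₁eq, hl₂, List.map_cons, List.map_append, List.map_cons, List.map_append, List.map_cons]
    conv_lhs => rw [hj', hk']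
    rfl
  · exact EXT.fi_pf P s A C D X ξ₁ _ H1 ξ F₁ hF₁ hξ1.le
  · have h1 := hG₁
    rw [hjt] at h1
    exact EXT.fi_pf P (!s) C D B X (-ξ₂) _ H2 ξ G₁ h1 hτ2
  · exact H1 ξ hξX hξ1.le e he j.e hje hce hcj
  · refine H2 ξ hξX hτ2 j.e hje k.e hke hcj ?_
    rw [Bool.not_not]
    exact hck

end LHE
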