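import Pool.Agent.LHE.Stmts1

/-!
# FGO: the order of the two arcs of a finger for the polygons
-/

set_option autoImplicit false

namespace LHE

open Set LG LH
open scoped ContDiff

namespace FGO

theorem cx (Λ : LC.LegKnot) : Continuous Λ.x := Λ.smooth.continuous.fst

theorem cz (Λ : LC.LegKnot) : Continuous (zz Λ) := Λ.smooth.continuous.snd.snd

theorem sy (Λ : LC.LegKnot) : ContDiff ℝ ∞ Λ.y := Λ.smooth.snd.fst

theorem dy (Λ : LC.LegKnot) : Differentiable ℝ Λ.y := (sy Λ).differentiable (by simp)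

theorem cdy (Λ : LC.LegKnot) : Continuous (deriv Λ.y) := (sy Λ).continuous_deriv (by simp)

theorem mono_up (F : ℤ → ℝ) (i j : ℤ) (hij : i ≤ j) (h : ∀ k, i ≤ k → k < j → F k ≤ F (k + 1)) :
    F i ≤ F j := by
  induction j, hij using Int.leInduction with
  | base => exact le_refl _
  | succ m hm ih =>
    exact (ih fun k h1 h2 => h k h1 (by omega)).trans (h m hm (by omega))

theorem anti_up (G : ℤ → ℝ) (i j : ℤ) (hij : i ≤ j) (h : ∀ k, i ≤ k → k < j → G (k + 1) < G k) :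
    i < j → G j < G i := by
  induction j, hij using Int.leInduction with
  | base => exact fun h => absurd h (lt_irrefl _)
  | succ m hm ih =>
    intro _
    have h1 := h m hm (by omega)
    by_cases h2 : i < m
    · exact h1.trans (ih (fun k h3 h4 => h k h3 (by omega)) h2)
    · have h3 : m = i := by omega
      rw [h3] at h1 ⊢
      exact h1

/-- The compactness argument. -/
theorem far (Λ : LC.LegKnot) (s o : Bool) (a c d τ ρ : ℝ) (hF : FgS Λ s a c d τ)
    (hO : OdS Λ s a c d o) (hρ : 0 < ρ) (hρa : ρ ≤ c - a) :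
    ∃ κ > (0 : ℝ), ∀ u₁ ∈ Icc a c, ∀ u₂ ∈ Icc c d, (u₁ ≤ c - ρ ∨ c + ρ ≤ u₂) →
      κ ≤ |Λ.x u₁ - Λ.x u₂| ∨ κ ≤ sn o * (zz Λ u₁ - zz Λ u₂) := by
  have hg : Continuous fun q : ℝ × ℝ =>
      max |Λ.x q.1 - Λ.x q.2| (sn o * (zz Λ q.1 - zz Λ q.2)) := by
    have h1 := cx Λ
    have h2 := cz Λ
    fun_prop
  have hS : IsCompact ((Icc a (c - ρ) ×ˢ Icc c d) ∪ (Icc a c ×ˢ Icc (c + ρ) d) : Set (ℝ × ℝ)) :=
    (isCompact_Icc.prod isCompact_Icc).union (isCompact_Icc.prod isCompact_Icc)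
  have hne : ((Icc a (c - ρ) ×ˢ Icc c d) ∪ (Icc a c ×ˢ Icc (c + ρ) d) : Set (ℝ × ℝ)).Nonempty :=
    ⟨(a, c), Or.inl ⟨⟨le_refl _, by linarith⟩, ⟨le_refl _, hF.cd.le⟩⟩⟩
  obtain ⟨q, hq, hmin⟩ := hS.exists_isMinOn hne hg.continuousOn
  refine ⟨max |Λ.x q.1 - Λ.x q.2| (sn o * (zz Λ q.1 - zz Λ q.2)), ?_, ?_⟩
  · by_contra hcon
    rw [gt_iff_lt, not_lt, max_le_iff] at hcon
    obtain ⟨h1, h2⟩ := hcon
    have h3 : Λ.x q.1 = Λ.x q.2 := by
      have := abs_nonpos_iff.1 h1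
      linarith
    have hq1 : q.1 ∈ Icc a c := by
      rcases hq with hq | hq
      · exact ⟨hq.1.1, by have := hq.1.2; linarith⟩
      · exact hq.1
    have hq2 : q.2 ∈ Icc c d := by
      rcases hq with hq | hq
      · exact hq.2
      · exact ⟨by have := hq.2.1; linarith, hq.2.2⟩
    have h4 : q.1 ≠ c := by
      rcases hq with hq | hq
      · have := hq.1.2
        intro h
        rw [h] at this
        linarith
      · intro h
        have h5 := hF.m2 ⟨le_refl _, hF.cd.le⟩ hq2 (by have := hq.2.1; linarith : c < q.2)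
        rw [h] at h3
        simp only at h5
        rw [h3] at h5
        exact lt_irrefl _ h5
    have h5 := hO.od q.1 hq1 q.2 hq2 h3 h4
    linarith
  · intro u₁ h1 u₂ h2 h3
    have hmem : (u₁, u₂) ∈ ((Icc a (c - ρ) ×ˢ Icc c d) ∪ (Icc a c ×ˢ Icc (c + ρ) d) :
        Set (ℝ × ℝ)) := by
      rcases h3 with h3 | h3
      · exact Or.inl ⟨⟨h1.1, h3⟩, h2⟩
      · exact Or.inr ⟨h1, ⟨h3, h2.2⟩⟩
    have h4 := hmin hmem
    simp only [mem_ofPred_eq] at h4
    exact le_max_iff.1 h4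

theorem unif (f : ℝ → ℝ) (hf : Continuous f) (a b ε : ℝ) (hε : 0 < ε) :
    ∃ δ > (0 : ℝ), ∀ u ∈ Icc a b, ∀ v ∈ Icc a b, |u - v| < δ → |f u - f v| < ε := by
  have h1 := (isCompact_Icc (a := a) (b := b)).uniformContinuousOn_of_continuous hf.continuousOn
  rw [Metric.uniformContinuousOn_iff] at h1
  obtain ⟨δ, hδ, h2⟩ := h1 ε hε
  exact ⟨δ, hδ, fun u hu v hv h => h2 u hu v hv h⟩

/-- Lines of nearby crossing edges. -/
theorem near (hB : P_PGB) {N : ℕ} (P : Pg N) (s o : Bool) (t : ℝ) (e f : ℤ) (hef : e < f)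
    (hy : ∀ i, e ≤ i → i < f → 0 < sn o * (sn s * (P.y (i + 1) - P.y i)))
    (hx : ∀ m, e < m → m ≤ f → sn s * t < sn s * P.x m) : sn o * P.l f t < sn o * P.l e t := by
  refine anti_up (fun i => sn o * P.l i t) e f hef.le (fun k h1 h2 => ?_) hef
  have h3 := hB.ls P k t
  have h4 := hy k h1 h2
  have h5 := hx (k + 1) (by omega) (by omega)
  have h6 : sn o * P.l (k + 1) t - sn o * P.l k t =
      (sn o * (sn s * (P.y (k + 1) - P.y k))) * (sn s * t - sn s * P.x (k + 1)) := by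
    have h7 : (sn o * (sn s * (P.y (k + 1) - P.y k))) * (sn s * t - sn s * P.x (k + 1)) =
        (sn s * sn s) * (sn o * ((P.y (k + 1) - P.y k) * (t - P.x (k + 1)))) := by ring
    rw [h7, sn_sq, one_mul, ← h3]
    ring
  have h8 : (sn o * (sn s * (P.y (k + 1) - P.y k))) * (sn s * t - sn s * P.x (k + 1)) < 0 :=
    mul_neg_of_pos_of_neg h4 (by linarith)
  show sn o * P.l (k + 1) t < sn o * P.l k t
  linarith

end FGO

open FGO in
theorem t_FGO : Stmt_FGO := by
  intro hE hB Λ s o a c d τ hF hO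
  obtain ⟨K, hK, N₁, hN₁, hE⟩ := hE Λ
  -- the neighbourhood of `c`
  obtain ⟨η, hη, hηc⟩ : ∃ η > 0, η < sn o * (sn s * deriv Λ.y c) :=
    ⟨sn o * (sn s * deriv Λ.y c) / 2, half_pos hO.yc, half_lt_self hO.yc⟩
  obtain ⟨ε, hε, hεc⟩ : ∃ ε > (0 : ℝ), ∀ u, |u - c| < ε → η < sn o * (sn s * deriv Λ.y u) := by
    have h1 : Continuous fun u => sn o * (sn s * deriv Λ.y u) :=
      continuous_const.mul (continuous_const.mul (cdy Λ))
    have h2 : {u | η < sn o * (sn s * deriv Λ.y u)} ∈ nhds c :=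
      (isOpen_lt continuous_const h1).mem_nhds hηc
    obtain ⟨ε, hε, h3⟩ := Metric.mem_nhds_iff.1 h2
    exact ⟨ε, hε, fun u hu => h3 hu⟩
  obtain ⟨ρ, hρ, hρa, hρε⟩ : ∃ ρ > 0, ρ ≤ c - a ∧ ρ ≤ ε / 2 :=
    ⟨min (c - a) (ε / 2), lt_min (by linarith [hF.ac]) (half_pos hε), min_le_left _ _,
      min_le_right _ _⟩
  obtain ⟨κ, hκ, hfar⟩ := far Λ s o a c d τ ρ hF hO hρ hρa
  obtain ⟨δ₁, hδ₁, hux⟩ := unif Λ.x (cx Λ) (a - 1) (d + 1) (κ / 8) (by linarith)
  obtain ⟨δ₂, hδ₂, huz⟩ := unif (zz Λ) (cz Λ) (a - 1) (d + 1) (κ / 8) (by linarith)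
  obtain ⟨B, hBd⟩ : ∃ B : ℝ, B = 2 / ε + K ^ 2 / η + 16 * (K + K ^ 2) / κ + 2 / δ₁ + 2 / δ₂ + 1 :=
    ⟨_, rfl⟩
  refine ⟨max N₁ ⌈B⌉₊, fun N hN P hP A C D hI => ?_⟩
  have hNN : N₁ ≤ N := (le_max_left _ _).trans hN
  have hNB : B ≤ N := (Nat.ceil_le).1 ((le_max_right _ _).trans hN)
  obtain ⟨hmu, hest⟩ := hE N hNN P hP
  have p1 : 0 < 2 / ε := by positivity
  have p2 : 0 < K ^ 2 / η := by positivity
  have p3 : 0 < 16 * (K + K ^ 2) / κ := by positivity
  have p4 : 0 < 2 / δ₁ := by positivity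
  have p5 : 0 < 2 / δ₂ := by positivity
  have hN1 : (1 : ℝ) ≤ N := by linarith
  have hN0 : (0 : ℝ) < N := by linarith
  have hNε : 2 < ε * N := by
    have h1 : 2 / ε < N := by linarith
    rwa [div_lt_iff₀' hε] at h1
  have hNη : K ^ 2 < η * N := by
    have h1 : K ^ 2 / η < N := by linarith
    rwa [div_lt_iff₀' hη] at h1
  have hNκ : 16 * (K + K ^ 2) < κ * N := by
    have h1 : 16 * (K + K ^ 2) / κ < N := by linarith
    rwa [div_lt_iff₀' hκ] at h1
  have hN4 : 2 < δ₁ * N := by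
    have h1 : 2 / δ₁ < N := by linarith
    rwa [div_lt_iff₀' hδ₁] at h1
  have hN5 : 2 < δ₂ * N := by
    have h1 : 2 / δ₂ < N := by linarith
    rwa [div_lt_iff₀' hδ₂] at h1
  have hinv : 1 / (N : ℝ) ≤ 1 := by
    rw [div_le_one hN0]
    exact hN1
  have hxN : ∀ i : ℤ, P.x i = Λ.x ((i : ℝ) / N) := fun i => congrFun hP.1 i
  have hyN : ∀ i : ℤ, P.y i = y1 Λ N i := fun i => congrFun hP.2.1 i
  intro t ht e he f hf hce hcf
  obtain ⟨hce1, hce2⟩ := hce
  obtain ⟨hcf1, hcf2⟩ := hcf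
  rw [sn_not] at hcf1 hcf2
  have hIa := abs_le.1 hI.a
  have hIc := abs_le.1 hI.c
  have hId := abs_le.1 hI.d
  -- monotonicity
  have hm1 : ∀ k, A ≤ k → k < C → sn s * P.x k ≤ sn s * P.x (k + 1) := by
    intro k h1 h2
    by_cases h3 : k = A
    · rw [h3]
      exact hI.xa
    by_cases h4 : k = C - 1
    · rw [h4, sub_add_cancel]
      exact hI.xc
    have h5 : A + 1 ≤ k := by omega
    have h6 : k + 2 ≤ C := by omega
    have h5' : (A : ℝ) + 1 ≤ k := by exact_mod_cast h5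
    have h6' : (k : ℝ) + 2 ≤ C := by exact_mod_cast h6
    rw [hxN, hxN]
    have h7 : a ≤ (k : ℝ) / N := by
      rw [le_div_iff₀ hN0]
      linarith
    have h8 : (((k + 1 : ℤ) : ℝ)) / N ≤ c := by
      rw [div_le_iff₀ hN0]
      push_cast
      linarith
    have h9 : (k : ℝ) / N ≤ ((k + 1 : ℤ) : ℝ) / N := by
      apply div_le_div_of_nonneg_right _ hN0.le
      push_cast
      linarith
    exact hF.m1.monotoneOn ⟨h7, h9.trans h8⟩ ⟨h7.trans h9, h8⟩ h9
  have hm2 : ∀ k, C ≤ k → k < D → sn s * P.x (k + 1) ≤ sn s * P.x k := by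
    intro k h1 h2
    by_cases h3 : k = C
    · rw [h3]
      exact hI.xc'
    by_cases h4 : k = D - 1
    · rw [h4, sub_add_cancel]
      exact hI.xd
    have h5 : C + 1 ≤ k := by omega
    have h6 : k + 2 ≤ D := by omega
    have h5' : (C : ℝ) + 1 ≤ k := by exact_mod_cast h5
    have h6' : (k : ℝ) + 2 ≤ D := by exact_mod_cast h6
    rw [hxN, hxN]
    have h7 : c ≤ (k : ℝ) / N := by
      rw [le_div_iff₀ hN0]
      linarith
    have h8 : (((k + 1 : ℤ) : ℝ)) / N ≤ d := by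
      rw [div_le_iff₀ hN0]
      push_cast
      linarith
    have h9 : (k : ℝ) / N ≤ ((k + 1 : ℤ) : ℝ) / N := by
      apply div_le_div_of_nonneg_right _ hN0.le
      push_cast
      linarith
    exact hF.m2.antitoneOn ⟨h7, h9.trans h8⟩ ⟨h7.trans h9, h8⟩ h9
  have hbey : ∀ m, e < m → m ≤ f → sn s * t < sn s * P.x m := by
    intro m h1 h2
    by_cases h3 : m ≤ C
    · have h4 := mono_up (fun i => sn s * P.x i) (e + 1) m (by omega)
        (fun k h5 h6 => hm1 k (by have := he.1; omega) (by omega))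
      exact lt_of_lt_of_le hce2 h4
    · have h4 : -(sn s * P.x m) ≤ -(sn s * P.x f) := mono_up (fun i => -(sn s * P.x i)) m f h2
        (fun k h5 h6 => neg_le_neg (hm2 k (by omega) (by have := hf.2; omega)))
      linarith
  have he1 : ((A : ℝ)) ≤ e := by exact_mod_cast he.1
  have he2 : (e : ℝ) + 1 ≤ C := by exact_mod_cast he.2
  have hf1 : ((C : ℝ)) ≤ f := by exact_mod_cast hf.1
  have hf2 : (f : ℝ) + 1 ≤ D := by exact_mod_cast hf.2
  by_cases hcase : c - ρ < (e : ℝ) / N ∧ (f : ℝ) / N < c + ρ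
  · -- near
    refine near hB P s o t e f (by have := he.2; have := hf.1; omega) (fun i hi1 hi2 => ?_) hbey
    have hi1' : (e : ℝ) ≤ i := by exact_mod_cast hi1
    have hi2' : (i : ℝ) + 1 ≤ f := by exact_mod_cast hi2
    have hlt : ((i : ℝ) + 1 / 2) / N < ((i : ℝ) + 1 + 1 / 2) / N := by
      apply div_lt_div_of_pos_right _ hN0
      linarith
    obtain ⟨ξ, hξ, hξ'⟩ := exists_deriv_eq_slope Λ.y hlt (dy Λ).continuous.continuousOn
      (dy Λ).differentiableOn
    have hξc : |ξ - c| < ε := by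
      rw [abs_lt]
      have q1 : (e : ℝ) / N < ξ := by
        refine lt_of_le_of_lt ?_ hξ.1
        apply div_le_div_of_nonneg_right _ hN0.le
        linarith
      have q2 : ξ < (f : ℝ) / N + 1 / N := by
        refine lt_of_lt_of_le hξ.2 ?_
        rw [← add_div]
        apply div_le_div_of_nonneg_right _ hN0.le
        linarith
      have q3 : 1 / (N : ℝ) < ε / 2 := by
        rw [div_lt_iff₀ hN0]
        linarith
      constructor
      · linarith [hcase.1]
      · linarith [hcase.2]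
    have h1 := hεc ξ hξc
    have hy2 : P.y (i + 1) - P.y i = deriv Λ.y ξ * (1 / N) -
        mu Λ N * (P.x (i + 2) - 2 * P.x (i + 1) + P.x i) := by
      rw [hyN, hyN, y1, y1, y0, y0, hξ', ← congrFun hP.1, ← congrFun hP.1, ← congrFun hP.1]
      have e1 : ((i : ℝ) + 1 + 1 / 2) / N - ((i : ℝ) + 1 / 2) / N = 1 / N := by ring
      have e2 : (((i + 1 : ℤ) : ℝ) + 1 / 2) / N = ((i : ℝ) + 1 + 1 / 2) / N := by
        push_cast
        ring
      have e3 : i + 1 + 1 = i + 2 := by ring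
      rw [e1, e2, e3, div_mul_cancel₀ _ (by positivity)]
      ring
    obtain ⟨-, -, -, h2, -⟩ := hest i
    have h3 : |mu Λ N * (P.x (i + 2) - 2 * P.x (i + 1) + P.x i)| ≤ K * (K / N ^ 2) := by
      rw [abs_mul]
      exact mul_le_mul hmu h2 (abs_nonneg _) hK.le
    have h4 : K * (K / (N : ℝ) ^ 2) < η * (1 / N) := by
      have e1 : K * (K / (N : ℝ) ^ 2) = K ^ 2 / N ^ 2 := by ring
      have e2 : η * (1 / (N : ℝ)) = η * N / N ^ 2 := by
        field_simp
      rw [e1, e2]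
      apply div_lt_div_of_pos_right hNη
      positivity
    have h5 : η * (1 / (N : ℝ)) < sn o * (sn s * deriv Λ.y ξ) * (1 / N) :=
      mul_lt_mul_of_pos_right h1 (by positivity)
    rw [hy2]
    have h6 := abs_le.1 h3
    rcases sn_or o with ho | ho <;> rcases sn_or s with hs | hs <;> rw [ho, hs] at h5 ⊢ <;>
      linarith [h6.1, h6.2]
  · -- far
    obtain ⟨u₁, hu₁⟩ : ∃ u, u = max a ((e : ℝ) / N) := ⟨_, rfl⟩
    obtain ⟨u₂, hu₂⟩ : ∃ u, u = max c ((f : ℝ) / N) := ⟨_, rfl⟩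
    have e1 : a - 1 / N ≤ (e : ℝ) / N := by
      rw [sub_le_iff_le_add, ← add_div, le_div_iff₀ hN0]
      linarith
    have e2 : (e : ℝ) / N ≤ c := by
      rw [div_le_iff₀ hN0]
      linarith
    have f1 : c - 1 / N ≤ (f : ℝ) / N := by
      rw [sub_le_iff_le_add, ← add_div, le_div_iff₀ hN0]
      linarith
    have f2 : (f : ℝ) / N ≤ d := by
      rw [div_le_iff₀ hN0]
      linarith
    have hac := hF.ac
    have hcd := hF.cd
    have hN' : 0 < 1 / (N : ℝ) := by positivity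
    have u11 : u₁ ∈ Icc a c := by
      rw [hu₁]
      exact ⟨le_max_left _ _, max_le hac.le e2⟩
    have u22 : u₂ ∈ Icc c d := by
      rw [hu₂]
      exact ⟨le_max_left _ _, max_le hcd.le f2⟩
    have d1 : |(e : ℝ) / N - u₁| ≤ 1 / N := by
      rw [hu₁, abs_le]
      rcases le_total a ((e : ℝ) / N) with h | h
      · rw [max_eq_right h]
        constructor <;> linarith
      · rw [max_eq_left h]
        constructor <;> linarith
    have d2 : |(f : ℝ) / N - u₂| ≤ 1 / N := by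
      rw [hu₂, abs_le]
      rcases le_total c ((f : ℝ) / N) with h | h
      · rw [max_eq_right h]
        constructor <;> linarith
      · rw [max_eq_left h]
        constructor <;> linarith
    have hfar' : u₁ ≤ c - ρ ∨ c + ρ ≤ u₂ := by
      rw [not_and_or, not_lt, not_lt] at hcase
      rcases hcase with h | h
      · left
        rw [hu₁]
        exact max_le (by linarith) h
      · right
        rw [hu₂]
        exact h.trans (le_max_right _ _)
    have hs1 : 1 / (N : ℝ) < δ₁ := by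
      rw [div_lt_iff₀ hN0]
      linarith
    have hs2 : 1 / (N : ℝ) < δ₂ := by
      rw [div_lt_iff₀ hN0]
      linarith
    have me : (e : ℝ) / N ∈ Icc (a - 1) (d + 1) := ⟨by linarith, by linarith⟩
    have mf : (f : ℝ) / N ∈ Icc (a - 1) (d + 1) := ⟨by linarith, by linarith⟩
    have mu1 : u₁ ∈ Icc (a - 1) (d + 1) := ⟨by linarith [u11.1], by linarith [u11.2]⟩
    have mu2 : u₂ ∈ Icc (a - 1) (d + 1) := ⟨by linarith [u22.1], by linarith [u22.2]⟩
    have x1 := abs_lt.1 (hux _ me _ mu1 (lt_of_le_of_lt d1 hs1))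
    have x2 := abs_lt.1 (hux _ mf _ mu2 (lt_of_le_of_lt d2 hs1))
    have z1 := abs_lt.1 (huz _ me _ mu1 (lt_of_le_of_lt d1 hs2))
    have z2 := abs_lt.1 (huz _ mf _ mu2 (lt_of_le_of_lt d2 hs2))
    rw [← hxN] at x1 x2
    obtain ⟨-, ze, xe, -, ye⟩ := hest e
    obtain ⟨-, zf, xf, -, yf⟩ := hest f
    -- the positions of the edges
    have hKN : K / (N : ℝ) + K * (K / N) < κ / 16 := by
      have h1 : K / (N : ℝ) + K * (K / N) = (K + K ^ 2) / N := by ring
      rw [h1, div_lt_iff₀ hN0]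
      linarith
    have hKN' : 0 < K * (K / (N : ℝ)) := by positivity
    have te : |t - P.x e| ≤ K / N := by
      have h1 := abs_le.1 xe
      rw [abs_le]
      rcases sn_or s with hs | hs <;> rw [hs] at hce1 hce2 <;> constructor <;>
        linarith [h1.1, h1.2]
    have tf : |t - P.x f| ≤ K / N := by
      have h1 := abs_le.1 xf
      rw [abs_le]
      rcases sn_or s with hs | hs <;> rw [hs] at hcf1 hcf2 <;> constructor <;>
        linarith [h1.1, h1.2]
    have le1 : |P.y e * (t - P.x e)| ≤ K * (K / N) := by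
      rw [abs_mul]
      exact mul_le_mul ye te (abs_nonneg _) hK.le
    have lf1 : |P.y f * (t - P.x f)| ≤ K * (K / N) := by
      rw [abs_mul]
      exact mul_le_mul yf tf (abs_nonneg _) hK.le
    have te' := abs_le.1 te
    have tf' := abs_le.1 tf
    have le2 := abs_le.1 le1
    have lf2 := abs_le.1 lf1
    have ze' := abs_le.1 ze
    have zf' := abs_le.1 zf
    rcases hfar u₁ u11 u₂ u22 hfar' with h | h
    · exfalso
      have h1 : |Λ.x u₁ - Λ.x u₂| < κ := by
        rw [abs_lt]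
        constructor <;> linarith [x1.1, x1.2, x2.1, x2.2, te'.1, te'.2, tf'.1, tf'.2]
      exact absurd h (not_le.2 h1)
    · rw [Pg.l, Pg.l]
      rcases sn_or o with ho | ho <;> rw [ho] at h ⊢ <;>
        linarith [z1.1, z1.2, z2.1, z2.2, le2.1, le2.2, lf2.1, lf2.2, ze'.1, ze'.2, zf'.1, zf'.2]

end LHE
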