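import Pool.Agent.LHE.Stmts1

/-!
# FGP: fingers of the polygons
-/

namespace LHE

open Set LG LH

namespace FGP

theorem cx (Λ : LC.LegKnot) : Continuous Λ.x :=
  continuous_fst.comp Λ.smooth.continuous

theorem cz (Λ : LC.LegKnot) : Continuous (zz Λ) :=
  (continuous_snd.comp continuous_snd).comp Λ.smooth.continuous

/-- The function which measures the gap. -/
noncomputable def H (Λ : LC.LegKnot) (s : Bool) (τ : ℝ) (p : ℝ × ℝ × ℝ) : ℝ :=
  max |Λ.x p.1 - Λ.x p.2.2| (max |Λ.x p.2.1 - Λ.x p.2.2| (max (τ - sn s * Λ.x p.2.2)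
    (max (zz Λ p.2.2 - max (zz Λ p.1) (zz Λ p.2.1)) (min (zz Λ p.1) (zz Λ p.2.1) - zz Λ p.2.2))))

theorem cH (Λ : LC.LegKnot) (s : Bool) (τ : ℝ) : Continuous (H Λ s τ) := by
  have h1 : Continuous fun p : ℝ × ℝ × ℝ => Λ.x p.1 := (cx Λ).comp continuous_fst
  have h2 : Continuous fun p : ℝ × ℝ × ℝ => Λ.x p.2.1 :=
    (cx Λ).comp (continuous_fst.comp continuous_snd)
  have h3 : Continuous fun p : ℝ × ℝ × ℝ => Λ.x p.2.2 :=
    (cx Λ).comp (continuous_snd.comp continuous_snd)
  have k1 : Continuous fun p : ℝ × ℝ × ℝ => zz Λ p.1 := (cz Λ).comp continuous_fst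
  have k2 : Continuous fun p : ℝ × ℝ × ℝ => zz Λ p.2.1 :=
    (cz Λ).comp (continuous_fst.comp continuous_snd)
  have k3 : Continuous fun p : ℝ × ℝ × ℝ => zz Λ p.2.2 :=
    (cz Λ).comp (continuous_snd.comp continuous_snd)
  exact (h1.sub h3).abs.max ((h2.sub h3).abs.max ((continuous_const.sub
    (continuous_const.mul h3)).max ((k3.sub (k1.max k2)).max ((k1.min k2).sub k3))))

theorem H_pos {Λ : LC.LegKnot} {s : Bool} {a c d τ : ℝ} (h : FgS Λ s a c d τ) :
    ∀ p ∈ Icc a c ×ˢ (Icc c d ×ˢ Icc d (a + 1)), 0 < H Λ s τ p := by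
  rintro ⟨u₁, u₂, u⟩ ⟨h1, h2, h3⟩
  by_contra hn
  rw [not_lt] at hn
  unfold H at hn
  simp only [max_le_iff] at hn
  obtain ⟨e1, e2, e3, e4, e5⟩ := hn
  have f1 := abs_nonpos_iff.1 e1
  have f2 := abs_nonpos_iff.1 e2
  refine h.gap u₁ h1 u₂ h2 u h3 (by linarith) (by linarith) (by linarith) ?_
  exact ⟨sub_nonpos.1 e5, sub_nonpos.1 e4⟩

theorem key {Λ : LC.LegKnot} {s : Bool} {a c d τ : ℝ} (h : FgS Λ s a c d τ) :
    ∃ κ > 0, ∀ u₁ ∈ Icc a c, ∀ u₂ ∈ Icc c d, ∀ u ∈ Icc d (a + 1), κ ≤ H Λ s τ (u₁, u₂, u) := by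
  have hc : IsCompact (Icc a c ×ˢ (Icc c d ×ˢ Icc d (a + 1))) :=
    isCompact_Icc.prod (isCompact_Icc.prod isCompact_Icc)
  obtain ⟨κ, h1, h2⟩ := hc.exists_forall_le' (cH Λ s τ).continuousOn (H_pos h)
  exact ⟨κ, h1, fun u₁ m1 u₂ m2 u m3 => h2 _ ⟨m1, m2, m3⟩⟩

/-- Uniform continuity on a compact interval. -/
theorem unif (Λ : LC.LegKnot) (a ε : ℝ) (hε : 0 < ε) : ∃ ρ > 0, ∀ u ∈ Icc (a - 2) (a + 3),
    ∀ v ∈ Icc (a - 2) (a + 3), |u - v| < ρ → |Λ.x u - Λ.x v| < ε ∧ |zz Λ u - zz Λ v| < ε := by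
  have h1 := isCompact_Icc.uniformContinuousOn_of_continuous
    ((cx Λ).continuousOn (s := Icc (a - 2) (a + 3)))
  have h2 := isCompact_Icc.uniformContinuousOn_of_continuous
    ((cz Λ).continuousOn (s := Icc (a - 2) (a + 3)))
  rw [Metric.uniformContinuousOn_iff] at h1 h2
  obtain ⟨ρ₁, r1, k1⟩ := h1 ε hε
  obtain ⟨ρ₂, r2, k2⟩ := h2 ε hε
  refine ⟨min ρ₁ ρ₂, lt_min r1 r2, fun u hu v hv huv => ?_⟩
  have m1 := k1 u hu v hv (by rw [Real.dist_eq]; exact huv.trans_le (min_le_left _ _))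
  have m2 := k2 u hu v hv (by rw [Real.dist_eq]; exact huv.trans_le (min_le_right _ _))
  rw [Real.dist_eq] at m1 m2
  exact ⟨m1, m2⟩

theorem abs_sn (s : Bool) (x : ℝ) : |sn s * x| = |x| := by
  rcases sn_or s with h | h
  · rw [h, one_mul]
  · rw [h, neg_one_mul, abs_neg]

/-- Monotone on an interval of integers from the successor steps. -/
theorem mono_int {f : ℤ → ℝ} {p q : ℤ} (h : ∀ i, p ≤ i → i < q → f i ≤ f (i + 1)) :
    MonotoneOn f (Icc p q) := by
  refine monotoneOn_of_le_add_one ordConnected_Icc fun i _ hi hi' => h i hi.1 ?_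
  have := hi'.2
  omega

theorem anti_int {f : ℤ → ℝ} {p q : ℤ} (h : ∀ i, p ≤ i → i < q → f (i + 1) ≤ f i) :
    AntitoneOn f (Icc p q) := by
  refine antitoneOn_of_add_one_le ordConnected_Icc fun i _ hi hi' => h i hi.1 ?_
  have := hi'.2
  omega

/-- The index is close to the parameter. -/
theorem near {A : ℤ} {a n : ℝ} (hn : 0 < n) (h : |(A : ℝ) - a * n| ≤ 1) :
    |(A : ℝ) / n - a| ≤ 1 / n := by
  have e : (A : ℝ) / n - a = ((A : ℝ) - a * n) / n := by
    field_simp
  rw [e, abs_div, abs_of_pos hn]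
  exact div_le_div_of_nonneg_right h hn.le

/-- The distance of the parameter of an edge from the corrected parameter. -/
theorem mx {e a n : ℝ} (hn : 0 < n) (h : a * n - 1 ≤ e) : |max a (e / n) - e / n| ≤ 1 / n := by
  have h1 : a - 1 / n ≤ e / n := by
    rw [sub_le_iff_le_add, ← add_div, le_div_iff₀ hn]
    linarith
  have h2 : (0 : ℝ) ≤ 1 / n := by positivity
  rcases max_cases a (e / n) with ⟨h3, h4⟩ | ⟨h3, h4⟩
  · rw [h3, abs_of_nonneg (by linarith)]
    linarith
  · rw [h3, sub_self, abs_zero]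
    exact h2

end FGP

theorem t_FGP : Stmt_FGP := by
  intro hEST Λ s a c d τ hF
  obtain ⟨K, hK, N₁, hN₁, hE⟩ := hEST Λ
  obtain ⟨κ, hκ, hH⟩ := FGP.key hF
  refine ⟨κ / (16 * (K + 1)), by positivity, fun δ hδ hδ' => ?_⟩
  have hδ1 : 2 * K * δ ≤ κ / 8 := by
    have h1 : 2 * K * δ ≤ 2 * (K + 1) * (κ / (16 * (K + 1))) :=
      mul_le_mul (by linarith) hδ' hδ.le (by positivity)
    have h2 : 2 * (K + 1) * (κ / (16 * (K + 1))) = κ / 8 := by
      field_simp
      ring
    linarith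
  have hδ2 : δ ≤ κ / 16 := by
    refine hδ'.trans ?_
    refine div_le_div_of_nonneg_left hκ.le (by norm_num) ?_
    linarith
  have hxa := hF.xa
  have hxd := hF.xd
  have hac := hF.ac
  have hcd := hF.cd
  have hda := hF.da
  obtain ⟨ρ, hρ, hU⟩ := FGP.unif Λ a
    (min (κ / 16) (min (τ - sn s * Λ.x a) (τ - sn s * Λ.x d)))
    (lt_min (by positivity) (lt_min (by linarith) (by linarith)))
  obtain ⟨N₂, hN₂⟩ := exists_nat_gt (max (1 / ρ) (max (16 * K / κ)
    (max (2 / (c - a)) (max (2 / (d - c)) (2 / (a + 1 - d))))))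
  refine ⟨max 1 (max N₁ N₂), fun N hN P hP A C D hI => ?_⟩
  have n1 : 1 ≤ N := (le_max_left _ _).trans hN
  have n2 : N₁ ≤ N := (le_max_left _ _).trans ((le_max_right _ _).trans hN)
  have n3 : N₂ ≤ N := (le_max_right _ _).trans ((le_max_right _ _).trans hN)
  have n1' : (1 : ℝ) ≤ N := by exact_mod_cast n1
  have n0 : (0 : ℝ) < N := by linarith
  have n3' : (N₂ : ℝ) ≤ N := by exact_mod_cast n3
  have hN' := hN₂.trans_le n3'
  simp only [max_lt_iff] at hN'
  obtain ⟨b1, b2, b3, b4, b5⟩ := hN'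
  rw [div_lt_iff₀ hρ] at b1
  rw [div_lt_iff₀ hκ] at b2
  rw [div_lt_iff₀ (by linarith)] at b3 b4 b5
  have hρN : 1 / (N : ℝ) < ρ := by
    rw [div_lt_iff₀ n0]
    linarith
  have h1N : 1 / (N : ℝ) ≤ 1 := by
    rw [div_le_one n0]
    exact n1'
  have hKN : K / N ≤ κ / 16 := by
    rw [div_le_iff₀ n0]
    linarith
  obtain ⟨-, hE2⟩ := hE N n2 P hP
  have px : ∀ i : ℤ, P.x i = Λ.x ((i : ℝ) / N) := by
    intro i
    rw [hP.1]
    rfl
  have iA := abs_le.1 hI.a
  have iC := abs_le.1 hI.c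
  have iD := abs_le.1 hI.d
  have AC : A < C := by
    have : (A : ℝ) < C := by linarith
    exact_mod_cast this
  have CD : C < D := by
    have : (C : ℝ) < D := by linarith
    exact_mod_cast this
  have DA : D ≤ A + N := by
    have : (D : ℝ) ≤ A + N := by linarith
    exact_mod_cast this
  have nA := FGP.near n0 hI.a
  have nD := FGP.near n0 hI.d
  have nA' := abs_le.1 nA
  have nD' := abs_le.1 nD
  -- the errors
  have err : ∀ u v : ℝ, u ∈ Icc (a - 2) (a + 3) → v ∈ Icc (a - 2) (a + 3) → |u - v| ≤ 1 / N →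
      |Λ.x u - Λ.x v| < min (κ / 16) (min (τ - sn s * Λ.x a) (τ - sn s * Λ.x d)) ∧
        |zz Λ u - zz Λ v| < min (κ / 16) (min (τ - sn s * Λ.x a) (τ - sn s * Λ.x d)) :=
    fun u v hu hv huv => hU u hu v hv (huv.trans_lt hρN)
  refine ⟨AC, CD, DA, ?_, ?_, ?_, ?_, ?_⟩
  · refine FGP.mono_int fun i hi hi' => ?_
    rcases eq_or_lt_of_le hi with e | h1
    · rw [← e]
      exact hI.xa
    · rcases eq_or_lt_of_le (Int.add_one_le_iff.2 hi') with e | h2
      · rw [e]
        have : i = C - 1 := by omega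
        rw [this]
        exact hI.xc
      · have g1 : ((A : ℝ) + 1) ≤ i := by exact_mod_cast h1
        have g2 : (i : ℝ) + 1 + 1 ≤ C := by exact_mod_cast h2
        rw [px, px]
        refine (hF.m1 ?_ ?_ ?_).le
        · constructor
          · rw [le_div_iff₀ n0]
            linarith
          · rw [div_le_iff₀ n0]
            linarith
        · constructor
          · rw [le_div_iff₀ n0]
            push_cast
            linarith
          · rw [div_le_iff₀ n0]
            push_cast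
            linarith
        · refine div_lt_div_of_pos_right ?_ n0
          push_cast
          linarith
  · refine FGP.anti_int fun i hi hi' => ?_
    rcases eq_or_lt_of_le hi with e | h1
    · rw [← e]
      exact hI.xc'
    · rcases eq_or_lt_of_le (Int.add_one_le_iff.2 hi') with e | h2
      · rw [e]
        have : i = D - 1 := by omega
        rw [this]
        exact hI.xd
      · have g1 : ((C : ℝ) + 1) ≤ i := by exact_mod_cast h1
        have g2 : (i : ℝ) + 1 + 1 ≤ D := by exact_mod_cast h2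
        rw [px, px]
        refine (hF.m2 ?_ ?_ ?_).le
        · constructor
          · rw [le_div_iff₀ n0]
            linarith
          · rw [div_le_iff₀ n0]
            linarith
        · constructor
          · rw [le_div_iff₀ n0]
            push_cast
            linarith
          · rw [div_le_iff₀ n0]
            push_cast
            linarith
        · refine div_lt_div_of_pos_right ?_ n0
          push_cast
          linarith
  · rw [px]
    have h1 := (err ((A : ℝ) / N) a ⟨by linarith, by linarith⟩ ⟨by linarith, by linarith⟩ nA).1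
    have h2 := h1.trans_le ((min_le_right _ _).trans (min_le_left _ _))
    rw [← FGP.abs_sn s, mul_sub] at h2
    have h3 := (abs_lt.1 h2).2
    linarith
  · rw [px]
    have h1 := (err ((D : ℝ) / N) d ⟨by linarith, by linarith⟩ ⟨by linarith, by linarith⟩ nD).1
    have h2 := h1.trans_le ((min_le_right _ _).trans (min_le_right _ _))
    rw [← FGP.abs_sn s, mul_sub] at h2
    have h3 := (abs_lt.1 h2).2
    linarith
  · intro t ht e₁ he₁ e₂ he₂ e he h1 h2 h3 hmem
    have c1 : (A : ℝ) ≤ e₁ := by exact_mod_cast he₁.1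
    have c1' : (e₁ : ℝ) + 1 ≤ C := by exact_mod_cast he₁.2
    have c2 : (C : ℝ) ≤ e₂ := by exact_mod_cast he₂.1
    have c2' : (e₂ : ℝ) + 1 ≤ D := by exact_mod_cast he₂.2
    have c3 : (D : ℝ) ≤ e := by exact_mod_cast he.1
    have c3' : (e : ℝ) + 1 ≤ A + N := by exact_mod_cast he.2
    -- general estimate for one edge
    have est : ∀ (f : ℤ) (b v : ℝ), a ≤ b → b ≤ d → b * N - 1 ≤ f → f ≤ (a + 1) * N →
        v = max b ((f : ℝ) / N) → |P.x f - t| < 2 * δ →
        |Λ.x v - t| < κ / 16 + 2 * δ ∧ |P.l f t - (zz Λ v - zz Λ 0)| < κ / 4 := by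
      intro f b v hab hbd hf hf' hv hft
      have m1 : |v - (f : ℝ) / N| ≤ 1 / N := by
        rw [hv]
        exact FGP.mx n0 hf
      have g1 : (f : ℝ) / N ≤ a + 1 := by
        rw [div_le_iff₀ n0]
        exact hf'
      have g2 := abs_le.1 m1
      have g3 : b ≤ v := by
        rw [hv]
        exact le_max_left _ _
      have g4 : v ≤ a + 1 := by
        rw [hv]
        exact max_le (by linarith) g1
      obtain ⟨q1, q2⟩ := err v ((f : ℝ) / N) ⟨by linarith, by linarith⟩
        ⟨by linarith, by linarith⟩ m1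
      have q1' := q1.trans_le (min_le_left _ _)
      have q2' := q2.trans_le (min_le_left _ _)
      constructor
      · have q3 := abs_add_le (Λ.x v - Λ.x ((f : ℝ) / N)) (P.x f - t)
        rw [px, sub_add_sub_cancel] at q3
        rw [px] at hft
        linarith
      · obtain ⟨-, q4, -, -, q5⟩ := hE2 f
        have q6 : P.l f t - (zz Λ v - zz Λ 0) = (P.z f - (zz Λ ((f : ℝ) / N) - zz Λ 0)) +
            (-(zz Λ v - zz Λ ((f : ℝ) / N))) + P.y f * (t - P.x f) := by
          unfold Pg.l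
          ring
        rw [q6]
        have q7 : |P.y f * (t - P.x f)| ≤ K * (2 * δ) := by
          rw [abs_mul, abs_sub_comm t]
          exact mul_le_mul q5 hft.le (abs_nonneg _) hK.le
        have q8 := abs_add_three (P.z f - (zz Λ ((f : ℝ) / N) - zz Λ 0))
          (-(zz Λ v - zz Λ ((f : ℝ) / N))) (P.y f * (t - P.x f))
        rw [abs_neg] at q8
        linarith
    obtain ⟨r1, r1'⟩ := est e₁ a _ le_rfl (by linarith) (by linarith) (by linarith) rfl h1
    obtain ⟨r2, r2'⟩ := est e₂ c _ (by linarith) (by linarith) (by linarith) (by linarith) rfl h2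
    obtain ⟨r3, r3'⟩ := est e d _ (by linarith) le_rfl (by linarith) (by linarith) rfl h3
    have m1 : max a ((e₁ : ℝ) / N) ∈ Icc a c :=
      ⟨le_max_left _ _, max_le (by linarith) (by rw [div_le_iff₀ n0]; linarith)⟩
    have m2 : max c ((e₂ : ℝ) / N) ∈ Icc c d :=
      ⟨le_max_left _ _, max_le (by linarith) (by rw [div_le_iff₀ n0]; linarith)⟩
    have m3 : max d ((e : ℝ) / N) ∈ Icc d (a + 1) :=
      ⟨le_max_left _ _, max_le (by linarith) (by rw [div_le_iff₀ n0]; linarith)⟩
    have hh := hH _ m1 _ m2 _ m3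
    set v₁ := max a ((e₁ : ℝ) / N)
    set v₂ := max c ((e₂ : ℝ) / N)
    set v := max d ((e : ℝ) / N)
    have hl : min (P.l e₁ t) (P.l e₂ t) ≤ P.l e t := hmem.1
    have hu : P.l e t ≤ max (P.l e₁ t) (P.l e₂ t) := hmem.2
    have a1 := abs_lt.1 r1'
    have a2 := abs_lt.1 r2'
    have a3 := abs_lt.1 r3'
    have x1 := abs_lt.1 r1
    have x2 := abs_lt.1 r2
    have x3 := abs_lt.1 r3
    have y1 : |Λ.x v₁ - Λ.x v| < κ := by
      rw [abs_lt]
      constructor <;> linarith
    have y2 : |Λ.x v₂ - Λ.x v| < κ := by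
      rw [abs_lt]
      constructor <;> linarith
    have y3 : τ - sn s * Λ.x v < κ := by
      have := r3
      rw [← FGP.abs_sn s, mul_sub] at this
      have h4 := (abs_lt.1 this).1
      linarith
    have y4 : zz Λ v - max (zz Λ v₁) (zz Λ v₂) < κ := by
      have l1 := le_max_left (zz Λ v₁) (zz Λ v₂)
      have l2 := le_max_right (zz Λ v₁) (zz Λ v₂)
      rcases le_max_iff.1 hu with h | h <;> linarith
    have y5 : min (zz Λ v₁) (zz Λ v₂) - zz Λ v < κ := by
      have l1 := min_le_left (zz Λ v₁) (zz Λ v₂)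
      have l2 := min_le_right (zz Λ v₁) (zz Λ v₂)
      rcases min_le_iff.1 hl with h | h <;> linarith
    unfold FGP.H at hh
    simp only at hh
    exact absurd hh (not_le.2 (max_lt y1 (max_lt y2 (max_lt y3 (max_lt y4 y5)))))

end LHE
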