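import Pool.Agent.LHE.Stmts1

/-!
# The first finger of a chain of items
-/

namespace LHE

open Set LG LH

namespace FNG

variable {N : ℕ}

/-- Adjacent lines, the second one comes after the first one in the direction `s`. -/
def AdjU (X : Finset ℝ) (s : Bool) (a b : ℝ) : Prop := if s then AdjX X a b else AdjX X b a

theorem AdjU_not {X : Finset ℝ} {s : Bool} {a b : ℝ} : AdjU X (!s) a b ↔ AdjU X s b a := by
  cases s <;> simp [AdjU]

theorem adjX_right {X : Finset ℝ} {a b b' : ℝ} (h : AdjX X a b) (h' : AdjX X a b') : b = b' := by
  obtain ⟨-, hb, hab, hn⟩ := h
  obtain ⟨-, hb', hab', hn'⟩ := h'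
  rcases lt_trichotomy b b' with hl | hl | hl
  · exact absurd ⟨hab, hl⟩ (hn' b hb)
  · exact hl
  · exact absurd ⟨hab', hl⟩ (hn b' hb')

theorem adjX_left {X : Finset ℝ} {a a' b : ℝ} (h : AdjX X a b) (h' : AdjX X a' b) : a = a' := by
  obtain ⟨ha, -, hab, hn⟩ := h
  obtain ⟨ha', -, hab', hn'⟩ := h'
  rcases lt_trichotomy a a' with hl | hl | hl
  · exact absurd ⟨hl, hab'⟩ (hn a' ha')
  · exact hl
  · exact absurd ⟨hl, hab⟩ (hn' a ha)

theorem AdjU_right {X : Finset ℝ} {s : Bool} {a b b' : ℝ} (h : AdjU X s a b)
    (h' : AdjU X s a b') : b = b' := by
  cases s
  · exact adjX_left (by simpa [AdjU] using h) (by simpa [AdjU] using h')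
  · exact adjX_right (by simpa [AdjU] using h) (by simpa [AdjU] using h')

theorem AdjU_left {X : Finset ℝ} {s : Bool} {a a' b : ℝ} (h : AdjU X s a b)
    (h' : AdjU X s a' b) : a = a' := by
  cases s
  · exact adjX_right (by simpa [AdjU] using h) (by simpa [AdjU] using h')
  · exact adjX_left (by simpa [AdjU] using h) (by simpa [AdjU] using h')

theorem AdjU_mem {X : Finset ℝ} {s : Bool} {a b : ℝ} (h : AdjU X s a b) : a ∈ X ∧ b ∈ X := by
  cases s
  · have h' : AdjX X b a := by simpa [AdjU] using h
    exact ⟨h'.2.1, h'.1⟩
  · have h' : AdjX X a b := by simpa [AdjU] using h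
    exact ⟨h'.1, h'.2.1⟩

theorem AdjU_ne {P : Pg N} {X : Finset ℝ} (hX : GoodX P X) {s : Bool} {a b : ℝ}
    (h : AdjU X s a b) (m : ℤ) : P.x m ≠ a ∧ P.x m ≠ b := by
  cases s
  · have h' : AdjX X b a := by simpa [AdjU] using h
    exact ⟨((hX.gd _ _ h').av m).2, ((hX.gd _ _ h').av m).1⟩
  · have h' : AdjX X a b := by simpa [AdjU] using h
    exact (hX.gd _ _ h').av m

/-- A step in the direction `s`. -/
theorem step {P : Pg N} {X : Finset ℝ} {s : Bool} {i j : It} (h : Lnk P X i j)
    (hi : i.k = pass s ∨ i.k = turn (!s)) :
    sn s * i.t < sn s * j.t ∧ (j.k = pass s ∨ j.k = turn s) ∧ AdjU X s i.t j.t ∧ i.e ≤ j.e ∧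
      ∀ m, i.e < m → m ≤ j.e → sn s * i.t < sn s * P.x m ∧ sn s * P.x m < sn s * j.t := by
  cases s
  · -- to the left
    have hfw : ¬ i.k.fw := by
      rcases hi with hi | hi
      · rw [hi]; simp [pass, Kd.fw]
      · rw [hi]; simp [turn, Kd.fw]
    have hdir : ¬ j.k.ar ∧ j.t < i.t := by
      rcases h.dir with hd | hd
      · exact absurd hd.1 hfw
      · exact ⟨hd.2.1, hd.2.2⟩
    have hk : j.k = pass false ∨ j.k = turn false := by
      have h1 := hdir.1
      cases hjk : j.k <;> simp [pass, turn] <;> rw [hjk] at h1 <;> simp [Kd.ar] at h1
    have hadj : AdjX X j.t i.t := by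
      rcases h.adj with ha | ha
      · exact absurd ha.2.2.1 (not_lt.2 hdir.2.le)
      · exact ha
    refine ⟨by rw [sn_false]; linarith [hdir.2], hk, by simpa [AdjU] using hadj, h.le, ?_⟩
    intro m h1 h2
    rcases h.ins m h1 h2 with hb | hb
    · exact absurd (hb.1.trans hb.2) (not_lt.2 hdir.2.le)
    · rw [sn_false]
      constructor <;> linarith [hb.1, hb.2]
  · have hfw : i.k.fw := by
      rcases hi with hi | hi
      · rw [hi]; simp [pass, Kd.fw]
      · rw [hi]; simp [turn, Kd.fw]
    have hdir : j.k.ar ∧ i.t < j.t := by
      rcases h.dir with hd | hd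
      · exact ⟨hd.2.1, hd.2.2⟩
      · exact absurd hfw hd.1
    have hk : j.k = pass true ∨ j.k = turn true := by
      have h1 := hdir.1
      cases hjk : j.k <;> simp [pass, turn] <;> rw [hjk] at h1 <;> simp [Kd.ar] at h1
    have hadj : AdjX X i.t j.t := by
      rcases h.adj with ha | ha
      · exact ha
      · exact absurd ha.2.2.1 (not_lt.2 hdir.2.le)
    refine ⟨by rw [sn_true]; linarith [hdir.2], hk, by simpa [AdjU] using hadj, h.le, ?_⟩
    intro m h1 h2
    rcases h.ins m h1 h2 with hb | hb
    · rw [sn_true]
      constructor <;> linarith [hb.1, hb.2]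
    · exact absurd (hb.1.trans hb.2) (not_lt.2 hdir.2.le)

/-- A passing item crosses its line. -/
theorem crs {P : Pg N} {s : Bool} {i : It} (h : ItOK P i) (hi : i.k = pass s) :
    Crs P s i.t i.e := by
  cases s
  · have h1 := h.2 (by simpa [pass] using hi)
    unfold Crs
    rw [sn_false]
    constructor <;> linarith [h1.1, h1.2]
  · have h1 := h.1 (by simpa [pass] using hi)
    unfold Crs
    rw [sn_true]
    constructor <;> linarith [h1.1, h1.2]

theorem crs_not {P : Pg N} {s : Bool} {i : It} (h : ItOK P i) (hi : i.k = pass (!s)) :
    sn s * P.x (i.e + 1) < sn s * i.t ∧ sn s * i.t < sn s * P.x i.e := by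
  have h1 := crs h hi
  unfold Crs at h1
  rw [sn_not] at h1
  constructor <;> linarith [h1.1, h1.2]

theorem tn_turn (s : Bool) {i : It} (h : i.k = turn s) : Tn i := by
  cases s
  · right; simpa [turn] using h
  · left; simpa [turn] using h

/-- The edges along a chain are nondecreasing. -/
theorem le_of_chain {P : Pg N} {X : Finset ℝ} (F : List It) (j : It) (l : List It)
    (h : List.IsChain (Lnk P X) (F ++ j :: l)) : ∀ x ∈ F, x.e ≤ j.e := by
  induction F with
  | nil => intro x hx; exact absurd hx (List.not_mem_nil)
  | cons a F ih =>
    intro x hx
    have h' : List.IsChain (Lnk P X) (F ++ j :: l) := by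
      rw [List.cons_append] at h
      exact h.tail
    rcases List.mem_cons.1 hx with rfl | hx
    · cases F with
      | nil =>
        rw [List.cons_append, List.nil_append] at h
        exact (List.isChain_cons_cons.1 h).1.le
      | cons b F =>
        rw [List.cons_append, List.cons_append] at h
        exact ((List.isChain_cons_cons.1 h).1.le).trans (ih h' b (List.mem_cons_self))
    · exact ih h' x hx

end FNG

open FNG in
theorem t_FNG : Stmt_FNG := by
  intro N P X s A C D hX hAC hCD hm1 hm2 i l
  induction hn : l.length using Nat.strong_induction_on generalizing i l with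
  | _ n IH =>
    intro hch hok hnt hik hie hit hxD hex
    -- the first element
    cases l with
    | nil =>
      obtain ⟨j, hj, -⟩ := hex
      exact absurd hj List.not_mem_nil
    | cons j l1 =>
      have hij : Lnk P X i j := (List.isChain_cons_cons.1 hch).1
      have hch1 : List.IsChain (Lnk P X) (j :: l1) := (List.isChain_cons_cons.1 hch).2
      have hnt1 : List.IsChain (fun i j => ¬ (Tn i ∧ Tn j)) (j :: l1) :=
        (List.isChain_cons_cons.1 hnt).2
      have hokj : ItOK P j := hok j (by simp)
      obtain ⟨htt, hjk, hadj, hle, hver⟩ := step hij (Or.inl hik)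
      have hjX : j.t ∈ X := (AdjU_mem hadj).2
      have hDj : j.e < D := by
        by_contra hcon
        have := (hver D (lt_trans hie.2 hCD) (not_lt.1 hcon)).1
        linarith
      -- the next element exists
      have hex1 : ∃ x ∈ l1, D ≤ x.e := by
        obtain ⟨x, hx, hxe⟩ := hex
        rcases List.mem_cons.1 hx with rfl | hx
        · omega
        · exact ⟨x, hx, hxe⟩
      rcases lt_or_gt_of_ne (fun h : sn s * P.x C = sn s * j.t => by
          have : P.x C = j.t := by
            rcases sn_or s with h1 | h1 <;> rw [h1] at h <;> linarith
          exact (AdjU_ne hX hadj C).2 this) with hC | hC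
      · -- the tip is before the next line
        rcases hjk with hjk | hjk
        · -- passing: impossible
          exfalso
          have hc := crs hokj hjk
          have h1 : A ≤ j.e := hie.1.trans hle
          rcases lt_or_ge j.e C with h2 | h2
          · have := hm1 (show j.e + 1 ∈ Icc A C from ⟨by omega, by omega⟩)
              (show C ∈ Icc A C from ⟨hAC.le, le_rfl⟩) (by omega)
            have h3 : sn s * P.x (j.e + 1) ≤ sn s * P.x C := this
            linarith [hc.2]
          · have := hm2 (show C ∈ Icc C D from ⟨le_rfl, hCD.le⟩)
              (show j.e + 1 ∈ Icc C D from ⟨by omega, by omega⟩) (by omega)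
            have h3 : sn s * P.x (j.e + 1) ≤ sn s * P.x C := this
            linarith [hc.2]
        · -- a turn
          cases l1 with
          | nil =>
            obtain ⟨x, hx, -⟩ := hex1
            exact absurd hx List.not_mem_nil
          | cons k l2 =>
            have hjkl : Lnk P X j k := (List.isChain_cons_cons.1 hch1).1
            have hntk : ¬ Tn k := fun h =>
              (List.isChain_cons_cons.1 hnt1).1 ⟨tn_turn s hjk, h⟩
            have hokk : ItOK P k := hok k (by simp)
            obtain ⟨htt2, hkk, hadj2, hle2, hver2⟩ :=
              step (s := !s) hjkl (Or.inr (by rw [Bool.not_not]; exact hjk))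
            have hkt : k.t = i.t := by
              have h1 : AdjU X s k.t j.t := AdjU_not.1 hadj2
              exact AdjU_left h1 hadj
            have hkp : k.k = pass (!s) := by
              rcases hkk with h | h
              · exact h
              · exact absurd (tn_turn _ h) hntk
            have hkD : k.e < D := by
              by_contra hcon
              have := (hver2 D hDj (not_lt.1 hcon)).2
              rw [sn_not, hkt] at this
              linarith
            have hcr := crs_not hokk hkp
            have hkC : C ≤ k.e := by
              by_contra hcon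
              have h1 := hm1 (show k.e ∈ Icc A C from ⟨by have := hie.1; omega, by omega⟩)
                (show k.e + 1 ∈ Icc A C from ⟨by have := hie.1; omega, by omega⟩) (by omega)
              have h3 : sn s * P.x k.e ≤ sn s * P.x (k.e + 1) := h1
              linarith [hcr.1, hcr.2]
            refine ⟨[j], k, l2, rfl, hkp, hkt, ⟨hkC, hkD⟩, ?_⟩
            have h1 := FI.tip (P := P) (s := s) (A := A) (C := C) (D := D) (X := X) i.t j.t j.e htt
            have h2 : j = ⟨turn s, j.t, j.e⟩ := by rw [← hjk]
            rw [h2]
            exact h1
      · -- the tip is beyond the next line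
        have hjC : j.e < C := by
          by_contra hcon
          have := (hver C hie.2 (not_lt.1 hcon)).2
          linarith
        rcases hjk with hjk | hjk
        · -- passing: induction
          have hIH := IH l1.length (by rw [← hn]; simp) j l1 rfl hch1
            (fun x hx => hok x (List.mem_cons_of_mem _ hx)) hnt1 hjk
            ⟨hie.1.trans hle, hjC⟩ hjX (by linarith) hex1
          obtain ⟨F', j', l'', hl1, hj'k, hj't, hj'e, hFI⟩ := hIH
          have hch2 : List.IsChain (Lnk P X) (j' :: l'') := by
            rw [hl1] at hch1
            exact (List.isChain_append.1 (show List.IsChain (Lnk P X)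
              ((j :: F') ++ (j' :: l'')) from hch1)).2.1
          have hnt2 : List.IsChain (fun i j => ¬ (Tn i ∧ Tn j)) (j' :: l'') := by
            rw [hl1] at hnt1
            exact (List.isChain_append.1 (show List.IsChain (fun i j => ¬ (Tn i ∧ Tn j))
              ((j :: F') ++ (j' :: l'')) from hnt1)).2.1
          have hex2 : ∃ x ∈ l'', D ≤ x.e := by
            obtain ⟨x, hx, hxe⟩ := hex1
            rw [hl1] at hx
            rcases List.mem_append.1 hx with hx | hx
            · have := le_of_chain F' j' l'' (by rw [← hl1]; exact hch1.tail) x hx
              have := hj'e.2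
              omega
            · rcases List.mem_cons.1 hx with rfl | hx
              · have := hj'e.2
                omega
              · exact ⟨x, hx, hxe⟩
          cases l'' with
          | nil =>
            obtain ⟨x, hx, -⟩ := hex2
            exact absurd hx List.not_mem_nil
          | cons k l3 =>
            have hok2 : ∀ x ∈ k :: l3, ItOK P x := fun x hx =>
              hok x (by
                rw [hl1]
                exact List.mem_cons_of_mem _ (List.mem_cons_of_mem _
                  (List.mem_append_right _ (List.mem_cons_of_mem _ hx))))
            have hjk2 : Lnk P X j' k := (List.isChain_cons_cons.1 hch2).1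
            obtain ⟨htt2, hkk, hadj2, hle2, hver2⟩ := step (s := !s) hjk2 (Or.inl hj'k)
            have hkt : k.t = i.t := by
              have h1 : AdjU X s k.t j'.t := AdjU_not.1 hadj2
              rw [hj't] at h1
              exact AdjU_left h1 hadj
            have hkD : k.e < D := by
              by_contra hcon
              have := (hver2 D hj'e.2 (not_lt.1 hcon)).2
              rw [sn_not, hkt] at this
              linarith
            rcases hkk with hkk | hkk
            · refine ⟨j :: F' ++ [j'], k, l3, ?_, hkk, hkt, ⟨hj'e.1.trans hle2, hkD⟩, ?_⟩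
              · rw [hl1]; simp
              · have h2 : j = ⟨pass s, j.t, j.e⟩ := by rw [← hjk]
                have h3 : j' = ⟨pass (!s), j.t, j'.e⟩ := by rw [← hj'k, ← hj't]
                rw [h2, h3]
                have hc := crs hokj hjk
                have hokj' : ItOK P j' := hok j' (by rw [hl1]; simp)
                have hc' := crs hokj' hj'k
                rw [hj't] at hc'
                exact FI.step i.t j.t j.e j'.e F' htt hjX ⟨hie.1.trans hle, hjC⟩ hj'e hc hc' hFI
            · -- a turn: contradiction
              exfalso
              cases l3 with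
              | nil =>
                obtain ⟨x, hx, hxe⟩ := hex2
                rcases List.mem_cons.1 hx with rfl | hx
                · omega
                · exact absurd hx List.not_mem_nil
              | cons g l4 =>
                have hch3 := (List.isChain_cons_cons.1 hch2).2
                have hnt3 := (List.isChain_cons_cons.1 hnt2).2
                have hkg : Lnk P X k g := (List.isChain_cons_cons.1 hch3).1
                have hntg : ¬ Tn g := fun h =>
                  (List.isChain_cons_cons.1 hnt3).1 ⟨tn_turn _ hkk, h⟩
                obtain ⟨htt4, hgk, hadj4, hle4, hver4⟩ := step (s := s) hkg (Or.inr hkk)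
                have hgp : g.k = pass s := by
                  rcases hgk with h | h
                  · exact h
                  · exact absurd (tn_turn _ h) hntg
                have hgD : g.e < D := by
                  by_contra hcon
                  have := (hver4 D hkD (not_lt.1 hcon)).1
                  rw [hkt] at this
                  linarith
                have hcg := crs (hok2 g (by simp)) hgp
                have h5 : C ≤ g.e := hj'e.1.trans (hle2.trans hle4)
                have h1 := hm2 (show g.e ∈ Icc C D from ⟨h5, hgD.le⟩)
                  (show g.e + 1 ∈ Icc C D from ⟨by omega, by omega⟩) (by omega)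
                have h3 : sn s * P.x (g.e + 1) ≤ sn s * P.x g.e := h1
                linarith [hcg.1, hcg.2]
        · -- a turn: contradiction
          exfalso
          cases l1 with
          | nil =>
            obtain ⟨x, hx, -⟩ := hex1
            exact absurd hx List.not_mem_nil
          | cons k l2 =>
            have hjkl : Lnk P X j k := (List.isChain_cons_cons.1 hch1).1
            have hntk : ¬ Tn k := fun h =>
              (List.isChain_cons_cons.1 hnt1).1 ⟨tn_turn s hjk, h⟩
            have hokk : ItOK P k := hok k (by simp)
            obtain ⟨htt2, hkk, hadj2, hle2, hver2⟩ :=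
              step (s := !s) hjkl (Or.inr (by rw [Bool.not_not]; exact hjk))
            have hkp : k.k = pass (!s) := by
              rcases hkk with h | h
              · exact h
              · exact absurd (tn_turn _ h) hntk
            have hkC : k.e < C := by
              by_contra hcon
              have := (hver2 C hjC (not_lt.1 hcon)).1
              rw [sn_not] at this
              linarith
            have hcr := crs_not hokk hkp
            have h1 := hm1 (show k.e ∈ Icc A C from ⟨by have := hie.1; omega, by omega⟩)
              (show k.e + 1 ∈ Icc A C from ⟨by have := hie.1; omega, by omega⟩) (by omega)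
            have h3 : sn s * P.x k.e ≤ sn s * P.x (k.e + 1) := h1
            linarith [hcr.1, hcr.2]

end LHE
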