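import Pool.Agent.LHE.Stmts1

/-!
# Stabilised knots: retraction of a finger (FRT)
-/

namespace LHE

open Set LG LH

namespace FRT

theorem core (hRET : P_RET) (hWEB : P_WEB) (hCWA : P_CWA) (s o : Bool) (w₀ : List Pt)
    (t : ℝ) (F : List Pt) (hF : PF s (AO w₀ o) t F) :
    ∀ (r : List Pt) (h₁ h₂ : ℝ),
      (∀ p ∈ (⟨pass s, t, h₁⟩ :: (F ++ ⟨pass (!s), t, h₂⟩ :: r) : List Pt), p ∈ w₀) →
      CW (⟨pass s, t, h₁⟩ :: (F ++ ⟨pass (!s), t, h₂⟩ :: r)) → sn o * h₂ < sn o * h₁ →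
      ∃ t' h', up s t t' ∧ CW (⟨pass s, t, h₁⟩ :: ⟨turn s, t', h'⟩ :: ⟨pass (!s), t, h₂⟩ :: r) ∧
        WE (ents (⟨pass s, t, h₁⟩ :: (F ++ ⟨pass (!s), t, h₂⟩ :: r)))
          (ents (⟨pass s, t, h₁⟩ :: ⟨turn s, t', h'⟩ :: ⟨pass (!s), t, h₂⟩ :: r)) := by
  induction hF with
  | tip t t' h hup =>
    intro r h₁ h₂ _ hC _
    refine ⟨t', h, hup, ?_, ?_⟩
    · simpa using hC
    · have h1 : CW (⟨pass s, t, h₁⟩ :: ⟨turn s, t', h⟩ :: ⟨pass (!s), t, h₂⟩ :: r) := by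
        simpa using hC
      have h2 := hWEB.refl _ (hCWA.alt _ h1) h1.nd
      simpa using h2
  | step t t' k₁ k₂ F' hup hV hF' ih =>
    intro r h₁ h₂ hsub hC ho
    -- the rotated walk
    have e1 : (⟨pass s, t, h₁⟩ :: ((⟨pass s, t', k₁⟩ :: F' ++ [⟨pass (!s), t', k₂⟩]) ++
        ⟨pass (!s), t, h₂⟩ :: r) : List Pt) =
        [⟨pass s, t, h₁⟩] ++ (⟨pass s, t', k₁⟩ :: (F' ++ ⟨pass (!s), t', k₂⟩ ::
          ⟨pass (!s), t, h₂⟩ :: r)) := by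
      simp
    have e2 : ((⟨pass s, t', k₁⟩ :: (F' ++ ⟨pass (!s), t', k₂⟩ ::
          ⟨pass (!s), t, h₂⟩ :: r)) ++ [⟨pass s, t, h₁⟩] : List Pt) =
        ⟨pass s, t', k₁⟩ :: (F' ++ ⟨pass (!s), t', k₂⟩ ::
          (⟨pass (!s), t, h₂⟩ :: (r ++ [⟨pass s, t, h₁⟩]))) := by
      simp
    rw [e1] at hC
    obtain ⟨hC1, hW1⟩ := hCWA.rot _ _ hC
    rw [e2] at hC1 hW1
    have hsub1 : ∀ p ∈ (⟨pass s, t', k₁⟩ :: (F' ++ ⟨pass (!s), t', k₂⟩ ::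
          (⟨pass (!s), t, h₂⟩ :: (r ++ [⟨pass s, t, h₁⟩]))) : List Pt), p ∈ w₀ := by
      intro p hp
      apply hsub
      simp only [List.mem_cons, List.mem_append, List.not_mem_nil, or_false] at hp ⊢
      tauto
    obtain ⟨t'', h'', hup', hC2, hW2⟩ := ih _ k₁ k₂ hsub1 hC1 hV.2
    have e3 : (⟨pass s, t', k₁⟩ :: ⟨turn s, t'', h''⟩ :: ⟨pass (!s), t', k₂⟩ ::
          (⟨pass (!s), t, h₂⟩ :: (r ++ [⟨pass s, t, h₁⟩])) : List Pt) =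
        (⟨pass s, t', k₁⟩ :: ⟨turn s, t'', h''⟩ :: ⟨pass (!s), t', k₂⟩ ::
          ⟨pass (!s), t, h₂⟩ :: r) ++ [⟨pass s, t, h₁⟩] := by
      simp
    rw [e3] at hC2 hW2
    obtain ⟨hC3, hW3⟩ := hCWA.rot _ _ hC2
    have e4 : ([⟨pass s, t, h₁⟩] ++ (⟨pass s, t', k₁⟩ :: ⟨turn s, t'', h''⟩ ::
          ⟨pass (!s), t', k₂⟩ :: ⟨pass (!s), t, h₂⟩ :: r) : List Pt) =
        ⟨pass s, t, h₁⟩ :: ⟨pass s, t', k₁⟩ :: ⟨turn s, t'', h''⟩ ::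
          ⟨pass (!s), t', k₂⟩ :: ⟨pass (!s), t, h₂⟩ :: r := rfl
    rw [e4] at hC3 hW3
    have hAO : AO (⟨pass s, t, h₁⟩ :: ⟨pass s, t', k₁⟩ :: ⟨turn s, t'', h''⟩ ::
          ⟨pass (!s), t', k₂⟩ :: ⟨pass (!s), t, h₂⟩ :: r) o t' k₁ k₂ := by
      refine ⟨?_, hV.2⟩
      intro p hp hpt
      by_cases hpu : p = ⟨turn s, t'', h''⟩
      · exfalso
        subst hpu
        have h1 : t'' = t' := hpt
        have h2 : sn s * t' < sn s * t'' := hup'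
        rw [h1] at h2
        exact lt_irrefl _ h2
      · refine hV.1 p ?_ hpt
        apply hsub
        simp only [List.mem_cons, List.mem_append, List.not_mem_nil, or_false] at hp ⊢
        tauto
    obtain ⟨hC4, hW4⟩ := hRET s o t t' t'' h₁ h₂ k₁ k₂ h'' r _ rfl hC3 hAO ho
    refine ⟨t', k₁, hup, hC4, ?_⟩
    rw [e1]
    exact hWEB.trans _ _ _ hW1 (hWEB.trans _ _ _ hW2 (hWEB.trans _ _ _ hW3 hW4))

end FRT

theorem t_FRT : Stmt_FRT := by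
  intro hRET hWEB hCWA s o w F r t h₁ h₂ hw hC hF ho
  subst hw
  exact FRT.core hRET hWEB hCWA s o _ t F hF r h₁ h₂ (fun p hp => hp) hC ho

end LHE
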