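import Pool.Agent.LHE.Stmts1

/-!
# IDX: the choice of the indices
-/

namespace LHE

open Set LG LH

namespace IDX

theorem mono_step {g : ℝ → ℝ} {a c : ℝ} {N : ℕ} (hN : 0 < N) (h : MonotoneOn g (Icc a c))
    {i j : ℤ} (hij : i ≤ j) (hi : a * N ≤ i) (hj : (j : ℝ) ≤ c * N) :
    g ((i : ℝ) / N) ≤ g ((j : ℝ) / N) := by
  have hN' : (0 : ℝ) < N := by exact_mod_cast hN
  have hij' : (i : ℝ) ≤ j := by exact_mod_cast hij
  have h1 : (i : ℝ) / N ≤ (j : ℝ) / N := div_le_div_of_nonneg_right hij' hN'.le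
  have h2 : a ≤ (i : ℝ) / N := by rwa [le_div_iff₀ hN']
  have h3 : (j : ℝ) / N ≤ c := by rwa [div_le_iff₀ hN']
  exact h ⟨h2, h1.trans h3⟩ ⟨h2.trans h1, h3⟩ h1

theorem anti_step {g : ℝ → ℝ} {a c : ℝ} {N : ℕ} (hN : 0 < N) (h : AntitoneOn g (Icc a c))
    {i j : ℤ} (hij : i ≤ j) (hi : a * N ≤ i) (hj : (j : ℝ) ≤ c * N) :
    g ((j : ℝ) / N) ≤ g ((i : ℝ) / N) := by
  have hN' : (0 : ℝ) < N := by exact_mod_cast hN
  have hij' : (i : ℝ) ≤ j := by exact_mod_cast hij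
  have h1 : (i : ℝ) / N ≤ (j : ℝ) / N := div_le_div_of_nonneg_right hij' hN'.le
  have h2 : a ≤ (i : ℝ) / N := by rwa [le_div_iff₀ hN']
  have h3 : (j : ℝ) / N ≤ c := by rwa [div_le_iff₀ hN']
  exact h ⟨h2, h1.trans h3⟩ ⟨h2.trans h1, h3⟩ h1

theorem tip {g : ℝ → ℝ} {a c d : ℝ} {N : ℕ} (hN : 0 < N) (h1 : MonotoneOn g (Icc a c))
    (h2 : AntitoneOn g (Icc c d)) (hac : 2 ≤ (c - a) * N) (hcd : 2 ≤ (d - c) * N) :
    ∃ C : ℤ, |(C : ℝ) - c * N| ≤ 1 ∧ g (((C - 1 : ℤ) : ℝ) / N) ≤ g ((C : ℝ) / N) ∧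
      g (((C + 1 : ℤ) : ℝ) / N) ≤ g ((C : ℝ) / N) := by
  have hf1 : ((⌊c * N⌋ : ℤ) : ℝ) ≤ c * N := Int.floor_le _
  have hf2 : c * N < (⌊c * N⌋ : ℤ) + 1 := Int.lt_floor_add_one _
  generalize ⌊c * (N : ℝ)⌋ = C₀ at hf1 hf2
  by_cases hc : g (((C₀ + 1 : ℤ) : ℝ) / N) ≤ g ((C₀ : ℝ) / N)
  · refine ⟨C₀, ?_, ?_, hc⟩
    · rw [abs_le]; constructor <;> linarith
    · refine mono_step hN h1 (by omega) ?_ hf1
      push_cast
      linarith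
  · refine ⟨C₀ + 1, ?_, ?_, ?_⟩
    · push_cast
      rw [abs_le]; constructor <;> linarith
    · have : C₀ + 1 - 1 = C₀ := by omega
      rw [this]
      exact (not_le.1 hc).le
    · refine anti_step hN h2 (by omega) ?_ ?_
      · push_cast
        linarith
      · push_cast
        linarith

end IDX

/-- IDX: the choice of the indices. -/
theorem t_IDX : Stmt_IDX := by
  intro Λ s a c d b hac hcd hdb h1 h2 h3
  obtain ⟨n₁, hn₁⟩ := exists_nat_gt (2 / (c - a))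
  obtain ⟨n₂, hn₂⟩ := exists_nat_gt (2 / (d - c))
  obtain ⟨n₃, hn₃⟩ := exists_nat_gt (2 / (b - d))
  refine ⟨n₁ + n₂ + n₃ + 1, fun N hN P hP => ?_⟩
  have hN0 : 0 < N := by omega
  have hN' : (0 : ℝ) < N := by exact_mod_cast hN0
  have key : ∀ (r : ℝ) (n : ℕ), 0 < r → 2 / r < n → n ≤ N → 2 ≤ r * N := by
    intro r n hr hn hnN
    rw [div_lt_iff₀ hr] at hn
    have : (n : ℝ) ≤ N := by exact_mod_cast hnN
    nlinarith
  have k1 := key (c - a) n₁ (by linarith) hn₁ (by omega)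
  have k2 := key (d - c) n₂ (by linarith) hn₂ (by omega)
  have k3 := key (b - d) n₃ (by linarith) hn₃ (by omega)
  have hx : ∀ i : ℤ, P.x i = Λ.x ((i : ℝ) / N) := fun i => by rw [hP.1]; rfl
  obtain ⟨C, hC1, hC2, hC3⟩ := IDX.tip hN0 h1.monotoneOn h2.antitoneOn k1 k2
  obtain ⟨D, hD1, hD2, hD3⟩ := IDX.tip (g := fun u => -(sn s * Λ.x u)) hN0
    h2.antitoneOn.neg h3.monotoneOn.neg k2 k3
  have hA1 : a * N ≤ (⌈a * N⌉ : ℤ) := Int.le_ceil _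
  have hA2 : ((⌈a * N⌉ : ℤ) : ℝ) < a * N + 1 := Int.ceil_lt_add_one _
  have hB1 : ((⌊b * N⌋ : ℤ) : ℝ) ≤ b * N := Int.floor_le _
  have hB2 : b * N < (⌊b * N⌋ : ℤ) + 1 := Int.lt_floor_add_one _
  generalize ⌈a * (N : ℝ)⌉ = A at hA1 hA2
  generalize ⌊b * (N : ℝ)⌋ = B at hB1 hB2
  have hA : sn s * Λ.x ((A : ℝ) / N) ≤ sn s * Λ.x (((A + 1 : ℤ) : ℝ) / N) := by
    refine IDX.mono_step (g := fun u => sn s * Λ.x u) hN0 h1.monotoneOn (by omega) hA1 ?_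
    push_cast
    linarith
  have hB : sn s * Λ.x (((B - 1 : ℤ) : ℝ) / N) ≤ sn s * Λ.x ((B : ℝ) / N) := by
    refine IDX.mono_step (g := fun u => sn s * Λ.x u) hN0 h3.monotoneOn (by omega) ?_ hB1
    push_cast
    linarith
  refine ⟨A, C, D, B, ⟨?_, hC1, hD1, ?_, ?_, ?_, ?_⟩, ⟨hC1, hD1, ?_, ?_, ?_, ?_, ?_⟩⟩
  · rw [abs_le]; constructor <;> linarith
  · rw [hx, hx]; exact hA
  · rw [hx, hx]; exact hC2
  · rw [hx, hx]; exact hC3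
  · rw [hx, hx]; exact neg_le_neg_iff.1 hD2
  · rw [abs_le]; constructor <;> linarith
  · rw [hx, hx, sn_not]
    linarith [hC3]
  · rw [hx, hx, sn_not]
    linarith [hD2]
  · rw [hx, hx, sn_not]
    linarith [hD3]
  · rw [hx, hx, sn_not]
    linarith

end LHE
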