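import Pool.Agent.LHE.Stmts1

/-!
# There is a line of the mesh in an interval
-/

namespace LHE

open Set LG LH

namespace MSH

theorem exists_line (X : Finset ℝ) (L R a b : ℝ) (ha : a ∈ X) (hb : b ∈ X) (haL : a ≤ L)
    (hRb : R ≤ b) (hLR : L < R) (hm : ∀ a b, AdjX X a b → b - a < R - L) :
    ∃ t ∈ X, L < t ∧ t < R := by
  have h1 : (X.filter fun t => t ≤ L).Nonempty := ⟨a, by simp [ha, haL]⟩
  have h2 : (X.filter fun t => L < t).Nonempty := ⟨b, by
    simp only [Finset.mem_filter]; exact ⟨hb, by linarith⟩⟩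
  have m1 := Finset.max'_mem _ h1
  have m2 := Finset.min'_mem _ h2
  set p := (X.filter fun t => t ≤ L).max' h1 with hp
  set q := (X.filter fun t => L < t).min' h2 with hq
  simp only [Finset.mem_filter] at m1 m2
  have hadj : AdjX X p q := by
    refine ⟨m1.1, m2.1, by linarith [m1.2, m2.2], fun t ht hh => ?_⟩
    rcases le_or_gt t L with h | h
    · have := Finset.le_max' (X.filter fun t => t ≤ L) t (by simp [ht, h])
      rw [← hp] at this
      linarith [hh.1]
    · have := Finset.min'_le (X.filter fun t => L < t) t (by simp [ht, h])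
      rw [← hq] at this
      linarith [hh.2]
  have := hm p q hadj
  exact ⟨q, m2.1, m2.2, by linarith [m1.2]⟩

end MSH

theorem t_MSH : Stmt_MSH := by
  intro N P X s ξ₁ ξ₂ i j hX hM hlt hi hj
  obtain ⟨a, ha, ha'⟩ := hX.lo
  obtain ⟨b, hb, hb'⟩ := hX.hi
  cases s with
  | true =>
    simp only [sn_true, one_mul] at hi hj ⊢
    exact MSH.exists_line X ξ₁ ξ₂ a b ha hb (by linarith [ha' i]) (by linarith [hb' j]) hlt hM
  | false =>
    simp only [sn_false] at hi hj ⊢
    obtain ⟨t, ht, h1, h2⟩ := MSH.exists_line X (-ξ₂) (-ξ₁) a b ha hb (by linarith [ha' j])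
      (by linarith [hb' i]) (by linarith) (fun a b h => by have := hM a b h; linarith)
    exact ⟨t, ht, by linarith, by linarith⟩

end LHE
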