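import Pool.Agent.LHE.Stmts1

/-!
# Elementary retraction of a finger
-/

namespace LHE

open Set LG LH

namespace RET

theorem cp_cons (a : Pt) (l : List Pt) : cp (a :: l) = (a :: l).zip (l ++ [a]) := by
  unfold cp
  rw [List.rotate_cons_succ, List.rotate_zero]

theorem sn_cases (o : Bool) (a b : ℝ) (h : sn o * b < sn o * a) (k l : Prop) (hk : b < a → k)
    (hl : a < b → l) : b < a ∧ k ∨ a < b ∧ l := by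
  rcases sn_or o with h1 | h1
  · rw [h1, one_mul, one_mul] at h
    exact Or.inl ⟨h, hk h⟩
  · rw [h1] at h
    have h2 : a < b := by linarith
    exact Or.inr ⟨h2, hl h2⟩

theorem btw_lex {s t h₁ h₂ k : ℝ}
    (h : Btw (toLex (t, h₁) : Q) (toLex (t, h₂)) (toLex (s, k))) : s = t ∧ Btw h₁ h₂ k := by
  rcases h with ⟨h1, h2⟩ | ⟨h1, h2⟩
  · rw [Prod.Lex.toLex_lt_toLex] at h1 h2
    rcases h1 with h1 | ⟨h1, h1'⟩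
    · rcases h2 with h2 | ⟨h2, -⟩
      · exact absurd h1 (not_lt.2 h2.le)
      · exact absurd h1 (by rw [show s = t from h2]; exact lt_irrefl _)
    · rcases h2 with h2 | ⟨h2, h2'⟩
      · exact absurd h2 (by rw [show t = s from h1]; exact lt_irrefl _)
      · exact ⟨h2, Or.inl ⟨h1', h2'⟩⟩
  · rw [Prod.Lex.toLex_lt_toLex] at h1 h2
    rcases h1 with h1 | ⟨h1, h1'⟩
    · rcases h2 with h2 | ⟨h2, -⟩
      · exact absurd h1 (not_lt.2 h2.le)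
      · exact absurd h1 (by rw [show s = t from h2]; exact lt_irrefl _)
    · rcases h2 with h2 | ⟨h2, h2'⟩
      · exact absurd h2 (by rw [show t = s from h1]; exact lt_irrefl _)
      · exact ⟨h2, Or.inr ⟨h1', h2'⟩⟩

theorem lt_lex {t a b : ℝ} (h : a < b) : (toLex (t, a) : Q) < toLex (t, b) :=
  Prod.Lex.toLex_lt_toLex.2 (Or.inr ⟨rfl, h⟩)

/-- The new walk. -/
theorem cw_new {p T q s₁ u s₂ : Pt} {r : List Pt} (hw : CW (p :: s₁ :: u :: s₂ :: q :: r))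
    (h1 : Stp p s₁ → Stp p T) (h2 : Stp s₂ q → Stp T q)
    (hs : List.Sublist (ent p ++ ent T ++ ent q) (ent p ++ ent s₁ ++ ent u ++ ent s₂ ++ ent q))
    (hl : 4 ≤ (ent p ++ ent T ++ ent q).length) : CW (p :: T :: q :: r) := by
  have e1 : ents (p :: T :: q :: r) = (ent p ++ ent T ++ ent q) ++ ents r := by
    simp only [ents, List.flatMap_cons, List.append_assoc]
  have e2 : ents (p :: s₁ :: u :: s₂ :: q :: r) =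
      (ent p ++ ent s₁ ++ ent u ++ ent s₂ ++ ent q) ++ ents r := by
    simp only [ents, List.flatMap_cons, List.append_assoc]
  have hst := hw.st
  rw [cp_cons] at hst
  simp only [List.cons_append, List.zip_cons_cons, List.mem_cons] at hst
  refine ⟨?_, ?_, ?_⟩
  · have hnd := hw.nd
    rw [e2] at hnd
    rw [e1]
    exact hnd.sublist (hs.append (List.Sublist.refl _))
  · intro x hx
    rw [cp_cons] at hx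
    simp only [List.cons_append, List.zip_cons_cons, List.mem_cons] at hx
    rcases hx with rfl | rfl | hx
    · exact h1 (hst (p, s₁) (Or.inl rfl))
    · exact h2 (hst (s₂, q) (Or.inr (Or.inr (Or.inr (Or.inl rfl)))))
    · exact hst x (Or.inr (Or.inr (Or.inr (Or.inr hx))))
  · rw [e1, List.length_append]
    omega

/-- The finger to the right. -/
theorem right (hRTR : P_RTR) (hWEB : P_WEB) (hCWA : P_CWA) (o : Bool)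
    (t₀ t t' g₁ g₂ h₁ h₂ h' : ℝ) (r : List Pt)
    (hw : CW (⟨.rt, t₀, g₁⟩ :: ⟨.rt, t, h₁⟩ :: ⟨.R, t', h'⟩ :: ⟨.lt, t, h₂⟩ ::
      ⟨.lt, t₀, g₂⟩ :: r))
    (ha : AO (⟨.rt, t₀, g₁⟩ :: ⟨.rt, t, h₁⟩ :: ⟨.R, t', h'⟩ :: ⟨.lt, t, h₂⟩ ::
      ⟨.lt, t₀, g₂⟩ :: r) o t h₁ h₂) (hg : sn o * g₂ < sn o * g₁) :
    CW (⟨.rt, t₀, g₁⟩ :: ⟨.R, t, h₁⟩ :: ⟨.lt, t₀, g₂⟩ :: r) ∧
      WE (ents (⟨.rt, t₀, g₁⟩ :: ⟨.rt, t, h₁⟩ :: ⟨.R, t', h'⟩ :: ⟨.lt, t, h₂⟩ ::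
        ⟨.lt, t₀, g₂⟩ :: r)) (ents (⟨.rt, t₀, g₁⟩ :: ⟨.R, t, h₁⟩ :: ⟨.lt, t₀, g₂⟩ :: r)) := by
  have hn : CW (⟨.rt, t₀, g₁⟩ :: ⟨.R, t, h₁⟩ :: ⟨.lt, t₀, g₂⟩ :: r) := by
    refine cw_new hw ?_ ?_ ?_ ?_
    · rintro (⟨-, -, h⟩ | ⟨h, -, -⟩)
      · exact Or.inl ⟨trivial, trivial, h⟩
      · exact absurd trivial h
    · rintro (⟨h, -, -⟩ | ⟨-, h, h'⟩)
      · exact absurd h (fun h => h)
      · exact Or.inr ⟨fun h => h, h, h'⟩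
    · exact List.Sublist.cons_cons _ (List.Sublist.cons_cons _ (List.Sublist.cons_cons _
        (List.Sublist.cons _ (List.Sublist.cons _ (List.Sublist.cons _ (List.Sublist.cons _
          (List.Sublist.refl _)))))))
    · simp [ent]
  refine ⟨hn, ?_⟩
  obtain ⟨hc1, he1⟩ := hCWA.rot [⟨.rt, t₀, g₁⟩] (⟨.rt, t, h₁⟩ :: ⟨.R, t', h'⟩ :: ⟨.lt, t, h₂⟩ ::
      ⟨.lt, t₀, g₂⟩ :: r) hw
  obtain ⟨hc2, he2⟩ := hCWA.rot [⟨.rt, t₀, g₁⟩] (⟨.R, t, h₁⟩ :: ⟨.lt, t₀, g₂⟩ :: r) hn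
  have hmem : ∀ x ∈ (⟨.rt, t, h₁⟩ :: ⟨.R, t', h'⟩ :: ⟨.lt, t, h₂⟩ ::
      ⟨.lt, t₀, g₂⟩ :: (r ++ [⟨.rt, t₀, g₁⟩]) : List Pt), x ∈ (⟨.rt, t₀, g₁⟩ :: ⟨.rt, t, h₁⟩ ::
      ⟨.R, t', h'⟩ :: ⟨.lt, t, h₂⟩ :: ⟨.lt, t₀, g₂⟩ :: r : List Pt) := by
    intro x hx
    simp only [List.mem_cons, List.mem_append, List.not_mem_nil, or_false] at hx ⊢
    tauto
  have he3 := hRTR ⟨.rt, t, h₁⟩ ⟨.R, t', h'⟩ ⟨.lt, t, h₂⟩ ⟨.lt, t₀, g₂⟩ ⟨.rt, t₀, g₁⟩ r hc1 hc2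
    rfl rfl rfl rfl ?_ ?_ ?_
  · exact hWEB.trans _ _ _ he1 (hWEB.trans _ _ _ he3 (hWEB.symm _ _ he2))
  · intro x hx _ hb
    obtain ⟨h1, h2⟩ := btw_lex hb
    exact ha.1 x (hmem x hx) h1 h2
  · intro x hx _ hb
    obtain ⟨h1, h2⟩ := btw_lex hb
    exact ha.1 x (hmem x hx) (neg_injective h1) h2
  · rcases sn_or o with h1 | h1
    · have h2 := ha.2
      rw [h1, one_mul, one_mul] at hg h2
      exact Or.inl ⟨h2, lt_lex hg⟩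
    · have h2 := ha.2
      rw [h1] at hg h2
      exact Or.inr ⟨show h₁ < h₂ by linarith, lt_lex (by linarith)⟩

/-- The finger to the left. -/
theorem left (hRTL : P_RTL) (hWEB : P_WEB) (hCWA : P_CWA) (o : Bool)
    (t₀ t t' g₁ g₂ h₁ h₂ h' : ℝ) (r : List Pt)
    (hw : CW (⟨.lt, t₀, g₁⟩ :: ⟨.lt, t, h₁⟩ :: ⟨.L, t', h'⟩ :: ⟨.rt, t, h₂⟩ ::
      ⟨.rt, t₀, g₂⟩ :: r))
    (ha : AO (⟨.lt, t₀, g₁⟩ :: ⟨.lt, t, h₁⟩ :: ⟨.L, t', h'⟩ :: ⟨.rt, t, h₂⟩ ::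
      ⟨.rt, t₀, g₂⟩ :: r) o t h₁ h₂) (hg : sn o * g₂ < sn o * g₁) :
    CW (⟨.lt, t₀, g₁⟩ :: ⟨.L, t, h₁⟩ :: ⟨.rt, t₀, g₂⟩ :: r) ∧
      WE (ents (⟨.lt, t₀, g₁⟩ :: ⟨.lt, t, h₁⟩ :: ⟨.L, t', h'⟩ :: ⟨.rt, t, h₂⟩ ::
        ⟨.rt, t₀, g₂⟩ :: r)) (ents (⟨.lt, t₀, g₁⟩ :: ⟨.L, t, h₁⟩ :: ⟨.rt, t₀, g₂⟩ :: r)) := by
  have hn : CW (⟨.lt, t₀, g₁⟩ :: ⟨.L, t, h₁⟩ :: ⟨.rt, t₀, g₂⟩ :: r) := by
    refine cw_new hw ?_ ?_ ?_ ?_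
    · rintro (⟨h, -, -⟩ | ⟨-, -, h⟩)
      · exact absurd h (fun h => h)
      · exact Or.inr ⟨fun h => h, fun h => h, h⟩
    · rintro (⟨-, h, h'⟩ | ⟨h, -, -⟩)
      · exact Or.inl ⟨trivial, h, h'⟩
      · exact absurd trivial h
    · exact List.Sublist.cons_cons _ (List.Sublist.cons_cons _ (List.Sublist.cons_cons _
        (List.Sublist.cons _ (List.Sublist.cons _ (List.Sublist.cons _ (List.Sublist.cons _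
          (List.Sublist.refl _)))))))
    · simp [ent]
  refine ⟨hn, ?_⟩
  obtain ⟨hc1, he1⟩ := hCWA.rot [⟨.lt, t₀, g₁⟩] (⟨.lt, t, h₁⟩ :: ⟨.L, t', h'⟩ :: ⟨.rt, t, h₂⟩ ::
      ⟨.rt, t₀, g₂⟩ :: r) hw
  obtain ⟨hc2, he2⟩ := hCWA.rot [⟨.lt, t₀, g₁⟩] (⟨.L, t, h₁⟩ :: ⟨.rt, t₀, g₂⟩ :: r) hn
  have hmem : ∀ x ∈ (⟨.lt, t, h₁⟩ :: ⟨.L, t', h'⟩ :: ⟨.rt, t, h₂⟩ ::
      ⟨.rt, t₀, g₂⟩ :: (r ++ [⟨.lt, t₀, g₁⟩]) : List Pt), x ∈ (⟨.lt, t₀, g₁⟩ :: ⟨.lt, t, h₁⟩ ::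
      ⟨.L, t', h'⟩ :: ⟨.rt, t, h₂⟩ :: ⟨.rt, t₀, g₂⟩ :: r : List Pt) := by
    intro x hx
    simp only [List.mem_cons, List.mem_append, List.not_mem_nil, or_false] at hx ⊢
    tauto
  have he3 := hRTL ⟨.lt, t, h₁⟩ ⟨.L, t', h'⟩ ⟨.rt, t, h₂⟩ ⟨.rt, t₀, g₂⟩ ⟨.lt, t₀, g₁⟩ r hc1 hc2
    rfl rfl rfl rfl ?_ ?_ ?_
  · exact hWEB.trans _ _ _ he1 (hWEB.trans _ _ _ he3 (hWEB.symm _ _ he2))
  · intro x hx _ hb
    obtain ⟨h1, h2⟩ := btw_lex hb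
    exact ha.1 x (hmem x hx) h1 h2
  · intro x hx _ hb
    obtain ⟨h1, h2⟩ := btw_lex hb
    exact ha.1 x (hmem x hx) (neg_injective h1) h2
  · rcases sn_or o with h1 | h1
    · have h2 := ha.2
      rw [h1, one_mul, one_mul] at hg h2
      exact Or.inl ⟨h2, lt_lex hg⟩
    · have h2 := ha.2
      rw [h1] at hg h2
      exact Or.inr ⟨show h₁ < h₂ by linarith, lt_lex (by linarith)⟩

end RET

theorem t_RET : Stmt_RET := by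
  intro hRTR hRTL hWEB hCWA s o t₀ t t' g₁ g₂ h₁ h₂ h' r w hw hcw ha hg
  subst hw
  cases s
  · exact RET.left hRTL hWEB hCWA o t₀ t t' g₁ g₂ h₁ h₂ h' r hcw ha hg
  · exact RET.right hRTR hWEB hCWA o t₀ t t' g₁ g₂ h₁ h₂ h' r hcw ha hg

end LHE
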