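import Pool.Agent.LHE.Stmts1

/-!
# Rotation and shift of a walk of a polygon
-/

namespace LHE

open Set LG LH

namespace ROT

variable {N : ℕ}

theorem px (P : Pg N) (i k : ℤ) : P.x (i + k * N) = P.x i :=
  (Function.Periodic.int_mul (f := P.x) (c := (N : ℤ)) (fun i => P.px i) k) i

theorem py (P : Pg N) (i k : ℤ) : P.y (i + k * N) = P.y i :=
  (Function.Periodic.int_mul (f := P.y) (c := (N : ℤ)) (fun i => P.py i) k) i

theorem pz (P : Pg N) (i k : ℤ) : P.z (i + k * N) = P.z i :=
  (Function.Periodic.int_mul (f := P.z) (c := (N : ℤ)) (fun i => P.pz i) k) i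

/-- The shift by `k` periods. -/
def sk (N : ℕ) (k : ℤ) (i : It) : It := { i with e := i.e + k * N }

theorem sh_eq (i : It) : i.sh N = sk N 1 i := by
  unfold It.sh sk
  rw [one_mul]

theorem sk_sh (k : ℤ) (i : It) : sk N k (i.sh N) = (sk N k i).sh N := by
  unfold It.sh sk
  congr 1
  show i.e + N + k * N = i.e + k * N + N
  ring

theorem pt_sk (P : Pg N) (k : ℤ) (i : It) : pt P (sk N k i) = pt P i := by
  unfold pt sk Pg.l
  show (⟨i.k, i.t, P.z (i.e + k * N) + P.y (i.e + k * N) * (i.t - P.x (i.e + k * N))⟩ : Pt) = _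
  rw [px, py, pz]

theorem ok_sk {P : Pg N} (k : ℤ) {i : It} (h : ItOK P i) : ItOK P (sk N k i) := by
  have e1 : P.x (i.e + k * N) = P.x i.e := px P i.e k
  have e2 : P.x (i.e + k * N + 1) = P.x (i.e + 1) := by
    rw [← px P (i.e + 1) k]
    congr 1
    ring
  unfold ItOK sk at *
  dsimp only
  rw [e1, e2]
  exact h

theorem lnk_sk {P : Pg N} {X : Finset ℝ} (k : ℤ) {i j : It} (h : Lnk P X i j) :
    Lnk P X (sk N k i) (sk N k j) where
  le := by
    show i.e + k * N ≤ j.e + k * N
    linarith [h.le]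
  tl := by
    intro ht
    show i.e + k * N < j.e + k * N
    linarith [h.tl ht]
  adj := h.adj
  ins := by
    intro m h1 h2
    have h1' : i.e + k * N < m := h1
    have h2' : m ≤ j.e + k * N := h2
    have h3 := h.ins (m - k * N) (by linarith) (by linarith)
    rw [← px P (m - k * N) k, sub_add_cancel] at h3
    exact h3
  dir := h.dir

theorem isChain_sk {P : Pg N} {X : Finset ℝ} (k : ℤ) : ∀ {w : List It},
    List.IsChain (Lnk P X) w → List.IsChain (Lnk P X) (w.map (sk N k)) := by
  intro w h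
  rw [List.isChain_map]
  exact h.imp fun _ _ hab => lnk_sk k hab

theorem ew_sk {P : Pg N} {X : Finset ℝ} (k : ℤ) {w : List It} (h : EW P X w) :
    EW P X (w.map (sk N k)) := by
  obtain ⟨i, w', rfl, h1, h2⟩ := h
  refine ⟨sk N k i, w'.map (sk N k), by rw [List.map_cons], ?_, ?_⟩
  · intro j hj
    obtain ⟨j', hj', rfl⟩ := List.mem_map.1 hj
    exact ok_sk k (h1 j' hj')
  · have := isChain_sk k h2
    rw [List.map_append, List.map_cons (l := []), List.map_nil, sk_sh] at this
    exact this

/-- No two consecutive turns. -/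
def NZ (l : List Kd) : Prop := ∀ x ∈ cp l, ¬ ((x.1 = .R ∨ x.1 = .L) ∧ (x.2 = .R ∨ x.2 = .L))

theorem cp_map {α β : Type*} (f : α → β) (l : List α) :
    cp (l.map f) = (cp l).map (Prod.map f f) := by
  unfold cp
  rw [← List.map_rotate, List.zip_map]

theorem cp_rotate {α : Type*} (l : List α) (n : ℕ) : cp (l.rotate n) = (cp l).rotate n := by
  unfold cp
  rw [List.rotate_rotate, Nat.add_comm, ← List.rotate_rotate]
  unfold List.zip
  rw [List.zipWith_rotate_distrib]
  rw [List.length_rotate]

theorem nz_rot {l l' : List Kd} (h : l.IsRotated l') (h1 : NZ l) : NZ l' := by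
  obtain ⟨n, rfl⟩ := h
  intro x hx
  rw [cp_rotate, List.mem_rotate] at hx
  exact h1 x hx

theorem gw_iff {P : Pg N} {X : Finset ℝ} {w : List It} :
    GW P X w ↔ EW P X w ∧ NZ (w.map It.k) := by
  unfold GW NZ
  refine and_congr_right fun _ => ?_
  rw [cp_map]
  constructor
  · intro h x hx
    obtain ⟨y, hy, rfl⟩ := List.mem_map.1 hx
    exact h y hy
  · intro h x hx
    exact h (Prod.map It.k It.k x) (List.mem_map.2 ⟨x, hx, rfl⟩)

theorem ew_rot {P : Pg N} {X : Finset ℝ} {i : It} {w : List It} (h : EW P X (i :: w)) :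
    EW P X (w ++ [i.sh N]) := by
  obtain ⟨i', w', h0, h1, h2⟩ := h
  obtain ⟨rfl, rfl⟩ := List.cons.inj h0
  have hok : ∀ j ∈ w ++ [i.sh N], ItOK P j := by
    intro j hj
    rcases List.mem_append.1 hj with h3 | h3
    · exact h1 j (List.mem_cons_of_mem _ h3)
    · rw [List.mem_singleton] at h3
      rw [h3, sh_eq]
      exact ok_sk 1 (h1 i (List.mem_cons_self ..))
  rcases w with _ | ⟨a, w⟩
  · refine ⟨i.sh N, [], rfl, hok, ?_⟩
    have h3 := isChain_sk 1 h2
    rw [sh_eq, sh_eq]
    rw [sh_eq] at h3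
    exact h3
  · refine ⟨a, w ++ [i.sh N], rfl, hok, ?_⟩
    have h2' : List.IsChain (Lnk P X) (i :: a :: (w ++ [i.sh N])) := h2
    rw [List.isChain_cons_cons] at h2'
    have h3 : Lnk P X (i.sh N) (a.sh N) := by
      rw [sh_eq, sh_eq]
      exact lnk_sk 1 h2'.1
    rw [List.isChain_append]
    refine ⟨h2'.2, List.isChain_singleton _, ?_⟩
    intro x hx y hy
    have hx' : x = i.sh N := by
      rw [List.getLast?_append_of_ne_nil _ (by simp), List.getLast?_singleton] at hx
      exact (Option.mem_some_iff.1 hx).symm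
    have hy' : y = a.sh N := by
      rw [List.head?_cons] at hy
      exact (Option.mem_some_iff.1 hy).symm
    rw [hx', hy']
    exact h3

theorem gw_rot {P : Pg N} {X : Finset ℝ} {i : It} {w : List It} (h : GW P X (i :: w)) :
    GW P X (w ++ [i.sh N]) := by
  rw [gw_iff] at h ⊢
  refine ⟨ew_rot h.1, nz_rot ?_ h.2⟩
  rw [List.map_append, List.map_cons, List.map_cons, List.map_nil]
  have : (i.sh N).k = i.k := rfl
  rw [this]
  exact ⟨1, by rw [List.rotate_cons_succ, List.rotate_zero]⟩

theorem main {P : Pg N} {X : Finset ℝ} (j : It) : ∀ (u v : List It), GW P X (u ++ j :: v) →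
    ∃ w' : List It, GW P X (j :: w') ∧
      ((j :: w').map (pt P)).IsRotated ((u ++ j :: v).map (pt P)) := by
  intro u
  induction u with
  | nil =>
    intro v h
    exact ⟨v, h, List.IsRotated.refl _⟩
  | cons a u ih =>
    intro v h
    have h1 : GW P X ((u ++ j :: v) ++ [a.sh N]) := gw_rot h
    rw [List.append_assoc, List.cons_append] at h1
    obtain ⟨w', h2, h3⟩ := ih (v ++ [a.sh N]) h1
    refine ⟨w', h2, h3.trans ?_⟩
    have e : (u ++ j :: (v ++ [a.sh N])).map (pt P) = (u ++ j :: v).map (pt P) ++ [pt P a] := by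
      rw [← pt_sk P 1 a, ← sh_eq]
      simp only [List.map_append, List.map_cons, List.map_nil, List.append_assoc,
        List.cons_append]
    rw [e, List.cons_append, List.map_cons]
    refine List.IsRotated.symm ⟨1, ?_⟩
    rw [List.rotate_cons_succ, List.rotate_zero]

end ROT

open ROT in
theorem t_ROT : Stmt_ROT := by
  intro N P X w hw j hj k
  obtain ⟨u, v, rfl⟩ := List.append_of_mem hj
  obtain ⟨w', h1, h2⟩ := main j u v hw
  refine ⟨w'.map (sk N k), ?_, ?_⟩
  · have h3 : GW P X ((j :: w').map (sk N k)) := by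
      rw [gw_iff] at h1 ⊢
      refine ⟨ew_sk k h1.1, ?_⟩
      have : ((j :: w').map (sk N k)).map It.k = (j :: w').map It.k := by
        rw [List.map_map]
        rfl
      rw [this]
      exact h1.2
    rw [List.map_cons] at h3
    exact h3
  · have h3 : (({ j with e := j.e + k * N } : It) :: w'.map (sk N k)).map (pt P) =
        (j :: w').map (pt P) := by
      rw [List.map_cons, List.map_cons, List.map_map]
      congr 1
      · exact pt_sk P k j
      · exact List.map_congr_left fun i _ => pt_sk P k i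
    rw [h3]
    exact h2

end LHE
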