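import Pool.Agent.LHE.Stmts1

/-!
# The polygons of a stabilised knot: assembly
-/

namespace LHE

open Set LG LH

namespace TSF

theorem Rp_rot (A B : List En) (M : List (ℝ × ℝ)) (h : Rp (A ++ B) M) : Rp (B ++ A) M := by
  obtain ⟨hn, f, g, hf, hg, hr⟩ := h
  have hm : ∀ x, x ∈ B ++ A → x ∈ A ++ B := fun x hx => List.perm_append_comm.mem_iff.1 hx
  refine ⟨List.nodup_append_comm.1 hn, f, g, fun a b ha hb => hf a b (hm _ ha) (hm _ hb),
    fun a b ha hb => hg a b (hm _ ha) (hm _ hb), ?_⟩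
  rw [List.map_append] at hr ⊢
  exact hr.trans List.isRotated_append

end TSF

open TSF in
theorem t_TSF : Stmt_TSF := by
  intro hZ hT hC hE hW hA _ Λ₁ Λ₂ hS
  obtain ⟨s, ξ₁, ξ₂, δ, o, N₀, hN₀, hP⟩ := hZ Λ₁ Λ₂ hS
  refine ⟨N₀, fun N hN P hPN hEm => ?_⟩
  obtain ⟨A, C, D, B, hZig⟩ := hP N hN P hPN
  obtain ⟨X, w, hX, hw, hmesh⟩ := hT P (by omega) hEm (min δ (ξ₂ - ξ₁))
    (lt_min hZig.dpos (sub_pos.2 hZig.lt))
  have hcw := hC P X w hX hw
  obtain ⟨w', ξ, h₁, h₂, h₃, F, G, r, hrot, hTF⟩ := hE N P X s A C D B ξ₁ ξ₂ δ o w hZig hX hw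
    (fun a b h => (hmesh a b h).trans_le (min_le_left _ _))
    (fun a b h => (hmesh a b h).trans_le (min_le_right _ _))
  refine ⟨X, w, hX, hw, ?_⟩
  obtain ⟨n, hn, e⟩ := List.isRotated_iff_mod.1 hrot.symm
  rw [List.rotate_eq_drop_append_take hn] at e
  have e' := List.take_append_drop n (w.map (pt P))
  have hcw' : CW w' := by
    rw [← e]
    refine (hA.rot _ _ ?_).1
    rw [e']
    exact hcw
  obtain ⟨M, hM, hV⟩ := hW w' s o ξ h₁ h₂ h₃ F G r hcw' hTF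
  refine ⟨M, ?_, hV⟩
  unfold lst
  rw [← e']
  rw [← e] at hM
  unfold ents at hM ⊢
  rw [List.flatMap_append] at hM ⊢
  exact Rp_rot _ _ M hM

end LHE
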