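import Pool.Agent.LHE.Stmts1

/-!
# TWF: the class of a walk with two opposite fingers
-/

namespace LHE

open Set LG LH

namespace TWF

theorem up_trans {s : Bool} {a b c : ℝ} (h : up s a b) (h' : up s b c) : up s a c :=
  lt_trans h h'

/-- The condition of a finger may be changed to one which holds beyond the line. -/
theorem pf_mono {s : Bool} {V V' : ℝ → ℝ → ℝ → Prop} {t : ℝ} {F : List Pt} (h : PF s V t F) :
    (∀ t' h₁ h₂, up s t t' → V t' h₁ h₂ → V' t' h₁ h₂) → PF s V' t F := by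
  induction h with
  | tip t t' h hu => intro _; exact PF.tip t t' h hu
  | step t t' h₁ h₂ F hu hV _ ih =>
    intro hVV
    exact PF.step t t' h₁ h₂ F hu (hVV _ _ _ hu hV)
      (ih fun t'' a b hu' hV' => hVV t'' a b (up_trans hu hu') hV')

/-- Conditions for a smaller walk with some new points which are not on the line. -/
theorem ao_mono {w w' : List Pt} {o : Bool} {t h₁ h₂ : ℝ} (h : AO w o t h₁ h₂)
    (hw : ∀ p ∈ w', p.t = t → p ∈ w) : AO w' o t h₁ h₂ :=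
  ⟨fun p hp hpt => h.1 p (hw p hp hpt) hpt, h.2⟩

theorem up_ne {s : Bool} {a b : ℝ} (h : up s a b) : b ≠ a := by
  rintro rfl
  exact lt_irrefl _ h

theorem up_not {s : Bool} {a b : ℝ} : up (!s) a b ↔ up s b a := by
  unfold up
  rw [sn_not]
  constructor <;> intro h <;> linarith

end TWF

open TWF in
theorem t_TWF : Stmt_TWF := by
  intro hF hW hL hE hC hR w s o ξ h₁ h₂ h₃ F G r hw h
  -- first finger
  obtain ⟨t', h', hu, hw1, he1⟩ :=
    hF s o w F (G ++ ⟨pass s, ξ, h₃⟩ :: r) ξ h₁ h₂ h.eq hw h.f h.a₁.2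
  -- rotate
  have hr1 := hC.rot [⟨pass s, ξ, h₁⟩, ⟨turn s, t', h'⟩]
    (⟨pass (!s), ξ, h₂⟩ :: (G ++ ⟨pass s, ξ, h₃⟩ :: r)) hw1
  set w2 : List Pt := ⟨pass (!s), ξ, h₂⟩ ::
    (G ++ ⟨pass s, ξ, h₃⟩ :: (r ++ [⟨pass s, ξ, h₁⟩, ⟨turn s, t', h'⟩])) with hw2
  have e2 : (⟨pass (!s), ξ, h₂⟩ :: (G ++ ⟨pass s, ξ, h₃⟩ :: r)) ++
      [(⟨pass s, ξ, h₁⟩ : Pt), ⟨turn s, t', h'⟩] = w2 := by
    rw [hw2]
    simp
  rw [e2] at hr1
  -- second finger
  have hg : PF (!s) (AO w2 o) ξ G := by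
    apply pf_mono h.g
    intro t a b hut hV
    apply ao_mono hV
    intro p hp hpt
    rw [hw2] at hp
    rw [h.eq]
    simp only [List.mem_cons, List.mem_append, List.not_mem_nil, or_false] at hp ⊢
    rcases hp with hp | hp | hp | hp | hp | hp
    · exact Or.inr (Or.inr (Or.inl hp))
    · exact Or.inr (Or.inr (Or.inr (Or.inl hp)))
    · exact Or.inr (Or.inr (Or.inr (Or.inr (Or.inl hp))))
    · exact Or.inr (Or.inr (Or.inr (Or.inr (Or.inr hp))))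
    · exact Or.inl hp
    · exfalso
      rw [hp] at hpt
      have h1 : up s t ξ := up_not.mp hut
      exact up_ne (up_trans h1 hu) hpt
  obtain ⟨t'', h'', hu', hw3, he3⟩ :=
    hF (!s) o w2 G (r ++ [⟨pass s, ξ, h₁⟩, ⟨turn s, t', h'⟩]) ξ h₂ h₃
      (by rw [hw2, Bool.not_not]) hr1.1 hg h.a₂.2
  rw [Bool.not_not] at hw3 he3
  -- rotate back
  have hr2 := hC.rot (⟨pass (!s), ξ, h₂⟩ :: ⟨turn (!s), t'', h''⟩ :: ⟨pass s, ξ, h₃⟩ :: r)
    [⟨pass s, ξ, h₁⟩, ⟨turn s, t', h'⟩] hw3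
  have hao : ∀ a b, AO w o ξ a b → AO ([(⟨pass s, ξ, h₁⟩ : Pt), ⟨turn s, t', h'⟩] ++
      (⟨pass (!s), ξ, h₂⟩ :: ⟨turn (!s), t'', h''⟩ :: ⟨pass s, ξ, h₃⟩ :: r)) o ξ a b := by
    intro a b hV
    apply ao_mono hV
    intro p hp hpt
    rw [h.eq]
    simp only [List.mem_cons, List.mem_append, List.not_mem_nil, or_false] at hp ⊢
    rcases hp with (hp | hp) | hp | hp | hp | hp
    · exact Or.inl hp
    · exfalso
      rw [hp] at hpt
      exact up_ne hu hpt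
    · exact Or.inr (Or.inr (Or.inl hp))
    · exfalso
      rw [hp] at hpt
      exact up_ne hu' hpt
    · exact Or.inr (Or.inr (Or.inr (Or.inr (Or.inl hp))))
    · exact Or.inr (Or.inr (Or.inr (Or.inr (Or.inr hp))))
  obtain ⟨M', hM', hV'⟩ := hW s o ξ t' t'' h₁ h₂ h₃ h' h'' r _ rfl hr2.1 (hao _ _ h.a₁)
    (hao _ _ h.a₂)
  have he : WE (ents w) (ents ([(⟨pass s, ξ, h₁⟩ : Pt), ⟨turn s, t', h'⟩] ++
      (⟨pass (!s), ξ, h₂⟩ :: ⟨turn (!s), t'', h''⟩ :: ⟨pass s, ξ, h₃⟩ :: r))) :=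
    hE.trans _ _ _ he1 (hE.trans _ _ _ hr1.2 (hE.trans _ _ _ he3 hr2.2))
  obtain ⟨M, hM⟩ := hR (ents w) (hC.alt w hw) hw.nd
  have hq := hL M M' (hE.all _ _ M M' he hM hM')
  exact ⟨M, hM, hV'.imp hq.1.mpr hq.2.mpr⟩

end LHE
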