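import Pool.Agent.LHE.Stmts1

/-!
# ZGS: a stabilised knot has a zigzag
-/

namespace LHE

open Set LG LH

namespace ZGS

theorem diff_x (Λ : LC.LegKnot) : Differentiable ℝ Λ.x := by
  have h : Differentiable ℝ Λ.γ := Λ.smooth.differentiable (by simp)
  exact h.fst

theorem deriv_sx (Λ : LC.LegKnot) (s : Bool) (u : ℝ) :
    deriv (fun u => sn s * Λ.x u) u = sn s * deriv Λ.x u := by
  have h : deriv (fun y => sn s * Λ.x y) u = sn s * deriv Λ.x u :=
    deriv_const_mul (sn s) (diff_x Λ u)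
  exact h

theorem mono (Λ : LC.LegKnot) (s : Bool) (a b : ℝ)
    (h : ∀ u ∈ Ioo a b, 0 < sn s * deriv Λ.x u) :
    StrictMonoOn (fun u => sn s * Λ.x u) (Icc a b) := by
  refine strictMonoOn_of_deriv_pos (convex_Icc a b) ?_ ?_
  · exact ((diff_x Λ).const_mul (sn s)).continuous.continuousOn
  · intro u hu
    rw [interior_Icc] at hu
    rw [deriv_sx]
    exact h u hu

theorem anti (Λ : LC.LegKnot) (s : Bool) (a b : ℝ)
    (h : ∀ u ∈ Ioo a b, sn s * deriv Λ.x u < 0) :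
    StrictAntiOn (fun u => sn s * Λ.x u) (Icc a b) := by
  refine strictAntiOn_of_deriv_neg (convex_Icc a b) ?_ ?_
  · exact ((diff_x Λ).const_mul (sn s)).continuous.continuousOn
  · intro u hu
    rw [interior_Icc] at hu
    rw [deriv_sx]
    exact h u hu

/-- Vertical convexity. -/
theorem vert {D : Set (ℝ × ℝ)} (hD : Convex ℝ D) {x z z₁ z₂ : ℝ} (h₁ : (x, z₁) ∈ D)
    (h₂ : (x, z₂) ∈ D) (h : z ∈ uIcc z₁ z₂) : (x, z) ∈ D := by
  rw [← segment_eq_uIcc, segment_eq_image] at h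
  obtain ⟨θ, hθ, rfl⟩ := h
  have h3 := hD.segment_subset h₁ h₂
  apply h3
  rw [segment_eq_image]
  refine ⟨θ, hθ, ?_⟩
  simp only [Prod.smul_mk, Prod.mk_add_mk, smul_eq_mul, Prod.mk.injEq, and_true]
  ring

theorem per (Λ : LC.LegKnot) (u : ℝ) : Λ.γ (u - 1) = Λ.γ u := by
  have := Λ.periodic (u - 1)
  rw [sub_add_cancel] at this
  exact this.symm

theorem not_uIcc {o : Bool} {z z₁ z₂ : ℝ} (h₁ : sn o * z < sn o * z₁) (h₂ : sn o * z < sn o * z₂) :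
    z ∉ uIcc z₁ z₂ := by
  intro h
  rw [mem_uIcc] at h
  rcases sn_or o with ho | ho <;> rw [ho] at h₁ h₂ <;> rcases h with h | h <;> linarith [h.1, h.2]

theorem not_uIcc' {o : Bool} {z z₁ z₂ : ℝ} (h₁ : sn o * z₁ < sn o * z) (h₂ : sn o * z₂ < sn o * z) :
    z ∉ uIcc z₁ z₂ := by
  intro h
  rw [mem_uIcc] at h
  rcases sn_or o with ho | ho <;> rw [ho] at h₁ h₂ <;> rcases h with h | h <;> linarith [h.1, h.2]

end ZGS

open ZGS in
theorem t_ZGS : Stmt_ZGS := by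
  intro hZ hC Λ' Λ hst
  obtain ⟨a, c, d, b, D, hac, hcd, hdb, hba, hout, hop, hcv, houtD, hinD, hinD', hinj, hcr, hc2,
    hd2, hzz⟩ := hst
  obtain ⟨s, p1, p2, p3, pab⟩ := hZ Λ' Λ a c d b D
    ⟨hac, hcd, hdb, hba, hout, hop, hcv, houtD, hinD, hinD', hinj, hcr, hc2, hd2, hzz⟩
  have hns : sn (!s) = -sn s := sn_not s
  have hs2 := sn_sq s
  -- the choice of the order
  obtain ⟨o, ho⟩ : ∃ o : Bool, 0 < sn o * (sn s * deriv Λ'.y c) := by
    have hy : deriv Λ'.y c ≠ 0 := by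
      intro h
      rw [h, zero_mul] at hzz
      exact lt_irrefl _ hzz
    have hsy : sn s * deriv Λ'.y c ≠ 0 := by
      intro h
      rcases mul_eq_zero.1 h with h | h
      · rw [h] at hs2
        simp at hs2
      · exact hy h
    rcases lt_or_gt_of_ne hsy with h | h
    · exact ⟨false, by rw [sn_false]; linarith⟩
    · exact ⟨true, by rw [sn_true]; linarith⟩
  have ho2 := sn_sq o
  have ho' : 0 < sn o * (sn (!s) * deriv Λ'.y d) := by
    rw [hns]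
    have h1 : (sn o * (sn s * deriv Λ'.y c)) * (sn o * (-sn s * deriv Λ'.y d)) =
        -(deriv Λ'.y c * deriv Λ'.y d) := by
      have : (sn o * (sn s * deriv Λ'.y c)) * (sn o * (-sn s * deriv Λ'.y d)) =
        -((sn o * sn o) * (sn s * sn s) * (deriv Λ'.y c * deriv Λ'.y d)) := by ring
      rw [this, ho2, hs2]
      ring
    by_contra hcon
    have h2 : (sn o * (sn s * deriv Λ'.y c)) * (sn o * (-sn s * deriv Λ'.y d)) ≤ 0 :=
      mul_nonpos_of_nonneg_of_nonpos ho.le (not_lt.1 hcon)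
    linarith
  -- monotonicity
  have m1 : StrictMonoOn (fun u => sn s * Λ'.x u) (Icc a c) :=
    mono Λ' s a c fun u hu => p1 u ⟨hu.1.le, hu.2⟩
  have m2 : StrictAntiOn (fun u => sn s * Λ'.x u) (Icc c d) := anti Λ' s c d p2
  have m3 : StrictMonoOn (fun u => sn s * Λ'.x u) (Icc d b) :=
    mono Λ' s d b fun u hu => p3 u ⟨hu.1, hu.2.le⟩
  have m2' : StrictMonoOn (fun u => sn (!s) * Λ'.x u) (Icc c d) := by
    intro u hu v hv huv
    have := m2 hu hv huv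
    simp only [hns] at this ⊢
    linarith
  have m3' : StrictAntiOn (fun u => sn (!s) * Λ'.x u) (Icc d b) := by
    intro u hu v hv huv
    have := m3 hu hv huv
    simp only [hns] at this ⊢
    linarith
  -- order of the arcs
  have od1 : ∀ u₁ ∈ Icc a c, ∀ u₂ ∈ Icc c d, Λ'.x u₁ = Λ'.x u₂ → u₁ ≠ c →
      sn o * zz Λ' u₂ < sn o * zz Λ' u₁ :=
    hC Λ' s o a c d hac hcd (fun u hu => p1 u ⟨hu.1.le, hu.2⟩) p2
      (hinj.mono (Icc_subset_Icc_right hdb.le)) ho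
  have od2 : ∀ u₁ ∈ Icc c d, ∀ u₂ ∈ Icc d b, Λ'.x u₁ = Λ'.x u₂ → u₁ ≠ d →
      sn o * zz Λ' u₂ < sn o * zz Λ' u₁ :=
    hC Λ' (!s) o c d b hcd hdb
      (fun u hu => by have := p2 u hu; rw [hns]; linarith)
      (fun u hu => by have := p3 u ⟨hu.1, hu.2.le⟩; rw [hns]; linarith)
      (hinj.mono (Icc_subset_Icc_left hac.le)) ho'
  -- positions
  have xac : sn s * Λ'.x a < sn s * Λ'.x c := m1 ⟨le_rfl, hac.le⟩ ⟨hac.le, le_rfl⟩ hac
  have xdc : sn s * Λ'.x d < sn s * Λ'.x c := m2 ⟨le_rfl, hcd.le⟩ ⟨hcd.le, le_rfl⟩ hcd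
  have xdb : sn s * Λ'.x d < sn s * Λ'.x b := m3 ⟨le_rfl, hdb.le⟩ ⟨hdb.le, le_rfl⟩ hdb
  obtain ⟨ξ₁, h1a, h1b⟩ := exists_between (show max (sn s * Λ'.x a) (sn s * Λ'.x d) <
    min (sn s * Λ'.x c) (sn s * Λ'.x b) from
      max_lt (lt_min xac pab) (lt_min xdc xdb))
  obtain ⟨ξ₂, h2a, h2b⟩ := exists_between h1b
  have a1 := (max_lt_iff.1 h1a).1
  have a2 := (max_lt_iff.1 h1a).2
  have b1 := (lt_min_iff.1 h2b).1
  have b2 := (lt_min_iff.1 h2b).2
  have fr : ∀ u, LC.front (Λ'.γ u) = (Λ'.x u, zz Λ' u) := fun u => rfl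
  -- a point of the front between two points of the arcs is not outside
  have key : ∀ u₁ u₂ u, u₁ ∈ Ioo a b → u₂ ∈ Ioo a b → u ∈ Icc b (a + 1) → Λ'.x u₁ = Λ'.x u →
      Λ'.x u₂ = Λ'.x u → zz Λ' u ∉ uIcc (zz Λ' u₁) (zz Λ' u₂) := by
    intro u₁ u₂ u h₁ h₂ hu hx₁ hx₂ hz
    have e1 := hinD' u₁ h₁
    have e2 := hinD' u₂ h₂
    rw [fr, hx₁] at e1
    rw [fr, hx₂] at e2
    have e3 := vert hcv e1 e2 hz
    rw [← fr, hout u hu] at e3
    exact houtD u hu e3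
  refine ⟨s, a, c, d, b, ξ₁, ξ₂, o, ?_, ?_, ⟨ho, od1⟩, ⟨ho', od2⟩, hba, h2a⟩
  · refine ⟨hac, hcd, hdb.trans hba, m1, m2, a1, a2, ?_⟩
    intro u₁ h₁ u₂ h₂ u hu hx₁ hx₂ hτ hz
    have n1 : u₁ ≠ a := by
      rintro rfl
      rw [← hx₁] at hτ
      linarith
    have n2 : u₂ ≠ d := by
      rintro rfl
      rw [← hx₂] at hτ
      linarith
    have i1 : a < u₁ := lt_of_le_of_ne h₁.1 (Ne.symm n1)
    have i2 : u₂ < d := lt_of_le_of_ne h₂.2 n2
    have hub : u < b := by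
      by_contra hcon
      exact key u₁ u₂ u ⟨i1, by linarith [h₁.2]⟩ ⟨by linarith [h₂.1], by linarith⟩
        ⟨not_lt.1 hcon, hu.2⟩ hx₁ hx₂ hz
    by_cases hc1 : u₁ = c
    · subst hc1
      have h3 : u₂ = u₁ := by
        refine m2.injOn h₂ ⟨le_rfl, hcd.le⟩ ?_
        show sn s * Λ'.x u₂ = sn s * Λ'.x u₁
        rw [hx₂, hx₁]
      rw [h3, uIcc_self, mem_singleton_iff] at hz
      have h4 : u = u₁ := by
        refine hinj ⟨by linarith [hu.1], hub.le⟩ ⟨hac.le, by linarith⟩ ?_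
        simp only [fr]
        rw [hz, hx₁]
      linarith [hu.1]
    · have h5 := od1 u₁ h₁ u₂ h₂ (hx₁.trans hx₂.symm) hc1
      have h6 := od2 u₂ h₂ u ⟨hu.1, hub.le⟩ hx₂ n2
      exact not_uIcc (h6.trans h5) h6 hz
  · refine ⟨hcd, hdb, by linarith, m2', m3', by rw [hns]; linarith, by rw [hns]; linarith, ?_⟩
    intro u₁ h₁ u₂ h₂ u hu hx₁ hx₂ hτ hz
    rw [hns] at hτ
    have n1 : u₁ ≠ c := by
      rintro rfl
      rw [← hx₁] at hτ
      linarith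
    have n2 : u₂ ≠ b := by
      rintro rfl
      rw [← hx₂] at hτ
      linarith
    have i1 : c < u₁ := lt_of_le_of_ne h₁.1 (Ne.symm n1)
    have i2 : u₂ < b := lt_of_le_of_ne h₂.2 n2
    have hua : a + 1 < u := by
      by_contra hcon
      exact key u₁ u₂ u ⟨by linarith, by linarith [h₁.2]⟩ ⟨by linarith [h₂.1], i2⟩
        ⟨hu.1, not_lt.1 hcon⟩ hx₁ hx₂ hz
    have pg := per Λ' u
    have px : Λ'.x (u - 1) = Λ'.x u := congrArg Prod.fst pg
    have pz : zz Λ' (u - 1) = zz Λ' u := congrArg (fun q => q.2.2) pg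
    have n3 : u - 1 ≠ c := by
      intro h
      rw [← px, h] at hτ
      linarith
    have v1 : u - 1 ∈ Icc a c := ⟨by linarith, by linarith [hu.2]⟩
    have h5 := od1 (u - 1) v1 u₁ h₁ (by rw [px, hx₁]) n3
    rw [pz] at h5
    by_cases hd1 : u₁ = d
    · subst hd1
      have h3 : u₂ = u₁ := by
        refine m3.injOn h₂ ⟨le_rfl, hdb.le⟩ ?_
        show sn s * Λ'.x u₂ = sn s * Λ'.x u₁
        rw [hx₂, hx₁]
      rw [h3, uIcc_self, mem_singleton_iff] at hz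
      rw [hz] at h5
      exact lt_irrefl _ h5
    · have h6 := od2 u₁ h₁ u₂ h₂ (hx₁.trans hx₂.symm) hd1
      exact not_uIcc' h5 (h6.trans h5) hz

end LHE
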