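import Pool.Agent.LHE.Stmts1

/-!
# ZMO: the signs of the derivative of `x` on the three arcs of a zigzag
-/

namespace LHE

open Set LG LH
open scoped ContDiff Topology

namespace ZMO

theorem xs (Λ : LC.LegKnot) : ContDiff ℝ ∞ Λ.x := contDiff_fst.comp Λ.smooth

theorem xd (Λ : LC.LegKnot) : Differentiable ℝ Λ.x := (xs Λ).differentiable (by simp)

theorem dxs (Λ : LC.LegKnot) : ContDiff ℝ ∞ (deriv Λ.x) := by
  have h := (contDiff_infty_iff_deriv (𝕜 := ℝ) (f := Λ.x)).mp (xs Λ)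
  exact h.2

theorem dxc (Λ : LC.LegKnot) : Continuous (deriv Λ.x) := (dxs Λ).continuous

theorem dxd (Λ : LC.LegKnot) : Differentiable ℝ (deriv Λ.x) :=
  (dxs Λ).differentiable (by simp)

theorem xp (Λ : LC.LegKnot) (u : ℝ) : Λ.x (u + 1) = Λ.x u := by
  unfold LC.LegKnot.x
  rw [Λ.periodic u]

theorem dxp (Λ : LC.LegKnot) (u : ℝ) : deriv Λ.x (u + 1) = deriv Λ.x u := by
  have h : (fun v => Λ.x (v + 1)) = Λ.x := funext fun v => xp Λ v
  rw [← deriv_comp_add_const, h]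

/-- The sign of a continuous function without zeros on a preconnected set is constant. -/
theorem sgn {f : ℝ → ℝ} (hf : Continuous f) {I : Set ℝ} (hI : IsPreconnected I)
    (h0 : ∀ u ∈ I, f u ≠ 0) {u v : ℝ} (hu : u ∈ I) (hv : v ∈ I) (hp : 0 < f u) : 0 < f v := by
  by_contra hn
  have h := hI.intermediate_value hv hu hf.continuousOn
  obtain ⟨w, hw, hw0⟩ := h ⟨not_lt.mp hn, hp.le⟩
  exact h0 w hw hw0

/-- A simple zero is a change of sign. -/
theorem chg {f : ℝ → ℝ} (hf : Continuous f) {a c d : ℝ} (hac : a < c) (hcd : c < d)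
    (hdf : DifferentiableAt ℝ f c) (hc : f c = 0) (hc' : deriv f c ≠ 0)
    (hl : ∀ u ∈ Ioo a c, 0 < f u) (hr : ∀ u ∈ Ioo c d, f u ≠ 0) : ∀ u ∈ Ioo c d, f u < 0 := by
  have ht : Filter.Tendsto (slope f c) (𝓝[≠] c) (𝓝 (deriv f c)) :=
    hasDerivAt_iff_tendsto_slope.mp hdf.hasDerivAt
  have hle : 𝓝[<] c ≤ 𝓝[≠] c := nhdsWithin_mono c fun x (hx : x < c) => ne_of_lt hx
  have hge : 𝓝[>] c ≤ 𝓝[≠] c := nhdsWithin_mono c fun x (hx : c < x) => ne_of_gt hx
  have hneg : deriv f c < 0 := by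
    rcases lt_or_gt_of_ne hc' with h | h
    · exact h
    · exfalso
      have h1 : ∀ᶠ u in 𝓝[<] c, 0 < slope f c u := hle (ht.eventually (lt_mem_nhds h))
      obtain ⟨u, hu1, hu2⟩ := (h1.and (Ioo_mem_nhdsLT hac)).exists
      have h2 := hl u hu2
      rw [slope_def_field, hc, sub_zero] at hu1
      have h3 : f u / (u - c) < 0 := div_neg_of_pos_of_neg h2 (by linarith [hu2.2])
      linarith
  have h1 : ∀ᶠ u in 𝓝[>] c, slope f c u < 0 := hge (ht.eventually (gt_mem_nhds hneg))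
  obtain ⟨w, hw1, hw2⟩ := (h1.and (Ioo_mem_nhdsGT hcd)).exists
  have hw : f w < 0 := by
    rw [slope_def_field, hc, sub_zero] at hw1
    by_contra hn
    have h3 : 0 ≤ f w / (w - c) := div_nonneg (not_lt.mp hn) (by linarith [hw2.1])
    linarith
  intro u hu
  have h4 : 0 < (fun v => -f v) u :=
    ZMO.sgn (f := fun v => -f v) hf.neg isPreconnected_Ioo (fun v hv => neg_ne_zero.mpr (hr v hv))
      hw2 hu (neg_pos.mpr hw)
  have h5 : 0 < -f u := h4
  linarith

theorem dag {f g : ℝ → ℝ} (hf : Differentiable ℝ f) (hg : Differentiable ℝ g) {p q : ℝ}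
    (hpq : p < q) (h : ∀ u ∈ Icc p q, f u = g u) {u : ℝ} (hu : u ∈ Icc p q) :
    deriv f u = deriv g u := by
  have h1 := (hf u).derivWithin (uniqueDiffOn_Icc hpq u hu)
  have h2 := (hg u).derivWithin (uniqueDiffOn_Icc hpq u hu)
  rw [← h1, ← h2]
  exact derivWithin_congr h (h u hu)

end ZMO

open ZMO in
/-- The signs of the derivative of `x` on the three arcs of a zigzag. -/
theorem t_ZMO : Stmt_ZMO := by
  intro Λ' Λ a c d b D h
  have hac := h.ac
  have hcd := h.cd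
  have hdb := h.db
  have hba := h.ba
  have hx : ∀ u ∈ Icc b (a + 1), Λ'.x u = Λ.x u := fun u hu => by
    unfold LC.LegKnot.x
    rw [h.out u hu]
  -- the derivative does not vanish at `a`
  have ha0 : deriv Λ'.x a ≠ 0 := by
    intro h0
    rcases (h.cr a ⟨le_refl a, by linarith⟩).mp h0 with h1 | h1 <;> linarith
  obtain ⟨s, hs⟩ : ∃ s : Bool, 0 < sn s * deriv Λ'.x a := by
    rcases lt_or_gt_of_ne ha0 with h1 | h1
    · exact ⟨false, by rw [sn_false]; linarith⟩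
    · exact ⟨true, by rw [sn_true]; linarith⟩
  have hsn : sn s ≠ 0 := by
    intro h0
    rw [h0, zero_mul] at hs
    exact lt_irrefl _ hs
  have hfc : Continuous (fun u => sn s * deriv Λ'.x u) := continuous_const.mul (dxc Λ')
  have hf0 : ∀ u ∈ Icc a b, u ≠ c → u ≠ d → sn s * deriv Λ'.x u ≠ 0 := by
    intro u hu huc hud
    refine mul_ne_zero hsn fun h0 => ?_
    rcases (h.cr u hu).mp h0 with h1 | h1
    · exact huc h1
    · exact hud h1
  have hc0 : deriv Λ'.x c = 0 := (h.cr c ⟨hac.le, by linarith⟩).mpr (Or.inl rfl)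
  have hd0 : deriv Λ'.x d = 0 := (h.cr d ⟨by linarith, hdb.le⟩).mpr (Or.inr rfl)
  -- the first arc
  have h1 : ∀ u ∈ Ico a c, 0 < sn s * deriv Λ'.x u := by
    intro u hu
    exact ZMO.sgn (f := fun v => sn s * deriv Λ'.x v) hfc isPreconnected_Ico
      (fun v hv => hf0 v ⟨hv.1, by linarith [hv.2]⟩ (ne_of_lt hv.2)
        (ne_of_lt (by linarith [hv.2])))
      (⟨le_refl a, hac⟩ : a ∈ Ico a c) hu hs
  -- the second arc
  have hdf : ∀ v, DifferentiableAt ℝ (fun u => sn s * deriv Λ'.x u) v := fun v =>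
    (dxd Λ' v).const_mul (sn s)
  have hdv : ∀ v, deriv (fun u => sn s * deriv Λ'.x u) v = sn s * deriv (deriv Λ'.x) v := fun v =>
    deriv_const_mul (sn s) (dxd Λ' v)
  have h2 : ∀ u ∈ Ioo c d, sn s * deriv Λ'.x u < 0 :=
    ZMO.chg (f := fun u => sn s * deriv Λ'.x u) hfc hac hcd (hdf c)
      (by show sn s * deriv Λ'.x c = 0; rw [hc0, mul_zero])
      (by rw [hdv c]; exact mul_ne_zero hsn h.c2)
      (fun u hu => h1 u ⟨hu.1.le, hu.2⟩)
      (fun u hu => hf0 u ⟨by linarith [hu.1], by linarith [hu.2]⟩ (ne_of_gt hu.1) (ne_of_lt hu.2))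
  -- the third arc
  have h3 : ∀ u ∈ Ioo d b, 0 < sn s * deriv Λ'.x u := by
    intro u hu
    have h4 := ZMO.chg (f := fun u => -(sn s * deriv Λ'.x u)) hfc.neg hcd hdb (hdf d).neg
      (by show -(sn s * deriv Λ'.x d) = 0; rw [hd0, mul_zero, neg_zero])
      (by
        have h5 : deriv (fun u => -(sn s * deriv Λ'.x u)) d
            = -deriv (fun u => sn s * deriv Λ'.x u) d := deriv.fun_neg
        rw [h5, hdv d]
        exact neg_ne_zero.mpr (mul_ne_zero hsn h.d2))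
      (fun v hv => neg_pos.mpr (h2 v hv))
      (fun v hv => neg_ne_zero.mpr
        (hf0 v ⟨by linarith [hv.1], by linarith [hv.2]⟩ (ne_of_gt (by linarith [hv.1]))
          (ne_of_gt hv.1))) u hu
    have h6 : -(sn s * deriv Λ'.x u) < 0 := h4
    linarith
  have h3' : ∀ u ∈ Ioc d b, 0 < sn s * deriv Λ'.x u := by
    intro u hu
    have hm : (d + b) / 2 ∈ Ioo d b := ⟨by linarith, by linarith⟩
    exact ZMO.sgn (f := fun v => sn s * deriv Λ'.x v) hfc isPreconnected_Ioc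
      (fun v hv => hf0 v ⟨by linarith [hv.1], hv.2⟩ (ne_of_gt (by linarith [hv.1]))
        (ne_of_gt hv.1))
      (⟨hm.1, hm.2.le⟩ : (d + b) / 2 ∈ Ioc d b) hu (h3 _ hm)
  refine ⟨s, h1, h2, h3', ?_⟩
  -- the chord of the old arc
  have hda : deriv Λ.x a = deriv Λ'.x a := by
    rw [← dxp Λ a, ← dxp Λ' a]
    exact (dag (xd Λ') (xd Λ) hba hx ⟨hba.le, le_refl _⟩).symm
  have hgc : Continuous (fun u => sn s * deriv Λ.x u) := continuous_const.mul (dxc Λ)
  have hg0 : ∀ u ∈ Ico a b, sn s * deriv Λ.x u ≠ 0 := by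
    intro u hu
    rcases eq_or_lt_of_le hu.1 with h4 | h4
    · rw [← h4, hda]
      exact ne_of_gt hs
    · exact mul_ne_zero hsn (h.inD u ⟨h4, hu.2⟩).2
  have hab : a < b := by linarith
  have hg : ∀ u ∈ Ico a b, 0 < sn s * deriv Λ.x u := by
    intro u hu
    refine ZMO.sgn (f := fun v => sn s * deriv Λ.x v) hgc isPreconnected_Ico hg0
      (⟨le_refl a, hab⟩ : a ∈ Ico a b) hu ?_
    show 0 < sn s * deriv Λ.x a
    rw [hda]
    exact hs
  have hmono : StrictMonoOn (fun u => sn s * Λ.x u) (Icc a b) := by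
    refine strictMonoOn_of_deriv_pos (convex_Icc a b)
      (continuous_const.mul (xd Λ).continuous).continuousOn ?_
    intro u hu
    rw [interior_Icc] at hu
    rw [deriv_const_mul (sn s) (xd Λ u)]
    exact hg u ⟨hu.1.le, hu.2⟩
  have hlt : sn s * Λ.x a < sn s * Λ.x b :=
    hmono ⟨le_refl a, hab.le⟩ ⟨hab.le, le_refl b⟩ hab
  have hxa : Λ'.x a = Λ.x a := by
    rw [← xp Λ' a, ← xp Λ a]
    exact hx (a + 1) ⟨hba.le, le_refl _⟩
  have hxb : Λ'.x b = Λ.x b := hx b ⟨le_refl b, hba.le⟩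
  rw [hxa, hxb]
  exact hlt

end LHE
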