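import Pool.Agent.LHE.Stmts1

/-!
# ZPN: the polygons of a stabilised knot have a zigzag
-/

namespace LHE

open Set LG LH

theorem t_ZPN : Stmt_ZPN := by
  intro hEST hZGS hFGP hFGO hIDX Λ' Λ hst
  obtain ⟨s, a, c, d, b, ξ₁, ξ₂, o, hZ⟩ := hZGS Λ' Λ hst
  obtain ⟨δ₁, hδ₁, h1⟩ := hFGP Λ' s a c d ξ₁ hZ.f1
  obtain ⟨δ₂, hδ₂, h2⟩ := hFGP Λ' (!s) c d b (-ξ₂) hZ.f2
  have hδ : 0 < min δ₁ δ₂ := lt_min hδ₁ hδ₂
  obtain ⟨N₁, h1⟩ := h1 (min δ₁ δ₂) hδ (min_le_left _ _)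
  obtain ⟨N₂, h2⟩ := h2 (min δ₁ δ₂) hδ (min_le_right _ _)
  obtain ⟨N₃, h3⟩ := hFGO Λ' s o a c d ξ₁ hZ.f1 hZ.o1
  obtain ⟨N₄, h4⟩ := hFGO Λ' (!s) o c d b (-ξ₂) hZ.f2 hZ.o2
  have hm : StrictMonoOn (fun u => sn s * Λ'.x u) (Icc d b) := by
    intro x hx y hy hxy
    have h5 := hZ.f2.m2 hx hy hxy
    simp only [sn_not] at h5
    change sn s * Λ'.x x < sn s * Λ'.x y
    linarith
  obtain ⟨N₅, h5⟩ := hIDX Λ' s a c d b hZ.f1.ac hZ.f1.cd hZ.f2.cd hZ.f1.m1 hZ.f1.m2 hm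
  obtain ⟨K, hK, N₆, hN₆, h6⟩ := hEST Λ'
  obtain ⟨N₇, h7⟩ := exists_nat_gt (K / min δ₁ δ₂)
  obtain ⟨N₈, h8⟩ := exists_nat_gt (2 / (a + 1 - b))
  have hba : 0 < a + 1 - b := by linarith [hZ.ba]
  refine ⟨s, ξ₁, ξ₂, min δ₁ δ₂, o, N₁ + N₂ + N₃ + N₄ + N₅ + N₆ + N₇ + N₈, by omega, ?_⟩
  intro N hN P hP
  obtain ⟨A, C, D, B, hi1, hi2⟩ := h5 N (by omega) P hP
  have hN6 : N₆ ≤ N := by omega
  have hN0 : (0 : ℝ) < N := by
    have : 0 < N := by omega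
    exact_mod_cast this
  have hN7 : (N₇ : ℝ) ≤ N := by
    have : N₇ ≤ N := by omega
    exact_mod_cast this
  have hN8 : (N₈ : ℝ) ≤ N := by
    have : N₈ ≤ N := by omega
    exact_mod_cast this
  refine ⟨A, C, D, B, ?_⟩
  exact {
    f1 := h1 N (by omega) P hP A C D hi1
    f2 := h2 N (by omega) P hP C D B hi2
    o1 := h3 N (by omega) P hP A C D hi1
    o2 := h4 N (by omega) P hP C D B hi2
    BA := by
      have e1 := abs_le.1 hi1.a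
      have e2 := abs_le.1 hi2.d
      have e3 : 2 < (N : ℝ) * (a + 1 - b) := by
        have := lt_of_lt_of_le h8 hN8
        rwa [div_lt_iff₀ hba] at this
      have e4 : (B : ℝ) ≤ A + N := by nlinarith [e1.1, e1.2, e2.1, e2.2]
      exact_mod_cast e4
    lt := hZ.lt
    dpos := hδ
    st := by
      intro i
      have e1 := ((h6 N hN6 P hP).2 i).2.2.1
      refine lt_of_le_of_lt e1 ?_
      rw [div_lt_iff₀ hN0, mul_comm]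
      have := lt_of_lt_of_le h7 hN7
      rwa [div_lt_iff₀ hδ] at this }

end LHE
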