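import Pool.Agent.LH.All
import Pool.Agent.LHE.ZMO
import Pool.Agent.LHE.CUS
import Pool.Agent.LHE.ZGS
import Pool.Agent.LHE.EST
import Pool.Agent.LHE.FGP
import Pool.Agent.LHE.FGO
import Pool.Agent.LHE.IDX
import Pool.Agent.LHE.ZPN
import Pool.Agent.LHE.MSH
import Pool.Agent.LHE.CRE
import Pool.Agent.LHE.ROT
import Pool.Agent.LHE.FNG
import Pool.Agent.LHE.ADJ
import Pool.Agent.LHE.EXT
import Pool.Agent.LHE.RET
import Pool.Agent.LHE.FRT
import Pool.Agent.LHE.WRG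
import Pool.Agent.LHE.TWF
import Pool.Agent.LHE.TSF

/-!
# The polygons of a stabilised knot: assembly
-/

namespace LHE

open LG LH

theorem p_ZGS : P_ZGS := t_ZGS t_ZMO t_CUS

theorem p_FGP : P_FGP := t_FGP t_EST

theorem p_FGO : P_FGO := t_FGO t_EST p_PGB

theorem p_ZPN : P_ZPN := t_ZPN t_EST p_ZGS p_FGP p_FGO t_IDX

theorem p_EXT : P_EXT := t_EXT p_WON t_MSH t_CRE t_ROT t_FNG t_ADJ

theorem p_RET : P_RET := t_RET p_RTR p_RTL p_WEB p_CWA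

theorem p_FRT : P_FRT := t_FRT p_RET p_WEB p_CWA

theorem p_WRG : P_WRG := t_WRG p_WZR p_WZL t_RPE p_CWA

theorem p_TWF : P_TWF := t_TWF p_FRT p_WRG p_LEQ p_WEB p_CWA t_RPE

theorem t_TS : T_S := t_TSF p_ZPN p_TEX p_CWG p_EXT p_TWF p_CWA p_WEB

end LHE
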