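import Pool.Agent.LH.Base

/-!
# The two ends of part C: stabilised knots and the knot `J`

Definitions.
-/

namespace LHE

open Set LG LH

/-! ### directions -/

/-- Passing in the direction `s` (`true`: to the right). -/
def pass (s : Bool) : Kd := if s then .rt else .lt

/-- The turn which ends a motion in the direction `s`. -/
def turn (s : Bool) : Kd := if s then .R else .L

/-- The sign of the direction. -/
def sn (s : Bool) : ℝ := if s then 1 else -1

/-- The line `t'` comes after the line `t` in the direction `s`. -/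
def up (s : Bool) (t t' : ℝ) : Prop := sn s * t < sn s * t'

theorem sn_true : sn true = 1 := rfl

theorem sn_false : sn false = -1 := rfl

theorem sn_not (s : Bool) : sn (!s) = -sn s := by cases s <;> simp [sn]

theorem sn_sq (s : Bool) : sn s * sn s = 1 := by cases s <;> simp [sn]

theorem sn_or (s : Bool) : sn s = 1 ∨ sn s = -1 := by cases s <;> simp [sn]

/-- The `z`-coordinate of a knot. -/
def zz (Λ : LC.LegKnot) (u : ℝ) : ℝ := (Λ.γ u).2.2

/-! ### fingers: the smooth case -/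

/-- A finger of a knot: in the direction `s`, `x` increases on `[a, c]` and decreases on `[c, d]`;
beyond the position `τ` no other part of the front meets the region between the two arcs. -/
structure FgS (Λ : LC.LegKnot) (s : Bool) (a c d τ : ℝ) : Prop where
  ac : a < c
  cd : c < d
  da : d < a + 1
  m1 : StrictMonoOn (fun u => sn s * Λ.x u) (Icc a c)
  m2 : StrictAntiOn (fun u => sn s * Λ.x u) (Icc c d)
  xa : sn s * Λ.x a < τ
  xd : sn s * Λ.x d < τ
  gap : ∀ u₁ ∈ Icc a c, ∀ u₂ ∈ Icc c d, ∀ u ∈ Icc d (a + 1), Λ.x u₁ = Λ.x u →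
    Λ.x u₂ = Λ.x u → τ ≤ sn s * Λ.x u → zz Λ u ∉ uIcc (zz Λ u₁) (zz Λ u₂)

/-- The order of the two arcs of a finger; `o` is the sign of the order. -/
structure OdS (Λ : LC.LegKnot) (s : Bool) (a c d : ℝ) (o : Bool) : Prop where
  yc : 0 < sn o * (sn s * deriv Λ.y c)
  od : ∀ u₁ ∈ Icc a c, ∀ u₂ ∈ Icc c d, Λ.x u₁ = Λ.x u₂ → u₁ ≠ c →
    sn o * zz Λ u₂ < sn o * zz Λ u₁

/-- A zigzag of a knot: two fingers of opposite directions. -/
structure ZigS (Λ : LC.LegKnot) (s : Bool) (a c d b ξ₁ ξ₂ : ℝ) (o : Bool) : Prop where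
  f1 : FgS Λ s a c d ξ₁
  f2 : FgS Λ (!s) c d b (-ξ₂)
  o1 : OdS Λ s a c d o
  o2 : OdS Λ (!s) c d b o
  ba : b < a + 1
  lt : ξ₁ < ξ₂

/-! ### fingers: polygons -/

variable {N : ℕ}

/-- A finger of a polygon: in the direction `s`, `x` increases on `[A, C]` and decreases on
`[C, D]`; at the positions `t` beyond `τ` no other edge near `t` is between the two edges. -/
structure Fg (P : Pg N) (s : Bool) (A C D : ℤ) (τ δ : ℝ) : Prop where
  AC : A < C
  CD : C < D
  DA : D ≤ A + N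
  m1 : MonotoneOn (fun i => sn s * P.x i) (Icc A C)
  m2 : AntitoneOn (fun i => sn s * P.x i) (Icc C D)
  xa : sn s * P.x A < τ
  xd : sn s * P.x D < τ
  gap : ∀ t, τ ≤ sn s * t → ∀ e₁ ∈ Ico A C, ∀ e₂ ∈ Ico C D, ∀ e ∈ Ico D (A + N),
    |P.x e₁ - t| < 2 * δ → |P.x e₂ - t| < 2 * δ → |P.x e - t| < 2 * δ →
    P.l e t ∉ uIcc (P.l e₁ t) (P.l e₂ t)

/-- The edge `e` crosses the line `t` in the direction `s`. -/
def Crs (P : Pg N) (s : Bool) (t : ℝ) (e : ℤ) : Prop :=
  sn s * P.x e < sn s * t ∧ sn s * t < sn s * P.x (e + 1)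

/-- The order of the two arcs of a finger of a polygon. -/
def OdP (P : Pg N) (s : Bool) (A C D : ℤ) (τ : ℝ) (o : Bool) : Prop :=
  ∀ t, τ ≤ sn s * t → ∀ e ∈ Ico A C, ∀ f ∈ Ico C D, Crs P s t e → Crs P (!s) t f →
    sn o * P.l f t < sn o * P.l e t

/-- A zigzag of a polygon. -/
structure ZigP (P : Pg N) (s : Bool) (A C D B : ℤ) (ξ₁ ξ₂ δ : ℝ) (o : Bool) : Prop where
  f1 : Fg P s A C D ξ₁ δ
  f2 : Fg P (!s) C D B (-ξ₂) δ
  o1 : OdP P s A C D ξ₁ o
  o2 : OdP P (!s) C D B (-ξ₂) o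
  BA : B ≤ A + N
  lt : ξ₁ < ξ₂
  dpos : 0 < δ
  st : ∀ i, |P.x (i + 1) - P.x i| < δ

/-! ### fingers: walks -/

/-- The items of a finger, in the direction `s`, beyond the line `t`. -/
inductive FI (P : Pg N) (s : Bool) (A C D : ℤ) (X : Finset ℝ) : ℝ → List It → Prop
  | tip (t t' : ℝ) (e : ℤ) : up s t t' → FI P s A C D X t [⟨turn s, t', e⟩]
  | step (t t' : ℝ) (e f : ℤ) (F : List It) : up s t t' → t' ∈ X → e ∈ Ico A C → f ∈ Ico C D →
      Crs P s t' e → Crs P (!s) t' f → FI P s A C D X t' F →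
      FI P s A C D X t (⟨pass s, t', e⟩ :: F ++ [⟨pass (!s), t', f⟩])

/-- The points of a finger, in the direction `s`, beyond the line `t`; the pairs of points on the
same line satisfy the condition `V`. -/
inductive PF (s : Bool) (V : ℝ → ℝ → ℝ → Prop) : ℝ → List Pt → Prop
  | tip (t t' h : ℝ) : up s t t' → PF s V t [⟨turn s, t', h⟩]
  | step (t t' h₁ h₂ : ℝ) (F : List Pt) : up s t t' → V t' h₁ h₂ → PF s V t' F →
      PF s V t (⟨pass s, t', h₁⟩ :: F ++ [⟨pass (!s), t', h₂⟩])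

/-- No point of the walk on the line `t` is strictly between the heights `h₁` and `h₂`. -/
def AdjW (w : List Pt) (t h₁ h₂ : ℝ) : Prop := ∀ p ∈ w, p.t = t → ¬ Btw h₁ h₂ p.h

/-- The condition for the pairs of points of a finger: adjacent, and ordered by `o`. -/
def AO (w : List Pt) (o : Bool) (t h₁ h₂ : ℝ) : Prop := AdjW w t h₁ h₂ ∧ sn o * h₂ < sn o * h₁

end LHE
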