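import Pool.Agent.LHE.Stmts3

/-!
# CDM: the lines can be replaced by their codes
-/

namespace LHE

open Set LG LH

namespace CDM

/-- The points of the arc `k`, with the codes of the lines. -/
def cA (c o : ℤ → ℤ) (g : ℤ → Bool) (H V : ℤ → ℝ) (k : ℤ) : List (Kd × ℤ × ℝ) :=
  if g k = g (k + 1) then [(pass (g k), c k, H k)]
  else [(pass (g k), c k, H k), (turn (g k), o k, V k)]

/-- The point of a triple. -/
def tp (f : ℤ → ℝ) (x : Kd × ℤ × ℝ) : Pt := ⟨x.1, f x.2.1, x.2.2⟩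

theorem aPt_eq (c o : ℤ → ℤ) (g : ℤ → Bool) (H V : ℤ → ℝ) (f : ℤ → ℝ) (k : ℤ) :
    aPt (fun k => f (c k)) (fun k => f (o k)) g H V k = (cA c o g H V k).map (tp f) := by
  unfold aPt cA tp
  split_ifs <;> rfl

theorem aPts_eq (K : ℕ) (c o : ℤ → ℤ) (g : ℤ → Bool) (H V : ℤ → ℝ) (f : ℤ → ℝ) :
    aPts K (fun k => f (c k)) (fun k => f (o k)) g H V =
      ((List.range K).flatMap fun k => cA c o g H V (k : ℤ)).map (tp f) := by
  unfold aPts
  rw [List.map_flatMap]
  congr 1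
  funext k
  exact aPt_eq c o g H V f k

theorem lex (a b c d : ℝ) : (toLex (a, b) : Q) < toLex (c, d) ↔ a < c ∨ a = c ∧ b < d := by
  rw [Prod.Lex.lt_iff]
  rfl

theorem so (l : List (Kd × ℤ × ℝ)) (f h : ℤ → ℝ) (hf : StrictMono f) (hh : StrictMono h) :
    SO (l.map (tp f)) (l.map (tp h)) := by
  refine ⟨by simp, ?_, ?_, ?_⟩
  · intro i h1 h2
    rw [List.getElem_map, List.getElem_map]
    rfl
  · intro i j h1 h2 h3 h4 _ _
    rw [List.getElem_map, List.getElem_map, List.getElem_map, List.getElem_map]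
    unfold Pt.c tp
    rw [lex, lex]
    simp only
    rw [hf.lt_iff_lt, hh.lt_iff_lt, hf.injective.eq_iff, hh.injective.eq_iff]
  · intro i j h1 h2 h3 h4 _ _
    rw [List.getElem_map, List.getElem_map, List.getElem_map, List.getElem_map]
    unfold Pt.r tp
    rw [lex, lex]
    simp only
    rw [neg_lt_neg_iff, neg_lt_neg_iff, neg_inj, neg_inj, hf.lt_iff_lt, hh.lt_iff_lt,
      hf.injective.eq_iff, hh.injective.eq_iff]

end CDM

theorem t_CDM : Stmt_CDM := by
  intro K c o g H V f hf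
  rw [CDM.aPts_eq K c o g H V f, CDM.aPts_eq K c o g H V (fun n : ℤ => (n : ℝ))]
  exact CDM.so _ _ _ (fun a b h => Int.cast_lt.mpr h) hf

end LHE
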