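import Pool.Agent.LHE.Stmts2

/-!
# CMB: comparison of the two lists of points
-/

namespace LHE

open Set LG LH

namespace CMB

/-- The labels of the points of the arc `k`. -/
def ix (g : ℤ → Bool) (k : ℤ) : List (ℤ × Bool) :=
  if g k = g (k + 1) then [(k, false)] else [(k, false), (k, true)]

/-- The labels of the points. -/
def ixs (K : ℕ) (g : ℤ → Bool) : List (ℤ × Bool) :=
  (List.range K).flatMap fun k => ix g k

/-- The point with a given label. -/
def ptx (s o : ℤ → ℝ) (g : ℤ → Bool) (H V : ℤ → ℝ) (x : ℤ × Bool) : Pt :=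
  if x.2 then ⟨turn (g x.1), o x.1, V x.1⟩ else ⟨pass (g x.1), s x.1, H x.1⟩

theorem aPt_eq (s o : ℤ → ℝ) (g : ℤ → Bool) (H V : ℤ → ℝ) (k : ℤ) :
    aPt s o g H V k = (ix g k).map (ptx s o g H V) := by
  unfold aPt ix
  split <;> rfl

theorem aPts_eq (K : ℕ) (s o : ℤ → ℝ) (g : ℤ → Bool) (H V : ℤ → ℝ) :
    aPts K s o g H V = (ixs K g).map (ptx s o g H V) := by
  unfold aPts ixs
  rw [List.map_flatMap]
  have : (fun k : ℤ => aPt s o g H V k) = fun k : ℤ => (ix g k).map (ptx s o g H V) :=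
    funext fun k => aPt_eq s o g H V k
  rw [this]

theorem mem_ixs {K : ℕ} {g : ℤ → Bool} {x : ℤ × Bool} (h : x ∈ ixs K g) :
    0 ≤ x.1 ∧ x.1 < K ∧ (x.2 = true → g x.1 ≠ g (x.1 + 1)) := by
  unfold ixs at h
  rw [List.mem_flatMap] at h
  obtain ⟨m, hm, hx⟩ := h
  obtain ⟨k, hk, rfl⟩ : ∃ k : ℕ, k < K ∧ m = k := by
    simpa [eq_comm] using hm
  unfold ix at hx
  split at hx
  · rw [List.mem_singleton] at hx
    subst hx
    refine ⟨by simp, Int.ofNat_lt.2 hk, ?_⟩
    intro h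
    simp at h
  · rename_i hg
    rw [List.mem_cons, List.mem_singleton] at hx
    rcases hx with rfl | rfl
    · refine ⟨by simp, Int.ofNat_lt.2 hk, ?_⟩
      intro h
      simp at h
    · exact ⟨by simp, Int.ofNat_lt.2 hk, fun _ => hg⟩

theorem not_cg {K : ℕ} {k l : ℤ} (hk : 0 ≤ k) (hk' : k < K) (hl : 0 ≤ l) (hl' : l < K)
    (h : k ≠ l) : ¬ Cg K k l := by
  rintro ⟨j, hj⟩
  rcases lt_trichotomy j 0 with hj0 | hj0 | hj0
  · have h1 : j * (K : ℤ) ≤ -1 * K := mul_le_mul_of_nonneg_right (by omega) (by omega)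
    omega
  · subst hj0
    omega
  · have h1 : 1 * (K : ℤ) ≤ j * K := mul_le_mul_of_nonneg_right (by omega) (by omega)
    omega

theorem lex_iff {t t₁ h h₁ h' h₁' : ℝ} (H : t = t₁ → (h < h₁ ↔ h' < h₁')) :
    ((toLex (t, h) : Q) < toLex (t₁, h₁)) ↔ (toLex (t, h') : Q) < toLex (t₁, h₁') := by
  rw [Prod.Lex.toLex_lt_toLex, Prod.Lex.toLex_lt_toLex]
  constructor
  · rintro (h0 | ⟨h0, h1⟩)
    · exact Or.inl h0
    · exact Or.inr ⟨h0, (H h0).1 h1⟩
  · rintro (h0 | ⟨h0, h1⟩)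
    · exact Or.inl h0
    · exact Or.inr ⟨h0, (H h0).2 h1⟩

/-- The comparison of the heights of two points on the same line. -/
theorem key {K : ℕ} {s a b : ℤ → ℝ} {g : ℤ → Bool} {H V H' V' : ℤ → ℝ}
    (h1 : ∀ k l, ¬ Cg K k l → s k = s l → (H k < H l ↔ H' k < H' l))
    (h2 : ∀ k l, g k ≠ g (k + 1) → s l = oL a b g k →
      (V k < H l ↔ V' k < H' l) ∧ (H l < V k ↔ H' l < V' k))
    (h3 : ∀ k l, ¬ Cg K k l → g k ≠ g (k + 1) → g l ≠ g (l + 1) → g k = g l →
      oL a b g k = oL a b g l → (V k < V l ↔ V' k < V' l))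
    {x y : ℤ × Bool} (hx : x ∈ ixs K g) (hy : y ∈ ixs K g)
    (hg : x.2 = true → y.2 = true → g x.1 = g y.1)
    (ht : (ptx s (oL a b g) g H V x).t = (ptx s (oL a b g) g H V y).t) :
    ((ptx s (oL a b g) g H V x).h < (ptx s (oL a b g) g H V y).h ↔
      (ptx s (oL a b g) g H' V' x).h < (ptx s (oL a b g) g H' V' y).h) := by
  obtain ⟨k, p⟩ := x
  obtain ⟨l, q⟩ := y
  obtain ⟨hk, hk', hkg⟩ := mem_ixs hx
  obtain ⟨hl, hl', hlg⟩ := mem_ixs hy
  simp only at hk hk' hkg hl hl' hlg hg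
  cases p <;> cases q
  · show H k < H l ↔ H' k < H' l
    have ht' : s k = s l := ht
    by_cases hkl : k = l
    · subst hkl
      simp
    · exact h1 k l (not_cg hk hk' hl hl' hkl) ht'
  · exact (h2 l k (hlg rfl) ht).2
  · exact (h2 k l (hkg rfl) ht.symm).1
  · show V k < V l ↔ V' k < V' l
    have ht' : oL a b g k = oL a b g l := ht
    by_cases hkl : k = l
    · subst hkl
      simp
    · exact h3 k l (not_cg hk hk' hl hl' hkl) (hkg rfl) (hlg rfl) (hg rfl rfl) ht'

theorem ptx_k (s o : ℤ → ℝ) (g : ℤ → Bool) (H V H' V' : ℤ → ℝ) (x : ℤ × Bool) :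
    (ptx s o g H V x).k = (ptx s o g H' V' x).k := by
  unfold ptx
  split <;> rfl

theorem ptx_t (s o : ℤ → ℝ) (g : ℤ → Bool) (H V H' V' : ℤ → ℝ) (x : ℤ × Bool) :
    (ptx s o g H V x).t = (ptx s o g H' V' x).t := by
  unfold ptx
  split <;> rfl

theorem hc_turn {s o : ℤ → ℝ} {g : ℤ → Bool} {H V : ℤ → ℝ} {x : ℤ × Bool}
    (h : hc (ptx s o g H V x)) (hx : x.2 = true) : g x.1 = true := by
  unfold hc ptx at h
  rw [if_pos hx] at h
  unfold turn at h
  by_contra hg
  rw [if_neg hg] at h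
  exact h rfl

theorem hr_turn {s o : ℤ → ℝ} {g : ℤ → Bool} {H V : ℤ → ℝ} {x : ℤ × Bool}
    (h : hr (ptx s o g H V x)) (hx : x.2 = true) : g x.1 = false := by
  unfold hr ptx at h
  rw [if_pos hx] at h
  unfold turn at h
  by_contra hg
  rw [if_pos (by simpa using hg)] at h
  exact h rfl

end CMB

open CMB in
/-- CMB: comparison of the two lists of points. -/
theorem t_CMB : Stmt_CMB := by
  intro K s a b g X H V H' V' _ h1 h2 h3
  rw [aPts_eq, aPts_eq]
  refine ⟨by simp, ?_, ?_, ?_⟩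
  · intro i h h'
    rw [List.getElem_map, List.getElem_map]
    exact ptx_k _ _ _ _ _ _ _ _
  · intro i j h h' l l' ci cj
    rw [List.getElem_map] at ci cj
    rw [List.getElem_map, List.getElem_map, List.getElem_map, List.getElem_map]
    have hi : i < (ixs K g).length := by simpa using h
    have hj : j < (ixs K g).length := by simpa using l
    have mi := List.getElem_mem hi
    have mj := List.getElem_mem hj
    unfold Pt.c
    rw [ptx_t s (oL a b g) g H' V' H V, ptx_t s (oL a b g) g H' V' H V]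
    refine lex_iff fun ht => key h1 h2 h3 mi mj (fun e1 e2 => ?_) ht
    rw [hc_turn ci e1, hc_turn cj e2]
  · intro i j h h' l l' ci cj
    rw [List.getElem_map] at ci cj
    rw [List.getElem_map, List.getElem_map, List.getElem_map, List.getElem_map]
    have hi : i < (ixs K g).length := by simpa using h
    have hj : j < (ixs K g).length := by simpa using l
    have mi := List.getElem_mem hi
    have mj := List.getElem_mem hj
    unfold Pt.r
    rw [ptx_t s (oL a b g) g H' V' H V, ptx_t s (oL a b g) g H' V' H V]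
    refine lex_iff fun ht => key h1 h2 h3 mi mj (fun e1 e2 => ?_) (neg_injective ht)
    rw [hr_turn ci e1, hr_turn cj e2]

end LHE
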