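import Pool.Agent.LHE.Stmts2

/-!
# DST: different points of the walk of the arcs have different positions
-/

namespace LHE

open Set LG LH

namespace DST

theorem hasDeriv (Λ : LC.LegKnot) (u : ℝ) : HasDerivAt Λ.γ (deriv Λ.γ u) u :=
  ((Λ.smooth.differentiable (by simp)) u).hasDerivAt

theorem hx (Λ : LC.LegKnot) (u : ℝ) : HasDerivAt Λ.x (deriv Λ.γ u).1 u := by
  have h := (hasFDerivAt_fst (𝕜 := ℝ) (E := ℝ) (F := ℝ × ℝ) (p := Λ.γ u)).comp_hasDerivAt u
    (hasDeriv Λ u)
  exact h

theorem h2 (Λ : LC.LegKnot) (u : ℝ) : HasDerivAt (fun v => (Λ.γ v).2) (deriv Λ.γ u).2 u := by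
  have h := (hasFDerivAt_snd (𝕜 := ℝ) (E := ℝ) (F := ℝ × ℝ) (p := Λ.γ u)).comp_hasDerivAt u
    (hasDeriv Λ u)
  exact h

theorem hy (Λ : LC.LegKnot) (u : ℝ) : HasDerivAt Λ.y (deriv Λ.y u) u := by
  have h := (hasFDerivAt_fst (𝕜 := ℝ) (E := ℝ) (F := ℝ) (p := (Λ.γ u).2)).comp_hasDerivAt u
    (h2 Λ u)
  have h' : HasDerivAt Λ.y (deriv Λ.γ u).2.1 u := h
  rw [h'.deriv]
  exact h'

theorem hz (Λ : LC.LegKnot) (u : ℝ) : HasDerivAt (zz Λ) (Λ.y u * deriv Λ.x u) u := by
  have h := (hasFDerivAt_snd (𝕜 := ℝ) (E := ℝ) (F := ℝ) (p := (Λ.γ u).2)).comp_hasDerivAt u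
    (h2 Λ u)
  have h3 : HasDerivAt (zz Λ) (deriv Λ.γ u).2.2 u := h
  have h4 := Λ.legendrian u
  unfold LC.alpha at h4
  have h5 : (deriv Λ.γ u).2.2 - Λ.y u * (deriv Λ.γ u).1 = 0 := h4
  rw [(hx Λ u).deriv]
  rw [sub_eq_zero] at h5
  rw [← h5]
  exact h3

theorem hTL (Λ : LC.LegKnot) (t u : ℝ) :
    HasDerivAt (fun v => TL Λ v t) (deriv Λ.y u * (t - Λ.x u)) u := by
  have h1 := hz Λ u
  have h3 : HasDerivAt (fun v => t - Λ.x v) (-(deriv Λ.x u)) u := by
    have h := (hx Λ u).const_sub t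
    rw [(hx Λ u).deriv]
    exact h
  have h4 := h1.add ((hy Λ u).mul h3)
  have e : Λ.y u * deriv Λ.x u + (deriv Λ.y u * (t - Λ.x u) + Λ.y u * -(deriv Λ.x u)) =
      deriv Λ.y u * (t - Λ.x u) := by ring
  rw [e] at h4
  exact h4

theorem TL_hit (Λ : LC.LegKnot) {u t : ℝ} (h : Λ.x u = t) : TL Λ u t = zz Λ u := by
  unfold TL
  rw [h]
  ring

theorem adj_r {X : Finset ℝ} {a b b' : ℝ} (h : AdjX X a b) (h' : AdjX X a b') : b = b' := by
  rcases lt_trichotomy b b' with hb | hb | hb
  · exact absurd ⟨h.2.2.1, hb⟩ (h'.2.2.2 b h.2.1)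
  · exact hb
  · exact absurd ⟨h'.2.2.1, hb⟩ (h.2.2.2 b' h'.2.1)

theorem adj_l {X : Finset ℝ} {a a' b : ℝ} (h : AdjX X a b) (h' : AdjX X a' b) : a = a' := by
  rcases lt_trichotomy a a' with hb | hb | hb
  · exact absurd ⟨hb, h'.2.2.1⟩ (h.2.2.2 a' h'.1)
  · exact hb
  · exact absurd ⟨hb, h.2.2.1⟩ (h'.2.2.2 a h.1)

theorem per_g {K : ℕ} {g : ℤ → Bool} (h : ∀ k, g (k + K) = g k) (k j : ℤ) :
    g (k + j * K) = g k := by
  have hp : Function.Periodic g (K : ℤ) := h
  have := hp.int_mul j k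
  rwa [Int.cast_id] at this

theorem per_s {K : ℕ} {s : ℤ → ℝ} (h : ∀ k, s (k + K) = s k) (k j : ℤ) :
    s (k + j * K) = s k := by
  have hp : Function.Periodic s (K : ℤ) := h
  have := hp.int_mul j k
  rwa [Int.cast_id] at this

theorem per_th {K : ℕ} {θ : ℤ → ℝ} (h : ∀ k, θ (k + K) = θ k + 1) (k j : ℤ) :
    θ (k + j * K) = θ k + j := by
  induction j using Int.induction_on with
  | zero => simp
  | succ i ih =>
    have e : k + ((i : ℤ) + 1) * K = (k + (i : ℤ) * K) + K := by ring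
    rw [e, h, ih]
    push_cast
    ring
  | pred i ih =>
    have e : k + (-(i : ℤ)) * K = (k + (-(i : ℤ) - 1) * K) + K := by ring
    rw [e, h] at ih
    push_cast at ih ⊢
    linarith

theorem per_zz (Λ : LC.LegKnot) (u : ℝ) (j : ℤ) : zz Λ (u + j) = zz Λ u := by
  have hp : Function.Periodic Λ.γ (1 : ℝ) := Λ.periodic
  have := hp.int_mul j u
  rw [mul_one] at this
  unfold zz
  rw [this]

variable {Λ : LC.LegKnot} {K : ℕ} {θ s a b : ℤ → ℝ} {g : ℤ → Bool} {X : Finset ℝ}

theorem cgs {K : ℕ} {k l : ℤ} (h : Cg K k l) : Cg K l k := by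
  obtain ⟨j, hj⟩ := h
  exact ⟨-j, by rw [hj]; ring⟩

theorem sepne (H : Arcs Λ K θ s a b g X) {k l : ℤ} (hc : ¬ Cg K k l) (ha : a k = a l) {t : ℝ}
    (ht : t = a k ∨ t = b k) {u v : ℝ} (hu : u ∈ Icc (θ k) (θ (k + 1)))
    (hv : v ∈ Icc (θ l) (θ (l + 1))) : TL Λ u t ≠ TL Λ v t := by
  rcases H.sep k l hc ha t ht with h | h
  · exact (h u hu v hv).ne
  · exact (h u hu v hv).ne'

theorem meml (H : Arcs Λ K θ s a b g X) (k : ℤ) : θ k ∈ Icc (θ k) (θ (k + 1)) :=
  left_mem_Icc.2 (H.mono k).le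

theorem memr (H : Arcs Λ K θ s a b g X) (l : ℤ) : θ l ∈ Icc (θ (l - 1)) (θ (l - 1 + 1)) := by
  have h := H.mono (l - 1)
  rw [sub_add_cancel] at h ⊢
  exact right_mem_Icc.2 h.le

/-- The two ends of a turning arc. -/
theorem turnne (H : Arcs Λ K θ s a b g X) {k : ℤ} (hk : g k = true) (hk1 : g (k + 1) = false) :
    zz Λ (θ k) ≠ zz Λ (θ (k + 1)) := by
  have hs : s k = a k := by rw [H.d.st k, hk]; rfl
  have hs1 : s (k + 1) = a k := by rw [H.d.en k, hk1]; rfl
  have h0 : Λ.x (θ k) = a k := (H.hit k).trans hs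
  have h1 : Λ.x (θ (k + 1)) = a k := (H.hit (k + 1)).trans hs1
  have hm := H.mono k
  rcases H.ty k with h | h
  · exfalso
    have hcont : ContinuousOn Λ.x (Icc (θ k) (θ (k + 1))) :=
      fun u _ => (hx Λ u).continuousAt.continuousWithinAt
    obtain ⟨c, hc, hd⟩ := exists_deriv_eq_zero hm hcont (h0.trans h1.symm)
    exact h c (Ioo_subset_Icc_self hc) hd
  · rw [← TL_hit Λ h0, ← TL_hit Λ h1]
    intro he
    have hcont : ContinuousOn (fun v => TL Λ v (a k)) (Icc (θ k) (θ (k + 1))) :=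
      fun u _ => (hTL Λ (a k) u).continuousAt.continuousWithinAt
    obtain ⟨c, hc, hd⟩ := exists_deriv_eq_zero hm hcont he
    rw [(hTL Λ (a k) c).deriv] at hd
    have hi := (H.ins k c hc).1
    rcases mul_eq_zero.1 hd with h2 | h2
    · exact h c (Ioo_subset_Icc_self hc) h2
    · exact hi.ne (sub_eq_zero.1 h2)

/-- Passing points of different directions on one line. -/
theorem case_tf (H : Arcs Λ K θ s a b g X) {k l : ℤ} (hk : g k = true) (hl : g l = false)
    (hs : s k = s l) : zz Λ (θ k) ≠ zz Λ (θ l) := by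
  have hsk : s k = a k := by rw [H.d.st k, hk]; rfl
  have hen : s l = a (l - 1) := by
    have h := H.d.en (l - 1)
    rw [sub_add_cancel, hl] at h
    exact h
  have haa : a k = a (l - 1) := by rw [← hsk, hs, hen]
  by_cases hc : Cg K k (l - 1)
  · obtain ⟨j, hj⟩ := hc
    have hl' : l = (k + 1) + j * K := by linarith
    have hg1 : g (k + 1) = false := by rw [← hl, hl', per_g H.d.pg]
    have hz : zz Λ (θ l) = zz Λ (θ (k + 1)) := by
      rw [hl', per_th H.pθ, per_zz]
    rw [hz]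
    exact turnne H hk hg1
  · have h := sepne H hc haa (Or.inl rfl) (meml H k) (memr H l)
    rw [TL_hit Λ ((H.hit k).trans hsk), TL_hit Λ ((H.hit l).trans (hen.trans haa.symm))] at h
    exact h

theorem part1 (H : Arcs Λ K θ s a b g X) (k l : ℤ) (hc : ¬ Cg K k l) (hs : s k = s l) :
    zz Λ (θ k) ≠ zz Λ (θ l) := by
  rcases hk : g k with _ | _ <;> rcases hl : g l with _ | _
  · have hsk : s k = b k := by rw [H.d.st k, hk]; rfl
    have hsl : s l = b l := by rw [H.d.st l, hl]; rfl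
    have hb : b k = b l := by rw [← hsk, hs, hsl]
    have ha : a k = a l := adj_l (H.d.adj k) (hb ▸ H.d.adj l)
    have h := sepne H hc ha (Or.inr rfl) (meml H k) (meml H l)
    rw [TL_hit Λ ((H.hit k).trans hsk), TL_hit Λ ((H.hit l).trans (hsl.trans hb.symm))] at h
    exact h
  · exact (case_tf H hl hk hs.symm).symm
  · exact case_tf H hk hl hs
  · have hsk : s k = a k := by rw [H.d.st k, hk]; rfl
    have hsl : s l = a l := by rw [H.d.st l, hl]; rfl
    have ha : a k = a l := by rw [← hsk, hs, hsl]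
    have h := sepne H hc ha (Or.inl rfl) (meml H k) (meml H l)
    rw [TL_hit Λ ((H.hit k).trans hsk), TL_hit Λ ((H.hit l).trans (hsl.trans ha.symm))] at h
    exact h

theorem part2 (H : Arcs Λ K θ s a b g X) (k l : ℤ) (hg : g k ≠ g (k + 1))
    (hs : s l = oL a b g k) : TL Λ (θ k) (oL a b g k) ≠ zz Λ (θ l) := by
  have hit : Λ.x (θ l) = oL a b g k := (H.hit l).trans hs
  rw [← TL_hit Λ hit]
  have ncg : ¬ Cg K k l ∨ g l = g k := by
    by_cases h : g l = g k
    · exact Or.inr h
    · left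
      rintro ⟨j, hj⟩
      exact h (by rw [hj, per_g H.d.pg])
  have ncg1 : ¬ Cg K k (l - 1) ∨ g l = g (k + 1) := by
    by_cases h : g l = g (k + 1)
    · exact Or.inr h
    · left
      rintro ⟨j, hj⟩
      have hl' : l = (k + 1) + j * K := by linarith
      exact h (by rw [hl', per_g H.d.pg])
  rcases hk : g k with _ | _
  · have ho : oL a b g k = a k := by unfold oL; rw [hk]; rfl
    rw [ho] at hs ⊢
    have hk1 : g (k + 1) = true := by
      rcases h : g (k + 1) with _ | _
      · exact absurd (hk.trans h.symm) hg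
      · rfl
    rcases hl : g l with _ | _
    · have hen : s l = a (l - 1) := by
        have h := H.d.en (l - 1)
        rw [sub_add_cancel, hl] at h
        exact h
      have haa : a k = a (l - 1) := by rw [← hs, hen]
      have hc : ¬ Cg K k (l - 1) := by
        rcases ncg1 with h | h
        · exact h
        · rw [hl, hk1] at h
          exact absurd h (by simp)
      exact sepne H hc haa (Or.inl rfl) (meml H k) (memr H l)
    · have hsl : s l = a l := by rw [H.d.st l, hl]; rfl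
      have hc : ¬ Cg K k l := by
        rcases ncg with h | h
        · exact h
        · rw [hl, hk] at h
          exact absurd h (by simp)
      exact sepne H hc (hs.symm.trans hsl) (Or.inl rfl) (meml H k) (meml H l)
  · have ho : oL a b g k = b k := by unfold oL; rw [hk]; rfl
    rw [ho] at hs ⊢
    have hk1 : g (k + 1) = false := by
      rcases h : g (k + 1) with _ | _
      · rfl
      · exact absurd (hk.trans h.symm) hg
    rcases hl : g l with _ | _
    · have hsl : s l = b l := by rw [H.d.st l, hl]; rfl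
      have hb : b k = b l := hs.symm.trans hsl
      have ha : a k = a l := adj_l (H.d.adj k) (hb ▸ H.d.adj l)
      have hc : ¬ Cg K k l := by
        rcases ncg with h | h
        · exact h
        · rw [hl, hk] at h
          exact absurd h (by simp)
      exact sepne H hc ha (Or.inr rfl) (meml H k) (meml H l)
    · have hen : s l = b (l - 1) := by
        have h := H.d.en (l - 1)
        rw [sub_add_cancel, hl] at h
        exact h
      have hb : b k = b (l - 1) := hs.symm.trans hen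
      have ha : a k = a (l - 1) := adj_l (H.d.adj k) (hb ▸ H.d.adj (l - 1))
      have hc : ¬ Cg K k (l - 1) := by
        rcases ncg1 with h | h
        · exact h
        · rw [hl, hk1] at h
          exact absurd h (by simp)
      exact sepne H hc ha (Or.inr rfl) (meml H k) (memr H l)

theorem part3 (H : Arcs Λ K θ s a b g X) (k l : ℤ) (hc : ¬ Cg K k l) (hg : g k = g l)
    (ho : oL a b g k = oL a b g l) :
    TL Λ (θ k) (oL a b g k) ≠ TL Λ (θ l) (oL a b g l) := by
  rw [← ho]
  rcases hk : g k with _ | _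
  · have h1 : oL a b g k = a k := by unfold oL; rw [hk]; rfl
    have h2 : oL a b g l = a l := by unfold oL; rw [← hg, hk]; rfl
    have ha : a k = a l := by rw [← h1, ho, h2]
    exact sepne H hc ha (Or.inl h1) (meml H k) (meml H l)
  · have h1 : oL a b g k = b k := by unfold oL; rw [hk]; rfl
    have h2 : oL a b g l = b l := by unfold oL; rw [← hg, hk]; rfl
    have hb : b k = b l := by rw [← h1, ho, h2]
    have ha : a k = a l := adj_l (H.d.adj k) (hb ▸ H.d.adj l)
    exact sepne H hc ha (Or.inr h1) (meml H k) (meml H l)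

end DST

theorem t_DST : Stmt_DST := by
  intro Λ K θ s a b g X H
  exact ⟨fun k l hc hs => DST.part1 H k l hc hs, fun k l hg hs => DST.part2 H k l hg hs,
    fun k l hc _ _ hg ho => DST.part3 H k l hc hg ho⟩

end LHE
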