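import Pool.Agent.LHE.Stmts3

/-!
# Choice of a generic shift
-/

namespace LHE

open Set LG LH

namespace EPC

theorem ln_eq (X₀ w ε : ℝ) (n : ℤ) : ln X₀ w ε n = ln X₀ w 0 n + ε := by
  unfold ln; ring

end EPC

theorem t_EPC : Stmt_EPC := by
  intro Λ X₀ w lo hi hw
  have hc : (range fun p : ℚ × ℤ => Λ.x p.1 - ln X₀ w 0 p.2).Countable := countable_range _
  obtain ⟨ε, hε, h⟩ := (hc.dense_compl ℝ).exists_between (show (0 : ℝ) < w / 16 by positivity)
  refine ⟨ε, h.1, h.2, fun t ht q hq => hε ?_⟩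
  obtain ⟨n, -, rfl⟩ := Finset.mem_image.1 ht
  exact ⟨(q, n), by simp only [hq, EPC.ln_eq X₀ w ε n]; ring⟩

end LHE
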