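import Pool.Agent.LHE.Stmts2

/-!
# A polygon with a decomposition into arcs has good cells
-/

namespace LHE

open Set LG LH

namespace GDX

/-- A point of a cell is not a line. -/
theorem ne_of_in {X : Finset ℝ} {a b c x : ℝ} (h : AdjX X a b) (hc : c ∈ X) (h1 : a < x)
    (h2 : x < b) : x ≠ c := by
  rintro rfl
  exact h.2.2.2 _ hc ⟨h1, h2⟩

/-- A point which is in two cells. -/
theorem eq_cell {X : Finset ℝ} {a b c d x : ℝ} (h : AdjX X a b) (h' : AdjX X c d) (h1 : a < x)
    (h2 : x < b) (h3 : c < x) (h4 : x < d) : a = c ∧ b = d := by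
  obtain ⟨ha, hb, -, hab⟩ := h
  obtain ⟨hc, hd, -, hcd⟩ := h'
  have e1 := hab c hc
  have e2 := hab d hd
  have e3 := hcd a ha
  have e4 := hcd b hb
  constructor
  · refine le_antisymm ?_ ?_
    · by_contra h5
      exact e3 ⟨not_le.mp h5, h1.trans h4⟩
    · by_contra h5
      exact e1 ⟨not_le.mp h5, h3.trans h2⟩
  · refine le_antisymm ?_ ?_
    · by_contra h5
      exact e2 ⟨h1.trans h4, not_le.mp h5⟩
    · by_contra h5
      exact e4 ⟨h3.trans h2, not_le.mp h5⟩

theorem adj_next {K : ℕ} {s a b : ℤ → ℝ} {g : ℤ → Bool} {X : Finset ℝ}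
    (h : ArcD K s a b g X) (k : ℤ) : a (k + 1) ≠ a k := by
  have h1 := h.st (k + 1)
  have h2 := h.en k
  have h3 := (h.adj k).2.2.1
  have h4 := (h.adj (k + 1)).2.2.1
  cases hg : g (k + 1) with
  | true =>
    rw [hg] at h1 h2
    simp only [if_true] at h1 h2
    intro h5
    rw [← h1, h2] at h5
    exact absurd h5 (ne_of_gt h3)
  | false =>
    rw [hg] at h1 h2
    simp only [Bool.false_eq_true, if_false] at h1 h2
    intro h5
    rw [← h1, h2, h5] at h4
    exact lt_irrefl _ h4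

theorem grow {e : ℤ → ℤ} (h : ∀ k, e k < e (k + 1)) (k : ℤ) (n : ℕ) : e k + n ≤ e (k + n) := by
  induction n with
  | zero => simp
  | succ n ih =>
    have h1 := h (k + n)
    have h2 : k + ((n + 1 : ℕ) : ℤ) = k + n + 1 := by push_cast; ring
    rw [h2]
    push_cast
    omega

theorem exists_arc {e : ℤ → ℤ} (h : ∀ k, e k < e (k + 1)) (i : ℤ) :
    ∃ k, e k < i ∧ i ≤ e (k + 1) := by
  obtain ⟨k, hk, hk'⟩ := Int.exists_greatest_of_bdd (P := fun k => e k < i)
    ⟨max 0 (i - e 0), fun z hz => by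
      rcases le_or_gt z 0 with h0 | h0
      · exact h0.trans (le_max_left _ _)
      · obtain ⟨n, rfl⟩ := Int.eq_ofNat_of_zero_le h0.le
        have := grow h 0 n
        rw [zero_add] at this
        refine le_trans ?_ (le_max_right _ _)
        have hz' : e (n : ℤ) < i := hz
        omega⟩
    ⟨-(((i - e 0).natAbs + 1 : ℕ) : ℤ), by
      have := grow h (-(((i - e 0).natAbs + 1 : ℕ) : ℤ)) ((i - e 0).natAbs + 1)
      rw [neg_add_cancel] at this
      change e _ < i
      push_cast at this ⊢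
      have h2 : -|i - e 0| ≤ i - e 0 := neg_abs_le _
      omega⟩
  refine ⟨k, hk, ?_⟩
  by_contra h1
  have := hk' (k + 1) (not_le.mp h1)
  omega

theorem per {e : ℤ → ℤ} {K N : ℕ} (h : ∀ k, e (k + K) = e k + N) (k j : ℤ) :
    e (k + j * K) = e k + j * N := by
  induction j using Int.induction_on with
  | zero => simp
  | succ j ih =>
    have h1 := h (k + j * K)
    have h2 : k + ((j : ℤ) + 1) * K = k + j * K + K := by ring
    rw [h2, h1, ih]
    ring
  | pred j ih =>
    have h1 := h (k + (-(j : ℤ) - 1) * K)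
    have h2 : k + (-(j : ℤ) - 1) * K + K = k + (-(j : ℤ)) * K := by ring
    rw [h2, ih] at h1
    have h3 : e (k + (-(j : ℤ) - 1) * K) = e k + -(j : ℤ) * N - N := by linarith
    rw [h3]
    ring

variable {N : ℕ} {P : Pg N} {K : ℕ} {e : ℤ → ℤ} {s a b : ℤ → ℝ} {g : ℤ → Bool} {X : Finset ℝ}

/-- The components over a cell are arcs. -/
theorem comp (h : ArcP P K e s a b g X) {c d : ℝ} (hcd : AdjX X c d) {p q : ℤ}
    (hp : Comp P c d p q) : ∃ k, p = e k ∧ q = e (k + 1) ∧ a k = c ∧ b k = d := by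
  have hpq : p < q := by
    rcases lt_or_eq_of_le hp.le with h1 | h1
    · exact h1
    · exfalso
      have h2 := hp.one h1
      rw [← h1] at h2
      have h3 := abs_lt.mp (h.sm c d hcd p)
      rcases h2 with h2 | h2
      · linarith [h2.1, h2.2, h3.1, h3.2]
      · linarith [h2.1, h2.2, h3.1, h3.2]
  obtain ⟨k, hk1, hk2⟩ := exists_arc h.mono (p + 1)
  have h1 := hp.ins (p + 1) (by omega) (by omega)
  have h2 := h.ins k (p + 1) hk1 hk2
  have h3 := eq_cell (h.d.adj k) hcd h2.1 h2.2 h1.1 h1.2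
  have hpk : p = e k := by
    by_contra hne
    have h4 := h.ins k p (by omega) (by omega)
    rw [h3.1, h3.2] at h4
    rcases hp.fst with h5 | h5
    · exact lt_asymm h4.1 h5
    · exact lt_asymm h4.2 h5
  have hq1 : q ≤ e (k + 1) := by
    by_contra hne
    have h4 := h.mono (k + 1)
    have h5 := h.ins (k + 1) (e (k + 1) + 1) (by omega) (by omega)
    have h6 := hp.ins (e (k + 1) + 1) (by have := h.mono k; omega) (by omega)
    have h7 := eq_cell (h.d.adj (k + 1)) hcd h5.1 h5.2 h6.1 h6.2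
    exact adj_next h.d k (h7.1.trans h3.1.symm)
  have hq2 : q = e (k + 1) := by
    by_contra hne
    have h4 := h.ins k (q + 1) (by omega) (by omega)
    rw [h3.1, h3.2] at h4
    rcases hp.lst with h5 | h5
    · exact lt_asymm h4.1 h5
    · exact lt_asymm h4.2 h5
  exact ⟨k, hpk, hq2, h3.1, h3.2⟩

end GDX

/-- GDX: a polygon with a decomposition into arcs has good cells. -/
theorem t_GDX : Stmt_GDX := by
  intro N P K e s a b g X h
  refine ⟨h.lo, h.hi, fun c d hcd => ⟨hcd.2.2.1, ?_, ?_, ?_, ?_⟩⟩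
  · intro i
    obtain ⟨k, hk1, hk2⟩ := GDX.exists_arc h.mono i
    have h1 := h.ins k i hk1 hk2
    exact ⟨GDX.ne_of_in (h.d.adj k) hcd.1 h1.1 h1.2, GDX.ne_of_in (h.d.adj k) hcd.2.1 h1.1 h1.2⟩
  · by_contra hout
    have h1 : ∀ k, a k = c := by
      intro k
      have h2 := h.ins k (e (k + 1)) (h.mono k) le_rfl
      have h3 : ¬ (P.x (e (k + 1)) < c) := fun h4 => hout ⟨_, Or.inl h4⟩
      have h4 : ¬ (d < P.x (e (k + 1))) := fun h4 => hout ⟨_, Or.inr h4⟩
      have h5 := GDX.ne_of_in (h.d.adj k) hcd.1 h2.1 h2.2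
      have h6 := GDX.ne_of_in (h.d.adj k) hcd.2.1 h2.1 h2.2
      exact (GDX.eq_cell (h.d.adj k) hcd h2.1 h2.2
        (lt_of_le_of_ne (not_lt.mp h3) (Ne.symm h5)) (lt_of_le_of_ne (not_lt.mp h4) h6)).1
    exact GDX.adj_next h.d 0 ((h1 _).trans (h1 _).symm)
  · intro p q hp
    obtain ⟨k, rfl, rfl, -, -⟩ := GDX.comp h hcd hp
    exact h.ty k
  · intro p q p' q' hp hp' hq hq'
    obtain ⟨k, h1, h2, h3, h4⟩ := GDX.comp h hcd hp
    obtain ⟨l, h1', h2', h3', h4'⟩ := GDX.comp h hcd hp'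
    have hC : ¬ Cg K k l := by
      rintro ⟨j, hj⟩
      have h5 := GDX.per h.pe k j
      rw [← hj] at h5
      have h6 := h.mono k
      have h7 := h.mono l
      have h8 : 0 < j * (N : ℤ) := by omega
      have h9 : j * (N : ℤ) < N := by
        have h10 := GDX.per h.pe (k + 1) j
        have h11 : k + 1 + j * K = l + 1 := by rw [hj]; ring
        rw [h11] at h10
        omega
      have h10 : 0 < j := by
        by_contra h11
        have : j * (N : ℤ) ≤ 0 := mul_nonpos_of_nonpos_of_nonneg (not_lt.mp h11) (Int.natCast_nonneg N)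
        omega
      have h11 : (N : ℤ) ≤ j * N := by
        have : (1 : ℤ) ≤ j := h10
        nlinarith [Int.natCast_nonneg N]
      omega
    have h5 := h.sep k l hC (h3.trans h3'.symm)
    rw [h1, h2, h1', h2']
    exact ⟨h5 c (Or.inl h3.symm), h5 d (Or.inr h4.symm)⟩

end LHE
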