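import Pool.Agent.LHE.Stmts2

/-!
# GWA: the arcs give a walk
-/

namespace LHE

open Set LG LH

namespace GWA

variable {N : ℕ}

/-- The passing item of the arc `k`. -/
def pI (s : ℤ → ℝ) (g : ℤ → Bool) (e : ℤ → ℤ) (k : ℤ) : It := ⟨pass (g k), s k, e k⟩

/-- The relation of consecutive items. -/
def Rl (P : Pg N) (X : Finset ℝ) (i j : It) : Prop := Lnk P X i j ∧ ¬ (Tn i ∧ Tn j)

theorem zip_chain {Q : It → It → Prop} : ∀ (w : List It) (a b : It),
    List.IsChain Q (a :: (w ++ [b])) → ∀ x ∈ (a :: w).zip (w ++ [b]), Q x.1 x.2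
  | [], a, b, h, x, hx => by
    simp only [List.nil_append, List.zip_cons_cons, List.zip_nil_left, List.mem_singleton] at hx
    subst hx
    simpa using h
  | c :: w, a, b, h, x, hx => by
    rw [List.cons_append, List.isChain_cons_cons] at h
    rw [List.cons_append, List.zip_cons_cons, List.mem_cons] at hx
    rcases hx with rfl | hx
    · exact h.1
    · exact zip_chain w c b h.2 x hx

theorem not_tn_pass (s : Bool) (t : ℝ) (e : ℤ) : ¬ Tn ⟨pass s, t, e⟩ := by
  rintro (h | h) <;> cases s <;> simp [pass] at h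

theorem link {P : Pg N} {K : ℕ} {e : ℤ → ℤ} {s a b : ℤ → ℝ} {g : ℤ → Bool} {X : Finset ℝ}
    (h : ArcP P K e s a b g X) (k : ℤ) :
    List.IsChain (Rl P X) (aIt s (oL a b g) g e k ++ [pI s g e (k + 1)]) := by
  have hab : a k < b k := (h.d.adj k).2.2.1
  have hadj := h.d.adj k
  have hst := h.d.st k
  have hen := h.d.en k
  have hm := h.mono k
  have hins := h.ins k
  unfold aIt
  by_cases hg : g k = g (k + 1)
  · rw [if_pos hg, List.singleton_append, List.isChain_cons_cons]
    refine ⟨⟨?_, fun hh => not_tn_pass _ _ _ hh.1⟩, List.isChain_singleton _⟩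
    unfold pI
    rw [← hg] at hen ⊢
    cases hgk : g k
    · rw [hgk] at hst hen
      simp only [Bool.false_eq_true, if_false] at hst hen
      refine ⟨hm.le, ?_, ?_, ?_, ?_⟩
      · rintro (h1 | h1) <;> simp [pass] at h1
      · right
        simp only
        rw [hst, hen]
        exact hadj
      · intro m h1 h2
        right
        simp only
        rw [hst, hen]
        exact hins m h1 h2
      · right
        refine ⟨by simp [pass, Kd.fw], by simp [pass, Kd.ar], ?_⟩
        simp only
        rw [hst, hen]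
        exact hab
    · rw [hgk] at hst hen
      simp only [if_true] at hst hen
      refine ⟨hm.le, ?_, ?_, ?_, ?_⟩
      · rintro (h1 | h1) <;> simp [pass] at h1
      · left
        simp only
        rw [hst, hen]
        exact hadj
      · intro m h1 h2
        left
        simp only
        rw [hst, hen]
        exact hins m h1 h2
      · left
        refine ⟨by simp [pass, Kd.fw], by simp [pass, Kd.ar], ?_⟩
        simp only
        rw [hst, hen]
        exact hab
  · rw [if_neg hg, List.cons_append, List.singleton_append, List.isChain_cons_cons,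
      List.isChain_cons_cons]
    unfold pI oL
    cases hgk : g k
    · have hgk' : g (k + 1) = true := by
        cases hh : g (k + 1)
        · exact absurd (hgk.trans hh.symm) hg
        · rfl
      rw [hgk] at hst
      rw [hgk'] at hen ⊢
      simp only [Bool.false_eq_true, if_false, if_true] at hst hen ⊢
      refine ⟨⟨⟨le_rfl, ?_, ?_, ?_, ?_⟩, fun hh => not_tn_pass _ _ _ hh.1⟩,
        ⟨⟨hm.le, ?_, ?_, ?_, ?_⟩, fun hh => not_tn_pass _ _ _ hh.2⟩, List.isChain_singleton _⟩
      · rintro (h1 | h1) <;> simp [pass] at h1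
      · right
        simp only
        rw [hst]
        exact hadj
      · intro m h1 h2
        simp only at h1 h2
        omega
      · right
        refine ⟨by simp [pass, Kd.fw], by simp [turn, Kd.ar], ?_⟩
        simp only
        rw [hst]
        exact hab
      · intro _
        exact hm
      · left
        simp only
        rw [hen]
        exact hadj
      · intro m h1 h2
        left
        simp only
        rw [hen]
        exact hins m h1 h2
      · left
        refine ⟨by simp [turn, Kd.fw], by simp [pass, Kd.ar], ?_⟩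
        simp only
        rw [hen]
        exact hab
    · have hgk' : g (k + 1) = false := by
        cases hh : g (k + 1)
        · rfl
        · exact absurd (hgk.trans hh.symm) hg
      rw [hgk] at hst
      rw [hgk'] at hen ⊢
      simp only [Bool.false_eq_true, if_false, if_true] at hst hen ⊢
      refine ⟨⟨⟨le_rfl, ?_, ?_, ?_, ?_⟩, fun hh => not_tn_pass _ _ _ hh.1⟩,
        ⟨⟨hm.le, ?_, ?_, ?_, ?_⟩, fun hh => not_tn_pass _ _ _ hh.2⟩, List.isChain_singleton _⟩
      · rintro (h1 | h1) <;> simp [pass] at h1
      · left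
        simp only
        rw [hst]
        exact hadj
      · intro m h1 h2
        simp only at h1 h2
        omega
      · left
        refine ⟨by simp [pass, Kd.fw], by simp [turn, Kd.ar], ?_⟩
        simp only
        rw [hst]
        exact hab
      · intro _
        exact hm
      · right
        simp only
        rw [hen]
        exact hadj
      · intro m h1 h2
        right
        simp only
        rw [hen]
        exact hins m h1 h2
      · right
        refine ⟨by simp [turn, Kd.fw], by simp [pass, Kd.ar], ?_⟩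
        simp only
        rw [hen]
        exact hab

theorem head (s o : ℤ → ℝ) (g : ℤ → Bool) (e : ℤ → ℤ) (k : ℤ) :
    ∃ r, aIt s o g e k = pI s g e k :: r := by
  unfold aIt pI
  split_ifs
  · exact ⟨_, rfl⟩
  · exact ⟨_, rfl⟩

theorem eq (n : ℕ) (s o : ℤ → ℝ) (g : ℤ → Bool) (e : ℤ → ℤ) :
    aIts n s o g e = (List.range n).flatMap fun k : ℕ => aIt s o g e (k : ℤ) := by
  change List.flatMap (fun k : ℤ => aIt s o g e k)
    (List.flatMap (fun a : ℕ => [(a : ℤ)]) (List.range n)) = _
  rw [List.flatMap_assoc]
  simp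

theorem succ (n : ℕ) (s o : ℤ → ℝ) (g : ℤ → Bool) (e : ℤ → ℤ) :
    aIts (n + 1) s o g e = aIts n s o g e ++ aIt s o g e n := by
  rw [eq, eq, List.range_succ, List.flatMap_append]
  simp

theorem chain {P : Pg N} {K : ℕ} {e : ℤ → ℤ} {s a b : ℤ → ℝ} {g : ℤ → Bool} {X : Finset ℝ}
    (h : ArcP P K e s a b g X) (n : ℕ) :
    List.IsChain (Rl P X) (aIts n s (oL a b g) g e ++ [pI s g e n]) := by
  induction n with
  | zero =>
    unfold aIts
    simp
  | succ n ih =>
    obtain ⟨r, hr⟩ := head s (oL a b g) g e n
    have h1 := link h n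
    rw [succ, List.append_assoc]
    push_cast
    rw [hr] at h1 ⊢
    rw [List.cons_append] at h1 ⊢
    exact List.isChain_split.2 ⟨ih, h1⟩

theorem ok {P : Pg N} {K : ℕ} {e : ℤ → ℤ} {s a b : ℤ → ℝ} {g : ℤ → Bool} {X : Finset ℝ}
    (h : ArcP P K e s a b g X) (n : ℕ) :
    ∀ j ∈ aIts n s (oL a b g) g e, ItOK P j := by
  intro j hj
  rw [eq, List.mem_flatMap] at hj
  obtain ⟨k, -, hk⟩ := hj
  have hc := h.crs k
  unfold Crs at hc
  have h1 : ItOK P ⟨pass (g k), s k, e k⟩ := by
    cases hg : g (k : ℤ)
    · rw [hg] at hc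
      simp only [sn_false, neg_one_mul, neg_lt_neg_iff] at hc
      exact ⟨fun h2 => by simp [pass] at h2, fun _ => ⟨hc.2, hc.1⟩⟩
    · rw [hg] at hc
      simp only [sn_true, one_mul] at hc
      exact ⟨fun _ => hc, fun h2 => by simp [pass] at h2⟩
  unfold aIt at hk
  split_ifs at hk
  · rw [List.mem_singleton] at hk
    rw [hk]
    exact h1
  · rw [List.mem_cons, List.mem_singleton] at hk
    rcases hk with hk | hk
    · rw [hk]
      exact h1
    · rw [hk]
      cases hg : g (k : ℤ)
      · exact ⟨fun h2 => by simp [turn] at h2, fun h2 => by simp [turn] at h2⟩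
      · exact ⟨fun h2 => by simp [turn] at h2, fun h2 => by simp [turn] at h2⟩

end GWA

theorem t_GWA : Stmt_GWA := by
  intro N P K e s a b g X h
  have hK := h.d.Kpos
  -- the first element
  obtain ⟨r, hr⟩ : ∃ r, aIts K s (oL a b g) g e = GWA.pI s g e 0 :: r := by
    obtain ⟨n, rfl⟩ : ∃ n, K = n + 1 := ⟨K - 1, by omega⟩
    clear h hK
    induction n with
    | zero =>
      obtain ⟨r, hr⟩ := GWA.head s (oL a b g) g e 0
      refine ⟨r, ?_⟩
      rw [GWA.succ]
      unfold aIts
      simpa using hr
    | succ n ih =>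
      obtain ⟨r, hr⟩ := ih
      rw [GWA.succ, hr]
      exact ⟨_, rfl⟩
  have hsh : GWA.pI s g e K = (GWA.pI s g e 0).sh N := by
    have h1 := h.d.ps 0
    have h2 := h.d.pg 0
    have h3 := h.pe 0
    rw [zero_add] at h1 h2 h3
    unfold GWA.pI It.sh
    rw [h1, h2, h3]
  have hch := GWA.chain h K
  rw [hsh] at hch
  refine ⟨⟨GWA.pI s g e 0, r, hr, GWA.ok h K, hch.imp fun _ _ h1 => h1.1⟩, ?_⟩
  rw [hr] at hch ⊢
  have hQ : List.IsChain (fun i j => ¬ (Tn i ∧ Tn j)) (GWA.pI s g e 0 :: (r ++ [GWA.pI s g e 0])) := by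
    have h1 : List.IsChain (fun i j => ¬ (Tn i ∧ Tn j))
        (GWA.pI s g e 0 :: (r ++ [(GWA.pI s g e 0).sh N])) := by
      have := hch.imp (S := fun i j => ¬ (Tn i ∧ Tn j)) fun _ _ h1 => h1.2
      exact this
    have h2 : ∀ (l : List It) (i j : It), i.k = j.k →
        List.IsChain (fun i j => ¬ (Tn i ∧ Tn j)) (l ++ [i]) →
        List.IsChain (fun i j => ¬ (Tn i ∧ Tn j)) (l ++ [j]) := by
      intro l i j hij hl
      rw [List.isChain_append] at hl ⊢
      refine ⟨hl.1, List.isChain_singleton _, ?_⟩
      intro x hx y hy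
      have h4 := hl.2.2 x hx i (by simp)
      simp only [List.head?_cons, Option.mem_def, Option.some.injEq] at hy
      subst hy
      unfold Tn at h4 ⊢
      rw [← hij]
      exact h4
    have h3 := h2 (GWA.pI s g e 0 :: r) ((GWA.pI s g e 0).sh N) (GWA.pI s g e 0) rfl
      (by simpa using h1)
    simpa using h3
  intro x hx
  unfold cp at hx
  rw [List.rotate_cons_succ, List.rotate_zero] at hx
  exact GWA.zip_chain r _ _ hQ x hx

end LHE
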