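import Pool.Agent.LHE.Stmts3

/-!
# HOR: the order of the heights is the order of the codes
-/

namespace LHE

open Set LG LH

namespace HOR

theorem per_int {α : Type*} (f : ℤ → α) (L : ℕ) (h : ∀ i, f (i + L) = f i) (c : ℤ) :
    ∀ i, f (i + c * L) = f i := by
  induction c using Int.induction_on with
  | zero => intro i; simp
  | succ n ih =>
    intro i
    have e : i + ((n : ℤ) + 1) * L = (i + n * L) + L := by ring
    rw [e, h, ih]
  | pred n ih =>
    intro i
    have e : i + (-(n : ℤ)) * L = (i + (-(n : ℤ) - 1) * L) + L := by ring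
    rw [← h, ← e, ih]

theorem ln0 (X₀ w ε : ℝ) (n : ℤ) : ln X₀ w ε (3 * n) = X₀ * n - 7 / 8 * w + ε := by
  unfold ln
  have h1 : 3 * n / 3 = n := by omega
  have h2 : 3 * n % 3 = 0 := by omega
  rw [h1, h2]
  simp
  ring

theorem ln1 (X₀ w ε : ℝ) (n : ℤ) : ln X₀ w ε (3 * n + 1) = X₀ * n + 7 / 8 * w + ε := by
  unfold ln
  have h1 : (3 * n + 1) / 3 = n := by omega
  have h2 : (3 * n + 1) % 3 = 1 := by omega
  rw [h1, h2]
  simp

theorem ln2 (X₀ w ε : ℝ) (n : ℤ) : ln X₀ w ε (3 * n + 2) = X₀ * n + X₀ / 2 + ε := by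
  unfold ln
  have h1 : (3 * n + 2) / 3 = n := by omega
  have h2 : (3 * n + 2) % 3 = 2 := by omega
  rw [h1, h2]
  simp

theorem lnm (X₀ w ε : ℝ) (n : ℤ) : ln X₀ w ε (3 * n - 1) = X₀ * n - X₀ / 2 + ε := by
  have e : 3 * n - 1 = 3 * (n - 1) + 2 := by ring
  rw [e, ln2]
  push_cast
  ring

variable {L : ℕ} {m z : ℤ → ℤ}

theorem sg1 (D : LatD L m z) (i : ℤ) : sg m i = 1 ∨ sg m i = -1 := by
  have := D.dm i
  unfold sg
  omega

theorem sl1 (D : LatD L m z) (i : ℤ) : sl m z i = 1 ∨ sl m z i = -1 := by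
  have a1 : z (i + 1) - z i = 1 ∨ z (i + 1) - z i = -1 := by have := D.dz i; omega
  have a2 : m (i + 1) - m i = 1 ∨ m (i + 1) - m i = -1 := by have := D.dm i; omega
  unfold sl
  rcases a1 with a1 | a1 <;> rcases a2 with a2 | a2 <;> rw [a1, a2] <;> norm_num

theorem cs0 (i : ℤ) : cs m (3 * i) = if sg m (i - 1) = 1 then 3 * m i - 1 else 3 * m i + 2 := by
  unfold cs
  have h1 : 3 * i / 3 = i := by omega
  have h2 : 3 * i % 3 = 0 := by omega
  rw [h1, h2]
  simp

theorem cs1 (i : ℤ) : cs m (3 * i + 1) = if sg m (i - 1) = 1 then 3 * m i else 3 * m i + 1 := by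
  unfold cs
  have h1 : (3 * i + 1) / 3 = i := by omega
  have h2 : (3 * i + 1) % 3 = 1 := by omega
  rw [h1, h2]
  simp

theorem cs2 (i : ℤ) : cs m (3 * i + 2) = if sg m i = 1 then 3 * m i + 1 else 3 * m i := by
  unfold cs
  have h1 : (3 * i + 2) / 3 = i := by omega
  have h2 : (3 * i + 2) % 3 = 2 := by omega
  rw [h1, h2]
  simp

theorem hc0 (i : ℤ) : hcd m z (3 * i) = 2 * z i - sg m (i - 1) * sl m z (i - 1) := by
  unfold hcd
  have h1 : 3 * i / 3 = i := by omega
  have h2 : 3 * i % 3 = 0 := by omega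
  rw [h1, h2]
  simp

theorem hc1 (i : ℤ) : hcd m z (3 * i + 1) = 4 * z i - sg m (i - 1) * sl m z (i - 1) := by
  unfold hcd
  have h1 : (3 * i + 1) / 3 = i := by omega
  have h2 : (3 * i + 1) % 3 = 1 := by omega
  rw [h1, h2]
  simp

theorem hc2 (i : ℤ) : hcd m z (3 * i + 2) = 4 * z i + sg m i * sl m z i := by
  unfold hcd
  have h1 : (3 * i + 2) / 3 = i := by omega
  have h2 : (3 * i + 2) % 3 = 2 := by omega
  rw [h1, h2]
  simp

theorem gd0 (i : ℤ) : gd m (3 * i) = decide (sg m (i - 1) = 1) := by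
  unfold gd
  have h1 : 3 * i / 3 = i := by omega
  have h2 : ¬ 3 * i % 3 = 2 := by omega
  rw [if_neg h2, h1]

theorem gd1 (i : ℤ) : gd m (3 * i + 1) = decide (sg m (i - 1) = 1) := by
  unfold gd
  have h1 : (3 * i + 1) / 3 = i := by omega
  have h2 : ¬ (3 * i + 1) % 3 = 2 := by omega
  rw [if_neg h2, h1]

theorem gd2 (i : ℤ) : gd m (3 * i + 2) = decide (sg m i = 1) := by
  unfold gd
  have h1 : (3 * i + 2) / 3 = i := by omega
  have h2 : (3 * i + 2) % 3 = 2 := by omega
  rw [if_pos h2, h1]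

theorem gd3 (i : ℤ) : gd m (3 * i + 2 + 1) = decide (sg m i = 1) := by
  have e : 3 * i + 2 + 1 = 3 * (i + 1) := by ring
  rw [e, gd0]
  simp

theorem ca1 (i : ℤ) : ca m (3 * i + 1) = 3 * m i := by
  unfold ca
  have h1 : (3 * i + 1) / 3 = i := by omega
  have h2 : (3 * i + 1) % 3 = 1 := by omega
  rw [h1, h2]
  simp

/-- The arc `k` starts on a line near `X₀ m i`. -/
structure Nr (m z : ℤ → ℤ) (k i τ q : ℤ) : Prop where
  t1 : τ = 1 ∨ τ = -1
  q1 : q = 1 ∨ q = -1
  c : cs m k = if τ = 1 then 3 * m i + 1 else 3 * m i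
  h : hcd m z k = 4 * z i + τ * q
  p : (k = 3 * i + 1 ∧ τ = -sg m (i - 1) ∧ q = sl m z (i - 1)) ∨
    (k = 3 * i + 2 ∧ τ = sg m i ∧ q = sl m z i)

theorem nr1 (D : LatD L m z) (i : ℤ) : Nr m z (3 * i + 1) i (-sg m (i - 1)) (sl m z (i - 1)) where
  t1 := by have := sg1 D (i - 1); omega
  q1 := sl1 D _
  c := by
    rw [cs1]
    rcases sg1 D (i - 1) with h | h <;> rw [h] <;> norm_num
  h := by rw [hc1]; ring
  p := Or.inl ⟨rfl, rfl, rfl⟩

theorem nr2 (D : LatD L m z) (i : ℤ) : Nr m z (3 * i + 2) i (sg m i) (sl m z i) where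
  t1 := sg1 D i
  q1 := sl1 D _
  c := by rw [cs2]
  h := by rw [hc2]
  p := Or.inr ⟨rfl, rfl, rfl⟩

variable {Λ : LC.LegKnot} {X₀ P₀ w ε : ℝ} {ν θ : ℤ → ℝ}

theorem nr_x {k i τ q : ℤ} (H : Nr m z k i τ q) (T : Tht Λ X₀ w ε L m ν θ) :
    Λ.x (θ k) = X₀ * m i + τ * (7 / 8 * w) + ε := by
  rw [T.hit k, sR, H.c]
  rcases H.t1 with h | h
  · rw [h, if_pos rfl, ln1]; push_cast; ring
  · rw [h, if_neg (by norm_num), ln0]; push_cast; ring

theorem nr_mem {k i τ q : ℤ} (H : Nr m z k i τ q) (T : Tht Λ X₀ w ε L m ν θ) :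
    θ k ∈ Icc (ν (i - 1)) (ν (i + 1)) := by
  have h0 := T.h₀ i
  have h1 := T.h₁ i
  have h2 := T.h₂ i
  have h3 := T.h₃ i
  have h4 := T.h₄ i
  have h5 := T.h₁ (i + 1)
  have h6 := T.h₂ (i + 1)
  have e : 3 * (i + 1) = 3 * i + 3 := by ring
  rw [e] at h5 h6
  rcases H.p with ⟨h, -⟩ | ⟨h, -⟩ <;> subst h <;> constructor <;> linarith

theorem zz_TL (Λ : LC.LegKnot) (u : ℝ) : zz Λ u = TL Λ u (Λ.x u) := by
  unfold TL
  ring

theorem gper (Λ : LC.LegKnot) (u : ℝ) (c : ℤ) : Λ.γ (u + c) = Λ.γ u := by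
  have h : Function.Periodic Λ.γ 1 := Λ.periodic
  have := h.int_mul c u
  simpa using this

theorem zper (Λ : LC.LegKnot) (u : ℝ) (c : ℤ) : zz Λ (u + c) = zz Λ u := by
  unfold zz
  rw [gper]

theorem tper (T : Tht Λ X₀ w ε L m ν θ) (k c : ℤ) : θ (k + c * (3 * L : ℕ)) = θ k + c := by
  have h := per_int (fun k : ℤ => θ k - k / (3 * L : ℕ)) (3 * L)
  by_cases hL : L = 0
  · have := T.pθ 0
    subst hL
    simp at this
  have hL' : ((3 * L : ℕ) : ℝ) ≠ 0 := by positivity
  have h2 := h (by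
    intro i
    have := T.pθ i
    show θ (i + (3 * L : ℕ)) - ((i + (3 * L : ℕ) : ℤ) : ℝ) / (3 * L : ℕ) = θ i - (i : ℝ) / (3 * L : ℕ)
    rw [this]
    push_cast
    push_cast at hL'
    field_simp
    ring) c k
  have h3 : θ (k + c * (3 * L : ℕ)) - ((k + c * (3 * L : ℕ) : ℤ) : ℝ) / (3 * L : ℕ) =
      θ k - (k : ℝ) / (3 * L : ℕ) := h2
  have h4 : ((k + c * (3 * L : ℕ) : ℤ) : ℝ) / (3 * L : ℕ) = (k : ℝ) / (3 * L : ℕ) + c := by
    push_cast
    push_cast at hL'
    field_simp
  rw [h4] at h3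
  linarith

/-- The height of the start of an arc near `X₀ m i`. -/
theorem nr_b {k i τ q : ℤ} (H : Nr m z k i τ q) (S : LatS Λ X₀ P₀ w L m z ν)
    (T : Tht Λ X₀ w ε L m ν θ) (h0 : 0 < ε) (h1 : ε < w / 16) (t : ℝ)
    (ht : |t - X₀ * m i| ≤ 51 / 100 * X₀) : |TL Λ (θ k) t - X₀ * P₀ * z i| ≤ 5 / 8 * (X₀ * P₀) := by
  apply S.zb i (θ k) (nr_mem H T) _ t ht
  have hx := nr_x H T
  have hw := S.wX
  have hX := S.X0
  have hw0 := S.w0
  rw [hx]
  rcases H.t1 with h | h <;> rw [h] <;> push_cast <;> rw [abs_le] <;> constructor <;> nlinarith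

theorem near {k i τ q : ℤ} (H : Nr m z k i τ q) (S : LatS Λ X₀ P₀ w L m z ν)
    (T : Tht Λ X₀ w ε L m ν θ) (h0 : 0 < ε) (h1 : ε < w / 16) :
    |Λ.x (θ k) - X₀ * m i| ≤ 51 / 100 * X₀ := by
  have hx := nr_x H T
  have hw := S.wX
  have hX := S.X0
  have hw0 := S.w0
  rw [hx]
  rcases H.t1 with h | h <;> rw [h] <;> push_cast <;> rw [abs_le] <;> constructor <;> nlinarith

/-- Comparison of numbers close to different integers. -/
theorem cmp {A a b : ℝ} {x y : ℤ} (hA : 0 < A) (ha : |a - A * x| ≤ 5 / 8 * A)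
    (hb : |b - A * y| ≤ 5 / 8 * A) (hxy : (x - y) % 2 = 0) (hne : x ≠ y) :
    (a < b ↔ x < y) ∧ (b < a ↔ y < x) := by
  rw [abs_le] at ha hb
  rcases lt_or_gt_of_ne hne with h | h
  · have h2 : x + 2 ≤ y := by omega
    have h3 : (x : ℝ) + 2 ≤ y := by exact_mod_cast h2
    have h4 : A * x + 2 * A ≤ A * y := by nlinarith
    have h5 : a < b := by nlinarith
    exact ⟨⟨fun _ => h, fun _ => h5⟩, ⟨fun h' => absurd h' (not_lt.mpr h5.le),
      fun h' => absurd h' (not_lt.mpr h.le)⟩⟩
  · have h2 : y + 2 ≤ x := by omega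
    have h3 : (y : ℝ) + 2 ≤ x := by exact_mod_cast h2
    have h4 : A * y + 2 * A ≤ A * x := by nlinarith
    have h5 : b < a := by nlinarith
    exact ⟨⟨fun h' => absurd h' (not_lt.mpr h5.le),
      fun h' => absurd h' (not_lt.mpr (le_of_lt h))⟩, ⟨fun _ => h, fun _ => h5⟩⟩

/-- The two sides of a tip. -/
theorem tip (D : LatD L m z) (S : LatS Λ X₀ P₀ w L m z ν) (T : Tht Λ X₀ w ε L m ν θ)
    (h0 : 0 < ε) (h1 : ε < w / 16) (TS : P_TSP) (i : ℤ) (hi : sg m (i - 1) ≠ sg m i) :
    0 < ((sg m i : ℝ) * sl m z i) * (zz Λ (θ (3 * i + 2)) - zz Λ (θ (3 * i + 1))) := by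
  have hw := S.wX
  have hX := S.X0
  have hw0 := S.w0
  have e3 : 3 * (i + 1) = 3 * i + 3 := by ring
  have x1 := nr_x (nr1 D i) T
  have x2 := nr_x (nr2 D i) T
  have hs : sg m (i - 1) = -sg m i := by
    have a1 := sg1 D i
    have a2 := sg1 D (i - 1)
    omega
  have x0 : Λ.x (θ (3 * i)) = X₀ * m i + sg m i * (X₀ / 2) + ε := by
    rw [T.hit, sR, cs0, hs]
    rcases sg1 D i with h | h
    · rw [h, if_neg (by norm_num), ln2]; push_cast; ring
    · rw [h, if_pos (by norm_num), lnm]; push_cast; ring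
  have x3 : Λ.x (θ (3 * i + 3)) = X₀ * m i + sg m i * (X₀ / 2) + ε := by
    rw [← e3, T.hit, sR, cs0]
    have : i + 1 - 1 = i := by ring
    rw [this]
    have hm : m (i + 1) = m i + sg m i := by unfold sg; ring
    rw [hm]
    rcases sg1 D i with h | h
    · rw [h, if_pos rfl, lnm]; push_cast; ring
    · rw [h, if_neg (by norm_num), ln2]; push_cast; ring
  have hh3 := T.h₁ (i + 1)
  have hh4 := T.h₂ (i + 1)
  rw [e3] at hh3 hh4
  rw [hs] at x1
  push_cast at x1
  have x1' : Λ.x (θ (3 * i + 1)) = X₀ * m i + sg m i * (7 / 8 * w) + ε := by rw [x1]; ring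
  have key := TS Λ X₀ P₀ w L m z ν D S i hi (θ (3 * i)) (θ (3 * i + 1)) (θ (3 * i + 2))
    (θ (3 * i + 3)) (X₀ * m i + sg m i * (X₀ / 2) + ε) (X₀ * m i + sg m i * (7 / 8 * w) + ε)
    (T.h₀ i) (T.h₁ i) (T.h₂ i) (T.h₃ i) (T.h₄ i) (by linarith) x0 x3 x1' x2
    (by rcases sg1 D i with h | h <;> rw [h] <;> push_cast <;> nlinarith)
    (by rcases sg1 D i with h | h <;> rw [h] <;> push_cast <;> nlinarith)
    (by rcases sg1 D i with h | h <;> rw [h] <;> push_cast <;> nlinarith)
    (by rcases sg1 D i with h | h <;> rw [h] <;> push_cast <;> nlinarith)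
    (θ (3 * i + 1)) (right_mem_Icc.mpr (T.h₁ i).le) (θ (3 * i + 2)) (left_mem_Icc.mpr (T.h₄ i).le)
    (X₀ * m i + sg m i * (7 / 8 * w) + ε) (Or.inr rfl)
  rw [zz_TL Λ (θ (3 * i + 2)), zz_TL Λ (θ (3 * i + 1)), x1', x2]
  exact key

theorem eq_of_cs {k l i j τ q τ' q' : ℤ} (H : Nr m z k i τ q) (H' : Nr m z l j τ' q')
    (hc : cs m k = cs m l) : m i = m j ∧ τ = τ' := by
  rw [H.c, H'.c] at hc
  rcases H.t1 with h | h <;> rcases H'.t1 with h' | h' <;> rw [h, h'] at hc <;>
    norm_num at hc <;> constructor <;> omega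

/-- Two arcs which start on the same line near `X₀ m i`. -/
theorem NN (D : LatD L m z) (S : LatS Λ X₀ P₀ w L m z ν) (T : Tht Λ X₀ w ε L m ν θ)
    (h0 : 0 < ε) (h1 : ε < w / 16) (TS : P_TSP) (LH : P_LHD) {k l i j τ q τ' q' : ℤ}
    (H : Nr m z k i τ q) (H' : Nr m z l j τ' q')
    (hn : ¬ Cg (3 * L) k l) (hc : cs m k = cs m l) :
    zz Λ (θ k) < zz Λ (θ l) ↔ hcd m z k < hcd m z l := by
  obtain ⟨hm, hτ⟩ := eq_of_cs H H' hc
  subst hτ
  have hA : 0 < X₀ * P₀ := mul_pos S.X0 S.P0
  have hpar := (LH L m z D).1 i j hm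
  have b1 := nr_b H S T h0 h1 _ (near H S T h0 h1)
  have b2 := nr_b H' S T h0 h1 _ (near H' S T h0 h1)
  rw [← zz_TL] at b1 b2
  by_cases hz : z i = z j
  · by_cases hcg : Cg L i j
    · obtain ⟨c, hcj⟩ := hcg
      have pm := per_int m L D.pm c
      have pz := per_int z L D.pz c
      have psg : ∀ i, sg m (i + c * L) = sg m i := by
        intro i
        unfold sg
        have e : i + c * L + 1 = (i + 1) + c * L := by ring
        rw [e, pm, pm]
      have psl : ∀ i, sl m z (i + c * L) = sl m z i := by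
        intro i
        unfold sl
        have e : i + c * L + 1 = (i + 1) + c * L := by ring
        rw [e, pm, pm, pz, pz]
      have ej : j - 1 = (i - 1) + c * L := by rw [hcj]; ring
      rcases H.p with ⟨p1, p2, p3⟩ | ⟨p1, p2, p3⟩ <;> rcases H'.p with ⟨r1, r2, r3⟩ | ⟨r1, r2, r3⟩
      · exfalso
        apply hn
        refine ⟨c, ?_⟩
        rw [r1, p1, hcj]
        push_cast
        ring
      · -- k = 3 i + 1, l = 3 j + 2
        have hsj : sg m j = sg m i := by rw [hcj, psg]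
        have hlj : sl m z j = sl m z i := by rw [hcj, psl]
        have hti : sg m (i - 1) ≠ sg m i := by
          have := sg1 D i
          rw [← hsj, ← r2, p2]
          have := sg1 D (i - 1)
          omega
        have hnb := D.nb i hti
        have hq : sl m z (i - 1) = -sl m z i := by
          have a1 := sl1 D i
          have a2 := sl1 D (i - 1)
          omega
        have key := tip D S T h0 h1 TS i hti
        have e1 : θ l = θ (3 * i + 2) + c := by
          rw [← tper T, r1, hcj]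
          congr 1
          push_cast
          ring
        rw [e1, zper, p1, ← p1, H.h, H'.h, ← hz, p3, r3, hlj, hq, p1]
        have hτ2 : τ = sg m i := by rw [r2, hsj]
        rw [hτ2]
        rcases sg1 D i with a1 | a1 <;> rcases sl1 D i with a2 | a2 <;> rw [a1, a2] at key ⊢ <;>
          push_cast at key <;> constructor <;> intro hh <;>
          first
            | (exfalso; linarith)
            | linarith
      · -- k = 3 i + 2, l = 3 j + 1
        have hsj : sg m (j - 1) = sg m (i - 1) := by rw [ej, psg]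
        have hlj : sl m z (j - 1) = sl m z (i - 1) := by rw [ej, psl]
        have hti : sg m (i - 1) ≠ sg m i := by
          have := sg1 D i
          rw [← hsj, ← p2, r2]
          have := sg1 D (j - 1)
          omega
        have hnb := D.nb i hti
        have hq : sl m z (i - 1) = -sl m z i := by
          have a1 := sl1 D i
          have a2 := sl1 D (i - 1)
          omega
        have key := tip D S T h0 h1 TS i hti
        have e1 : θ l = θ (3 * i + 1) + c := by
          rw [← tper T, r1, hcj]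
          congr 1
          push_cast
          ring
        rw [e1, zper, H.h, H'.h, ← hz, p3, r3, hlj, hq, p1, p2]
        rcases sg1 D i with a1 | a1 <;> rcases sl1 D i with a2 | a2 <;> rw [a1, a2] at key ⊢ <;>
          push_cast at key <;> constructor <;> intro hh <;>
          first
            | (exfalso; linarith)
            | linarith
      · exfalso
        apply hn
        refine ⟨c, ?_⟩
        rw [r1, p1, hcj]
        push_cast
        ring
    · obtain ⟨d1, d2, d3, d4, d5⟩ := D.dis i j hcg hm hz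
      have hq : q = sl m z i := by
        rcases H.p with ⟨p1, p2, p3⟩ | ⟨p1, p2, p3⟩
        · rw [p3, d2]
        · exact p3
      have hq' : q' = sl m z j := by
        rcases H'.p with ⟨p1, p2, p3⟩ | ⟨p1, p2, p3⟩
        · rw [p3, d4]
        · exact p3
      have hX := S.X0
      have f1 := S.zs i d1 d2 (θ k) (nr_mem H T)
        ((near H S T h0 h1).trans (by linarith)) (Λ.x (θ k))
      have f2 := S.zs j d3 d4 (θ l) (nr_mem H' T)
        ((near H' S T h0 h1).trans (by linarith)) (Λ.x (θ l))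
      rw [← zz_TL] at f1 f2
      rw [nr_x H T] at f1
      rw [nr_x H' T] at f2
      rw [f1, f2, H.h, H'.h, hz, hq, hq', hm]
      have hP := S.P0
      have hw0 := S.w0
      have hpw : 0 < P₀ * w := mul_pos hP hw0
      have hpe : P₀ * ε < P₀ * (w / 16) := mul_lt_mul_of_pos_left h1 hP
      have hpe0 : 0 < P₀ * ε := mul_pos hP h0
      rcases H.t1 with a1 | a1 <;> rcases sl1 D i with a2 | a2 <;>
        rcases sl1 D j with a3 | a3 <;> rw [a1, a2, a3] <;> push_cast <;> constructor <;> intro hh <;>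
          first
            | (exfalso; rw [a2, a3] at d5; exact d5 rfl)
            | omega
            | (exfalso; nlinarith)
            | nlinarith
  · have h := (cmp hA b1 b2 hpar hz).1
    rw [h, H.h, H'.h]
    rcases H.t1 with a1 | a1 <;> rcases H.q1 with a2 | a2 <;>
        rcases H'.q1 with a3 | a3 <;> rw [a1, a2, a3] <;> omega

/-- A turning arc is the middle arc of a tip. -/
theorem turn_tip (D : LatD L m z) {k : ℤ} (h : gd m k ≠ gd m (k + 1)) :
    ∃ i, k = 3 * i + 1 ∧ sg m (i - 1) ≠ sg m i := by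
  obtain ⟨i, hk⟩ : ∃ i, k = 3 * i ∨ k = 3 * i + 1 ∨ k = 3 * i + 2 := ⟨k / 3, by omega⟩
  rcases hk with hk | hk | hk
  · exfalso
    rw [hk, gd0, gd1] at h
    exact h rfl
  · refine ⟨i, hk, ?_⟩
    intro he
    apply h
    have e : 3 * i + 1 + 1 = 3 * i + 2 := by ring
    rw [hk, gd1, e, gd2, he]
  · exfalso
    rw [hk, gd2, gd3] at h
    exact h rfl

theorem cg3 {i j r : ℤ} (h : ¬ Cg (3 * L) (3 * i + r) (3 * j + r)) : ¬ Cg L i j := by
  rintro ⟨c, hc⟩
  apply h
  refine ⟨c, ?_⟩
  rw [hc]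
  push_cast
  ring

end HOR


open HOR

theorem t_HOR : Stmt_HOR := by
  intro _ _ TS LD Λ X₀ P₀ w ε L m z ν θ D S h0 h1 T
  have hA : 0 < X₀ * P₀ := mul_pos S.X0 S.P0
  have hw := S.wX
  have hX := S.X0
  have hw0 := S.w0
  have hP := S.P0
  refine ⟨?_, ?_, ?_⟩
  · intro k l hn hc
    obtain ⟨i, hk⟩ : ∃ i, k = 3 * i ∨ k = 3 * i + 1 ∨ k = 3 * i + 2 := ⟨k / 3, by omega⟩
    obtain ⟨j, hl⟩ : ∃ i, l = 3 * i ∨ l = 3 * i + 1 ∨ l = 3 * i + 2 := ⟨l / 3, by omega⟩
    have half : ∀ i, Λ.x (θ (3 * i)) = X₀ * m i - sg m (i - 1) * (X₀ / 2) + ε := by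
      intro i
      rw [T.hit, sR, cs0]
      rcases sg1 D (i - 1) with h | h
      · rw [h, if_pos rfl, lnm]; push_cast; ring
      · rw [h, if_neg (by norm_num), ln2]; push_cast; ring
    have hz : ∀ i, zz Λ (θ (3 * i)) = X₀ * P₀ / 2 * hcd m z (3 * i) + P₀ * sl m z (i - 1) * ε := by
      intro i
      have hx := half i
      have hb0 := T.h₀ i
      have hb1 := T.h₁ i
      have hb2 := T.h₂ i
      have f := S.zi i (θ (3 * i)) ⟨hb0.le, by linarith⟩
        (by rw [hx]; rcases sg1 D (i - 1) with h | h <;> rw [h] <;> push_cast <;> nlinarith)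
        (by rw [hx]; rcases sg1 D (i - 1) with h | h <;> rw [h] <;> push_cast <;> nlinarith)
        (Λ.x (θ (3 * i)))
      rw [← zz_TL, hx] at f
      rw [f, hc0]
      push_cast
      ring
    have m0 : ∀ i, cs m (3 * i) % 3 = 2 := by
      intro i
      rw [cs0]
      rcases sg1 D (i - 1) with h | h
      · rw [if_pos h]; omega
      · rw [if_neg (by rw [h]; norm_num)]; omega
    have mn : ∀ {k i τ q : ℤ}, Nr m z k i τ q → cs m k % 3 ≠ 2 := by
      intro k i τ q H
      rw [H.c]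
      split_ifs <;> omega
    have hN : ∀ {l j : ℤ}, l = 3 * j + 1 ∨ l = 3 * j + 2 → ∃ τ q, Nr m z l j τ q := by
      intro l j hl
      rcases hl with hl | hl
      · rw [hl]; exact ⟨_, _, nr1 D j⟩
      · rw [hl]; exact ⟨_, _, nr2 D j⟩
    rcases hk with hk | hk
    · rcases hl with hl | hl
      · have hn' : ¬ Cg L i j := by
          apply cg3 (r := 0)
          rw [hk, hl] at hn
          simpa using hn
        have hd := (LD L m z D).2 i j hn' (by rw [← hk, ← hl]; exact hc)
        rw [hk, hl, hz, hz]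
        obtain ⟨d1, d2⟩ := hd
        have key : ∀ a b : ℤ, a ≠ b → (a - b) % 2 = 0 → ∀ s t : ℝ, (s = 1 ∨ s = -1) →
            (t = 1 ∨ t = -1) → (X₀ * P₀ / 2 * a + P₀ * s * ε < X₀ * P₀ / 2 * b + P₀ * t * ε ↔
              a < b) := by
          intro a b hab hab2 s t hs ht
          have hpe : P₀ * ε < P₀ * (X₀ / 4) := mul_lt_mul_of_pos_left (by linarith) hP
          have hpe0 : 0 < P₀ * ε := mul_pos hP h0
          have k1 : P₀ * s * ε ≤ P₀ * ε := by rcases hs with h | h <;> rw [h] <;> nlinarith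
          have k2 : -(P₀ * ε) ≤ P₀ * s * ε := by rcases hs with h | h <;> rw [h] <;> nlinarith
          have k3 : P₀ * t * ε ≤ P₀ * ε := by rcases ht with h | h <;> rw [h] <;> nlinarith
          have k4 : -(P₀ * ε) ≤ P₀ * t * ε := by rcases ht with h | h <;> rw [h] <;> nlinarith
          constructor
          · intro hh
            by_contra hc
            have : b + 2 ≤ a := by omega
            have h3 : (b : ℝ) + 2 ≤ a := by exact_mod_cast this
            nlinarith
          · intro hh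
            have : a + 2 ≤ b := by omega
            have h3 : (a : ℝ) + 2 ≤ b := by exact_mod_cast this
            nlinarith
        apply key _ _ d1 d2
        · rcases sl1 D (i - 1) with h | h <;> rw [h] <;> simp
        · rcases sl1 D (j - 1) with h | h <;> rw [h] <;> simp
      · exfalso
        obtain ⟨τ, q, H⟩ := hN hl
        apply mn H
        rw [← hc, hk, m0]
    · obtain ⟨τ, q, H⟩ := hN hk
      rcases hl with hl | hl
      · exfalso
        apply mn H
        rw [hc, hl, m0]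
      · obtain ⟨τ', q', H'⟩ := hN hl
        exact NN D S T h0 h1 TS LD H H' hn hc
  · intro k l hg hc
    obtain ⟨i, hk, hti⟩ := turn_tip D hg
    obtain ⟨j, hl⟩ : ∃ i, l = 3 * i ∨ l = 3 * i + 1 ∨ l = 3 * i + 2 := ⟨l / 3, by omega⟩
    have H := nr1 D i
    rw [← hk] at H
    have hca : ca m k = 3 * m i := by rw [hk, ca1]
    have hcs : cs m l = 3 * m i ∨ cs m l = 3 * m i + 1 := by
      rw [hc, hca]
      split_ifs
      · exact Or.inr rfl
      · exact Or.inl rfl
    have hl' : l = 3 * j + 1 ∨ l = 3 * j + 2 := by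
      rcases hl with hl | hl
      · exfalso
        rw [hl, cs0] at hcs
        split_ifs at hcs <;> omega
      · exact hl
    obtain ⟨τ, q, H'⟩ : ∃ τ q, Nr m z l j τ q := by
      rcases hl' with hl | hl
      · rw [hl]; exact ⟨_, _, nr1 D j⟩
      · rw [hl]; exact ⟨_, _, nr2 D j⟩
    have hm : m i = m j := by
      have := H'.c
      rw [this] at hcs
      split_ifs at hcs <;> omega
    -- the side of the line of `l`
    have hside : τ = sg m (i - 1) := by
      have e1 := H'.c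
      rw [hc, hca, hk, gd1] at e1
      have a1 := sg1 D (i - 1)
      have a2 := H'.t1
      rcases a1 with a1 | a1 <;> rcases a2 with a2 | a2 <;> rw [a1, a2] at e1 <;>
        norm_num at e1 <;> rw [a1, a2] <;> omega
    have hncg : ¬ Cg L i j := by
      rintro ⟨c, hcj⟩
      have pm := per_int m L D.pm c
      have psg : ∀ i, sg m (i + c * L) = sg m i := by
        intro i
        unfold sg
        have e : i + c * L + 1 = (i + 1) + c * L := by ring
        rw [e, pm, pm]
      have ej : j - 1 = (i - 1) + c * L := by rw [hcj]; ring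
      have hsj : sg m j = sg m i := by rw [hcj, psg]
      have hsj' : sg m (j - 1) = sg m (i - 1) := by rw [ej, psg]
      have a1 := sg1 D i
      have a2 := sg1 D (i - 1)
      rcases H'.p with ⟨p1, p2, p3⟩ | ⟨p1, p2, p3⟩ <;> omega
    have hzne : z i ≠ z j := by
      intro hz
      exact hti (D.dis i j hncg hm hz).1
    have hpar := (LD L m z D).1 i j hm
    have hnear := near H' S T h0 h1
    have b1 := nr_b H S T h0 h1 (Λ.x (θ l)) (by rw [hm]; exact hnear)
    have b2 := nr_b H' S T h0 h1 _ hnear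
    rw [← zz_TL] at b2
    have hh := cmp hA b1 b2 hpar hzne
    have ev : vcd z k = 4 * z i := by
      unfold vcd
      have : k / 3 = i := by omega
      rw [this]
    rw [← T.hit l, hh.1, hh.2, ev, H'.h]
    rcases H'.t1 with a1 | a1 <;> rcases H'.q1 with a2 | a2 <;> rw [a1, a2] <;>
      constructor <;> omega
  · intro k l hn hg hg' hgg hca n hnn
    obtain ⟨i, hk, hti⟩ := turn_tip D hg
    obtain ⟨j, hl, htj⟩ := turn_tip D hg'
    have H := nr1 D i
    rw [← hk] at H
    have H' := nr1 D j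
    rw [← hl] at H'
    have hm : m i = m j := by
      rw [hk, hl, ca1, ca1] at hca
      omega
    have hncg : ¬ Cg L i j := by
      apply cg3 (r := 1)
      rw [hk, hl] at hn
      exact hn
    have hzne : z i ≠ z j := by
      intro hz
      exact hti (D.dis i j hncg hm hz).1
    have hpar := (LD L m z D).1 i j hm
    have hln : |ln X₀ w ε n - X₀ * m i| ≤ 51 / 100 * X₀ := by
      have hn3 : n = 3 * m i ∨ n = 3 * m i + 1 := by
        rw [hnn, hk, ca1]
        split_ifs
        · exact Or.inr rfl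
        · exact Or.inl rfl
      rcases hn3 with h | h
      · rw [h, ln0, abs_le]; constructor <;> nlinarith
      · rw [h, ln1, abs_le]; constructor <;> nlinarith
    have b1 := nr_b H S T h0 h1 _ hln
    have b2 := nr_b H' S T h0 h1 (ln X₀ w ε n) (by rw [← hm]; exact hln)
    have hh := cmp hA b1 b2 hpar hzne
    have ev : vcd z k = 4 * z i := by
      unfold vcd
      have : k / 3 = i := by omega
      rw [this]
    have ev' : vcd z l = 4 * z j := by
      unfold vcd
      have : l / 3 = j := by omega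
      rw [this]
    rw [hh.1, ev, ev']
    omega

end LHE
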