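import Pool.Agent.LHE.Stmts4
import Pool.Agent.LHJ.E0

/-!
# The lattice path of the knot `J`
-/

namespace LHE

open LHJ (mJ zJ)

/-- The index of the vertex `k` of the polygon as a point of the lattice path. -/
def jJ (k : ℤ) : ℤ :=
  120 * (k / 24) + [0, 8, 12, 16, 23, 28, 38, 41, 46, 53, 57, 60, 62, 66, 69, 76, 79, 83, 90, 92,
    98, 102, 106, 113].getD (k % 24).toNat 0

/-- The `x`-coordinate of the vertex `k`. -/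
def MJ (k : ℤ) : ℤ :=
  [-2, -10, -6, -2, 5, 0, -10, -7, -2, 5, 9, 6, 4, 8, 5, -2, -5, -1, 6, 4, -2, -6, -2, 5].getD
    (k % 24).toNat 0

/-- The `z`-coordinate of the vertex `k`. -/
def ZJ (k : ℤ) : ℤ :=
  [2, 10, 14, 10, 17, 22, 12, 9, 14, 7, 11, 14, 12, 8, 5, 12, 9, 5, 12, 14, 8, 12, 16, 9].getD
    (k % 24).toNat 0

/-- The direction of the edge `k`. -/
def sJ (k : ℤ) : ℤ :=
  [-1, 1, 1, 1, -1, -1, 1, 1, 1, 1, -1, -1, 1, -1, -1, -1, 1, 1, -1, -1, -1, 1, 1, -1].getD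
    (k % 24).toNat 0

/-- The slope of the edge `k`. -/
def pJ (k : ℤ) : ℤ :=
  [-1, 1, -1, 1, -1, 1, -1, 1, -1, 1, -1, 1, -1, 1, -1, 1, -1, 1, -1, 1, -1, 1, -1, 1].getD
    (k % 24).toNat 0

/-- The length of the edge `k`. -/
def lJ (k : ℤ) : ℤ :=
  [8, 4, 4, 7, 5, 10, 3, 5, 7, 4, 3, 2, 4, 3, 7, 3, 4, 7, 2, 6, 4, 4, 7, 7].getD (k % 24).toNat 0

namespace JDA

theorem res120 (i : ℤ) : ∃ (r : Fin 120) (q : ℤ), i = ((r : ℕ) : ℤ) + 120 * q := by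
  refine ⟨⟨(i % 120).toNat, by omega⟩, i / 120, ?_⟩
  simp only
  omega

theorem res24 (i : ℤ) : ∃ (r : Fin 24) (q : ℤ), i = ((r : ℕ) : ℤ) + 24 * q := by
  refine ⟨⟨(i % 24).toNat, by omega⟩, i / 24, ?_⟩
  simp only
  omega

theorem mp (i q : ℤ) : mJ (i + 120 * q) = mJ i := by
  unfold LHJ.mJ; rw [Int.add_mul_emod_self_left]

theorem zp (i q : ℤ) : zJ (i + 120 * q) = zJ i := by
  unfold LHJ.zJ; rw [Int.add_mul_emod_self_left]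

theorem Mp (i q : ℤ) : MJ (i + 24 * q) = MJ i := by
  unfold MJ; rw [Int.add_mul_emod_self_left]

theorem Zp (i q : ℤ) : ZJ (i + 24 * q) = ZJ i := by
  unfold ZJ; rw [Int.add_mul_emod_self_left]

theorem sp (i q : ℤ) : sJ (i + 24 * q) = sJ i := by
  unfold sJ; rw [Int.add_mul_emod_self_left]

theorem pp (i q : ℤ) : pJ (i + 24 * q) = pJ i := by
  unfold pJ; rw [Int.add_mul_emod_self_left]

theorem lp (i q : ℤ) : lJ (i + 24 * q) = lJ i := by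
  unfold lJ; rw [Int.add_mul_emod_self_left]

theorem jp (i q : ℤ) : jJ (i + 24 * q) = jJ i + 120 * q := by
  unfold jJ
  rw [Int.add_mul_emod_self_left, Int.add_mul_ediv_left _ _ (by norm_num)]
  ring

theorem d1 : ∀ r : Fin 120, (mJ (((r : ℕ) : ℤ) + 1) = mJ ((r : ℕ) : ℤ) + 1 ∨
      mJ (((r : ℕ) : ℤ) + 1) = mJ ((r : ℕ) : ℤ) - 1) ∧
    (zJ (((r : ℕ) : ℤ) + 1) = zJ ((r : ℕ) : ℤ) + 1 ∨
      zJ (((r : ℕ) : ℤ) + 1) = zJ ((r : ℕ) : ℤ) - 1) := by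
  decide +kernel

theorem d2 : ∀ r : Fin 120, sg mJ (((r : ℕ) : ℤ) - 1) ≠ sg mJ ((r : ℕ) : ℤ) →
    sl mJ zJ (((r : ℕ) : ℤ) - 1) ≠ sl mJ zJ ((r : ℕ) : ℤ) := by
  decide +kernel

theorem d3 : ∀ r s : Fin 120, r ≠ s → mJ ((r : ℕ) : ℤ) = mJ ((s : ℕ) : ℤ) →
    zJ ((r : ℕ) : ℤ) = zJ ((s : ℕ) : ℤ) →
    sg mJ (((r : ℕ) : ℤ) - 1) = sg mJ ((r : ℕ) : ℤ) ∧
    sl mJ zJ (((r : ℕ) : ℤ) - 1) = sl mJ zJ ((r : ℕ) : ℤ) ∧
    sg mJ (((s : ℕ) : ℤ) - 1) = sg mJ ((s : ℕ) : ℤ) ∧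
    sl mJ zJ (((s : ℕ) : ℤ) - 1) = sl mJ zJ ((s : ℕ) : ℤ) ∧
    sl mJ zJ ((r : ℕ) : ℤ) ≠ sl mJ zJ ((s : ℕ) : ℤ) := by
  decide +kernel

theorem e1 : ∀ r : Fin 24, (jJ (((r : ℕ) : ℤ) + 1) = jJ ((r : ℕ) : ℤ) + lJ ((r : ℕ) : ℤ)) ∧
    (1 ≤ lJ ((r : ℕ) : ℤ)) ∧ (lJ ((r : ℕ) : ℤ) ≤ 10) ∧
    (sJ ((r : ℕ) : ℤ) = 1 ∨ sJ ((r : ℕ) : ℤ) = -1) ∧
    (pJ ((r : ℕ) : ℤ) = 1 ∨ pJ ((r : ℕ) : ℤ) = -1) ∧
    (pJ (((r : ℕ) : ℤ) - 1) ≠ pJ ((r : ℕ) : ℤ)) ∧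
    (MJ (((r : ℕ) : ℤ) + 1) = MJ ((r : ℕ) : ℤ) + sJ ((r : ℕ) : ℤ) * lJ ((r : ℕ) : ℤ)) ∧
    (ZJ (((r : ℕ) : ℤ) + 1) =
      ZJ ((r : ℕ) : ℤ) + sJ ((r : ℕ) : ℤ) * pJ ((r : ℕ) : ℤ) * lJ ((r : ℕ) : ℤ)) := by
  decide +kernel

theorem e2 : ∀ (r : Fin 24) (d : Fin 11), ((d : ℕ) : ℤ) ≤ lJ ((r : ℕ) : ℤ) →
    mJ (jJ ((r : ℕ) : ℤ) + ((d : ℕ) : ℤ)) = MJ ((r : ℕ) : ℤ) + sJ ((r : ℕ) : ℤ) * ((d : ℕ) : ℤ) ∧
    zJ (jJ ((r : ℕ) : ℤ) + ((d : ℕ) : ℤ)) =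
      ZJ ((r : ℕ) : ℤ) + sJ ((r : ℕ) : ℤ) * pJ ((r : ℕ) : ℤ) * ((d : ℕ) : ℤ) := by
  decide +kernel

theorem sgp (r q : ℤ) : sg mJ (r + 120 * q) = sg mJ r := by
  unfold sg
  rw [show r + 120 * q + 1 = (r + 1) + 120 * q by ring, mp, mp]

theorem slp (r q : ℤ) : sl mJ zJ (r + 120 * q) = sl mJ zJ r := by
  unfold sl
  rw [show r + 120 * q + 1 = (r + 1) + 120 * q by ring, mp, mp, zp, zp]

end JDA

/-- The lattice path of `J`. -/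
theorem latD_J : LatD 120 mJ zJ where
  Lpos := by norm_num
  pm i := by
    have := JDA.mp i 1
    simpa using this
  pz i := by
    have := JDA.zp i 1
    simpa using this
  dm i := by
    obtain ⟨r, q, rfl⟩ := JDA.res120 i
    rw [show ((r : ℕ) : ℤ) + 120 * q + 1 = (((r : ℕ) : ℤ) + 1) + 120 * q by ring, JDA.mp, JDA.mp]
    exact (JDA.d1 r).1
  dz i := by
    obtain ⟨r, q, rfl⟩ := JDA.res120 i
    rw [show ((r : ℕ) : ℤ) + 120 * q + 1 = (((r : ℕ) : ℤ) + 1) + 120 * q by ring, JDA.zp, JDA.zp]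
    exact (JDA.d1 r).2
  nb i := by
    obtain ⟨r, q, rfl⟩ := JDA.res120 i
    rw [show ((r : ℕ) : ℤ) + 120 * q - 1 = (((r : ℕ) : ℤ) - 1) + 120 * q by ring, JDA.sgp,
      JDA.sgp, JDA.slp, JDA.slp]
    exact JDA.d2 r
  dis i j := by
    obtain ⟨r, q, rfl⟩ := JDA.res120 i
    obtain ⟨s, q', rfl⟩ := JDA.res120 j
    intro h
    rw [show ((r : ℕ) : ℤ) + 120 * q - 1 = (((r : ℕ) : ℤ) - 1) + 120 * q by ring,
      show ((s : ℕ) : ℤ) + 120 * q' - 1 = (((s : ℕ) : ℤ) - 1) + 120 * q' by ring]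
    simp only [JDA.mp, JDA.zp, JDA.sgp, JDA.slp]
    apply JDA.d3 r s
    rintro rfl
    exact h ⟨q' - q, by push_cast; ring⟩

/-- The vertices of `J` are points of the lattice path. -/
theorem ver_J : Ver 24 120 MJ ZJ sJ pJ lJ mJ zJ jJ where
  jp k := by
    have := JDA.jp k 1
    simpa using this
  js k := by
    obtain ⟨r, q, rfl⟩ := JDA.res24 k
    rw [show ((r : ℕ) : ℤ) + 24 * q + 1 = (((r : ℕ) : ℤ) + 1) + 24 * q by ring]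
    simp only [JDA.jp, JDA.lp]
    rw [(JDA.e1 r).1]
    ring
  l1 k := by
    obtain ⟨r, q, rfl⟩ := JDA.res24 k
    rw [JDA.lp]
    exact (JDA.e1 r).2.1
  s1 k := by
    obtain ⟨r, q, rfl⟩ := JDA.res24 k
    rw [JDA.sp]
    exact (JDA.e1 r).2.2.2.1
  p1 k := by
    obtain ⟨r, q, rfl⟩ := JDA.res24 k
    rw [JDA.pp]
    exact (JDA.e1 r).2.2.2.2.1
  alt k := by
    obtain ⟨r, q, rfl⟩ := JDA.res24 k
    rw [show ((r : ℕ) : ℤ) + 24 * q - 1 = (((r : ℕ) : ℤ) - 1) + 24 * q by ring, JDA.pp, JDA.pp]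
    exact (JDA.e1 r).2.2.2.2.2.1
  mp i := by
    have := JDA.mp i 1
    simpa using this
  mm k d h0 h1 := by
    obtain ⟨r, q, rfl⟩ := JDA.res24 k
    rw [JDA.lp] at h1
    rw [JDA.jp, JDA.Mp, JDA.sp, show jJ ((r : ℕ) : ℤ) + 120 * q + d =
      (jJ ((r : ℕ) : ℤ) + d) + 120 * q by ring, JDA.mp]
    have h2 := (JDA.e1 r).2.2.1
    have h3 := (JDA.e2 r ⟨d.toNat, by omega⟩ (by simp only; omega)).1
    simp only [Int.toNat_of_nonneg h0] at h3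
    exact h3
  zz k d h0 h1 := by
    obtain ⟨r, q, rfl⟩ := JDA.res24 k
    rw [JDA.lp] at h1
    rw [JDA.jp, JDA.Zp, JDA.sp, JDA.pp, show jJ ((r : ℕ) : ℤ) + 120 * q + d =
      (jJ ((r : ℕ) : ℤ) + d) + 120 * q by ring, JDA.zp]
    have h2 := (JDA.e1 r).2.2.1
    have h3 := (JDA.e2 r ⟨d.toNat, by omega⟩ (by simp only; omega)).2
    simp only [Int.toNat_of_nonneg h0] at h3
    exact h3

end LHE
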