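import Pool.Agent.LHE.Stmts4

/-! # KNP: the knot of a cyclic polygon with its parametrisation -/

namespace LHE

open Set Filter LCA
open scoped ContDiff Topology

namespace KNP

/-- A knot from local parametrizations. -/
theorem knot_of_local' {n : ℕ} (hn : 0 < n) (G : ℤ → ℝ → LC.R3)
    (hs : ∀ k, ContDiff ℝ ∞ (G k)) (hp : ∀ k, G (k + n) = G k)
    (hov : ∀ k t, 1 / 4 ≤ t → t ≤ 3 / 4 → G k t = G (k + 1) (t - 1))
    (him : ∀ k t, deriv (G k) t ≠ 0) (hleg : ∀ k t, LC.alpha (G k t) (deriv (G k) t) = 0)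
    (hinj : ∀ k t k' t', |t| ≤ 1 / 2 → |t'| ≤ 1 / 2 → G k t = G k' t' →
      ∃ m : ℤ, (k' : ℝ) + t' = k + t + m * n) :
    ∃ Λ : LC.LegKnot, (∀ r, r ∈ Λ.carrier ↔ ∃ (k : ℤ) (t : ℝ), |t| ≤ 1 / 2 ∧ G k t = r) ∧
      ∀ (k : ℤ) (t : ℝ), |t| ≤ 3 / 4 → Λ.γ ((k + t) / n) = G k t := by
  have hn0 : (0 : ℝ) < n := by exact_mod_cast hn
  set g : ℝ → LC.R3 := fun θ => G (round θ) (θ - round θ) with hgdef
  have hg : ∀ (k : ℤ) (θ : ℝ), |θ - k| ≤ 3 / 4 → g θ = G k (θ - k) := by
    intro k θ h
    have h1 := abs_sub_round θ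
    rw [abs_le] at h h1
    have h2 : (round θ : ℝ) - k < 2 := by linarith
    have h3 : (-2 : ℝ) < round θ - k := by linarith
    have h2' : round θ - k < 2 := by exact_mod_cast h2
    have h3' : -2 < round θ - k := by exact_mod_cast h3
    have h4 : round θ = k ∨ round θ = k + 1 ∨ round θ = k - 1 := by omega
    rcases h4 with h4 | h4 | h4
    · simp only [hgdef, h4]
    · have hr : (round θ : ℝ) = k + 1 := by rw [h4]; push_cast; ring
      have := hov k (θ - k) (by linarith) (by linarith)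
      rw [this]
      simp only [hgdef, h4]
      congr 1
      push_cast; ring
    · have hr : (round θ : ℝ) = k - 1 := by rw [h4]; push_cast; ring
      have := hov (k - 1) (θ - (k - 1)) (by linarith) (by linarith)
      simp only [hgdef, h4]
      have e : k - 1 + 1 = k := by ring
      rw [e] at this
      have e2 : θ - ((k - 1 : ℤ) : ℝ) = θ - (k - 1) := by push_cast; ring
      rw [e2, this]
      congr 1
      ring
  set γ : ℝ → LC.R3 := fun u => g (n * u) with hγ
  have hnear : ∀ u₀ : ℝ, γ =ᶠ[𝓝 u₀] fun u => G (round (n * u₀)) (n * u - round (n * u₀)) := by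
    intro u₀
    have hc : ContinuousAt (fun u : ℝ => (n : ℝ) * u) u₀ := by fun_prop
    have h1 := abs_sub_round ((n : ℝ) * u₀)
    have : ∀ᶠ u in 𝓝 u₀, |(n : ℝ) * u - n * u₀| < 1 / 4 := by
      have := (Metric.tendsto_nhds.1 hc.tendsto) (1 / 4) (by norm_num)
      filter_upwards [this] with u hu
      rwa [Real.dist_eq] at hu
    filter_upwards [this] with u hu
    apply hg
    rw [abs_le] at h1 ⊢
    rw [abs_lt] at hu
    constructor <;> linarith
  have hder : ∀ u₀ : ℝ, deriv γ u₀ =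
      (n : ℝ) • deriv (G (round (n * u₀))) (n * u₀ - round (n * u₀)) := by
    intro u₀
    rw [(hnear u₀).deriv_eq]
    have d1 : HasDerivAt (fun u : ℝ => (n : ℝ) * u - round (n * u₀)) (n : ℝ) u₀ := by
      have := ((hasDerivAt_id u₀).const_mul (n : ℝ)).sub_const (round (n * u₀) : ℝ)
      simpa using this
    have d2 : HasDerivAt (G (round (n * u₀)))
        (deriv (G (round (n * u₀))) (n * u₀ - round (n * u₀))) (n * u₀ - round (n * u₀)) :=
      ((hs _).differentiable (by simp)).differentiableAt.hasDerivAt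
    exact (HasDerivAt.scomp u₀ d2 d1).deriv
  have hval : ∀ u₀ : ℝ, γ u₀ = G (round (n * u₀)) (n * u₀ - round (n * u₀)) := fun u₀ => rfl
  refine ⟨⟨γ, ?_, ?_, ?_, ?_, ?_⟩, ?_, ?_⟩
  · rw [contDiff_iff_contDiffAt]
    intro u₀
    refine ContDiffAt.congr_of_eventuallyEq ?_ (hnear u₀)
    exact ((hs _).comp (by fun_prop)).contDiffAt
  · intro u
    rw [hval, hval]
    have e : (n : ℝ) * (u + 1) = n * u + (n : ℕ) := by ring
    have e2 : round ((n : ℝ) * (u + 1)) = round ((n : ℝ) * u) + n := by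
      rw [e, round_add_natCast]
    rw [e2, hp]
    congr 1
    rw [e]
    push_cast
    ring
  · intro u
    rw [hder]
    exact smul_ne_zero hn0.ne' (him _ _)
  · intro u v huv
    rw [hval, hval] at huv
    obtain ⟨m, hm⟩ := hinj _ _ _ _ (abs_sub_round _) (abs_sub_round _) huv
    refine ⟨m, ?_⟩
    have : (n : ℝ) * v = n * (u + m) := by linarith
    exact mul_left_cancel₀ hn0.ne' this
  · intro u
    rw [hder, hval]
    have := hleg (round (n * u)) (n * u - round (n * u))
    simp only [LC.alpha, Prod.smul_snd, Prod.smul_fst, smul_eq_mul] at this ⊢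
    linear_combination (n : ℝ) * this
  · intro r
    constructor
    · rintro ⟨u, rfl⟩
      exact ⟨round (n * u), n * u - round (n * u), abs_sub_round _, rfl⟩
    · rintro ⟨k, t, ht, rfl⟩
      refine ⟨(k + t) / n, ?_⟩
      have e : (n : ℝ) * ((k + t) / n) = k + t := by field_simp
      change g (n * ((k + t) / n)) = _
      rw [e, hg k (k + t) (by simpa using ht.trans (by norm_num))]
      congr 1
      ring
  · intro k t ht
    have e : (n : ℝ) * ((k + t) / n) = k + t := by field_simp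
    change g (n * ((k + t) / n)) = _
    rw [e, hg k (k + t) (by simpa using ht)]
    congr 1
    ring

end KNP

theorem t_KNP : Stmt_KNP := by
  intro hPST hCER hVLN hPIN n _ sh c w Q hV hC hw hCert hL
  have _ := @hPIN
  have hn : 0 < n := Nat.pos_of_ne_zero (NeZero.ne n)
  have hlen : ∀ e, Q.1 (c.lf e) < Q.1 (c.rt e) := by
    intro e
    have h1 := hL e
    have h2 := hw (c.lf e)
    have h3 := hw (c.rt e)
    linarith
  have hP : ∀ i, ProfOK univ (c.ty i) (fun _ => c.dl Q i) (sh.st (c.ty i)) := fun i =>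
    hPST sh univ (c.ty i) (fun _ => c.dl Q i) (fun _ _ h => hCert.tip i h)
  have hB : ∀ i, ProfBd (c.ty i) 0 (c.sp sh i) := fun i => (hP i).bd 0 (mem_univ _)
  have hAdm := hCER c w (c.sp sh) 0 Q (0, Q.2) hV hw hB hCert
  have cls := KNT.classify sh c w Q hVLN hV hB hC hw hlen hL
  have hD := KNT.Dk_mono sh c w Q hC hw hL
  have hDr : ∀ (l : ℤ) (r : ℝ), 1 / 4 < r → r < 3 / 4 → 2 * KNT.wk w l < KNT.Dk sh c w Q l r ∧
      KNT.Dk sh c w Q l r < KNT.Ln c Q l - 2 * KNT.wk w (l + 1) := by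
    intro l r h1 h2
    rw [← KNT.Dk_quarter sh c w Q l, ← KNT.Dk_three sh c w Q l]
    exact ⟨hD l h1, hD l h2⟩
  have e8 : ∀ (k : ℤ) (t : ℝ), |t| ≤ 1 / 4 → |KNT.ek c k * (8 * t)| ≤ 2 := by
    intro k t ht
    rw [abs_le] at ht ⊢
    rcases KNT.ek_sq c k with h | h <;> rw [h] <;> constructor <;> linarith
  have meetV : ∀ i j u v, KNT.Vc sh c w Q i u = KNT.Vc sh c w Q j v →
      Meet (c.vp w (c.sp sh) 0 Q (0, Q.2) i u) (c.vp w (c.sp sh) 0 Q (0, Q.2) j v) := by
    intro i j u v h
    exact ⟨congrArg (fun r : LC.R3 => r.1) h, congrArg (fun r : LC.R3 => r.2.1) h,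
      congrArg (fun r : LC.R3 => r.2.2) h⟩
  have meetE : ∀ i j u v, KNT.Ec c Q i u = KNT.Ec c Q j v →
      Meet (c.ept Q (0, Q.2) i u) (c.ept Q (0, Q.2) j v) := by
    intro i j u v h
    exact ⟨congrArg (fun r : LC.R3 => r.1) h, congrArg (fun r : LC.R3 => r.2.1) h,
      congrArg (fun r : LC.R3 => r.2.2) h⟩
  obtain ⟨Λ, hΛ, hprm⟩ := KNP.knot_of_local' hn (KNT.Gk sh c w Q)
    (by
      intro k
      have h1 := KNT.Vc_smooth sh c w Q (KNT.idx n k)
      have h2 := KNT.Uk_smooth sh c w Q k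
      exact h1.comp (contDiff_const.mul h2))
    (by
      intro k
      have e1 : KNT.idx n (k + n) = KNT.idx n k := KNT.idx_add k
      have e2 : KNT.idx n (k + n + 1) = KNT.idx n (k + 1) := by
        rw [show k + n + 1 = k + 1 + n by ring]; exact KNT.idx_add (k + 1)
      have e3 : KNT.idx n (k + n - 1) = KNT.idx n (k - 1) := by
        rw [show k + n - 1 = k - 1 + n by ring]; exact KNT.idx_add (k - 1)
      have e4 : KNT.idx n (k + n - 1 + 1) = KNT.idx n (k - 1 + 1) := by
        rw [show k + n - 1 + 1 = k - 1 + 1 + n by ring]; exact KNT.idx_add (k - 1 + 1)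
      funext t
      unfold KNT.Gk KNT.Ak KNT.Uk KNT.ek KNT.Dk KNT.wk KNT.Ln
      rw [e1, e2, e3, e4])
    (by
      intro k t h1 h2
      rw [KNT.Gk_edge sh c w Q hVLN hV hB hC hw hlen hL k t h1,
        KNT.Gk_edge' sh c w Q hVLN hV hB hC hw hlen hL k t h2])
    (by
      intro k t
      obtain ⟨d, hd0, hd⟩ := KNT.Uk_deriv sh c w Q hC hw hL k t
      have h1 := (KNT.Vc_deriv sh c w Q (KNT.idx n k) (hP _)
        (KNT.ek c k * KNT.Uk sh c w Q k t)).scomp t (hd.const_mul (KNT.ek c k))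
      have h2 := h1.deriv
      have h3 : KNT.Gk sh c w Q k = (KNT.Vc sh c w Q (KNT.idx n k)) ∘
        (fun t => KNT.ek c k * KNT.Uk sh c w Q k t) := rfl
      rw [h3, h2]
      apply smul_ne_zero
      · apply mul_ne_zero _ hd0
        rcases KNT.ek_sq c k with h | h <;> rw [h] <;> norm_num
      · intro h0
        rcases KNT.Vc_imm sh c w Q (KNT.idx n k) (hw _) (hP _)
          (KNT.ek c k * KNT.Uk sh c w Q k t) with h | h
        · exact h (congrArg (fun r : LC.R3 => r.1) h0)
        · exact h (congrArg (fun r : LC.R3 => r.2.1) h0))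
    (by
      intro k t
      obtain ⟨d, hd0, hd⟩ := KNT.Uk_deriv sh c w Q hC hw hL k t
      have h1 := (KNT.Vc_deriv sh c w Q (KNT.idx n k) (hP _)
        (KNT.ek c k * KNT.Uk sh c w Q k t)).scomp t (hd.const_mul (KNT.ek c k))
      have h2 := h1.deriv
      have h3 : KNT.Gk sh c w Q k = (KNT.Vc sh c w Q (KNT.idx n k)) ∘
        (fun t => KNT.ek c k * KNT.Uk sh c w Q k t) := rfl
      rw [h3, h2]
      have h4 : (KNT.Vc sh c w Q (KNT.idx n k) (KNT.ek c k * KNT.Uk sh c w Q k t)).2.1 =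
          c.pe Q (c.ea (KNT.idx n k)) + c.dl Q (KNT.idx n k) *
            sh.τ (KNT.ek c k * KNT.Uk sh c w Q k t) := by
        rw [KNT.Vc, KNT.vp_eq]; rfl
      simp only [LC.alpha, Prod.smul_snd, Prod.smul_fst, smul_eq_mul, Function.comp]
      rw [h4]
      ring)
    (by
      intro k t k' t' ht ht' heq
      rcases cls k t ht with ⟨a1, a2⟩ | ⟨l, r, a1, a2, a3, a4⟩
      · rcases cls k' t' ht' with ⟨b1, b2⟩ | ⟨l', r', b1, b2, b3, b4⟩
        · rw [a2, b2] at heq
          have hidx : KNT.idx n k = KNT.idx n k' := by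
            by_contra hne
            exact hAdm.vv _ _ hne _ _ (e8 k t a1) (e8 k' t' b1) (meetV _ _ _ _ heq)
          obtain ⟨m, hm⟩ := KNT.idx_eq hidx
          have hek : KNT.ek c k' = KNT.ek c k := by unfold KNT.ek; rw [hidx]
          rw [← hidx, hek] at heq
          have hu : KNT.ek c k * (8 * t) = KNT.ek c k * (8 * t') := by
            have hwi := hw (KNT.idx n k)
            have hm2 := meetV _ _ _ _ heq
            rw [Meet, KNT.vp_eq, KNT.vp_eq] at hm2
            refine (hP (KNT.idx n k)).inj 0 (mem_univ _) _ _ (e8 k t a1) ?_ ?_ ?_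
            · have := e8 k' t' b1; rwa [hek] at this
            · have h1 := hm2.1
              have h2 : w (KNT.idx n k) * (sh.st (c.ty (KNT.idx n k))).X 0 (KNT.ek c k * (8 * t)) =
                w (KNT.idx n k) * (sh.st (c.ty (KNT.idx n k))).X 0 (KNT.ek c k * (8 * t')) := by
                  linarith
              exact mul_left_cancel₀ hwi.ne' h2
            · have h1 := hm2.2.1
              have h2 : c.dl Q (KNT.idx n k) * sh.τ (KNT.ek c k * (8 * t)) =
                c.dl Q (KNT.idx n k) * sh.τ (KNT.ek c k * (8 * t')) := by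
                  simp only at h1; linarith
              exact h2
          have ht2 : t = t' := by
            rcases KNT.ek_sq c k with h | h <;> rw [h] at hu <;> linarith
          refine ⟨m, ?_⟩
          rw [hm, ht2]; push_cast; ring
        · exfalso
          rw [a2, b4] at heq
          obtain ⟨c1, c2⟩ := hDr l' r' b1 b2
          exact KNT.no_ve sh c w Q hC hw hlen hB hV hAdm.ve _ _ (e8 k t a1) l' _ c1 c2 heq
      · rcases cls k' t' ht' with ⟨b1, b2⟩ | ⟨l', r', b1, b2, b3, b4⟩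
        · exfalso
          rw [b2, a4] at heq
          obtain ⟨c1, c2⟩ := hDr l r a1 a2
          exact KNT.no_ve sh c w Q hC hw hlen hB hV hAdm.ve _ _ (e8 k' t' b1) l _ c1 c2 heq.symm
        · rw [a4, b4] at heq
          obtain ⟨c1, c2⟩ := hDr l r a1 a2
          obtain ⟨d1, d2⟩ := hDr l' r' b1 b2
          have hidx : KNT.idx n l = KNT.idx n l' := by
            by_contra hne
            exact hAdm.ee _ _ hne _ ((KNT.rg_iff c w Q hC hlen l _).2 ⟨c1.le, c2.le⟩) _
              ((KNT.rg_iff c w Q hC hlen l' _).2 ⟨d1.le, d2.le⟩) (meetE _ _ _ _ heq)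
          obtain ⟨m, hm⟩ := KNT.idx_eq hidx
          have hx := (meetE _ _ _ _ heq).1
          simp only [Comb.ept] at hx
          have g1 : KNT.xk Q l' = KNT.xk Q l := by unfold KNT.xk; rw [hidx]
          have g2 : KNT.sk c l' = KNT.sk c l := by unfold KNT.sk; rw [hidx]
          have g3 : KNT.Dk sh c w Q l' = KNT.Dk sh c w Q l := by
            funext t
            unfold KNT.Dk KNT.wk KNT.Ln
            rw [KNT.idx_succ, KNT.idx_succ, hidx]
          rw [g1, g2, g3] at hx
          have hr : r = r' := by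
            apply (hD l).injective
            rcases KNT.sk_sq c l with h | h <;> rw [h] at hx <;> linarith
          refine ⟨m, ?_⟩
          rw [← b3, ← a3, hm, hr]; push_cast; ring)
  refine ⟨Λ, ?_, hprm⟩
  ext r
  rw [hΛ r, KNT.mem_knot]
  constructor
  · rintro ⟨k, t, ht, rfl⟩
    rcases cls k t ht with ⟨a1, a2⟩ | ⟨l, r, a1, a2, a3, a4⟩
    · exact Or.inr ⟨_, _, e8 k t a1, a2⟩
    · obtain ⟨c1, c2⟩ := hDr l r a1 a2
      exact Or.inl ⟨_, _, (KNT.rg_iff c w Q hC hlen l _).2 ⟨c1.le, c2.le⟩, a4⟩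
  · rintro (⟨e, x, hx, rfl⟩ | ⟨i, u, hu, rfl⟩)
    · obtain ⟨k, rfl⟩ := KNT.idx_surj e
      -- the distance
      obtain ⟨d, rfl⟩ : ∃ d, x = KNT.xk Q k + KNT.sk c k * d := by
        refine ⟨KNT.sk c k * (x - KNT.xk Q k), ?_⟩
        rcases KNT.sk_sq c k with h | h <;> rw [h] <;> ring
      rw [KNT.rg_iff c w Q hC hlen k d, ← KNT.Dk_quarter sh c w Q k,
        ← KNT.Dk_three sh c w Q k] at hx
      have hcont : ContinuousOn (KNT.Dk sh c w Q k) (Icc (1 / 4) (3 / 4)) :=
        (KNT.D_smooth sh _ _ _).continuous.continuousOn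
      obtain ⟨t, ht, htd⟩ := intermediate_value_Icc (by norm_num) hcont hx
      rcases le_or_gt t (1 / 2) with h | h
      · refine ⟨k, t, by rw [abs_le]; constructor <;> linarith [ht.1], ?_⟩
        rw [KNT.Gk_edge sh c w Q hVLN hV hB hC hw hlen hL k t ht.1, htd]
      · refine ⟨k + 1, t - 1, by rw [abs_le]; constructor <;> linarith [ht.2], ?_⟩
        rw [KNT.Gk_edge' sh c w Q hVLN hV hB hC hw hlen hL k t ht.2, htd]
    · obtain ⟨k, rfl⟩ := KNT.idx_surj i
      have hek : KNT.ek c k * KNT.ek c k = 1 := by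
        rcases KNT.ek_sq c k with h | h <;> rw [h] <;> norm_num
      have h4 : |KNT.ek c k * u / 8| ≤ 1 / 4 := by
        rw [abs_le] at hu ⊢
        rcases KNT.ek_sq c k with h | h <;> rw [h] <;> constructor <;> linarith
      refine ⟨k, KNT.ek c k * u / 8, h4.trans (by norm_num), ?_⟩
      rw [KNT.Gk_mid sh c w Q hw k _ h4]
      congr 1
      have : KNT.ek c k * (8 * (KNT.ek c k * u / 8)) = (KNT.ek c k * KNT.ek c k) * u := by ring
      rw [this, hek, one_mul]

end LHE
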