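import Pool.Agent.LHE.Stmts3

/-!
# LAT: the polygons of a knot along a lattice path

Module LHE_LAT of the project MP_093788_gt. See `PAPER.md`, LAT.
-/

namespace LHE

open Set LG LH

namespace LAT

/-- A periodic integer sequence is bounded. -/
theorem bdd {L : ℕ} {m z : ℤ → ℤ} (D : LatD L m z) : ∃ B : ℤ, ∀ i, |m i| ≤ B := by
  have hper : ∀ (j : ℕ) (i : ℤ), m (i + j * L) = m i := by
    intro j
    induction j with
    | zero => intro i; simp
    | succ j ih =>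
      intro i
      have h := D.pm (i + j * L)
      rw [ih i] at h
      rw [← h]
      congr 1
      push_cast
      ring
  have hperz : ∀ (j i : ℤ), m (i + j * L) = m i := by
    intro j i
    rcases le_total 0 j with hj | hj
    · obtain ⟨n, rfl⟩ := Int.eq_ofNat_of_zero_le hj
      exact hper n i
    · obtain ⟨n, hn⟩ := Int.eq_ofNat_of_zero_le (neg_nonneg.2 hj)
      have h := hper n (i + j * L)
      have e : i + j * L + (n : ℤ) * L = i := by
        rw [← hn]; ring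
      rw [e] at h
      exact h.symm
  refine ⟨∑ r ∈ Finset.range L, |m r|, fun i => ?_⟩
  have hL : (0 : ℤ) < L := by exact_mod_cast D.Lpos
  have h0 : 0 ≤ i % L := Int.emod_nonneg i hL.ne'
  have h1 : i % L < L := Int.emod_lt_of_pos i hL
  obtain ⟨r, hr⟩ := Int.eq_ofNat_of_zero_le h0
  have hr' : r < L := by
    have : (r : ℤ) < L := by rw [← hr]; exact h1
    exact_mod_cast this
  have e : m i = m r := by
    have h := hperz (i / L) (i % L)
    have e2 : i % L + i / L * L = i := by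
      have := Int.emod_add_mul_ediv i L
      linarith [mul_comm (L : ℤ) (i / L)]
    rw [e2] at h
    rw [h, hr]
  rw [e]
  exact Finset.single_le_sum (f := fun r : ℕ => |m r|) (fun _ _ => abs_nonneg _)
    (Finset.mem_range.2 hr')

/-- Bounds for the codes of the left lines. -/
theorem ca_bd {m : ℤ → ℤ} {lo hi : ℤ} (R : Rng m lo hi) (k : ℤ) :
    lo + 2 ≤ ca m k ∧ ca m k + 1 ≤ hi - 1 := by
  have h := R (k / 3)
  unfold ca
  split_ifs <;> constructor <;> omega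

/-- Bounds for the codes of the starting lines. -/
theorem cs_bd {m : ℤ → ℤ} {lo hi : ℤ} (R : Rng m lo hi) (k : ℤ) :
    lo + 2 ≤ cs m k ∧ cs m k ≤ hi - 1 := by
  have h := R (k / 3)
  unfold cs
  split_ifs <;> constructor <;> omega

/-- Every real number lies in one of the intervals. -/
theorem find {θ : ℤ → ℝ} {K : ℕ} (hm : ∀ k, θ k < θ (k + 1))
    (hp : ∀ k, θ (k + (K : ℤ)) = θ k + 1) (u : ℝ) : ∃ k, θ k ≤ u ∧ u < θ (k + 1) := by
  have hs : StrictMono θ := strictMono_int_of_lt_succ hm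
  have hper : ∀ (j : ℕ), θ (j * K) = θ 0 + j ∧ θ (-(j * K)) = θ 0 - j := by
    intro j
    induction j with
    | zero => simp
    | succ j ih =>
      have h1 := hp (j * K)
      have h2 := hp (-((j + 1) * K))
      have e1 : ((j + 1 : ℕ) : ℤ) * K = j * K + K := by push_cast; ring
      have e2 : -(((j + 1 : ℕ) : ℤ) * K) = -((j + 1) * K) := by push_cast; ring
      have e3 : -(((j : ℤ) + 1) * K) + K = -(j * K) := by ring
      rw [e3] at h2
      have i1 := ih.1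
      have i2 := ih.2
      constructor
      · rw [e1, h1, i1]
        push_cast
        ring
      · rw [e2]
        push_cast
        linarith
  obtain ⟨n, hn⟩ := exists_nat_gt (|u - θ 0|)
  have hn1 := (abs_lt.1 hn).1
  have hn2 := (abs_lt.1 hn).2
  have hb : ∀ k, θ k ≤ u → k ≤ n * K := by
    intro k hk
    by_contra hc
    push Not at hc
    have := hs hc
    rw [(hper n).1] at this
    linarith
  have hi : θ (-(n * K)) ≤ u := by
    rw [(hper n).2]
    linarith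
  obtain ⟨k, hk, hk'⟩ := Int.exists_greatest_of_bdd (P := fun k => θ k ≤ u) ⟨_, hb⟩ ⟨_, hi⟩
  refine ⟨k, hk, ?_⟩
  by_contra hc
  push Not at hc
  have := hk' (k + 1) hc
  omega

/-- The line of the turn. -/
theorem ln_co (X₀ w ε : ℝ) (m : ℤ → ℤ) (k : ℤ) :
    ln X₀ w ε (co m k) = oL (aR X₀ w ε m) (bR X₀ w ε m) (gd m) k := by
  unfold co oL aR bR
  split_ifs <;> rfl

/-- The knot along a lattice path has a decomposition into arcs. -/
theorem arcs (hLNM : P_LNM) (hARD : P_ARD) (hTHI : P_THI) (hSPA : P_SPA) {Λ : LC.LegKnot}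
    {X₀ P₀ w ε : ℝ} {L : ℕ} {m z : ℤ → ℤ} {ν θ : ℤ → ℝ} {lo hi : ℤ} (D : LatD L m z)
    (S : LatS Λ X₀ P₀ w L m z ν) (h0 : 0 < ε) (h1 : ε < w / 16) (T : Tht Λ X₀ w ε L m ν θ)
    (R : Rng m lo hi) (hq : ∀ t ∈ XL X₀ w ε lo hi, ∀ q : ℚ, Λ.x q ≠ t) :
    Arcs Λ (3 * L) θ (sR X₀ w ε m) (aR X₀ w ε m) (bR X₀ w ε m) (gd m) (XL X₀ w ε lo hi) := by
  obtain ⟨hmono, -⟩ := hLNM X₀ w ε S.X0 S.w0 S.wX
  obtain ⟨t1, t2, t3, t4⟩ := hTHI Λ X₀ P₀ w ε L m z ν θ D S h0 h1 T
  have hlh : lo ≤ hi := by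
    have := R 0
    omega
  refine ⟨hARD X₀ w ε L m z lo hi S.X0 S.w0 S.wX D R, t1, T.pθ, T.hit, t2, t3, t4, ?_, ?_, ?_, hq⟩
  · intro k l hkl hab t ht
    have hc : ca m k = ca m l := hmono.injective hab
    have hs := hSPA Λ X₀ P₀ w ε L m z ν θ D S h0 h1 T k l hkl hc
    rcases ht with rfl | rfl
    · exact hs _ (Or.inl rfl)
    · exact hs _ (Or.inr rfl)
  · refine ⟨ln X₀ w ε lo, Finset.mem_image_of_mem _ (Finset.mem_Icc.2 ⟨le_rfl, hlh⟩), fun u => ?_⟩
    obtain ⟨k, hk1, hk2⟩ := find t1 T.pθ u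
    rcases hk1.eq_or_lt with he | hl
    · rw [← he, T.hit]
      exact hmono (by have := (cs_bd R k).1; omega)
    · exact (hmono (by have := (ca_bd R k).1; omega)).trans (t3 k u ⟨hl, hk2⟩).1
  · refine ⟨ln X₀ w ε hi, Finset.mem_image_of_mem _ (Finset.mem_Icc.2 ⟨hlh, le_rfl⟩), fun u => ?_⟩
    obtain ⟨k, hk1, hk2⟩ := find t1 T.pθ u
    rcases hk1.eq_or_lt with he | hl
    · rw [← he, T.hit]
      exact hmono (by have := (cs_bd R k).2; omega)
    · exact (t3 k u ⟨hl, hk2⟩).2.trans (hmono (by have := (ca_bd R k).2; omega))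

/-- The walk of the arcs has the order of the walk of the codes. -/
theorem order (hLNM : P_LNM) (hARD : P_ARD) (hHOR : P_HOR) (hCMB : P_CMB) {Λ : LC.LegKnot}
    {X₀ P₀ w ε : ℝ} {L : ℕ} {m z : ℤ → ℤ} {ν θ : ℤ → ℝ} {lo hi : ℤ} (D : LatD L m z)
    (S : LatS Λ X₀ P₀ w L m z ν) (h0 : 0 < ε) (h1 : ε < w / 16) (T : Tht Λ X₀ w ε L m ν θ)
    (R : Rng m lo hi) :
    SO (aPts (3 * L) (sR X₀ w ε m) (oL (aR X₀ w ε m) (bR X₀ w ε m) (gd m)) (gd m)
        (fun k => (hcd m z k : ℝ)) (fun k => (vcd z k : ℝ)))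
      (aPts (3 * L) (sR X₀ w ε m) (oL (aR X₀ w ε m) (bR X₀ w ε m) (gd m)) (gd m)
        (fun k => zz Λ (θ k))
        (fun k => TL Λ (θ k) (oL (aR X₀ w ε m) (bR X₀ w ε m) (gd m) k))) := by
  obtain ⟨hmono, -⟩ := hLNM X₀ w ε S.X0 S.w0 S.wX
  obtain ⟨o1, o2, o3⟩ := hHOR Λ X₀ P₀ w ε L m z ν θ D S h0 h1 T
  refine hCMB (3 * L) _ _ _ _ (XL X₀ w ε lo hi) _ _ _ _
    (hARD X₀ w ε L m z lo hi S.X0 S.w0 S.wX D R) ?_ ?_ ?_
  · intro k l hkl hs
    have hc : cs m k = cs m l := hmono.injective hs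
    rw [o1 k l hkl hc]
    exact Int.cast_lt
  · intro k l hg hs
    have hc : cs m l = co m k := by
      apply hmono.injective
      rw [ln_co]
      exact hs
    have := o2 k l hg hc
    rw [← hs]
    refine ⟨?_, ?_⟩
    · rw [this.1]
      exact Int.cast_lt
    · rw [this.2]
      exact Int.cast_lt
  · intro k l hkl hg hg' hgg hs
    have hc : co m k = co m l := by
      apply hmono.injective
      rw [ln_co, ln_co]
      exact hs
    have hca : ca m k = ca m l := by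
      unfold co at hc
      rw [hgg] at hc
      split_ifs at hc with h
      · omega
      · exact hc
    have := o3 k l hkl hg hg' hgg hca (co m k) rfl
    rw [← hs, ← ln_co, this]
    exact Int.cast_lt

end LAT

theorem t_LAT : Stmt_LAT := by
  intro hLNM hARD hTHT hTHI hSPA hHOR hEPC hCDM hCMB hORE hSGM Λ X₀ P₀ w L m z ν D S
  obtain ⟨B, hB⟩ := LAT.bdd D
  have R : Rng m (-(3 * B) - 3) (3 * B + 4) := by
    intro i
    have := abs_le.1 (hB i)
    constructor <;> omega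
  obtain ⟨ε, h0, h1, hq⟩ := hEPC Λ X₀ w (-(3 * B) - 3) (3 * B + 4) S.w0
  obtain ⟨θ, T⟩ := hTHT Λ X₀ P₀ w ε L m z ν D S h0 h1
  have A := LAT.arcs hLNM hARD hTHI hSPA D S h0 h1 T R hq
  obtain ⟨N₀, hN₀, hN⟩ := hSGM Λ (3 * L) θ _ _ _ _ _ A
  refine ⟨N₀, hN₀, fun N hN' P hP => ?_⟩
  obtain ⟨W, hG, hW, hM⟩ := hN N hN' P hP
  refine ⟨_, W, hG, hW, fun M hRp => hM M ?_⟩
  have hmono := (hLNM X₀ w ε S.X0 S.w0 S.wX).1
  have s1 := hCDM (3 * L) (cs m) (co m) (gd m) (fun k => (hcd m z k : ℝ))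
    (fun k => (vcd z k : ℝ)) (ln X₀ w ε) hmono
  have e1 : (fun k => ln X₀ w ε (co m k)) = oL (aR X₀ w ε m) (bR X₀ w ε m) (gd m) :=
    funext (LAT.ln_co X₀ w ε m)
  rw [e1] at s1
  exact hORE _ _ (LAT.order hLNM hARD hHOR hCMB D S h0 h1 T R) M (hORE _ _ s1 M hRp)

end LHE
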