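import Pool.Agent.LHE.Stmts3

/-!
# LHD: the heights in the middle of the edges are different
-/

namespace LHE

open Set LG LH

namespace LHD

variable {L : ℕ} {m z : ℤ → ℤ}

theorem par (h : LatD L m z) (i : ℤ) : (m i + z i - (m 0 + z 0)) % 2 = 0 := by
  induction i using Int.induction_on with
  | zero => simp
  | succ n ih =>
    have h1 := h.dm n
    have h2 := h.dz n
    omega
  | pred n ih =>
    have h1 := h.dm (-(n : ℤ) - 1)
    have h2 := h.dz (-(n : ℤ) - 1)
    have e : -(n : ℤ) - 1 + 1 = -(n : ℤ) := by ring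
    rw [e] at h1 h2
    omega

theorem par2 (h : LatD L m z) (i j : ℤ) (e : m i = m j) : (z i - z j) % 2 = 0 := by
  have h1 := par h i
  have h2 := par h j
  omega

theorem back_m (h : LatD L m z) (i : ℤ) : m i = m (i - 1) + 1 ∨ m i = m (i - 1) - 1 := by
  have h1 := h.dm (i - 1)
  rwa [show i - 1 + 1 = i by ring] at h1

theorem back_z (h : LatD L m z) (i : ℤ) : z i = z (i - 1) + 1 ∨ z i = z (i - 1) - 1 := by
  have h1 := h.dz (i - 1)
  rwa [show i - 1 + 1 = i by ring] at h1

theorem sg_back (i : ℤ) : sg m (i - 1) = m i - m (i - 1) := by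
  unfold sg
  rw [show i - 1 + 1 = i by ring]

theorem sl_back (i : ℤ) : sl m z (i - 1) = (z i - z (i - 1)) * (m i - m (i - 1)) := by
  unfold sl
  rw [show i - 1 + 1 = i by ring]

theorem hcd_eq (h : LatD L m z) (i : ℤ) : hcd m z (3 * i) = z i + z (i - 1) := by
  have e1 : (3 * i) % 3 = 0 := by omega
  have e2 : (3 * i) / 3 = i := by omega
  unfold hcd
  rw [if_pos e1, e2, sg_back, sl_back]
  rcases back_m h i with h1 | h1 <;> rw [h1] <;> ring

theorem cs_eq (i : ℤ) : cs m (3 * i) = if m i - m (i - 1) = 1 then 3 * m i - 1 else 3 * m i + 2 := by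
  have e1 : (3 * i) % 3 = 0 := by omega
  have e2 : (3 * i) / 3 = i := by omega
  unfold cs
  rw [if_pos e1, e2, sg_back]

theorem per (f : ℤ → ℤ) (hf : ∀ i, f (i + L) = f i) (i a : ℤ) : f (i + a * L) = f i := by
  induction a using Int.induction_on with
  | zero => simp
  | succ n ih =>
    rw [← ih, ← hf (i + n * L)]
    congr 1
    ring
  | pred n ih =>
    rw [← ih, ← hf (i + (-(n : ℤ) - 1) * L)]
    congr 1
    ring

/-- The four cases. -/
theorem dirs (h : LatD L m z) (i j : ℤ) (e : cs m (3 * i) = cs m (3 * j)) :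
    (m i = m j ∧ m (i - 1) = m (j - 1)) ∨ (m i = m (j - 1) ∧ m (i - 1) = m j) := by
  rw [cs_eq, cs_eq] at e
  have h1 := back_m h i
  have h2 := back_m h j
  split_ifs at e <;> omega

theorem ne (h : LatD L m z) (i j : ℤ) (hc : ¬ Cg L i j) (e : cs m (3 * i) = cs m (3 * j)) :
    hcd m z (3 * i) ≠ hcd m z (3 * j) := by
  intro hh
  rw [hcd_eq h, hcd_eq h] at hh
  have z1 := back_z h i
  have z2 := back_z h j
  rcases dirs h i j e with ⟨e1, e2⟩ | ⟨e1, e2⟩
  · have p1 := par2 h i j e1
    have p2 := par2 h _ _ e2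
    have d1 : z i = z j := by omega
    have d2 : z (i - 1) = z (j - 1) := by omega
    obtain ⟨_, k2, _, k4, k5⟩ := h.dis i j hc e1 d1
    apply k5
    rw [← k2, ← k4, sl_back, sl_back, e1, e2, d1, d2]
  · have p1 := par2 h _ _ e1
    have p2 := par2 h _ _ e2
    have d1 : z i = z (j - 1) := by omega
    have d2 : z (i - 1) = z j := by omega
    by_cases hc' : Cg L i (j - 1)
    · obtain ⟨a, ha⟩ := hc'
      have ej : j = (i + 1) + a * L := by linarith
      have mj : m j = m (i + 1) := by rw [ej]; exact per m h.pm _ _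
      have zj : z j = z (i + 1) := by rw [ej]; exact per z h.pz _ _
      have hm := back_m h i
      refine h.nb i ?_ ?_
      · rw [sg_back]
        unfold sg
        omega
      · rw [sl_back]
        unfold sl
        rw [← mj, ← zj, ← e2, ← d2]
        ring
    · obtain ⟨_, k2, _, k4, k5⟩ := h.dis i (j - 1) hc' e1 d1
      apply k5
      rw [← k2, sl_back, sl_back, e2, d2, e1, d1]
      ring

end LHD

/-- LHD: the heights in the middle of the edges are different. -/
theorem t_LHD : Stmt_LHD := by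
  intro L m z h
  refine ⟨fun i j e => LHD.par2 h i j e, fun i j hc e => ⟨LHD.ne h i j hc e, ?_⟩⟩
  rw [LHD.hcd_eq h, LHD.hcd_eq h]
  rcases LHD.dirs h i j e with ⟨e1, e2⟩ | ⟨e1, e2⟩
  · have p1 := LHD.par2 h i j e1
    have p2 := LHD.par2 h _ _ e2
    omega
  · have p1 := LHD.par2 h _ _ e1
    have p2 := LHD.par2 h _ _ e2
    omega

end LHE
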