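import Pool.Agent.LHE.Stmts3

/-!
# LNM: the lines and their adjacency
-/

namespace LHE

open Set LG LH

namespace LNM

theorem lt_succ (X₀ w ε : ℝ) (hX : 0 < X₀) (hw : 0 < w) (h : 100 * w ≤ X₀) (n : ℤ) :
    ln X₀ w ε n < ln X₀ w ε (n + 1) := by
  unfold ln
  have h3 : n % 3 = 0 ∨ n % 3 = 1 ∨ n % 3 = 2 := by omega
  rcases h3 with h0 | h1 | h2
  · have e1 : (n + 1) % 3 = 1 := by omega
    have e2 : (n + 1) / 3 = n / 3 := by omega
    rw [e1, e2, h0, if_pos rfl, if_neg (by norm_num), if_pos rfl]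
    linarith
  · have e1 : (n + 1) % 3 = 2 := by omega
    have e2 : (n + 1) / 3 = n / 3 := by omega
    rw [e1, e2, h1, if_neg (by norm_num), if_pos rfl, if_neg (by norm_num),
      if_neg (by norm_num)]
    linarith
  · have e1 : (n + 1) % 3 = 0 := by omega
    have e2 : (n + 1) / 3 = n / 3 + 1 := by omega
    rw [e1, e2, h2, if_neg (by norm_num), if_neg (by norm_num), if_pos rfl]
    push_cast
    linarith

end LNM

theorem t_LNM : Stmt_LNM := by
  intro X₀ w ε hX hw h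
  have hm : StrictMono (ln X₀ w ε) :=
    strictMono_int_of_lt_succ (LNM.lt_succ X₀ w ε hX hw h)
  refine ⟨hm, fun lo hi c d => ⟨?_, ?_⟩⟩
  · rintro ⟨hc, hd, hcd, hn⟩
    unfold XL at hc hd hn
    obtain ⟨n, hn1, rfl⟩ := Finset.mem_image.1 hc
    obtain ⟨k, hk1, rfl⟩ := Finset.mem_image.1 hd
    rw [Finset.mem_Icc] at hn1 hk1
    have hnk : n < k := hm.lt_iff_lt.1 hcd
    have hk : k = n + 1 := by
      by_contra hne
      have h1 : n + 1 < k := by omega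
      exact hn (ln X₀ w ε (n + 1))
        (Finset.mem_image.2 ⟨n + 1, Finset.mem_Icc.2 ⟨by omega, by omega⟩, rfl⟩)
        ⟨hm (by omega), hm h1⟩
    subst hk
    exact ⟨n, hn1.1, hk1.2, rfl, rfl⟩
  · rintro ⟨n, h1, h2, rfl, rfl⟩
    refine ⟨Finset.mem_image.2 ⟨n, Finset.mem_Icc.2 ⟨h1, by omega⟩, rfl⟩,
      Finset.mem_image.2 ⟨n + 1, Finset.mem_Icc.2 ⟨by omega, h2⟩, rfl⟩, hm (by omega), ?_⟩
    rintro t ht ⟨ha, hb⟩
    obtain ⟨k, hk1, rfl⟩ := Finset.mem_image.1 ht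
    have h3 : n < k := hm.lt_iff_lt.1 ha
    have h4 : k < n + 1 := hm.lt_iff_lt.1 hb
    omega

end LHE
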