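import Pool.Agent.LHE.Stmts2

/-!
# SGM: the polygons of a knot with a decomposition into arcs
-/

namespace LHE

open Set LG LH

namespace SGM

/-- A finite set of reals has a gap. -/
theorem exists_gap (F : Finset ℝ) : ∃ γ > (0 : ℝ), ∀ x ∈ F, ∀ y ∈ F, x ≠ y → γ ≤ |x - y| := by
  classical
  set D := ((F ×ˢ F).filter (fun p => p.1 ≠ p.2)).image (fun p => |p.1 - p.2|) with hD
  by_cases hne : D.Nonempty
  · refine ⟨D.min' hne, ?_, ?_⟩
    · obtain ⟨p, hp, hpe⟩ := Finset.mem_image.mp (Finset.min'_mem D hne)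
      rw [Finset.mem_filter] at hp
      rw [gt_iff_lt]
      have : 0 < |p.1 - p.2| := abs_pos.mpr (sub_ne_zero.mpr hp.2)
      rw [hpe] at this
      exact this
    · intro x hx y hy hxy
      apply Finset.min'_le
      rw [hD, Finset.mem_image]
      exact ⟨(x, y), by simp [hx, hy, hxy], rfl⟩
  · refine ⟨1, one_pos, ?_⟩
    intro x hx y hy hxy
    exfalso
    apply hne
    refine ⟨|x - y|, ?_⟩
    rw [hD, Finset.mem_image]
    exact ⟨(x, y), by simp [hx, hy, hxy], rfl⟩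

/-- A periodic function takes its values on a period. -/
theorem per_mem {K : ℕ} (hK : 0 < K) (f : ℤ → ℝ) (hf : ∀ k, f (k + K) = f k) (k : ℤ) :
    f k ∈ (Finset.range K).image (fun i : ℕ => f i) := by
  have hp : Function.Periodic f (K : ℤ) := hf
  have h0 : (0 : ℤ) ≤ k % K := Int.emod_nonneg _ (by exact_mod_cast hK.ne')
  have h1 : k % K < K := Int.emod_lt_of_pos _ (by exact_mod_cast hK)
  rw [Finset.mem_image]
  refine ⟨(k % K).toNat, ?_, ?_⟩
  · rw [Finset.mem_range]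
    omega
  · have e1 : (((k % K).toNat : ℕ) : ℤ) = k % K := Int.toNat_of_nonneg h0
    show f (((k % K).toNat : ℕ) : ℤ) = f k
    rw [e1]
    have e2 : k = k % K + (k / K) * K := by
      have := Int.emod_add_mul_ediv k K
      linarith
    have e3 : f (k % K + (k / K) * K) = f (k % K) := hp.int_mul (k / K) (k % K)
    rw [← e2] at e3
    exact e3.symm

theorem lt_iff_of_close {x y x' y' c γ : ℝ} (hx : |x' - (x - c)| < γ / 2)
    (hy : |y' - (y - c)| < γ / 2) (hxy : γ ≤ |x - y|) : (x < y ↔ x' < y') := by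
  rw [abs_lt] at hx hy
  rcases le_abs.mp hxy with h | h
  · constructor
    · intro hh; linarith
    · intro hh; linarith
  · constructor
    · intro _; linarith
    · intro _; linarith

theorem ne_of_close {x y x' y' c γ : ℝ} (_hγ : 0 < γ) (_hx : |x' - (x - c)| < γ / 2)
    (_hy : |y' - (y - c)| < γ / 2) (hxy : γ ≤ |x - y|) : x ≠ y := by
  intro h
  rw [h, sub_self, abs_zero] at hxy
  linarith

theorem map_aIts {N : ℕ} (P : Pg N) (K : ℕ) (s o : ℤ → ℝ) (g : ℤ → Bool) (e : ℤ → ℤ) :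
    (aIts K s o g e).map (pt P) =
      aPts K s o g (fun k => P.l (e k) (s k)) (fun k => P.l (e k) (o k)) := by
  unfold aIts aPts
  rw [List.map_flatMap]
  congr 1
  funext k
  unfold aIt aPt
  split_ifs <;> simp [pt]

end SGM

open SGM

/-- SGM: assembly. -/
theorem t_SGM : Stmt_SGM := by
  intro h1 h2 h3 h4 hGDX hGWA hORE hDST hCMB Λ K θ s a b g X hA
  obtain ⟨N₁, hN₁, H1⟩ := h1 Λ K θ s a b g X hA
  obtain ⟨N₂, _, H2⟩ := h2 Λ K θ s a b g X hA
  obtain ⟨N₃, _, H3⟩ := h3 Λ K θ s a b g X hA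
  obtain ⟨D1, D2, D3⟩ := hDST Λ K θ s a b g X hA
  set H : ℤ → ℝ := fun k => zz Λ (θ k) with hH
  set V : ℤ → ℝ := fun k => TL Λ (θ k) (oL a b g k) with hV
  have pH : ∀ k, H (k + K) = H k := by
    intro k
    simp only [hH, zz, hA.pθ k, Λ.periodic]
  have po : ∀ k, oL a b g (k + K) = oL a b g k := by
    intro k
    unfold oL
    rw [hA.d.pg, hA.d.pa, hA.d.pb]
  have pV : ∀ k, V (k + K) = V k := by
    intro k
    simp only [hV, po k]
    simp only [TL, zz, LC.LegKnot.x, LC.LegKnot.y, hA.pθ k, Λ.periodic]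
  obtain ⟨γ, hγ, hgap⟩ := exists_gap ((Finset.range K).image (fun i : ℕ => H i) ∪
    (Finset.range K).image (fun i : ℕ => V i))
  have mH : ∀ k, H k ∈ (Finset.range K).image (fun i : ℕ => H i) ∪
      (Finset.range K).image (fun i : ℕ => V i) := fun k =>
    Finset.mem_union_left _ (per_mem hA.d.Kpos H pH k)
  have mV : ∀ k, V k ∈ (Finset.range K).image (fun i : ℕ => H i) ∪
      (Finset.range K).image (fun i : ℕ => V i) := fun k =>
    Finset.mem_union_right _ (per_mem hA.d.Kpos V pV k)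
  obtain ⟨N₄, _, H4⟩ := h4 Λ K θ s a b g X hA (γ / 2) (by positivity)
  refine ⟨max (max N₁ N₂) (max N₃ N₄), lt_of_lt_of_le hN₁ (le_trans (le_max_left _ _)
    (le_max_left _ _)), ?_⟩
  intro N hN P hP
  have g1 : N ≥ N₁ := le_trans (le_trans (le_max_left _ _) (le_max_left _ _)) hN
  have g2 : N ≥ N₂ := le_trans (le_trans (le_max_right _ _) (le_max_left _ _)) hN
  have g3 : N ≥ N₃ := le_trans (le_trans (le_max_left _ _) (le_max_right _ _)) hN
  have g4 : N ≥ N₄ := le_trans (le_trans (le_max_right _ _) (le_max_right _ _)) hN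
  obtain ⟨m1, m2, m3, m4, m5, m6, m7⟩ := H1 N g1 P hP
  have hAP : ArcP P K (fun k => ⌊(N : ℝ) * θ k⌋) s a b g X :=
    { d := hA.d
      mono := m1
      pe := m2
      crs := m3
      ins := m4
      ty := H2 N g2 P hP
      sep := H3 N g3 P hP
      lo := m5
      hi := m6
      sm := m7 }
  have H4' := H4 N g4 P hP
  refine ⟨aIts K s (oL a b g) g (fun k => ⌊(N : ℝ) * θ k⌋), hGDX _ _ _ _ _ _ _ _ _ hAP,
    hGWA _ _ _ _ _ _ _ _ _ hAP, ?_⟩
  intro M hM
  unfold lst
  rw [map_aIts]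
  refine hORE _ _ ?_ M hM
  apply hCMB K s a b g X _ _ _ _ hA.d
  · intro k l hkl hsl
    exact lt_iff_of_close (H4' k).1 (H4' l).1 (hgap _ (mH k) _ (mH l) (D1 k l hkl hsl))
  · intro k l hk hsl
    have hne := D2 k l hk hsl
    exact ⟨lt_iff_of_close (H4' k).2 (H4' l).1 (hgap _ (mV k) _ (mH l) hne),
      lt_iff_of_close (H4' l).1 (H4' k).2 (hgap _ (mH l) _ (mV k) hne.symm)⟩
  · intro k l hkl hk hl hg ho
    exact lt_iff_of_close (H4' k).2 (H4' l).2 (hgap _ (mV k) _ (mV l) (D3 k l hkl hk hl hg ho))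

end LHE
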