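import Pool.Agent.LHE.Stmts4
import Pool.Agent.LCA.SHP

/-!
# SHX: a shape with a strictly monotone tip
-/

namespace LHE

open Set LG LH LCA
open scoped ContDiff

namespace SHX

/-- The shape of `LCA/SHP.lean`. -/
noncomputable def shp : Shape where
  τ := SHP.tau
  ξ := SHP.xi
  ΘP := SHP.thP
  ΘR := SHP.thR
  τ_smooth := SHP.tau_smooth
  ξ_smooth := SHP.xi_smooth
  ΘP_smooth := SHP.smooth_of_deriv SHP.thP_hasDeriv SHP.tau_smooth
  ΘR_smooth := by
    refine SHP.smooth_of_deriv SHP.thR_hasDeriv (SHP.tau_smooth.mul ?_)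
    exact (contDiff_infty_iff_deriv.1 SHP.xi_smooth).2
  τ_low := fun _ h => SHP.tau_low h
  τ_high := fun _ h => SHP.tau_high h
  τ_mem := fun u => ⟨SHP.tau_nonneg u, SHP.tau_le_one u⟩
  τ_deriv := fun _ h0 h1 => SHP.tau_deriv_pos h0 h1
  τ_symm := SHP.tau_symm
  ξ_out := by
    intro u h
    rcases le_total 0 u with h0 | h0
    · rw [abs_of_nonneg h0] at h ⊢
      exact SHP.xi_high h
    · rw [abs_of_nonpos h0] at h ⊢
      rw [← SHP.xi_even]
      exact SHP.xi_high h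
  ξ_in := fun _ h => SHP.xi_in h
  ξ_even := SHP.xi_even
  ξ_anti := SHP.xi_anti
  ΘP_deriv := SHP.thP_hasDeriv
  ΘP_low := fun _ h => SHP.thP_low h
  ΘP_high := fun _ h => SHP.thP_high h
  ΘR_deriv := SHP.thR_hasDeriv
  ΘR_low := fun _ h => SHP.thR_low h
  ΘR_high := fun _ h => SHP.thR_high h
  ΘP_bd := fun _ h => SHP.thP_bd h
  ΘR_bd := fun _ h => SHP.thR_bd h

theorem xi_deriv_neg {u : ℝ} (h : 0 < u) : deriv SHP.xi u < 0 := by
  rw [(SHP.xi_hasDeriv u).deriv]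
  have h1 := SHP.sg_pos h
  have h2 := SHP.tau_deriv_nonneg u
  have h3 := SHP.ka_nonneg
  have h4 : 0 ≤ u * (2 * deriv SHP.tau u) := by positivity
  have h5 : 0 ≤ SHP.ka * (2 * SHP.sg u * (2 * deriv SHP.tau u)) := by positivity
  linarith

end SHX

theorem t_SHX : Stmt_SHX := by
  refine ⟨SHX.shp, ?_, ?_, ?_⟩
  · show 0 ≤ SHP.xi 0
    rw [SHP.xi_zero]
    exact SHP.ka_nonneg
  · show SHP.xi 0 ≤ 3 / 4
    rw [SHP.xi_zero]
    exact SHP.ka_le
  · intro u hu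
    exact SHX.xi_deriv_neg hu

end LHE
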