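import Pool.Agent.LHE.Stmts3

/-!
# The arcs of a knot along a lattice path are separated
-/

namespace LHE

open Set LG LH

namespace SPA

theorem cs0 (m : ℤ → ℤ) (i : ℤ) :
    cs m (3 * i) = if sg m (i - 1) = 1 then 3 * m i - 1 else 3 * m i + 2 := by
  unfold cs
  have h1 : (3 * i) % 3 = 0 := by omega
  have h2 : (3 * i) / 3 = i := by omega
  rw [h1, h2, if_pos rfl]

theorem cs1 (m : ℤ → ℤ) (i : ℤ) :
    cs m (3 * i + 1) = if sg m (i - 1) = 1 then 3 * m i else 3 * m i + 1 := by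
  unfold cs
  have h1 : (3 * i + 1) % 3 = 1 := by omega
  have h2 : (3 * i + 1) / 3 = i := by omega
  rw [h1, h2, if_neg (by norm_num), if_pos rfl]

theorem cs2 (m : ℤ → ℤ) (i : ℤ) :
    cs m (3 * i + 2) = if sg m i = 1 then 3 * m i + 1 else 3 * m i := by
  unfold cs
  have h1 : (3 * i + 2) % 3 = 2 := by omega
  have h2 : (3 * i + 2) / 3 = i := by omega
  rw [h1, h2, if_neg (by norm_num), if_neg (by norm_num)]

theorem ca0 (m : ℤ → ℤ) (i : ℤ) :
    ca m (3 * i) = if sg m (i - 1) = 1 then 3 * m i - 1 else 3 * m i + 1 := by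
  unfold ca
  have h1 : (3 * i) % 3 = 0 := by omega
  have h2 : (3 * i) / 3 = i := by omega
  rw [h1, h2, if_pos rfl]

theorem ca1 (m : ℤ → ℤ) (i : ℤ) : ca m (3 * i + 1) = 3 * m i := by
  unfold ca
  have h1 : (3 * i + 1) % 3 = 1 := by omega
  have h2 : (3 * i + 1) / 3 = i := by omega
  rw [h1, h2, if_neg (by norm_num), if_pos rfl]

theorem ca2 (m : ℤ → ℤ) (i : ℤ) :
    ca m (3 * i + 2) = if sg m i = 1 then 3 * m i + 1 else 3 * m i - 1 := by
  unfold ca
  have h1 : (3 * i + 2) % 3 = 2 := by omega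
  have h2 : (3 * i + 2) / 3 = i := by omega
  rw [h1, h2, if_neg (by norm_num), if_neg (by norm_num)]

theorem lnA (X₀ w ε : ℝ) (a : ℤ) : ln X₀ w ε (3 * a - 1) = X₀ * a - X₀ / 2 + ε := by
  unfold ln
  have h1 : (3 * a - 1) % 3 = 2 := by omega
  have h2 : (3 * a - 1) / 3 = a - 1 := by omega
  rw [h1, h2, if_neg (by norm_num), if_neg (by norm_num)]
  push_cast
  ring

theorem lnB (X₀ w ε : ℝ) (a : ℤ) : ln X₀ w ε (3 * a) = X₀ * a - 7 / 8 * w + ε := by
  unfold ln
  have h1 : (3 * a) % 3 = 0 := by omega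
  have h2 : (3 * a) / 3 = a := by omega
  rw [h1, h2, if_pos rfl]
  ring

theorem lnC (X₀ w ε : ℝ) (a : ℤ) : ln X₀ w ε (3 * a + 1) = X₀ * a + 7 / 8 * w + ε := by
  unfold ln
  have h1 : (3 * a + 1) % 3 = 1 := by omega
  have h2 : (3 * a + 1) / 3 = a := by omega
  rw [h1, h2, if_neg (by norm_num), if_pos rfl]

theorem lnD (X₀ w ε : ℝ) (a : ℤ) : ln X₀ w ε (3 * a + 2) = X₀ * a + X₀ / 2 + ε := by
  unfold ln
  have h1 : (3 * a + 2) % 3 = 2 := by omega
  have h2 : (3 * a + 2) / 3 = a := by omega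
  rw [h1, h2, if_neg (by norm_num), if_neg (by norm_num)]

/-- The code belongs to a line near `X₀ a`. -/
def In3 (a n : ℤ) : Prop := 3 * a - 1 ≤ n ∧ n ≤ 3 * a + 2

theorem bnd {X₀ w ε : ℝ} (hw : 0 < w) (hwX : 100 * w ≤ X₀) (hε : 0 < ε) (hε' : ε < w / 16)
    {a n : ℤ} (h : In3 a n) : |ln X₀ w ε n - X₀ * a| ≤ 51 / 100 * X₀ ∧ ln X₀ w ε n - X₀ * a ≠ 0 := by
  obtain ⟨h1, h2⟩ := h
  have h3 : n = 3 * a - 1 ∨ n = 3 * a ∨ n = 3 * a + 1 ∨ n = 3 * a + 2 := by omega
  rcases h3 with rfl | rfl | rfl | rfl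
  · rw [lnA, abs_le]
    refine ⟨⟨by linarith, by linarith⟩, ?_⟩
    have : X₀ * a - X₀ / 2 + ε - X₀ * a < 0 := by linarith
    exact this.ne
  · rw [lnB, abs_le]
    refine ⟨⟨by linarith, by linarith⟩, ?_⟩
    have : X₀ * a - 7 / 8 * w + ε - X₀ * a < 0 := by linarith
    exact this.ne
  · rw [lnC, abs_le]
    refine ⟨⟨by linarith, by linarith⟩, ?_⟩
    have : 0 < X₀ * a + 7 / 8 * w + ε - X₀ * a := by linarith
    exact this.ne'
  · rw [lnD, abs_le]
    refine ⟨⟨by linarith, by linarith⟩, ?_⟩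
    have : 0 < X₀ * a + X₀ / 2 + ε - X₀ * a := by linarith
    exact this.ne'

theorem sg_or {L : ℕ} {m z : ℤ → ℤ} (hD : LatD L m z) (i : ℤ) : sg m i = 1 ∨ sg m i = -1 := by
  unfold sg
  rcases hD.dm i with h | h <;> rw [h] <;> omega

/-- The residue of the number of an arc. -/
theorem res (k : ℤ) : k = 3 * (k / 3) ∨ k = 3 * (k / 3) + 1 ∨ k = 3 * (k / 3) + 2 := by omega

theorem in3_cs {L : ℕ} {m z : ℤ → ℤ} (hD : LatD L m z) (k : ℤ) : In3 (m (k / 3)) (cs m k) ∧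
    In3 (m (k / 3)) (cs m (k + 1)) ∧ In3 (m (k / 3)) (ca m k) ∧ In3 (m (k / 3)) (ca m k + 1) := by
  unfold In3
  have hs := sg_or hD (k / 3)
  have hm : m (k / 3 + 1) = m (k / 3) + sg m (k / 3) := by unfold sg; omega
  generalize hi : k / 3 = i at *
  rcases res k with h | h | h
  · rw [hi] at h
    subst h
    rw [cs0, cs1, ca0]
    split <;> omega
  · rw [hi] at h
    subst h
    have e : 3 * i + 1 + 1 = 3 * i + 2 := by ring
    rw [e, cs1, cs2, ca1]
    split <;> split <;> omega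
  · rw [hi] at h
    subst h
    have e : 3 * i + 2 + 1 = 3 * (i + 1) := by ring
    rw [e, cs2, cs0, ca2]
    have e2 : i + 1 - 1 = i := by ring
    rw [e2, hm]
    rcases hs with h | h
    · rw [h, if_pos rfl, if_pos rfl, if_pos rfl]; omega
    · rw [h, if_neg (by norm_num), if_neg (by norm_num), if_neg (by norm_num)]; omega

theorem ca_m {L : ℕ} {m z : ℤ → ℤ} (hD : LatD L m z) (k : ℤ) :
    3 * m (k / 3) - 1 ≤ ca m k ∧ ca m k ≤ 3 * m (k / 3) + 1 := by
  have h := (in3_cs hD k).2.2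
  unfold In3 at h
  omega

theorem ends {Λ : LC.LegKnot} {X₀ w ε : ℝ} {L : ℕ} {m : ℤ → ℤ} {ν θ : ℤ → ℝ}
    (hT : Tht Λ X₀ w ε L m ν θ) (k : ℤ) : ν (k / 3 - 1) < θ k ∧ θ (k + 1) < ν (k / 3 + 1) := by
  have h3 : ∀ i : ℤ, θ (3 * i + 3) < ν (i + 1) := by
    intro i
    have e : 3 * i + 3 = 3 * (i + 1) := by ring
    rw [e]
    exact (hT.h₁ (i + 1)).trans (hT.h₂ (i + 1))
  generalize hi : k / 3 = i
  have a0 := hT.h₀ i
  have a1 := hT.h₁ i
  have a2 := hT.h₂ i
  have a3 := hT.h₃ i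
  have a4 := hT.h₄ i
  have a5 := h3 i
  rcases res k with h | h | h
  · rw [hi] at h
    subst h
    constructor <;> linarith
  · rw [hi] at h
    subst h
    have e : 3 * i + 1 + 1 = 3 * i + 2 := by ring
    rw [e]
    constructor <;> linarith
  · rw [hi] at h
    subst h
    have e : 3 * i + 2 + 1 = 3 * i + 3 := by ring
    rw [e]
    constructor <;> linarith

theorem tl_shift (Λ : LC.LegKnot) (u t : ℝ) (q : ℤ) : TL Λ (u - q) t = TL Λ u t := by
  have h : Λ.γ (u - q) = Λ.γ u := by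
    have hp : Function.Periodic Λ.γ 1 := Λ.periodic
    have h := hp.int_mul q (u - q)
    rw [mul_one, sub_add_cancel] at h
    exact h.symm
  unfold TL zz LC.LegKnot.x LC.LegKnot.y
  rw [h]

theorem th_shift {Λ : LC.LegKnot} {X₀ w ε : ℝ} {L : ℕ} {m : ℤ → ℤ} {ν θ : ℤ → ℝ}
    (hT : Tht Λ X₀ w ε L m ν θ) (k q : ℤ) : θ (k + q * (3 * L : ℕ)) = θ k + q := by
  induction q using Int.induction_on with
  | zero => simp
  | succ q ih =>
    have e : k + ((q : ℤ) + 1) * (3 * L : ℕ) = k + (q : ℤ) * (3 * L : ℕ) + (3 * L : ℕ) := by ring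
    rw [e, hT.pθ, ih]
    push_cast
    ring
  | pred q ih =>
    have h := hT.pθ (k + (-(q : ℤ) - 1) * (3 * L : ℕ))
    have e : k + (-(q : ℤ) - 1) * (3 * L : ℕ) + (3 * L : ℕ) = k + (-(q : ℤ)) * (3 * L : ℕ) := by ring
    rw [e, ih] at h
    push_cast at h ⊢
    linarith

theorem m_shift {L : ℕ} {m : ℤ → ℤ} (hm : ∀ i, m (i + L) = m i) (i q : ℤ) :
    m (i + q * L) = m i := by
  induction q using Int.induction_on with
  | zero => simp
  | succ q ih =>
    have e : i + ((q : ℤ) + 1) * L = i + (q : ℤ) * L + L := by ring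
    rw [e, hm, ih]
  | pred q ih =>
    have h := hm (i + (-(q : ℤ) - 1) * L)
    have e : i + (-(q : ℤ) - 1) * L + L = i + (-(q : ℤ)) * L := by ring
    rw [e, ih] at h
    exact h.symm

/-- The two arcs at a tip. -/
theorem tip (hTSP : P_TSP) {Λ : LC.LegKnot} {X₀ P₀ w ε : ℝ} {L : ℕ} {m z : ℤ → ℤ} {ν θ : ℤ → ℝ}
    (hD : LatD L m z) (hS : LatS Λ X₀ P₀ w L m z ν) (hε : 0 < ε) (hε' : ε < w / 16)
    (hT : Tht Λ X₀ w ε L m ν θ) (i : ℤ) (hc : ca m (3 * i) = ca m (3 * i + 2)) (n : ℤ)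
    (hn : n = ca m (3 * i) ∨ n = ca m (3 * i) + 1) :
    (∀ u ∈ Icc (θ (3 * i)) (θ (3 * i + 1)), ∀ v ∈ Icc (θ (3 * i + 2)) (θ (3 * i + 3)),
      TL Λ u (ln X₀ w ε n) < TL Λ v (ln X₀ w ε n)) ∨
    ∀ u ∈ Icc (θ (3 * i)) (θ (3 * i + 1)), ∀ v ∈ Icc (θ (3 * i + 2)) (θ (3 * i + 3)),
      TL Λ v (ln X₀ w ε n) < TL Λ u (ln X₀ w ε n) := by
  have hw := hS.w0
  have hwX := hS.wX
  have a5 : θ (3 * i + 3) < ν (i + 1) := by
    have e : 3 * i + 3 = 3 * (i + 1) := by ring
    rw [e]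
    exact (hT.h₁ (i + 1)).trans (hT.h₂ (i + 1))
  have hm : m (i + 1) = m i + sg m i := by unfold sg; omega
  have x0 := hT.hit (3 * i)
  have x1 := hT.hit (3 * i + 1)
  have x2 := hT.hit (3 * i + 2)
  have x3 := hT.hit (3 * (i + 1))
  unfold sR at x0 x1 x2 x3
  rw [cs0] at x0 x3
  rw [cs1] at x1
  rw [cs2] at x2
  have e2 : i + 1 - 1 = i := by ring
  rw [e2, hm] at x3
  have e3 : 3 * (i + 1) = 3 * i + 3 := by ring
  rw [e3] at x3
  rw [ca0, ca2] at hc
  rw [ca0] at hn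
  have key : ∀ a b : ℝ, sg m (i - 1) ≠ sg m i → Λ.x (θ (3 * i)) = a → Λ.x (θ (3 * i + 3)) = a →
      Λ.x (θ (3 * i + 1)) = b → Λ.x (θ (3 * i + 2)) = b →
      w ≤ (sg m i : ℝ) * (a - X₀ * m i) → (sg m i : ℝ) * (a - X₀ * m i) ≤ 3 / 4 * X₀ →
      0 < (sg m i : ℝ) * (b - X₀ * m i) → (sg m i : ℝ) * b ≤ sg m i * a → ∀ t, t = a ∨ t = b →
      (∀ u ∈ Icc (θ (3 * i)) (θ (3 * i + 1)), ∀ v ∈ Icc (θ (3 * i + 2)) (θ (3 * i + 3)),
        TL Λ u t < TL Λ v t) ∨
      ∀ u ∈ Icc (θ (3 * i)) (θ (3 * i + 1)), ∀ v ∈ Icc (θ (3 * i + 2)) (θ (3 * i + 3)),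
        TL Λ v t < TL Λ u t := by
    intro a b h1 h2 h3 h4 h5 h6 h7 h8 h9 t ht
    have h := hTSP Λ X₀ P₀ w L m z ν hD hS i h1 (θ (3 * i)) (θ (3 * i + 1)) (θ (3 * i + 2))
      (θ (3 * i + 3)) a b (hT.h₀ i) (hT.h₁ i) (hT.h₂ i) (hT.h₃ i) (hT.h₄ i) a5 h2 h3 h4 h5 h6 h7
      h8 h9
    rcases le_or_gt ((sg m i : ℝ) * sl m z i) 0 with hs | hs
    · right
      intro u hu v hv
      have h' := h u hu v hv t ht
      by_contra hcon
      rw [not_lt] at hcon
      nlinarith [mul_nonneg (neg_nonneg.2 hs) (sub_nonneg.2 hcon)]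
    · left
      intro u hu v hv
      have h' := h u hu v hv t ht
      by_contra hcon
      rw [not_lt] at hcon
      nlinarith [mul_nonneg hs.le (sub_nonneg.2 hcon)]
  rcases sg_or hD (i - 1) with h1 | h1 <;> rcases sg_or hD i with h2 | h2
  · rw [h1, h2, if_pos rfl, if_pos rfl] at hc
    omega
  · rw [h1, if_pos rfl] at x0 x1 hn
    rw [h2, if_neg (by norm_num)] at x2 x3
    have e4 : 3 * (m i + -1) + 2 = 3 * m i - 1 := by ring
    rw [e4, lnA] at x3
    rw [lnA] at x0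
    rw [lnB] at x1 x2
    refine key _ _ (by rw [h1, h2]; norm_num) x0 x3 x1 x2 ?_ ?_ ?_ ?_ _ ?_
    · rw [h2]; push_cast; linarith
    · rw [h2]; push_cast; linarith
    · rw [h2]; push_cast; linarith
    · rw [h2]; push_cast; linarith
    · rcases hn with rfl | rfl
      · left; rw [lnA]
      · right
        have e5 : 3 * m i - 1 + 1 = 3 * m i := by ring
        rw [e5, lnB]
  · rw [h1, if_neg (by norm_num)] at x0 x1 hn
    rw [h2, if_pos rfl] at x2 x3
    have e4 : 3 * (m i + 1) - 1 = 3 * m i + 2 := by ring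
    rw [e4, lnD] at x3
    rw [lnD] at x0
    rw [lnC] at x1 x2
    refine key _ _ (by rw [h1, h2]; norm_num) x0 x3 x1 x2 ?_ ?_ ?_ ?_ _ ?_
    · rw [h2]; push_cast; linarith
    · rw [h2]; push_cast; linarith
    · rw [h2]; push_cast; linarith
    · rw [h2]; push_cast; linarith
    · rcases hn with rfl | rfl
      · right; rw [lnC]
      · left
        have e5 : 3 * m i + 1 + 1 = 3 * m i + 2 := by ring
        rw [e5, lnD]
  · rw [h1, h2, if_neg (by norm_num), if_neg (by norm_num)] at hc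
    omega

end SPA

open SPA in
theorem t_SPA : Stmt_SPA := by
  intro _ hTHI hTSP hLHD Λ X₀ P₀ w ε L m z ν θ hD hS hε hε' hT k l hkl hca n hn
  obtain ⟨-, -, hins, -⟩ := hTHI Λ X₀ P₀ w ε L m z ν θ hD hS hε hε' hT
  have hw := hS.w0
  have hwX := hS.wX
  have hX0 := hS.X0
  have hP0 := hS.P0
  -- the position of the arcs
  have arc : ∀ k, ∀ u ∈ Icc (θ k) (θ (k + 1)), u ∈ Icc (ν (k / 3 - 1)) (ν (k / 3 + 1)) ∧
      |Λ.x u - X₀ * m (k / 3)| ≤ 3 / 4 * X₀ := by
    intro k u hu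
    obtain ⟨e1, e2⟩ := ends hT k
    refine ⟨⟨e1.le.trans hu.1, hu.2.trans e2.le⟩, ?_⟩
    obtain ⟨c1, c2, c3, c4⟩ := in3_cs hD k
    have b1 := abs_le.1 (bnd hw hwX hε hε' c1).1
    have b2 := abs_le.1 (bnd hw hwX hε hε' c2).1
    have b3 := abs_le.1 (bnd hw hwX hε hε' c3).1
    have b4 := abs_le.1 (bnd hw hwX hε hε' c4).1
    rw [abs_le]
    rcases hu.1.lt_or_eq with h1 | h1
    · rcases hu.2.lt_or_eq with h2 | h2
      · obtain ⟨i1, i2⟩ := hins k u ⟨h1, h2⟩
        unfold aR at i1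
        unfold bR at i2
        constructor <;> linarith
      · have h := hT.hit (k + 1)
        unfold sR at h
        rw [h2, h]
        constructor <;> linarith
    · have h := hT.hit k
      unfold sR at h
      rw [← h1, h]
      constructor <;> linarith
  have hmm : m (k / 3) = m (l / 3) := by
    have h1 := ca_m hD k
    have h2 := ca_m hD l
    omega
  have hIn : In3 (m (k / 3)) n := by
    rcases hn with rfl | rfl
    · exact (in3_cs hD k).2.2.1
    · exact (in3_cs hD k).2.2.2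
  obtain ⟨hb1, hb2⟩ := bnd hw hwX hε hε' hIn
  by_cases hC : Cg L (k / 3) (l / 3)
  · -- the same point
    obtain ⟨q, hq⟩ := hC
    set l' : ℤ := l - q * (3 * L : ℕ) with hl'
    have hl : l = l' + q * (3 * L : ℕ) := by rw [hl']; ring
    have hd : l' / 3 = k / 3 := by
      have e : l' = l + (-(q * L)) * 3 := by rw [hl']; push_cast; ring
      rw [e, Int.add_mul_ediv_right _ _ (by norm_num), hq]
      ring
    have hr : l' % 3 = l % 3 := by
      have e : l' = l + (-(q * L)) * 3 := by rw [hl']; push_cast; ring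
      rw [e, Int.add_mul_emod_self_right]
    have hne : k ≠ l' := by
      intro h
      exact hkl ⟨q, by rw [h]; exact hl⟩
    have msh := m_shift hD.pm
    have hsg : ∀ i, sg m (i + q * L) = sg m i := by
      intro i
      unfold sg
      have e : i + q * L + 1 = i + 1 + q * L := by ring
      rw [e, msh, msh]
    have hca' : ca m l' = ca m k := by
      rw [hca]
      unfold ca
      rw [hr, hd]
      have e1 : l / 3 = k / 3 + q * L := hq
      have e2 : k / 3 + q * L - 1 = k / 3 - 1 + q * L := by ring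
      rw [e1, e2, msh, hsg, hsg]
    have ht0 : θ l = θ l' + q := by rw [hl]; exact th_shift hT l' q
    have ht1 : θ (l + 1) = θ (l' + 1) + q := by
      have e : l + 1 = l' + 1 + q * (3 * L : ℕ) := by rw [hl]; ring
      rw [e]; exact th_shift hT (l' + 1) q
    -- reduction to `l'`
    have red : ((∀ u ∈ Icc (θ k) (θ (k + 1)), ∀ v ∈ Icc (θ l') (θ (l' + 1)),
        TL Λ u (ln X₀ w ε n) < TL Λ v (ln X₀ w ε n)) ∨
        ∀ u ∈ Icc (θ k) (θ (k + 1)), ∀ v ∈ Icc (θ l') (θ (l' + 1)),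
          TL Λ v (ln X₀ w ε n) < TL Λ u (ln X₀ w ε n)) →
        ((∀ u ∈ Icc (θ k) (θ (k + 1)), ∀ v ∈ Icc (θ l) (θ (l + 1)),
        TL Λ u (ln X₀ w ε n) < TL Λ v (ln X₀ w ε n)) ∨
        ∀ u ∈ Icc (θ k) (θ (k + 1)), ∀ v ∈ Icc (θ l) (θ (l + 1)),
          TL Λ v (ln X₀ w ε n) < TL Λ u (ln X₀ w ε n)) := by
      intro h
      refine h.imp (fun h u hu v hv => ?_) (fun h u hu v hv => ?_)
      · rw [ht0, ht1] at hv
        rw [← tl_shift Λ v _ q]
        exact h u hu _ ⟨by linarith [hv.1], by linarith [hv.2]⟩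
      · rw [ht0, ht1] at hv
        rw [← tl_shift Λ v _ q]
        exact h u hu _ ⟨by linarith [hv.1], by linarith [hv.2]⟩
    apply red
    generalize hi : k / 3 = i at *
    have hk := res k
    have hl2 := res l'
    rw [hi] at hk
    rw [hd] at hl2
    have hs0 := sg_or hD (i - 1)
    have hs1 := sg_or hD i
    have c0 := ca0 m i
    have c1 := ca1 m i
    have c2 := ca2 m i
    have b0 : ca m (3 * i) = 3 * m i - 1 ∨ ca m (3 * i) = 3 * m i + 1 := by
      rw [c0]; split <;> simp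
    have b2 : ca m (3 * i + 2) = 3 * m i - 1 ∨ ca m (3 * i + 2) = 3 * m i + 1 := by
      rw [c2]; split <;> simp
    rcases hk with hk | hk | hk <;> rcases hl2 with hl2 | hl2 | hl2
    · exact absurd (hk.trans hl2.symm) hne
    · rw [hk, hl2] at hca'
      rw [c1] at hca'
      omega
    · rw [hk, hl2] at hca'
      rw [hk] at hn
      rw [hk, hl2]
      have e : 3 * i + 2 + 1 = 3 * i + 3 := by ring
      rw [e]
      exact tip hTSP hD hS hε hε' hT i hca'.symm n hn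
    · rw [hk, hl2] at hca'
      rw [c1] at hca'
      omega
    · exact absurd (hk.trans hl2.symm) hne
    · rw [hk, hl2] at hca'
      rw [c1] at hca'
      omega
    · rw [hk, hl2] at hca'
      rw [hk, ← hca'] at hn
      rw [hk, hl2]
      have e : 3 * i + 2 + 1 = 3 * i + 3 := by ring
      rw [e]
      rcases tip hTSP hD hS hε hε' hT i hca' n hn with h | h
      · exact Or.inr fun u hu v hv => h v hv u hu
      · exact Or.inl fun u hu v hv => h v hv u hu
    · rw [hk, hl2] at hca'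
      rw [c1] at hca'
      omega
    · exact absurd (hk.trans hl2.symm) hne
  · by_cases hz : z (k / 3) = z (l / 3)
    · -- a crossing
      obtain ⟨d1, d2, d3, d4, d5⟩ := hD.dis (k / 3) (l / 3) hC hmm hz
      have E1 : ∀ u ∈ Icc (θ k) (θ (k + 1)), TL Λ u (ln X₀ w ε n) =
          X₀ * P₀ * z (k / 3) + P₀ * sl m z (k / 3) * (ln X₀ w ε n - X₀ * m (k / 3)) := by
        intro u hu
        obtain ⟨a1, a2⟩ := arc k u hu
        exact hS.zs (k / 3) d1 d2 u a1 a2 _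
      have E2 : ∀ v ∈ Icc (θ l) (θ (l + 1)), TL Λ v (ln X₀ w ε n) =
          X₀ * P₀ * z (k / 3) + P₀ * sl m z (l / 3) * (ln X₀ w ε n - X₀ * m (k / 3)) := by
        intro v hv
        obtain ⟨a1, a2⟩ := arc l v hv
        rw [hS.zs (l / 3) d3 d4 v a1 a2 _, hz, hmm]
      have hne : P₀ * ((sl m z (k / 3) : ℝ) - sl m z (l / 3)) *
          (ln X₀ w ε n - X₀ * m (k / 3)) ≠ 0 := by
        refine mul_ne_zero (mul_ne_zero hP0.ne' ?_) hb2
        rw [sub_ne_zero]
        exact_mod_cast d5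
      rcases lt_or_gt_of_ne hne with h | h
      · left
        intro u hu v hv
        rw [E1 u hu, E2 v hv]
        linarith
      · right
        intro u hu v hv
        rw [E1 u hu, E2 v hv]
        linarith
    · -- different heights
      obtain ⟨hpar, -⟩ := hLHD L m z hD
      have hp := hpar (k / 3) (l / 3) hmm
      have E1 : ∀ u ∈ Icc (θ k) (θ (k + 1)),
          |TL Λ u (ln X₀ w ε n) - X₀ * P₀ * z (k / 3)| ≤ 5 / 8 * (X₀ * P₀) := by
        intro u hu
        obtain ⟨a1, a2⟩ := arc k u hu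
        exact hS.zb (k / 3) u a1 a2 _ hb1
      have E2 : ∀ v ∈ Icc (θ l) (θ (l + 1)),
          |TL Λ v (ln X₀ w ε n) - X₀ * P₀ * z (l / 3)| ≤ 5 / 8 * (X₀ * P₀) := by
        intro v hv
        obtain ⟨a1, a2⟩ := arc l v hv
        exact hS.zb (l / 3) v a1 a2 _ (by rw [← hmm]; exact hb1)
      have hXP : 0 < X₀ * P₀ := mul_pos hX0 hP0
      rcases lt_or_gt_of_ne hz with h | h
      · left
        intro u hu v hv
        have h1 := (abs_le.1 (E1 u hu)).2
        have h2 := (abs_le.1 (E2 v hv)).1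
        have h3 : z (k / 3) + 2 ≤ z (l / 3) := by omega
        have h4 : (z (k / 3) : ℝ) + 2 ≤ z (l / 3) := by exact_mod_cast h3
        nlinarith [mul_le_mul_of_nonneg_left h4 hXP.le]
      · right
        intro u hu v hv
        have h1 := (abs_le.1 (E1 u hu)).1
        have h2 := (abs_le.1 (E2 v hv)).2
        have h3 : z (l / 3) + 2 ≤ z (k / 3) := by omega
        have h4 : (z (l / 3) : ℝ) + 2 ≤ z (k / 3) := by exact_mod_cast h3
        nlinarith [mul_le_mul_of_nonneg_left h4 hXP.le]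

end LHE
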