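import Pool.Agent.LHE.Stmts3

/-!
# THI: the arcs are over their cells; the derivatives at their ends
-/

set_option autoImplicit false

namespace LHE

open Set LG LH

namespace THI

theorem x_diff (Λ : LC.LegKnot) : Differentiable ℝ Λ.x := by
  have h : ContDiff ℝ (⊤ : ℕ∞) (fun u => (Λ.γ u).1) := (Λ.smooth).fst
  exact h.differentiable (by simp)

theorem sg_or {L : ℕ} {m z : ℤ → ℤ} (h : LatD L m z) (i : ℤ) : sg m i = 1 ∨ sg m i = -1 := by
  rcases h.dm i with h | h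
  · left; simp only [sg]; omega
  · right; simp only [sg]; omega

theorem smono {Λ : LC.LegKnot} {X₀ P₀ w : ℝ} {L : ℕ} {m z : ℤ → ℤ} {ν : ℤ → ℝ}
    (S : LatS Λ X₀ P₀ w L m z ν) (i : ℤ) :
    StrictMonoOn (fun u => (sg m i : ℝ) * Λ.x u) (Icc (ν i) (ν (i + 1))) := by
  apply strictMonoOn_of_deriv_pos (convex_Icc _ _)
  · exact (continuous_const.mul (x_diff Λ).continuous).continuousOn
  · intro u hu
    rw [interior_Icc] at hu
    rw [deriv_const_mul _ (x_diff Λ u)]
    exact S.dx i u hu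

theorem d0 (i : ℤ) : (3 * i) / 3 = i := by omega
theorem m0 (i : ℤ) : (3 * i) % 3 = 0 := by omega
theorem d1 (i : ℤ) : (3 * i + 1) / 3 = i := by omega
theorem m1 (i : ℤ) : (3 * i + 1) % 3 = 1 := by omega
theorem d2 (i : ℤ) : (3 * i + 2) / 3 = i := by omega
theorem m2 (i : ℤ) : (3 * i + 2) % 3 = 2 := by omega

theorem cs0 (m : ℤ → ℤ) (i : ℤ) :
    cs m (3 * i) = if sg m (i - 1) = 1 then 3 * m i - 1 else 3 * m i + 2 := by
  unfold cs
  rw [d0, m0, if_pos rfl]

theorem cs1 (m : ℤ → ℤ) (i : ℤ) :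
    cs m (3 * i + 1) = if sg m (i - 1) = 1 then 3 * m i else 3 * m i + 1 := by
  unfold cs
  rw [d1, m1, if_neg (by norm_num), if_pos rfl]

theorem cs2 (m : ℤ → ℤ) (i : ℤ) :
    cs m (3 * i + 2) = if sg m i = 1 then 3 * m i + 1 else 3 * m i := by
  unfold cs
  rw [d2, m2, if_neg (by norm_num), if_neg (by norm_num)]

theorem ca0 (m : ℤ → ℤ) (i : ℤ) :
    ca m (3 * i) = if sg m (i - 1) = 1 then 3 * m i - 1 else 3 * m i + 1 := by
  unfold ca
  rw [d0, m0, if_pos rfl]

theorem ca1 (m : ℤ → ℤ) (i : ℤ) : ca m (3 * i + 1) = 3 * m i := by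
  unfold ca
  rw [d1, m1, if_neg (by norm_num), if_pos rfl]

theorem ca2 (m : ℤ → ℤ) (i : ℤ) :
    ca m (3 * i + 2) = if sg m i = 1 then 3 * m i + 1 else 3 * m i - 1 := by
  unfold ca
  rw [d2, m2, if_neg (by norm_num), if_neg (by norm_num)]

theorem gd0 (m : ℤ → ℤ) (i : ℤ) : gd m (3 * i) = decide (sg m (i - 1) = 1) := by
  unfold gd
  rw [d0, m0, if_neg (by norm_num)]

theorem gd1 (m : ℤ → ℤ) (i : ℤ) : gd m (3 * i + 1) = decide (sg m (i - 1) = 1) := by
  unfold gd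
  rw [d1, m1, if_neg (by norm_num)]

theorem gd2 (m : ℤ → ℤ) (i : ℤ) : gd m (3 * i + 2) = decide (sg m i = 1) := by
  unfold gd
  rw [d2, m2, if_pos rfl]

theorem sn_sg {L : ℕ} {m z : ℤ → ℤ} (h : LatD L m z) (i : ℤ) :
    sn (decide (sg m i = 1)) = (sg m i : ℝ) := by
  rcases sg_or h i with h | h
  · rw [h]; simp [sn]
  · rw [h]; simp [sn]

theorem ln0 (X₀ w ε : ℝ) (a : ℤ) : ln X₀ w ε (3 * a) = X₀ * a - 7 / 8 * w + ε := by
  unfold ln
  rw [d0, m0, if_pos rfl]
  ring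

theorem ln1 (X₀ w ε : ℝ) (a : ℤ) : ln X₀ w ε (3 * a + 1) = X₀ * a + 7 / 8 * w + ε := by
  unfold ln
  rw [d1, m1, if_neg (by norm_num), if_pos rfl]

theorem cases3 (k : ℤ) : ∃ i : ℤ, k = 3 * i ∨ k = 3 * i + 1 ∨ k = 3 * i + 2 :=
  ⟨k / 3, by omega⟩

/-- values between the values at the ends of a piece of an edge -/
theorem btw {Λ : LC.LegKnot} {X₀ P₀ w : ℝ} {L : ℕ} {m z : ℤ → ℤ} {ν : ℤ → ℝ}
    (S : LatS Λ X₀ P₀ w L m z ν) {i : ℤ} {p q u : ℝ} (hp : ν i ≤ p) (hq : q ≤ ν (i + 1))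
    (h1 : p < u) (h2 : u < q) :
    (sg m i : ℝ) * Λ.x p < sg m i * Λ.x u ∧ (sg m i : ℝ) * Λ.x u < sg m i * Λ.x q :=
  ⟨smono S i ⟨hp, by linarith⟩ ⟨by linarith, by linarith⟩ h1,
    smono S i ⟨by linarith, by linarith⟩ ⟨by linarith, hq⟩ h2⟩

end THI

open THI

/-- THI -/
theorem t_THI : Stmt_THI := by
  intro _ Λ X₀ P₀ w ε L m z ν θ D S e0 e1 T
  have lt0 : ∀ i, θ (3 * i) < ν i := fun i => (T.h₁ i).trans (T.h₂ i)
  have lt1 : ∀ i, ν (i - 1) < θ (3 * i + 1) := fun i => (T.h₀ i).trans (T.h₁ i)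
  have n3 : ∀ i, θ (3 * i + 3) < ν (i + 1) := by
    intro i
    have h := lt0 (i + 1)
    rwa [show 3 * (i + 1) = 3 * i + 3 by ring] at h
  have lt2 : ∀ i, θ (3 * i + 2) < ν (i + 1) := fun i => (T.h₄ i).trans (n3 i)
  have gt3 : ∀ i, ν i < θ (3 * i + 3) := fun i => (T.h₃ i).trans (T.h₄ i)
  have e3 : ∀ i : ℤ, 3 * i + 2 + 1 = 3 * i + 3 := fun i => by ring
  have e2 : ∀ i : ℤ, 3 * i + 1 + 1 = 3 * i + 2 := fun i => by ring
  have ie : ∀ i : ℤ, i - 1 + 1 = i := fun i => by ring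
  -- values at the ends
  have x0 : ∀ i, Λ.x (θ (3 * i)) = ln X₀ w ε (cs m (3 * i)) := fun i => T.hit _
  have x1 : ∀ i, Λ.x (θ (3 * i + 1)) = ln X₀ w ε (cs m (3 * i + 1)) := fun i => T.hit _
  have x2 : ∀ i, Λ.x (θ (3 * i + 2)) = ln X₀ w ε (cs m (3 * i + 2)) := fun i => T.hit _
  have x3 : ∀ i, Λ.x (θ (3 * i + 3)) = ln X₀ w ε (cs m (3 * (i + 1))) := by
    intro i
    have h := T.hit (3 * i + 3)
    rw [h]
    unfold sR
    rw [show 3 * i + 3 = 3 * (i + 1) by ring]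
  -- the points are between the two near lines
  have xn : ∀ i, ln X₀ w ε (3 * m i) < Λ.x (ν i) ∧ Λ.x (ν i) < ln X₀ w ε (3 * m i + 1) := by
    intro i
    have h := abs_le.1 (S.tb i)
    rw [ln0, ln1]
    constructor
    · linarith [h.1]
    · linarith [h.2, S.w0]
  -- the arcs of the residue 1, closed intervals for the first and the second half
  have A1 : ∀ i, ∀ u, θ (3 * i + 1) < u → u ≤ ν i →
      ln X₀ w ε (3 * m i) < Λ.x u ∧ Λ.x u < ln X₀ w ε (3 * m i + 1) := by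
    intro i u hu1 hu2
    have h1 : (sg m (i - 1) : ℝ) * Λ.x (θ (3 * i + 1)) < sg m (i - 1) * Λ.x u :=
      smono S (i - 1) ⟨(lt1 i).le, by rw [ie]; linarith⟩ ⟨by linarith [lt1 i], by rw [ie]; exact hu2⟩
        hu1
    have h2 : (sg m (i - 1) : ℝ) * Λ.x u ≤ sg m (i - 1) * Λ.x (ν i) :=
      (smono S (i - 1)).monotoneOn ⟨by linarith [lt1 i], by rw [ie]; exact hu2⟩
        ⟨by linarith [lt1 i], by rw [ie]⟩ hu2
    rcases sg_or D (i - 1) with h | h
    · rw [x1, cs1, if_pos h, h] at h1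
      rw [h] at h2
      push_cast at h1 h2
      exact ⟨by linarith, by linarith [(xn i).2]⟩
    · have h' : sg m (i - 1) ≠ 1 := by rw [h]; norm_num
      rw [x1, cs1, if_neg h', h] at h1
      rw [h] at h2
      push_cast at h1 h2
      exact ⟨by linarith [(xn i).1], by linarith⟩
  have A2 : ∀ i, ∀ u, ν i ≤ u → u < θ (3 * i + 2) →
      ln X₀ w ε (3 * m i) < Λ.x u ∧ Λ.x u < ln X₀ w ε (3 * m i + 1) := by
    intro i u hu1 hu2
    have h1 : (sg m i : ℝ) * Λ.x u < sg m i * Λ.x (θ (3 * i + 2)) :=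
      smono S i ⟨hu1, by linarith [lt2 i]⟩ ⟨by linarith, (lt2 i).le⟩ hu2
    have h2 : (sg m i : ℝ) * Λ.x (ν i) ≤ sg m i * Λ.x u :=
      (smono S i).monotoneOn ⟨le_rfl, by linarith [lt2 i]⟩ ⟨hu1, by linarith [lt2 i]⟩ hu1
    rcases sg_or D i with h | h
    · rw [x2, cs2, if_pos h, h] at h1
      rw [h] at h2
      push_cast at h1 h2
      exact ⟨by linarith [(xn i).1], by linarith⟩
    · have h' : sg m i ≠ 1 := by rw [h]; norm_num
      rw [x2, cs2, if_neg h', h] at h1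
      rw [h] at h2
      push_cast at h1 h2
      exact ⟨by linarith, by linarith [(xn i).2]⟩
  -- the derivative of `x` on the edges
  have dx' : ∀ i, ∀ u, ν i < u → u < ν (i + 1) → deriv Λ.x u ≠ 0 := by
    intro i u h1 h2 h0
    have h := S.dx i u ⟨h1, h2⟩
    rw [h0, mul_zero] at h
    exact lt_irrefl _ h
  have dxm : ∀ i, ∀ u, ν (i - 1) < u → u < ν i → deriv Λ.x u ≠ 0 := by
    intro i u h1 h2
    exact dx' (i - 1) u h1 (by rw [ie]; exact h2)
  refine ⟨?_, ?_, ?_, ?_⟩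
  · intro k
    obtain ⟨i, rfl | rfl | rfl⟩ := cases3 k
    · exact T.h₁ i
    · rw [e2]; exact (T.h₂ i).trans (T.h₃ i)
    · rw [e3]; exact T.h₄ i
  · intro k
    obtain ⟨i, rfl | rfl | rfl⟩ := cases3 k
    · rw [gd0, sn_sg D]
      exact S.dx (i - 1) _ ⟨T.h₀ i, by rw [ie]; exact lt0 i⟩
    · rw [gd1, sn_sg D]
      exact S.dx (i - 1) _ ⟨lt1 i, by rw [ie]; exact T.h₂ i⟩
    · rw [gd2, sn_sg D]
      exact S.dx i _ ⟨T.h₃ i, lt2 i⟩
  · intro k u hu
    unfold aR bR
    obtain ⟨i, rfl | rfl | rfl⟩ := cases3 k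
    · have h := btw S (i := i - 1) (T.h₀ i).le (by rw [ie]; exact (T.h₂ i).le) hu.1 hu.2
      rw [x0, x1, cs0, cs1] at h
      rw [ca0]
      rcases sg_or D (i - 1) with hs | hs
      · rw [if_pos hs, if_pos hs, hs] at h
        rw [if_pos hs, show 3 * m i - 1 + 1 = 3 * m i by ring]
        push_cast at h
        exact ⟨by linarith [h.1], by linarith [h.2]⟩
      · have h' : sg m (i - 1) ≠ 1 := by rw [hs]; norm_num
        rw [if_neg h', if_neg h', hs] at h
        rw [if_neg h', show 3 * m i + 1 + 1 = 3 * m i + 2 by ring]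
        push_cast at h
        exact ⟨by linarith [h.2], by linarith [h.1]⟩
    · rw [e2] at hu
      rw [ca1]
      rcases le_total u (ν i) with h | h
      · exact A1 i u hu.1 h
      · exact A2 i u h hu.2
    · rw [e3] at hu
      have h := btw S (i := i) (T.h₃ i).le (n3 i).le hu.1 hu.2
      rw [x2, x3, cs2, cs0, show i + 1 - 1 = i by ring] at h
      rw [ca2]
      rcases sg_or D i with hs | hs
      · have hm : m (i + 1) = m i + 1 := by unfold sg at hs; omega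
        rw [if_pos hs, if_pos hs, hs, hm] at h
        rw [if_pos hs, show 3 * m i + 1 + 1 = 3 * (m i + 1) - 1 by ring]
        push_cast at h
        exact ⟨by linarith [h.1], by linarith [h.2]⟩
      · have h' : sg m i ≠ 1 := by rw [hs]; norm_num
        have hm : m (i + 1) = m i - 1 := by unfold sg at hs; omega
        rw [if_neg h', if_neg h', hs, hm, show 3 * (m i - 1) + 2 = 3 * m i - 1 by ring] at h
        rw [if_neg h', show 3 * m i - 1 + 1 = 3 * m i by ring]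
        push_cast at h
        exact ⟨by linarith [h.2], by linarith [h.1]⟩
  · intro k
    obtain ⟨i, rfl | rfl | rfl⟩ := cases3 k
    · left
      intro u hu
      exact dxm i u (lt_of_lt_of_le (T.h₀ i) hu.1) (lt_of_le_of_lt hu.2 (T.h₂ i))
    · rw [e2]
      by_cases hs : sg m (i - 1) = sg m i
      · left
        intro u hu
        rcases lt_trichotomy u (ν i) with h | h | h
        · exact dxm i u (lt_of_lt_of_le (lt1 i) hu.1) h
        · rw [h]
          intro h0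
          have h3 := (S.vx i hs).2
          rw [h0, mul_zero] at h3
          exact lt_irrefl _ h3
        · exact dx' i u h (lt_of_le_of_lt hu.2 (lt2 i))
      · right
        intro u hu
        have hx : ln X₀ w ε (3 * m i) ≤ Λ.x u ∧ Λ.x u ≤ ln X₀ w ε (3 * m i + 1) := by
          have hab : ln X₀ w ε (3 * m i) < ln X₀ w ε (3 * m i + 1) := (xn i).1.trans (xn i).2
          rcases le_total u (ν i) with h | h
          · rcases eq_or_lt_of_le hu.1 with h1 | h1
            · rw [← h1, x1, cs1]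
              split_ifs
              · exact ⟨le_rfl, hab.le⟩
              · exact ⟨hab.le, le_rfl⟩
            · exact ⟨(A1 i u h1 h).1.le, (A1 i u h1 h).2.le⟩
          · rcases eq_or_lt_of_le hu.2 with h1 | h1
            · rw [h1, x2, cs2]
              split_ifs
              · exact ⟨hab.le, le_rfl⟩
              · exact ⟨le_rfl, hab.le⟩
            · exact ⟨(A2 i u h h1).1.le, (A2 i u h h1).2.le⟩
        rw [ln0, ln1] at hx
        apply S.yt i hs u ⟨lt_of_lt_of_le (lt1 i) hu.1, lt_of_le_of_lt hu.2 (lt2 i)⟩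
        have hw := S.w0
        rcases sg_or D i with h | h
        · rw [h]; push_cast; linarith [hx.2]
        · rw [h]; push_cast; linarith [hx.1]
    · rw [e3]
      left
      intro u hu
      exact dx' i u (lt_of_lt_of_le (T.h₃ i) hu.1) (lt_of_le_of_lt hu.2 (n3 i))

end LHE
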