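import Pool.Agent.LHE.Stmts3

/-!
# THT: the parameters of the arcs
-/

set_option autoImplicit false

namespace LHE

open Set LG LH

namespace THT

theorem diff_x (Λ : LC.LegKnot) : Differentiable ℝ Λ.x := by
  have h : Differentiable ℝ Λ.γ := Λ.smooth.differentiable (by simp)
  intro u
  exact (h u).fst

theorem x_per (Λ : LC.LegKnot) (u : ℝ) : Λ.x (u + 1) = Λ.x u := by
  unfold LC.LegKnot.x
  rw [Λ.periodic]

/-- The edge on which the arc `k` starts. -/
def eg (k : ℤ) : ℤ := if k % 3 = 2 then k / 3 else k / 3 - 1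

theorem sg_or {L : ℕ} {m z : ℤ → ℤ} (h : LatD L m z) (i : ℤ) : sg m i = 1 ∨ sg m i = -1 := by
  unfold sg
  rcases h.dm i with e | e <;> rw [e]
  · left; ring
  · right; ring

theorem sg_per {L : ℕ} {m z : ℤ → ℤ} (h : LatD L m z) (i : ℤ) : sg m (i + L) = sg m i := by
  unfold sg
  rw [show i + (L : ℤ) + 1 = (i + 1) + L from by ring, h.pm, h.pm]

variable {Λ : LC.LegKnot} {X₀ P₀ w ε : ℝ} {L : ℕ} {m z : ℤ → ℤ} {ν : ℤ → ℝ}

theorem edge_start (hS : LatS Λ X₀ P₀ w L m z ν) (j : ℤ) :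
    (sg m j : ℝ) * Λ.x (ν j) ≤ sg m j * (X₀ * m j) := by
  by_cases h : sg m (j - 1) = sg m j
  · rw [(hS.vx j h).1]
  · exact hS.tx j h

theorem edge_end (hD : LatD L m z) (hS : LatS Λ X₀ P₀ w L m z ν) (j : ℤ) :
    (sg m j : ℝ) * (X₀ * m (j + 1)) ≤ sg m j * Λ.x (ν (j + 1)) := by
  by_cases h : sg m (j + 1 - 1) = sg m (j + 1)
  · rw [(hS.vx (j + 1) h).1]
  · have h1 := hS.tx (j + 1) h
    have h2 : sg m (j + 1) = -sg m j := by
      rw [show j + 1 - 1 = j from by ring] at h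
      rcases sg_or hD j with a | a <;> rcases sg_or hD (j + 1) with b | b <;>
        rw [a, b] at h <;> rw [a, b] <;> simp at h ⊢
    rw [h2] at h1
    push_cast at h1
    linarith

theorem edge_mono (hS : LatS Λ X₀ P₀ w L m z ν) (j : ℤ) :
    StrictMonoOn (fun u => (sg m j : ℝ) * Λ.x u) (Icc (ν j) (ν (j + 1))) := by
  have hd : Differentiable ℝ (fun u => (sg m j : ℝ) * Λ.x u) := (diff_x Λ).const_mul _
  refine strictMonoOn_of_deriv_pos (convex_Icc _ _) hd.continuous.continuousOn ?_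
  intro u hu
  rw [interior_Icc] at hu
  have h1 : deriv (fun u => (sg m j : ℝ) * Λ.x u) u = (sg m j : ℝ) * deriv Λ.x u := by
    have := ((diff_x Λ) u).hasDerivAt.const_mul (sg m j : ℝ)
    exact this.deriv
  rw [h1]
  exact hS.dx j u hu

theorem edge_ex (hD : LatD L m z) (hS : LatS Λ X₀ P₀ w L m z ν) (j : ℤ) {t : ℝ}
    (h1 : (sg m j : ℝ) * (X₀ * m j) < sg m j * t)
    (h2 : (sg m j : ℝ) * t < sg m j * (X₀ * m (j + 1))) :
    ∃ u, ν j < u ∧ u < ν (j + 1) ∧ Λ.x u = t := by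
  have hc : ContinuousOn (fun u => (sg m j : ℝ) * Λ.x u) (Icc (ν j) (ν (j + 1))) :=
    ((diff_x Λ).const_mul _).continuous.continuousOn
  have hle : ν j ≤ ν (j + 1) := (hS.mono j).le
  have hm : (sg m j : ℝ) * t ∈ Ioo ((fun u => (sg m j : ℝ) * Λ.x u) (ν j))
      ((fun u => (sg m j : ℝ) * Λ.x u) (ν (j + 1))) :=
    ⟨lt_of_le_of_lt (edge_start hS j) h1, lt_of_lt_of_le h2 (edge_end hD hS j)⟩
  obtain ⟨u, hu, hu'⟩ := intermediate_value_Ioo hle hc hm
  refine ⟨u, hu.1, hu.2, ?_⟩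
  have hne : (sg m j : ℝ) ≠ 0 := by
    rcases sg_or hD j with a | a <;> rw [a] <;> norm_num
  exact mul_left_cancel₀ hne hu'

theorem edge_uniq (hD : LatD L m z) (hS : LatS Λ X₀ P₀ w L m z ν) (j : ℤ) {u v : ℝ}
    (hu : ν j < u) (hu' : u < ν (j + 1)) (hv : ν j < v) (hv' : v < ν (j + 1))
    (h : Λ.x u = Λ.x v) : u = v :=
  (edge_mono hS j).injOn ⟨hu.le, hu'.le⟩ ⟨hv.le, hv'.le⟩ (by simp only [h])

theorem edge_lt (hS : LatS Λ X₀ P₀ w L m z ν) (j : ℤ) {u v : ℝ}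
    (hu : ν j < u) (hu' : u < ν (j + 1)) (hv : ν j < v) (hv' : v < ν (j + 1))
    (h : (sg m j : ℝ) * Λ.x u < sg m j * Λ.x v) : u < v := by
  have := (edge_mono hS j).lt_iff_lt (a := u) (b := v) ⟨hu.le, hu'.le⟩ ⟨hv.le, hv'.le⟩
  exact this.1 h

/-! ### the lines -/

theorem ln0 (X₀ w ε : ℝ) (n : ℤ) : ln X₀ w ε (3 * n) = X₀ * n - 7 / 8 * w + ε := by
  unfold ln
  rw [show (3 * n) / 3 = n from by omega, if_pos (by omega)]
  ring

theorem ln1 (X₀ w ε : ℝ) (n : ℤ) : ln X₀ w ε (3 * n + 1) = X₀ * n + 7 / 8 * w + ε := by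
  unfold ln
  rw [show (3 * n + 1) / 3 = n from by omega, if_neg (by omega), if_pos (by omega)]

theorem ln2 (X₀ w ε : ℝ) (n : ℤ) : ln X₀ w ε (3 * n + 2) = X₀ * n + X₀ / 2 + ε := by
  unfold ln
  rw [show (3 * n + 2) / 3 = n from by omega, if_neg (by omega), if_neg (by omega)]

/-- The three lines of the point `i`. -/
theorem s0 (i : ℤ) : sR X₀ w ε m (3 * i) =
    (if sg m (i - 1) = 1 then X₀ * m i - X₀ / 2 + ε else X₀ * m i + X₀ / 2 + ε) := by
  unfold sR cs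
  rw [if_pos (by omega), show (3 * i) / 3 = i from by omega]
  split_ifs with h
  · rw [show 3 * m i - 1 = 3 * (m i - 1) + 2 from by ring, ln2]
    push_cast
    ring
  · rw [ln2]

theorem s1 (i : ℤ) : sR X₀ w ε m (3 * i + 1) =
    (if sg m (i - 1) = 1 then X₀ * m i - 7 / 8 * w + ε else X₀ * m i + 7 / 8 * w + ε) := by
  unfold sR cs
  rw [if_neg (by omega), if_pos (by omega), show (3 * i + 1) / 3 = i from by omega]
  split_ifs with h
  · rw [ln0]
  · rw [ln1]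

theorem s2 (i : ℤ) : sR X₀ w ε m (3 * i + 2) =
    (if sg m i = 1 then X₀ * m i + 7 / 8 * w + ε else X₀ * m i - 7 / 8 * w + ε) := by
  unfold sR cs
  rw [if_neg (by omega), if_neg (by omega), show (3 * i + 2) / 3 = i from by omega]
  split_ifs with h
  · rw [ln1]
  · rw [ln0]

theorem m_succ (hD : LatD L m z) (i : ℤ) : (m (i + 1) : ℝ) = m i + sg m i := by
  unfold sg
  push_cast
  ring

theorem in0 (hD : LatD L m z) (hS : LatS Λ X₀ P₀ w L m z ν) (he : 0 < ε) (hw : ε < w / 16)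
    (i : ℤ) :
    (sg m (i - 1) : ℝ) * (X₀ * m (i - 1)) < sg m (i - 1) * sR X₀ w ε m (3 * i) ∧
    (sg m (i - 1) : ℝ) * sR X₀ w ε m (3 * i) < sg m (i - 1) * sR X₀ w ε m (3 * i + 1) ∧
    (sg m (i - 1) : ℝ) * sR X₀ w ε m (3 * i + 1) < sg m (i - 1) * (X₀ * m (i - 1 + 1)) := by
  have h := m_succ hD (i - 1)
  rw [show i - 1 + 1 = i from by ring] at h ⊢
  have hX := hS.X0
  have h0 := hS.w0
  have hwX := hS.wX
  rw [s0, s1]
  rcases sg_or hD (i - 1) with a | a
  · rw [a] at h ⊢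
    rw [if_pos rfl, if_pos rfl, h]
    push_cast
    refine ⟨?_, ?_, ?_⟩ <;> nlinarith
  · rw [a] at h ⊢
    rw [if_neg (by norm_num), if_neg (by norm_num), h]
    push_cast
    refine ⟨?_, ?_, ?_⟩ <;> nlinarith

theorem in2 (hD : LatD L m z) (hS : LatS Λ X₀ P₀ w L m z ν) (he : 0 < ε) (hw : ε < w / 16)
    (i : ℤ) :
    (sg m i : ℝ) * (X₀ * m i) < sg m i * sR X₀ w ε m (3 * i + 2) ∧
    (sg m i : ℝ) * sR X₀ w ε m (3 * i + 2) < sg m i * sR X₀ w ε m (3 * (i + 1)) := by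
  have h := m_succ hD i
  have hX := hS.X0
  have h0 := hS.w0
  have hwX := hS.wX
  rw [s2, s0, show i + 1 - 1 = i from by ring]
  rcases sg_or hD i with a | a
  · rw [a] at h ⊢
    rw [if_pos rfl, if_pos rfl, h]
    push_cast
    refine ⟨?_, ?_⟩ <;> nlinarith
  · rw [a] at h ⊢
    rw [if_neg (by norm_num), if_neg (by norm_num), h]
    push_cast
    refine ⟨?_, ?_⟩ <;> nlinarith

/-- Each line is met on its edge. -/
theorem hit_ex (hD : LatD L m z) (hS : LatS Λ X₀ P₀ w L m z ν) (he : 0 < ε) (hw : ε < w / 16)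
    (k : ℤ) : ∃ u, ν (eg k) < u ∧ u < ν (eg k + 1) ∧ Λ.x u = sR X₀ w ε m k := by
  have hk : k % 3 = 0 ∨ k % 3 = 1 ∨ k % 3 = 2 := by omega
  rcases hk with hk | hk | hk
  · have e : k = 3 * (k / 3) := by omega
    have e' : eg k = k / 3 - 1 := by unfold eg; rw [if_neg (by omega)]
    rw [e', e]
    have e'' : 3 * (k / 3) / 3 = k / 3 := by omega
    rw [e'']
    obtain ⟨h1, h2, h3⟩ := in0 hD hS he hw (k / 3)
    exact edge_ex hD hS _ h1 (h2.trans h3)
  · have e : k = 3 * (k / 3) + 1 := by omega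
    have e' : eg k = k / 3 - 1 := by unfold eg; rw [if_neg (by omega)]
    rw [e', e]
    have e'' : (3 * (k / 3) + 1) / 3 = k / 3 := by omega
    rw [e'']
    obtain ⟨h1, h2, h3⟩ := in0 hD hS he hw (k / 3)
    exact edge_ex hD hS _ (h1.trans h2) h3
  · have e : k = 3 * (k / 3) + 2 := by omega
    have e' : eg k = k / 3 := by unfold eg; rw [if_pos (by omega)]
    rw [e', e]
    have e'' : (3 * (k / 3) + 2) / 3 = k / 3 := by omega
    rw [e'']
    obtain ⟨h1, h2⟩ := in2 hD hS he hw (k / 3)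
    obtain ⟨h3, h4, h5⟩ := in0 hD hS he hw (k / 3 + 1)
    rw [show k / 3 + 1 - 1 = k / 3 from by ring] at h3 h4 h5
    exact edge_ex hD hS _ h1 (h2.trans (h4.trans h5))

end THT

open THT

theorem t_THT : Stmt_THT := by
  intro Λ X₀ P₀ w ε L m z ν hD hS he hw
  choose θ h1 h2 h3 using fun k => hit_ex hD hS he hw k
  have e0 : ∀ i : ℤ, eg (3 * i) = i - 1 := by
    intro i; unfold eg; rw [if_neg (by omega)]; omega
  have e1 : ∀ i : ℤ, eg (3 * i + 1) = i - 1 := by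
    intro i; unfold eg; rw [if_neg (by omega)]; omega
  have e2 : ∀ i : ℤ, eg (3 * i + 2) = i := by
    intro i; unfold eg; rw [if_pos (by omega)]; omega
  have e3 : ∀ k : ℤ, eg (k + (3 * L : ℕ)) = eg k + L := by
    intro k
    have h : (k + ((3 * L : ℕ) : ℤ)) / 3 = k / 3 + L := by push_cast; omega
    have h' : (k + ((3 * L : ℕ) : ℤ)) % 3 = k % 3 := by push_cast; omega
    unfold eg
    rw [h, h']
    split_ifs <;> ring
  have ec : ∀ k : ℤ, cs m (k + (3 * L : ℕ)) = cs m k := by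
    intro k
    have h : (k + ((3 * L : ℕ) : ℤ)) / 3 = k / 3 + L := by push_cast; omega
    have h' : (k + ((3 * L : ℕ) : ℤ)) % 3 = k % 3 := by push_cast; omega
    unfold cs
    rw [h, h', show k / 3 + (L : ℤ) - 1 = (k / 3 - 1) + L from by ring, sg_per hD, sg_per hD,
      hD.pm]
  refine ⟨θ, ⟨?_, ?_, ?_, ?_, ?_, ?_, h3⟩⟩
  · intro k
    have a1 := h1 (k + (3 * L : ℕ))
    have a2 := h2 (k + (3 * L : ℕ))
    rw [e3, hS.pν] at a1
    rw [e3, show eg k + (L : ℤ) + 1 = (eg k + 1) + L from by ring, hS.pν] at a2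
    have a3 : Λ.x (θ (k + (3 * L : ℕ)) - 1) = Λ.x (θ k) := by
      have := x_per Λ (θ (k + (3 * L : ℕ)) - 1)
      rw [sub_add_cancel] at this
      rw [← this, h3, h3]
      unfold sR
      rw [ec]
    have := edge_uniq hD hS (eg k) (u := θ (k + (3 * L : ℕ)) - 1) (v := θ k) (by linarith)
      (by linarith) (h1 k) (h2 k) a3
    linarith
  · intro i
    have := h1 (3 * i)
    rwa [e0] at this
  · intro i
    have a1 := h1 (3 * i)
    have a2 := h2 (3 * i)
    have b1 := h1 (3 * i + 1)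
    have b2 := h2 (3 * i + 1)
    rw [e0] at a1 a2
    rw [e1] at b1 b2
    refine edge_lt hS (i - 1) a1 a2 b1 b2 ?_
    rw [h3, h3]
    exact (in0 hD hS he hw i).2.1
  · intro i
    have := h2 (3 * i + 1)
    rwa [e1, show i - 1 + 1 = i from by ring] at this
  · intro i
    have := h1 (3 * i + 2)
    rwa [e2] at this
  · intro i
    have a1 := h1 (3 * i + 2)
    have a2 := h2 (3 * i + 2)
    have b1 := h1 (3 * (i + 1))
    have b2 := h2 (3 * (i + 1))
    rw [e2] at a1 a2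
    rw [e0, show i + 1 - 1 = i from by ring] at b1 b2
    rw [show 3 * i + 3 = 3 * (i + 1) from by ring]
    refine edge_lt hS i a1 a2 b1 b2 ?_
    rw [h3, h3]
    exact (in2 hD hS he hw i).2

end LHE
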