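import Pool.Agent.LHE.Stmts3

/-!
# TSP: the two sides of a tip are separated
-/

set_option autoImplicit false

namespace LHE

open Set LG LH

namespace TSP

theorem x_diff (Λ : LC.LegKnot) : Differentiable ℝ Λ.x := by
  have h : ContDiff ℝ (⊤ : ℕ∞) (fun u => (Λ.γ u).1) := (Λ.smooth).fst
  exact h.differentiable (by simp)

theorem y_diff (Λ : LC.LegKnot) : Differentiable ℝ Λ.y := by
  have h : ContDiff ℝ (⊤ : ℕ∞) (fun u => (Λ.γ u).2.1) := (Λ.smooth).snd.fst
  exact h.differentiable (by simp)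

theorem z_diff (Λ : LC.LegKnot) : Differentiable ℝ (zz Λ) := by
  have h : ContDiff ℝ (⊤ : ℕ∞) (fun u => (Λ.γ u).2.2) := (Λ.smooth).snd.snd
  exact h.differentiable (by simp)

theorem γ_diff (Λ : LC.LegKnot) : Differentiable ℝ Λ.γ :=
  Λ.smooth.differentiable (by simp)

theorem z_deriv (Λ : LC.LegKnot) (u : ℝ) : deriv (zz Λ) u = Λ.y u * deriv Λ.x u := by
  have h1 : HasDerivAt Λ.γ (deriv Λ.γ u) u := (γ_diff Λ u).hasDerivAt
  have hx : HasDerivAt Λ.x (deriv Λ.γ u).1 u := h1.fst
  have hz : HasDerivAt (zz Λ) (deriv Λ.γ u).2.2 u := h1.snd.snd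
  have h4 := Λ.legendrian u
  rw [hx.deriv, hz.deriv]
  simp only [LC.alpha] at h4
  simp only [LC.LegKnot.y]
  linarith

theorem TL_deriv (Λ : LC.LegKnot) (c t u : ℝ) :
    HasDerivAt (fun u => c * TL Λ u t) (c * (deriv Λ.y u * (t - Λ.x u))) u := by
  have hz : HasDerivAt (zz Λ) (Λ.y u * deriv Λ.x u) u := by
    rw [← z_deriv]
    exact (z_diff Λ u).hasDerivAt
  have hx := (x_diff Λ u).hasDerivAt
  have hy := (y_diff Λ u).hasDerivAt
  have h := (hz.add (hy.mul (hx.const_sub t))).const_mul c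
  have e : c * (Λ.y u * deriv Λ.x u + (deriv Λ.y u * (t - Λ.x u) + Λ.y u * (-deriv Λ.x u))) =
      c * (deriv Λ.y u * (t - Λ.x u)) := by ring
  rw [e] at h
  exact h

theorem TL_cont (Λ : LC.LegKnot) (c t : ℝ) : Continuous (fun u => c * TL Λ u t) :=
  continuous_iff_continuousAt.2 fun u => (TL_deriv Λ c t u).continuousAt

theorem sg_or {L : ℕ} {m z : ℤ → ℤ} (h : LatD L m z) (i : ℤ) : sg m i = 1 ∨ sg m i = -1 := by
  rcases h.dm i with h | h
  · left; simp only [sg]; omega
  · right; simp only [sg]; omega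

theorem sl_or {L : ℕ} {m z : ℤ → ℤ} (h : LatD L m z) (i : ℤ) : sl m z i = 1 ∨ sl m z i = -1 := by
  have h1 : z (i + 1) - z i = 1 ∨ z (i + 1) - z i = -1 := by
    rcases h.dz i with h | h
    · left; omega
    · right; omega
  have h2 : m (i + 1) - m i = 1 ∨ m (i + 1) - m i = -1 := by
    rcases h.dm i with h | h
    · left; omega
    · right; omega
  simp only [sl]
  rcases h1 with h1 | h1 <;> rcases h2 with h2 | h2 <;> rw [h1, h2] <;> simp

theorem smono {Λ : LC.LegKnot} {X₀ P₀ w : ℝ} {L : ℕ} {m z : ℤ → ℤ} {ν : ℤ → ℝ}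
    (S : LatS Λ X₀ P₀ w L m z ν) (i : ℤ) :
    StrictMonoOn (fun u => (sg m i : ℝ) * Λ.x u) (Icc (ν i) (ν (i + 1))) := by
  apply strictMonoOn_of_deriv_pos (convex_Icc _ _)
  · exact (continuous_const.mul (x_diff Λ).continuous).continuousOn
  · intro u hu
    rw [interior_Icc] at hu
    rw [deriv_const_mul _ (x_diff Λ u)]
    exact S.dx i u hu

/-- The core: everything with real constants. -/
theorem core (Λ : LC.LegKnot) (s p q c P z₀ w r na nb nc α β β' α' a b : ℝ)
    (hs : s = 1 ∨ s = -1) (hp : p = 1 ∨ p = -1) (hq : q = -p) (hP : 0 < P) (hw : 0 < w)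
    (hwr : w ≤ r)
    (h1 : na < α) (h2 : α < β) (h3 : β < nb) (h4 : nb < β') (h5 : β' < α') (h6 : α' < nc)
    (xa : Λ.x α = a) (xa' : Λ.x α' = a) (xb : Λ.x β = b) (xb' : Λ.x β' = b)
    (m1 : StrictMonoOn (fun u => -s * Λ.x u) (Icc na nb))
    (m2 : StrictMonoOn (fun u => s * Λ.x u) (Icc nb nc))
    (hn : |Λ.x nb - c| ≤ 3 / 4 * w)
    (ha : s * (a - c) ≤ 3 / 4 * r) (hb : 0 < s * (b - c)) (hab : s * b ≤ s * a)
    (zα : ∀ t, TL Λ α t = z₀ + P * q * (t - c)) (zα' : ∀ t, TL Λ α' t = z₀ + P * p * (t - c))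
    (hy : ∀ u ∈ Ioo na nc, |Λ.x u - c| ≤ 3 / 4 * r → 0 ≤ (p - q) * deriv Λ.y u) :
    ∀ u ∈ Icc α β, ∀ v ∈ Icc β' α', ∀ t, t = a ∨ t = b → 0 < (s * p) * (TL Λ v t - TL Λ u t) := by
  -- bounds for s * x
  have bu : ∀ u ∈ Icc α β, s * b ≤ s * Λ.x u ∧ s * Λ.x u ≤ s * a := by
    intro u hu
    have e1 := m1.monotoneOn (show u ∈ Icc na nb from ⟨by linarith [hu.1], by linarith [hu.2]⟩)
      (show β ∈ Icc na nb from ⟨by linarith, by linarith⟩) hu.2
    have e2 := m1.monotoneOn (show α ∈ Icc na nb from ⟨by linarith, by linarith⟩)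
      (show u ∈ Icc na nb from ⟨by linarith [hu.1], by linarith [hu.2]⟩) hu.1
    simp only [xa, xb] at e1 e2
    constructor <;> linarith
  have bv : ∀ v ∈ Icc β' α', s * b ≤ s * Λ.x v ∧ s * Λ.x v ≤ s * a := by
    intro v hv
    have e1 := m2.monotoneOn (show v ∈ Icc nb nc from ⟨by linarith [hv.1], by linarith [hv.2]⟩)
      (show α' ∈ Icc nb nc from ⟨by linarith, by linarith⟩) hv.2
    have e2 := m2.monotoneOn (show β' ∈ Icc nb nc from ⟨by linarith, by linarith⟩)
      (show v ∈ Icc nb nc from ⟨by linarith [hv.1], by linarith [hv.2]⟩) hv.1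
    simp only [xa', xb'] at e1 e2
    constructor <;> linarith
  have hn1 : -(3 / 4 * w) ≤ s * (Λ.x nb - c) ∧ s * (Λ.x nb - c) ≤ 3 / 4 * w := by
    rw [abs_le] at hn
    rcases hs with hs | hs <;> subst hs <;> constructor <;> linarith [hn.1, hn.2]
  have ab : ∀ x : ℝ, -(3 / 4 * r) ≤ s * (x - c) → s * (x - c) ≤ 3 / 4 * r →
      |x - c| ≤ 3 / 4 * r := by
    intro x g1 g2
    rw [abs_le]
    rcases hs with hs | hs <;> subst hs <;> constructor <;> linarith
  have yu : ∀ u ∈ Icc α β, 0 ≤ (p - q) * deriv Λ.y u := by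
    intro u hu
    obtain ⟨g1, g2⟩ := bu u hu
    refine hy u ⟨by linarith [hu.1], by linarith [hu.2]⟩ (ab _ ?_ ?_)
    · have : s * (Λ.x u - c) = s * Λ.x u - s * b + s * (b - c) := by ring
      linarith
    · have : s * (Λ.x u - c) = s * Λ.x u - s * a + s * (a - c) := by ring
      linarith
  have yv : ∀ v ∈ Icc β' α', 0 ≤ (p - q) * deriv Λ.y v := by
    intro u hu
    obtain ⟨g1, g2⟩ := bv u hu
    refine hy u ⟨by linarith [hu.1], by linarith [hu.2]⟩ (ab _ ?_ ?_)
    · have : s * (Λ.x u - c) = s * Λ.x u - s * b + s * (b - c) := by ring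
      linarith
    · have : s * (Λ.x u - c) = s * Λ.x u - s * a + s * (a - c) := by ring
      linarith
  -- the part between β and β'
  have ym : ∀ u ∈ Icc β β', 0 ≤ (p - q) * deriv Λ.y u := by
    intro u hu
    refine hy u ⟨by linarith [hu.1], by linarith [hu.2]⟩ ?_
    rcases le_total u nb with hh | hh
    · have e1 := m1.monotoneOn (show u ∈ Icc na nb from ⟨by linarith [hu.1], hh⟩)
        (show nb ∈ Icc na nb from ⟨by linarith, le_refl _⟩) hh
      have e2 := m1.monotoneOn (show β ∈ Icc na nb from ⟨by linarith, by linarith⟩)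
        (show u ∈ Icc na nb from ⟨by linarith [hu.1], hh⟩) hu.1
      simp only [xb] at e1 e2
      refine ab _ ?_ ?_
      · have : s * (Λ.x u - c) = (s * Λ.x u - s * Λ.x nb) + s * (Λ.x nb - c) := by ring
        linarith [hn1.1]
      · have : s * (Λ.x u - c) = (s * Λ.x u - s * b) + (s * b - s * a) + s * (a - c) := by ring
        linarith
    · have e1 := m2.monotoneOn (show nb ∈ Icc nb nc from ⟨le_refl _, by linarith⟩)
        (show u ∈ Icc nb nc from ⟨hh, by linarith [hu.2]⟩) hh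
      have e2 := m2.monotoneOn (show u ∈ Icc nb nc from ⟨hh, by linarith [hu.2]⟩)
        (show β' ∈ Icc nb nc from ⟨by linarith, by linarith⟩) hu.2
      simp only [xb'] at e1 e2
      refine ab _ ?_ ?_
      · have : s * (Λ.x u - c) = (s * Λ.x u - s * Λ.x nb) + s * (Λ.x nb - c) := by ring
        linarith [hn1.1]
      · have : s * (Λ.x u - c) = (s * Λ.x u - s * b) + (s * b - s * a) + s * (a - c) := by ring
        linarith
  have hpq : p - q = 2 * p := by rw [hq]; ring
  have hpp : p * p = 1 := by rcases hp with hp | hp <;> subst hp <;> norm_num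
  have hss : s * s = 1 := by rcases hs with hs | hs <;> subst hs <;> norm_num
  -- at b
  have A1 : AntitoneOn (fun u => (s * p) * TL Λ u b) (Icc α β) := by
    apply antitoneOn_of_deriv_nonpos (convex_Icc _ _) (TL_cont Λ _ b).continuousOn
    · intro u _
      exact (TL_deriv Λ (s * p) b u).differentiableAt.differentiableWithinAt
    · intro u hu
      rw [interior_Icc] at hu
      have hu' : u ∈ Icc α β := ⟨hu.1.le, hu.2.le⟩
      rw [(TL_deriv Λ (s * p) b u).deriv]
      have g := yu u hu'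
      rw [hpq] at g
      have g2 := (bu u hu').1
      have : s * p * (deriv Λ.y u * (b - Λ.x u)) = (p * deriv Λ.y u) * (s * b - s * Λ.x u) := by
        ring
      rw [this]
      exact mul_nonpos_of_nonneg_of_nonpos (by linarith) (by linarith)
  have A2 : AntitoneOn (fun u => (s * p) * TL Λ u b) (Icc β' α') := by
    apply antitoneOn_of_deriv_nonpos (convex_Icc _ _) (TL_cont Λ _ b).continuousOn
    · intro u _
      exact (TL_deriv Λ (s * p) b u).differentiableAt.differentiableWithinAt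
    · intro u hu
      rw [interior_Icc] at hu
      have hu' : u ∈ Icc β' α' := ⟨hu.1.le, hu.2.le⟩
      rw [(TL_deriv Λ (s * p) b u).deriv]
      have g := yv u hu'
      rw [hpq] at g
      have g2 := (bv u hu').1
      have : s * p * (deriv Λ.y u * (b - Λ.x u)) = (p * deriv Λ.y u) * (s * b - s * Λ.x u) := by
        ring
      rw [this]
      exact mul_nonpos_of_nonneg_of_nonpos (by linarith) (by linarith)
  have B1 : MonotoneOn (fun u => (s * p) * TL Λ u a) (Icc α β) := by
    apply monotoneOn_of_deriv_nonneg (convex_Icc _ _) (TL_cont Λ _ a).continuousOn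
    · intro u _
      exact (TL_deriv Λ (s * p) a u).differentiableAt.differentiableWithinAt
    · intro u hu
      rw [interior_Icc] at hu
      have hu' : u ∈ Icc α β := ⟨hu.1.le, hu.2.le⟩
      rw [(TL_deriv Λ (s * p) a u).deriv]
      have g := yu u hu'
      rw [hpq] at g
      have g2 := (bu u hu').2
      have : s * p * (deriv Λ.y u * (a - Λ.x u)) = (p * deriv Λ.y u) * (s * a - s * Λ.x u) := by
        ring
      rw [this]
      exact mul_nonneg (by linarith) (by linarith)
  have B2 : MonotoneOn (fun u => (s * p) * TL Λ u a) (Icc β' α') := by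
    apply monotoneOn_of_deriv_nonneg (convex_Icc _ _) (TL_cont Λ _ a).continuousOn
    · intro u _
      exact (TL_deriv Λ (s * p) a u).differentiableAt.differentiableWithinAt
    · intro u hu
      rw [interior_Icc] at hu
      have hu' : u ∈ Icc β' α' := ⟨hu.1.le, hu.2.le⟩
      rw [(TL_deriv Λ (s * p) a u).deriv]
      have g := yv u hu'
      rw [hpq] at g
      have g2 := (bv u hu').2
      have : s * p * (deriv Λ.y u * (a - Λ.x u)) = (p * deriv Λ.y u) * (s * a - s * Λ.x u) := by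
        ring
      rw [this]
      exact mul_nonneg (by linarith) (by linarith)
  have Y : MonotoneOn (fun u => p * Λ.y u) (Icc β β') := by
    have hc : Continuous (fun u => p * Λ.y u) := continuous_const.mul (y_diff Λ).continuous
    apply monotoneOn_of_deriv_nonneg (convex_Icc _ _) hc.continuousOn
    · intro u _
      exact ((y_diff Λ u).const_mul p).differentiableWithinAt
    · intro u hu
      rw [interior_Icc] at hu
      rw [deriv_const_mul _ (y_diff Λ u)]
      have g := ym u ⟨hu.1.le, hu.2.le⟩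
      rw [hpq] at g
      linarith
  -- the first part
  have C : ∀ u ∈ Icc α β, ∀ v ∈ Icc β' α', 0 < (s * p) * (TL Λ v b - TL Λ u b) := by
    intro u hu v hv
    have e1 := A1 (left_mem_Icc.2 h2.le) hu hu.1
    have e2 := A2 hv (right_mem_Icc.2 h5.le) hv.2
    simp only [zα, zα'] at e1 e2
    have e3 : s * p * (z₀ + P * p * (b - c)) - s * p * (z₀ + P * q * (b - c)) =
        2 * P * (p * p) * (s * (b - c)) := by rw [hq]; ring
    rw [hpp] at e3
    have e4 : 0 < 2 * P * 1 * (s * (b - c)) := by positivity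
    have e5 : s * p * (TL Λ v b - TL Λ u b) = s * p * TL Λ v b - s * p * TL Λ u b := by ring
    rw [e5]
    linarith
  intro u hu v hv t ht
  rcases ht with ht | ht
  · subst ht
    have e1 := B1 hu (right_mem_Icc.2 h2.le) hu.2
    have e2 := B2 (left_mem_Icc.2 h5.le) hv hv.1
    have e3 := C β (right_mem_Icc.2 h2.le) β' (left_mem_Icc.2 h5.le)
    have e4 := Y (left_mem_Icc.2 (by linarith)) (right_mem_Icc.2 (by linarith)) (by linarith)
    simp only at e1 e2 e4
    have e5 : s * p * (TL Λ β' t - TL Λ β t) = s * p * (TL Λ β' b - TL Λ β b) +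
        (p * Λ.y β' - p * Λ.y β) * (s * t - s * b) := by
      simp only [TL, xb, xb']
      ring
    have e6 : 0 ≤ (p * Λ.y β' - p * Λ.y β) * (s * t - s * b) :=
      mul_nonneg (by linarith) (by linarith)
    have e7 : s * p * (TL Λ v t - TL Λ u t) = (s * p * TL Λ v t - s * p * TL Λ β' t) +
      (s * p * (TL Λ β' t - TL Λ β t)) + (s * p * TL Λ β t - s * p * TL Λ u t) := by ring
    rw [e7, e5]
    linarith
  · subst ht
    exact C u hu v hv

end TSP

/-- TSP: the two sides of a tip are separated. -/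
theorem t_TSP : Stmt_TSP := by
  intro Λ X₀ P₀ w L m z ν hL hS i htip α β β' α' a b h1 h2 h3 h4 h5 h6 xa xa' xb xb' ha1 ha2 hb hab
  have hs := TSP.sg_or hL i
  have hs' := TSP.sg_or hL (i - 1)
  have hp := TSP.sl_or hL i
  have hp' := TSP.sl_or hL (i - 1)
  have hn := hL.nb i htip
  have hsr : (sg m i : ℝ) = 1 ∨ (sg m i : ℝ) = -1 := by
    rcases hs with hs | hs <;> rw [hs] <;> simp
  have hpr : (sl m z i : ℝ) = 1 ∨ (sl m z i : ℝ) = -1 := by
    rcases hp with hp | hp <;> rw [hp] <;> simp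
  have hq : sl m z (i - 1) = -sl m z i := by omega
  have hsq : sg m (i - 1) = -sg m i := by omega
  have hqr : (sl m z (i - 1) : ℝ) = -(sl m z i : ℝ) := by rw [hq]; push_cast; ring
  have hsqr : (sg m (i - 1) : ℝ) = -(sg m i : ℝ) := by rw [hsq]; push_cast; ring
  have e : i - 1 + 1 = i := by ring
  have M1 := TSP.smono hS (i - 1)
  rw [e] at M1
  have M2 := TSP.smono hS i
  refine TSP.core Λ (sg m i) (sl m z i) (sl m z (i - 1)) (X₀ * m i) P₀ (X₀ * P₀ * z i) w X₀
    (ν (i - 1)) (ν i) (ν (i + 1)) α β β' α' a b hsr hpr hqr hS.P0 hS.w0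
    (by linarith [hS.wX, hS.w0]) h1 h2 h3 h4 h5 h6 xa xa' xb xb' ?_ M2 (hS.tb i) ha2 hb hab ?_ ?_
    (hS.ym i htip)
  · rw [← hsqr]
    exact M1
  · refine hS.zi i α ⟨h1.le, by linarith⟩ ?_ ?_
    · rw [hsqr, neg_neg, xa]
      exact ha1
    · rw [hsqr, neg_neg, xa]
      exact ha2
  · refine hS.zo i α' ⟨by linarith, h6.le⟩ ?_ ?_
    · rw [xa']
      exact ha1
    · rw [xa']
      exact ha2

end LHE
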