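import Pool.Agent.LHE.Stmts4

/-!
# VLS: from vertices to lattice points
-/

namespace LHE

open Set LG LH LCA
open scoped ContDiff

namespace VLS

variable {n L : ℕ} {M Z σ p ℓ m z jx : ℤ → ℤ}

/-! ### the indices -/

theorem jx_mono (V : Ver n L M Z σ p ℓ m z jx) : StrictMono jx :=
  strictMono_int_of_lt_succ (fun k => by
    have h1 := V.js k
    have h2 := V.l1 k
    omega)

theorem jx_add (V : Ver n L M Z σ p ℓ m z jx) (a : ℤ) (e : ℕ) : jx a + e ≤ jx (a + e) := by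
  induction e with
  | zero => simp
  | succ e ih =>
    have h1 := V.js (a + e)
    have h2 := V.l1 (a + e)
    have h3 : a + ((e + 1 : ℕ) : ℤ) = a + e + 1 := by push_cast; ring
    rw [h3, h1]
    push_cast
    omega

theorem ex_kd (V : Ver n L M Z σ p ℓ m z jx) (i : ℤ) :
    ∃ k d, i = jx k + d ∧ 0 ≤ d ∧ d < ℓ k := by
  obtain ⟨k, hk, hk'⟩ := Int.exists_greatest_of_bdd (P := fun k => jx k ≤ i)
    ⟨|i - jx 0|, fun k hk => by
      rcases le_or_gt k 0 with h | h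
      · exact h.trans (abs_nonneg _)
      · have h1 := jx_add V 0 k.toNat
        have h2 : ((k.toNat : ℕ) : ℤ) = k := Int.toNat_of_nonneg h.le
        rw [h2, zero_add] at h1
        have h3 := le_abs_self (i - jx 0)
        have hk1 : jx k ≤ i := hk
        omega⟩
    ⟨-|i - jx 0|, by
      have h0 := abs_nonneg (i - jx 0)
      have h1 := jx_add V (-|i - jx 0|) (|i - jx 0|).toNat
      have h2 : (((|i - jx 0|).toNat : ℕ) : ℤ) = |i - jx 0| := Int.toNat_of_nonneg h0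
      rw [h2, neg_add_cancel] at h1
      have h3 := neg_abs_le (i - jx 0)
      change jx (-|i - jx 0|) ≤ i
      omega⟩
  refine ⟨k, i - jx k, by ring, by omega, ?_⟩
  by_contra hc
  have h1 := V.js k
  have h2 : k + 1 ≤ k := hk' (k + 1) (by omega)
  omega

theorem uq_kd (V : Ver n L M Z σ p ℓ m z jx) {k k' d d' : ℤ} (h : jx k + d = jx k' + d')
    (h0 : 0 ≤ d) (h1 : d < ℓ k) (h0' : 0 ≤ d') (h1' : d' < ℓ k') : k = k' ∧ d = d' := by
  have hm := (jx_mono V).monotone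
  have hk : k = k' := by
    rcases lt_trichotomy k k' with hl | hl | hl
    · have h2 := hm (show k + 1 ≤ k' by omega)
      have h3 := V.js k
      omega
    · exact hl
    · have h2 := hm (show k' + 1 ≤ k by omega)
      have h3 := V.js k'
      omega
  subst hk
  exact ⟨rfl, by omega⟩

theorem l_per (V : Ver n L M Z σ p ℓ m z jx) (k : ℤ) : ℓ (k + n) = ℓ k := by
  have h1 := V.js (k + n)
  have h2 := V.js k
  have h3 := V.jp k
  have h4 := V.jp (k + 1)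
  have h5 : k + 1 + (n : ℤ) = k + n + 1 := by ring
  rw [h5] at h4
  omega

theorem M_jx (V : Ver n L M Z σ p ℓ m z jx) (k : ℤ) : m (jx k) = M k := by
  have h := V.mm k 0 le_rfl (by have := V.l1 k; omega)
  simpa using h

theorem Z_jx (V : Ver n L M Z σ p ℓ m z jx) (k : ℤ) : z (jx k) = Z k := by
  have h := V.zz k 0 le_rfl (by have := V.l1 k; omega)
  simpa using h

theorem M_succ (V : Ver n L M Z σ p ℓ m z jx) (k : ℤ) : M (k + 1) = M k + σ k * ℓ k := by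
  have h := V.mm k (ℓ k) (by have := V.l1 k; omega) le_rfl
  rw [← V.js k, M_jx V] at h
  exact h

theorem sq1 (V : Ver n L M Z σ p ℓ m z jx) (k : ℤ) : σ k * σ k = 1 := by
  rcases V.s1 k with h | h <;> simp [h]

theorem sg_eq (V : Ver n L M Z σ p ℓ m z jx) {k d : ℤ} (h0 : 0 ≤ d) (h1 : d < ℓ k) :
    sg m (jx k + d) = σ k := by
  unfold sg
  have h2 := V.mm k d h0 h1.le
  have h3 := V.mm k (d + 1) (by omega) (by omega)
  rw [add_assoc, h3, h2]
  ring

theorem sl_eq (V : Ver n L M Z σ p ℓ m z jx) {k d : ℤ} (h0 : 0 ≤ d) (h1 : d < ℓ k) :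
    sl m z (jx k + d) = p k := by
  unfold sl
  have h2 := V.mm k d h0 h1.le
  have h3 := V.mm k (d + 1) (by omega) (by omega)
  have h4 := V.zz k d h0 h1.le
  have h5 := V.zz k (d + 1) (by omega) (by omega)
  rw [add_assoc, h3, h2, h4, h5]
  have h6 := sq1 V k
  calc (Z k + σ k * p k * (d + 1) - (Z k + σ k * p k * d)) *
        (M k + σ k * (d + 1) - (M k + σ k * d)) = p k * (σ k * σ k) := by ring
    _ = p k := by rw [h6, mul_one]

/-! ### the parameters -/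

variable {Λ : LC.LegKnot} {X₀ P₀ w : ℝ}

theorem x_smooth (Λ : LC.LegKnot) : ContDiff ℝ ∞ Λ.x := contDiff_fst.comp Λ.smooth

theorem x_per (Λ : LC.LegKnot) (u : ℝ) : Λ.x (u + 1) = Λ.x u := by
  change (Λ.γ (u + 1)).1 = (Λ.γ u).1
  rw [Λ.periodic]

theorem smon (T : VtS Λ X₀ P₀ w n M Z σ p) (k : ℤ) :
    StrictMonoOn (fun u => (σ k : ℝ) * Λ.x u) (Icc ((k : ℝ) / n) (((k : ℝ) + 1) / n)) := by
  apply strictMonoOn_of_deriv_pos (convex_Icc _ _)
  · exact (continuous_const.mul (x_smooth Λ).continuous).continuousOn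
  · intro u hu
    rw [interior_Icc] at hu
    have h1 : DifferentiableAt ℝ Λ.x u := (x_smooth Λ).differentiable (by simp) u
    rw [deriv_const_mul _ h1]
    exact T.dx k u hu

theorem scast (V : Ver n L M Z σ p ℓ m z jx) (k : ℤ) : (σ k : ℝ) = 1 ∨ (σ k : ℝ) = -1 := by
  rcases V.s1 k with h | h
  · left; rw [h]; norm_num
  · right; rw [h]; norm_num

theorem ssq (V : Ver n L M Z σ p ℓ m z jx) (k : ℤ) : (σ k : ℝ) * σ k = 1 := by
  rcases scast V k with h | h <;> rw [h] <;> norm_num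

/-- The parameter of a point of the path. -/
def R (Λ : LC.LegKnot) (X₀ : ℝ) (n : ℕ) (ℓ m jx : ℤ → ℤ) (i : ℤ) (u : ℝ) : Prop :=
  ∃ k d : ℤ, i = jx k + d ∧ 0 ≤ d ∧ d < ℓ k ∧ (d = 0 → u = (k : ℝ) / n) ∧
    (0 < d → (k : ℝ) / n < u ∧ u < ((k : ℝ) + 1) / n ∧ Λ.x u = X₀ * m i)

theorem kn_lt (T : VtS Λ X₀ P₀ w n M Z σ p) (k : ℤ) : (k : ℝ) / n < ((k : ℝ) + 1) / n := by
  have hn : (0 : ℝ) < n := by exact_mod_cast T.n0
  exact div_lt_div_of_pos_right (by linarith) hn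

theorem ex_R (T : VtS Λ X₀ P₀ w n M Z σ p) (V : Ver n L M Z σ p ℓ m z jx) (i : ℤ) :
    ∃ u, R Λ X₀ n ℓ m jx i u := by
  obtain ⟨k, d, hi, h0, h1⟩ := ex_kd V i
  rcases h0.eq_or_lt with hd | hd
  · exact ⟨(k : ℝ) / n, k, d, hi, h0, h1, fun _ => rfl, fun h => absurd hd.symm h.ne'⟩
  · have hX := T.X0
    have hw := T.w0
    have hwX := T.wX
    have hM : (M (k + 1) : ℝ) = M k + σ k * ℓ k := by exact_mod_cast M_succ V k
    have hm : (m i : ℝ) = M k + σ k * d := by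
      have h := V.mm k d h0 h1.le
      rw [← hi] at h
      exact_mod_cast h
    have hs := ssq V k
    have ha := abs_le.1 (T.tb k)
    have hb := abs_le.1 (T.tb (k + 1))
    have hk1 : ((k + 1 : ℤ) : ℝ) = (k : ℝ) + 1 := by push_cast; ring
    rw [hk1] at hb
    have hd1 : (1 : ℝ) ≤ d := by exact_mod_cast hd
    have hd2 : (d : ℝ) + 1 ≤ ℓ k := by exact_mod_cast h1
    have hc : ContinuousOn (fun u => (σ k : ℝ) * Λ.x u) (Icc ((k : ℝ) / n) (((k : ℝ) + 1) / n)) :=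
      (continuous_const.mul (x_smooth Λ).continuous).continuousOn
    have hI := intermediate_value_Ioo (kn_lt T k).le hc
    have hv : (σ k : ℝ) * (X₀ * m i) ∈ Ioo ((σ k : ℝ) * Λ.x ((k : ℝ) / n))
        ((σ k : ℝ) * Λ.x (((k : ℝ) + 1) / n)) := by
      rw [hm]
      have e1 : (σ k : ℝ) * (X₀ * ((M k : ℝ) + σ k * d)) = σ k * (X₀ * M k) + X₀ * d := by
        calc (σ k : ℝ) * (X₀ * ((M k : ℝ) + σ k * d))
            = σ k * (X₀ * M k) + (σ k * σ k) * (X₀ * d) := by ring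
          _ = _ := by rw [hs, one_mul]
      have e2 : (σ k : ℝ) * (X₀ * M (k + 1)) = σ k * (X₀ * M k) + X₀ * ℓ k := by
        rw [hM]
        calc (σ k : ℝ) * (X₀ * ((M k : ℝ) + σ k * ℓ k))
            = σ k * (X₀ * M k) + (σ k * σ k) * (X₀ * ℓ k) := by ring
          _ = _ := by rw [hs, one_mul]
      have f1 : X₀ * 1 ≤ X₀ * d := mul_le_mul_of_nonneg_left hd1 hX.le
      have f2 : X₀ * ((d : ℝ) + 1) ≤ X₀ * ℓ k := mul_le_mul_of_nonneg_left hd2 hX.le
      rw [e1]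
      rcases scast V k with h | h
      · rw [h] at e2 ⊢
        constructor <;> linarith [ha.1, ha.2, hb.1, hb.2]
      · rw [h] at e2 ⊢
        constructor <;> linarith [ha.1, ha.2, hb.1, hb.2]
    obtain ⟨u, hu, hxu⟩ := hI hv
    refine ⟨u, k, d, hi, h0, h1, fun h => absurd h hd.ne', fun _ => ⟨hu.1, hu.2, ?_⟩⟩
    have h2 : (σ k : ℝ) * Λ.x u = σ k * (X₀ * m i) := hxu
    rcases scast V k with h | h
    · rw [h] at h2; linarith
    · rw [h] at h2; linarith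

/-- What is known about the parameters. -/
structure Sp (Λ : LC.LegKnot) (X₀ : ℝ) (n : ℕ) (ℓ m jx : ℤ → ℤ) (ν : ℤ → ℝ) : Prop where
  z : ∀ k, ν (jx k) = (k : ℝ) / n
  i : ∀ k d, 0 < d → d < ℓ k → (k : ℝ) / n < ν (jx k + d) ∧ ν (jx k + d) < ((k : ℝ) + 1) / n ∧
    Λ.x (ν (jx k + d)) = X₀ * m (jx k + d)

theorem ex_nu (T : VtS Λ X₀ P₀ w n M Z σ p) (V : Ver n L M Z σ p ℓ m z jx) :
    ∃ ν, Sp Λ X₀ n ℓ m jx ν := by
  choose ν hν using ex_R T V
  refine ⟨ν, fun k => ?_, fun k d h0 h1 => ?_⟩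
  · obtain ⟨k', d', hi, h0', h1', hz, -⟩ := hν (jx k)
    have hl := V.l1 k
    obtain ⟨rfl, hd⟩ := uq_kd V (k := k) (d := 0) (by rw [add_zero]; exact hi) le_rfl (by omega)
      h0' h1'
    exact hz hd.symm
  · obtain ⟨k', d', hi, h0', h1', -, hp⟩ := hν (jx k + d)
    obtain ⟨rfl, hd⟩ := uq_kd V hi h0.le h1 h0' h1'
    exact hp (by omega)

variable {ν : ℤ → ℝ}

theorem end_eq (V : Ver n L M Z σ p ℓ m z jx) (S : Sp Λ X₀ n ℓ m jx ν) (k : ℤ) :
    ν (jx k + ℓ k) = ((k : ℝ) + 1) / n := by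
  rw [← V.js k, S.z (k + 1)]
  push_cast
  ring

theorem in_Icc (T : VtS Λ X₀ P₀ w n M Z σ p) (V : Ver n L M Z σ p ℓ m z jx)
    (S : Sp Λ X₀ n ℓ m jx ν) {k d : ℤ} (h0 : 0 ≤ d) (h1 : d ≤ ℓ k) :
    ν (jx k + d) ∈ Icc ((k : ℝ) / n) (((k : ℝ) + 1) / n) := by
  have h := kn_lt T k
  rcases h0.eq_or_lt with hd | hd
  · rw [← hd, add_zero, S.z k]
    exact ⟨le_rfl, h.le⟩
  · rcases h1.eq_or_lt with he | he
    · rw [he, end_eq V S k]
      exact ⟨h.le, le_rfl⟩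
    · obtain ⟨a, b, -⟩ := S.i k d hd he
      exact ⟨a.le, b.le⟩

theorem nu_lt (T : VtS Λ X₀ P₀ w n M Z σ p) (V : Ver n L M Z σ p ℓ m z jx)
    (S : Sp Λ X₀ n ℓ m jx ν) {k d : ℤ} (h0 : 0 ≤ d) (h1 : d < ℓ k) :
    ν (jx k + d) < ν (jx k + (d + 1)) := by
  have h := kn_lt T k
  rcases h0.eq_or_lt with hd | hd
  · rw [← hd, add_zero, S.z k, zero_add]
    rcases (show (1 : ℤ) ≤ ℓ k by omega).eq_or_lt with he | he
    · rw [he, end_eq V S k]
      exact h
    · exact (S.i k 1 one_pos he).1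
  · obtain ⟨a, b, c⟩ := S.i k d hd h1
    rcases (show d + 1 ≤ ℓ k by omega).eq_or_lt with he | he
    · rw [he, end_eq V S k]
      exact b
    · obtain ⟨a', b', c'⟩ := S.i k (d + 1) (by omega) he
      by_contra hc
      rw [not_lt] at hc
      have h2 := (smon T k).monotoneOn ⟨a'.le, b'.le⟩ ⟨a.le, b.le⟩ hc
      have h3 : (σ k : ℝ) * Λ.x (ν (jx k + (d + 1))) ≤ σ k * Λ.x (ν (jx k + d)) := h2
      rw [c, c'] at h3
      have e1 : (m (jx k + d) : ℝ) = M k + σ k * d := by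
        exact_mod_cast V.mm k d h0 h1.le
      have e2 : (m (jx k + (d + 1)) : ℝ) = M k + σ k * ((d : ℝ) + 1) := by
        exact_mod_cast V.mm k (d + 1) (by omega) he.le
      rw [e1, e2] at h3
      have hs := ssq V k
      have hX := T.X0
      have e3 : (σ k : ℝ) * (X₀ * ((M k : ℝ) + σ k * ((d : ℝ) + 1))) =
          σ k * (X₀ * ((M k : ℝ) + σ k * d)) + X₀ * (σ k * σ k) := by ring
      rw [e3, hs] at h3
      linarith

/-- The line through the vertex is the line through the point. -/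
theorem line (T : VtS Λ X₀ P₀ w n M Z σ p) (V : Ver n L M Z σ p ℓ m z jx) {k d : ℤ}
    (h0 : 0 ≤ d) (h1 : d ≤ ℓ k) {u : ℝ} (hu : u ∈ Icc ((k : ℝ) / n) (((k : ℝ) + 1) / n))
    (ha : w ≤ (σ k : ℝ) * (Λ.x u - X₀ * m (jx k + d)) + X₀ * d)
    (hb : w ≤ X₀ * (ℓ k - d) - (σ k : ℝ) * (Λ.x u - X₀ * m (jx k + d))) (t : ℝ) :
    TL Λ u t = X₀ * P₀ * z (jx k + d) + P₀ * p k * (t - X₀ * m (jx k + d)) := by
  have hs := ssq V k
  have e1 : (m (jx k + d) : ℝ) = M k + σ k * d := by exact_mod_cast V.mm k d h0 h1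
  have e2 : (z (jx k + d) : ℝ) = Z k + σ k * p k * d := by exact_mod_cast V.zz k d h0 h1
  have hM : (M (k + 1) : ℝ) = M k + σ k * ℓ k := by exact_mod_cast M_succ V k
  have h2 := T.zi k u hu
    (by
      rw [e1] at ha
      have e3 : (σ k : ℝ) * (Λ.x u - X₀ * ((M k : ℝ) + σ k * d)) + X₀ * d =
          (σ k : ℝ) * (Λ.x u - X₀ * M k) + X₀ * d * (1 - σ k * σ k) := by ring
      rw [e3, hs, sub_self, mul_zero, add_zero] at ha
      exact ha)
    (by
      rw [e1] at hb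
      rw [hM]
      have e3 : X₀ * ((ℓ k : ℝ) - d) - (σ k : ℝ) * (Λ.x u - X₀ * ((M k : ℝ) + σ k * d)) =
          (σ k : ℝ) * (X₀ * ((M k : ℝ) + σ k * ℓ k) - Λ.x u) +
            X₀ * ((ℓ k : ℝ) - d) * (1 - σ k * σ k) := by ring
      rw [e3, hs, sub_self, mul_zero, add_zero] at hb
      exact hb) t
  rw [h2, e1, e2]
  ring

/-- The previous point of a vertex. -/
theorem prev (V : Ver n L M Z σ p ℓ m z jx) (k : ℤ) :
    jx k - 1 = jx (k - 1) + (ℓ (k - 1) - 1) := by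
  have h := V.js (k - 1)
  rw [sub_add_cancel] at h
  omega

theorem per_nu (T : VtS Λ X₀ P₀ w n M Z σ p) (V : Ver n L M Z σ p ℓ m z jx)
    (S : Sp Λ X₀ n ℓ m jx ν) (i : ℤ) : ν (i + L) = ν i + 1 := by
  obtain ⟨k, d, rfl, h0, h1⟩ := ex_kd V i
  have hn : (0 : ℝ) < n := by exact_mod_cast T.n0
  have e : jx k + d + (L : ℤ) = jx (k + n) + d := by rw [V.jp k]; ring
  have hk : ((k + n : ℤ) : ℝ) / n = (k : ℝ) / n + 1 := by
    push_cast
    rw [add_div, div_self hn.ne']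
  have hk' : (((k + n : ℤ) : ℝ) + 1) / n = ((k : ℝ) + 1) / n + 1 := by
    push_cast
    field_simp
    ring
  rcases h0.eq_or_lt with hd | hd
  · rw [e, ← hd, add_zero, add_zero, S.z k, S.z (k + n), hk]
  · obtain ⟨a, b, c⟩ := S.i k d hd h1
    obtain ⟨a', b', c'⟩ := S.i (k + n) d hd (by rw [l_per V k]; exact h1)
    have hx : Λ.x (ν (jx k + d + (L : ℤ))) = Λ.x (ν (jx k + d) + 1) := by
      rw [x_per, c, e, c', ← e, V.mp]
    rw [e] at hx ⊢
    refine (smon T (k + n)).injOn ⟨a'.le, b'.le⟩ ⟨?_, ?_⟩ ?_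
    · rw [hk]; linarith
    · rw [hk']; linarith
    · rw [hx]

end VLS

open VLS in
theorem t_VLS : Stmt_VLS := by
  intro Λ X₀ P₀ w n L M Z σ p ℓ m z jx _ T V
  obtain ⟨ν, S⟩ := ex_nu T V
  have hX := T.X0
  have hP := T.P0
  have hw := T.w0
  have hwX := T.wX
  -- the point `i` in the edge `k`
  have hIccE : ∀ (k d : ℤ), 0 ≤ d → d < ℓ k → ∀ u, u ∈ Icc (ν (jx k + d)) (ν (jx k + d + 1)) →
      u ∈ Icc ((k : ℝ) / n) (((k : ℝ) + 1) / n) := by
    intro k d h0 h1 u hu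
    have h2 := in_Icc T V S h0 h1.le
    have h3 := in_Icc T V S (k := k) (d := d + 1) (by omega) (by omega)
    rw [← add_assoc] at h3
    exact ⟨h2.1.trans hu.1, hu.2.trans h3.2⟩
  have hprev : ∀ (k : ℤ) (f : ℤ → ℝ), f (jx k - 1) = f (jx (k - 1) + (ℓ (k - 1) - 1)) := by
    intro k f
    rw [prev V k]
  have hsp : ∀ k, sg m (jx k - 1) = σ (k - 1) ∧ sl m z (jx k - 1) = p (k - 1) := by
    intro k
    have hl := V.l1 (k - 1)
    rw [prev V k]
    exact ⟨sg_eq V (by omega) (by omega), sl_eq V (by omega) (by omega)⟩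
  have hs0 : ∀ k, sg m (jx k) = σ k ∧ sl m z (jx k) = p k := by
    intro k
    have hl := V.l1 k
    have h1 := sg_eq V (k := k) (d := 0) le_rfl (by omega)
    have h2 := sl_eq V (k := k) (d := 0) le_rfl (by omega)
    rw [add_zero] at h1 h2
    exact ⟨h1, h2⟩
  have hsd : ∀ k d, 0 < d → d < ℓ k → sg m (jx k + d - 1) = σ k ∧ sl m z (jx k + d - 1) = p k ∧
      sg m (jx k + d) = σ k ∧ sl m z (jx k + d) = p k := by
    intro k d h0 h1
    have e : jx k + d - 1 = jx k + (d - 1) := by ring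
    rw [e]
    exact ⟨sg_eq V (by omega) (by omega), sl_eq V (by omega) (by omega),
      sg_eq V h0.le h1, sl_eq V h0.le h1⟩
  have hlow : ∀ k : ℤ, ((k : ℝ) - 1) / n ≤ ν (jx k - 1) := by
    intro k
    have hl := V.l1 (k - 1)
    have h := (in_Icc T V S (k := k - 1) (d := ℓ (k - 1) - 1) (by omega) (by omega)).1
    rw [prev V k]
    have e : ((k - 1 : ℤ) : ℝ) = (k : ℝ) - 1 := by push_cast; ring
    rw [e] at h
    exact h
  have hupp : ∀ k : ℤ, ν (jx k + 1) ≤ ((k : ℝ) + 1) / n := by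
    intro k
    have hl := V.l1 k
    exact (in_Icc T V S (k := k) (d := 1) (by omega) hl).2
  -- interior points
  have hint : ∀ k d, 0 < d → d < ℓ k → ∀ u ∈ Icc (ν (jx k + d - 1)) (ν (jx k + d + 1)),
      |Λ.x u - X₀ * m (jx k + d)| ≤ 3 / 4 * X₀ → ∀ t, TL Λ u t =
        X₀ * P₀ * z (jx k + d) + P₀ * p k * (t - X₀ * m (jx k + d)) := by
    intro k d h0 h1 u hu hxu t
    have hl : u ∈ Icc ((k : ℝ) / n) (((k : ℝ) + 1) / n) := by
      have h2 := in_Icc T V S (k := k) (d := d - 1) (by omega) (by omega)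
      have h3 := in_Icc T V S (k := k) (d := d + 1) (by omega) (by omega)
      have e : jx k + d - 1 = jx k + (d - 1) := by ring
      have e' : jx k + d + 1 = jx k + (d + 1) := by ring
      rw [e, e'] at hu
      exact ⟨h2.1.trans hu.1, hu.2.trans h3.2⟩
    have hd1 : (1 : ℝ) ≤ d := by exact_mod_cast h0
    have hd2 : (1 : ℝ) ≤ (ℓ k : ℝ) - d := by
      have : (d : ℝ) + 1 ≤ ℓ k := by exact_mod_cast h1
      linarith
    have f1 : X₀ * 1 ≤ X₀ * d := mul_le_mul_of_nonneg_left hd1 hX.le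
    have f2 : X₀ * 1 ≤ X₀ * ((ℓ k : ℝ) - d) := mul_le_mul_of_nonneg_left hd2 hX.le
    have ha := abs_le.1 hxu
    refine line T V h0.le h1.le hl ?_ ?_ t
    · rcases scast V k with h | h <;> rw [h] <;> linarith [ha.1, ha.2]
    · rcases scast V k with h | h <;> rw [h] <;> linarith [ha.1, ha.2]
  refine ⟨ν, hX, hP, hw, hwX, ?_, per_nu T V S, ?_, ?_, ?_, ?_, ?_, ?_, ?_, ?_, ?_, ?_⟩
  · -- mono
    intro i
    obtain ⟨k, d, rfl, h0, h1⟩ := ex_kd V i
    have h := nu_lt T V S h0 h1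
    rw [← add_assoc] at h
    exact h
  · -- dx
    intro i u hu
    obtain ⟨k, d, rfl, h0, h1⟩ := ex_kd V i
    rw [sg_eq V h0 h1]
    have h2 := in_Icc T V S h0 h1.le
    have h3 := in_Icc T V S (k := k) (d := d + 1) (by omega) (by omega)
    rw [← add_assoc] at h3
    exact T.dx k u ⟨lt_of_le_of_lt h2.1 hu.1, lt_of_lt_of_le hu.2 h3.2⟩
  · -- vx
    intro i hi
    obtain ⟨k, d, rfl, h0, h1⟩ := ex_kd V i
    rcases h0.eq_or_lt with hd | hd
    · subst hd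
      rw [add_zero] at hi ⊢
      rw [(hsp k).1, (hs0 k).1] at hi
      rw [S.z k, M_jx V, (hs0 k).1]
      exact T.vx k hi
    · obtain ⟨a, b, c⟩ := S.i k d hd h1
      rw [(hsd k d hd h1).2.2.1]
      exact ⟨c, T.dx k _ ⟨a, b⟩⟩
  · -- tx
    intro i hi
    obtain ⟨k, d, rfl, h0, h1⟩ := ex_kd V i
    rcases h0.eq_or_lt with hd | hd
    · subst hd
      rw [add_zero] at hi ⊢
      rw [(hsp k).1, (hs0 k).1] at hi
      rw [S.z k, M_jx V, (hs0 k).1]
      exact T.tx k hi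
    · exact absurd ((hsd k d hd h1).1.trans (hsd k d hd h1).2.2.1.symm) hi
  · -- tb
    intro i
    obtain ⟨k, d, rfl, h0, h1⟩ := ex_kd V i
    rcases h0.eq_or_lt with hd | hd
    · subst hd
      rw [add_zero, S.z k, M_jx V]
      exact T.tb k
    · rw [(S.i k d hd h1).2.2, sub_self, abs_zero]
      positivity
  · -- zs
    intro i hi hi' u hu hxu t
    obtain ⟨k, d, rfl, h0, h1⟩ := ex_kd V i
    rcases h0.eq_or_lt with hd | hd
    · subst hd
      rw [add_zero, (hsp k).2, (hs0 k).2] at hi'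
      exact absurd hi' (V.alt k)
    · rw [(hsd k d hd h1).2.2.2]
      exact hint k d hd h1 u hu hxu t
  · -- zb
    intro i u hu hxu t ht
    obtain ⟨k, d, rfl, h0, h1⟩ := ex_kd V i
    rcases h0.eq_or_lt with hd | hd
    · subst hd
      rw [add_zero] at hu hxu ht ⊢
      rw [M_jx V] at hxu ht
      rw [Z_jx V]
      exact T.zb k u ⟨(hlow k).trans hu.1, hu.2.trans (hupp k)⟩ hxu t ht
    · rw [hint k d hd h1 u hu hxu t, add_sub_cancel_left, abs_mul, abs_mul, abs_of_pos hP]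
      have hp : |(p k : ℝ)| = 1 := by
        rcases V.p1 k with h | h <;> rw [h] <;> norm_num
      rw [hp, mul_one]
      calc P₀ * |t - X₀ * m (jx k + d)| ≤ P₀ * (51 / 100 * X₀) :=
            mul_le_mul_of_nonneg_left ht hP.le
        _ ≤ 5 / 8 * (X₀ * P₀) := by
            have := mul_pos hX hP
            nlinarith
  · -- zi
    intro i u hu ha hb t
    obtain ⟨k, d, hi, h0, h1⟩ := ex_kd V (i - 1)
    have hi' : i = jx k + (d + 1) := by omega
    have hu' : u ∈ Icc ((k : ℝ) / n) (((k : ℝ) + 1) / n) := by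
      refine hIccE k d h0 h1 u ?_
      rw [← hi, sub_add_cancel]
      exact hu
    rw [hi, sg_eq V h0 h1] at ha hb
    rw [hi, sl_eq V h0 h1]
    have hd1 : (0 : ℝ) ≤ d := by exact_mod_cast h0
    have hd2 : (0 : ℝ) ≤ (ℓ k : ℝ) - ((d + 1 : ℤ) : ℝ) := by
      have : ((d + 1 : ℤ) : ℝ) ≤ ℓ k := by exact_mod_cast h1
      linarith
    have f1 : 0 ≤ X₀ * d := mul_nonneg hX.le hd1
    have f2 : 0 ≤ X₀ * ((ℓ k : ℝ) - ((d + 1 : ℤ) : ℝ)) := mul_nonneg hX.le hd2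
    have e : X₀ * ((d + 1 : ℤ) : ℝ) = X₀ * d + X₀ := by push_cast; ring
    rw [hi'] at ha hb ⊢
    refine line T V (by omega) (by omega) hu' ?_ ?_ t
    · rw [e]; linarith
    · linarith
  · -- zo
    intro i u hu ha hb t
    obtain ⟨k, d, rfl, h0, h1⟩ := ex_kd V i
    have hu' := hIccE k d h0 h1 u hu
    rw [sg_eq V h0 h1] at ha hb
    rw [sl_eq V h0 h1]
    have hd1 : (0 : ℝ) ≤ d := by exact_mod_cast h0
    have hd2 : (1 : ℝ) ≤ (ℓ k : ℝ) - d := by
      have : (d : ℝ) + 1 ≤ ℓ k := by exact_mod_cast h1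
      linarith
    have f1 : 0 ≤ X₀ * d := mul_nonneg hX.le hd1
    have f2 : X₀ * 1 ≤ X₀ * ((ℓ k : ℝ) - d) := mul_le_mul_of_nonneg_left hd2 hX.le
    refine line T V h0 h1.le hu' ?_ ?_ t
    · linarith
    · linarith
  · -- ym
    intro i hi u hu hxu
    obtain ⟨k, d, rfl, h0, h1⟩ := ex_kd V i
    rcases h0.eq_or_lt with hd | hd
    · subst hd
      rw [add_zero] at hi hu hxu ⊢
      rw [(hsp k).1, (hs0 k).1] at hi
      rw [M_jx V] at hxu
      rw [(hsp k).2, (hs0 k).2]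
      exact T.ym k hi u ⟨lt_of_le_of_lt (hlow k) hu.1, lt_of_lt_of_le hu.2 (hupp k)⟩ hxu
    · exact absurd ((hsd k d hd h1).1.trans (hsd k d hd h1).2.2.1.symm) hi
  · -- yt
    intro i hi u hu hxu
    obtain ⟨k, d, rfl, h0, h1⟩ := ex_kd V i
    rcases h0.eq_or_lt with hd | hd
    · subst hd
      rw [add_zero] at hi hu hxu
      rw [(hsp k).1, (hs0 k).1] at hi
      rw [M_jx V, (hs0 k).1] at hxu
      exact T.yt k hi u ⟨lt_of_le_of_lt (hlow k) hu.1, lt_of_lt_of_le hu.2 (hupp k)⟩ hxu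
    · exact absurd ((hsd k d hd h1).1.trans (hsd k d hd h1).2.2.1.symm) hi

end LHE
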