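import Pool.Agent.LHE.Stmts4

/-!
# The curve near a vertex in terms of the path
-/

namespace LHE

open Set LG LH LCA
open scoped ContDiff

namespace VXF

variable {n : ℕ} [NeZero n] {c : Comb n n} {w : Fin n → ℝ} {Q : St n} {X₀ P₀ w₀ : ℝ}
  {M Z σ p ℓ : ℤ → ℤ}

theorem dM (C : Cfg c w Q X₀ P₀ w₀ M Z σ p ℓ) (k : ℤ) :
    (M (k + 1) : ℝ) - M k = σ k * ℓ k := by
  have h := C.M1 k
  rw [h]
  push_cast
  ring

theorem dZ (C : Cfg c w Q X₀ P₀ w₀ M Z σ p ℓ) (k : ℤ) :
    (Z (k + 1) : ℝ) - Z k = σ k * p k * ℓ k := by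
  have h := C.Z1 k
  rw [h]
  push_cast
  ring

theorem lpos (C : Cfg c w Q X₀ P₀ w₀ M Z σ p ℓ) (k : ℤ) : (1 : ℝ) ≤ ℓ k := by
  exact_mod_cast C.l1 k

/-- The direction of the edge `k`. -/
theorem dir (C : Cfg c w Q X₀ P₀ w₀ M Z σ p ℓ) (k : ℤ) :
    (σ k = 1 ∧ c.lf (KNT.idx n k) = KNT.idx n k ∧ c.rt (KNT.idx n k) = KNT.idx n (k + 1)) ∨
      (σ k = -1 ∧ c.lf (KNT.idx n k) = KNT.idx n (k + 1) ∧
        c.rt (KNT.idx n k) = KNT.idx n k) := by
  have hl := C.len (KNT.idx n k)
  have hM := dM C k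
  have hL := lpos C k
  have hX := C.X0
  rcases KNT.cyc_edge c C.cyc k with ⟨h1, h2⟩ | ⟨h1, h2⟩
  · left
    refine ⟨?_, h1, h2⟩
    rcases C.s1 k with h | h
    · exact h
    · exfalso
      rw [h1, h2, C.pos, C.pos] at hl
      rw [h] at hM
      push_cast at hM
      nlinarith
  · right
    refine ⟨?_, h1, h2⟩
    rcases C.s1 k with h | h
    · exfalso
      rw [h1, h2, C.pos, C.pos] at hl
      rw [h] at hM
      push_cast at hM
      nlinarith
    · exact h

/-- The slope of the edge `k`. -/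
theorem slope (C : Cfg c w Q X₀ P₀ w₀ M Z σ p ℓ) (k : ℤ) :
    c.pe Q (KNT.idx n k) = P₀ * p k := by
  have hM := dM C k
  have hZ := dZ C k
  have hL := lpos C k
  have hX := C.X0
  unfold Comb.pe
  rcases dir C k with ⟨h, h1, h2⟩ | ⟨h, h1, h2⟩
  · rw [h1, h2, C.pos, C.pos, C.hgt, C.hgt]
    rw [h] at hM hZ
    push_cast at hM hZ
    have e1 : X₀ * (M (k + 1) : ℝ) - X₀ * M k = X₀ * ℓ k := by linear_combination X₀ * hM
    have e2 : X₀ * P₀ * (Z (k + 1) : ℝ) - X₀ * P₀ * Z k = X₀ * P₀ * (p k * ℓ k) := by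
      linear_combination X₀ * P₀ * hZ
    rw [e1, e2]
    have : X₀ * (ℓ k : ℝ) ≠ 0 := by positivity
    field_simp
  · rw [h1, h2, C.pos, C.pos, C.hgt, C.hgt]
    rw [h] at hM hZ
    push_cast at hM hZ
    have e1 : X₀ * (M k : ℝ) - X₀ * M (k + 1) = X₀ * ℓ k := by linear_combination -X₀ * hM
    have e2 : X₀ * P₀ * (Z k : ℝ) - X₀ * P₀ * Z (k + 1) = X₀ * P₀ * (p k * ℓ k) := by
      linear_combination -(X₀ * P₀) * hZ
    rw [e1, e2]
    have : X₀ * (ℓ k : ℝ) ≠ 0 := by positivity
    field_simp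

/-- The line of an edge passes through its ends. -/
theorem line (C : Cfg c w Q X₀ P₀ w₀ M Z σ p ℓ) (e i : Fin n) (h : c.lf e = i ∨ c.rt e = i) :
    c.pe Q e * Q.1 i + c.ae Q e = Q.2 i := by
  have hl := C.len e
  have hne : Q.1 (c.rt e) - Q.1 (c.lf e) ≠ 0 := by linarith
  have h0 : c.pe Q e * (Q.1 (c.rt e) - Q.1 (c.lf e)) = Q.2 (c.rt e) - Q.2 (c.lf e) := by
    unfold Comb.pe
    field_simp
  unfold Comb.ae
  rcases h with h | h
  · subst h
    ring
  · subst h
    linear_combination h0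

theorem abs_le_three {a b : ℝ} (ha : |a| ≤ 1) (hb : |b| ≤ 2) : |a - b| ≤ 3 := by
  rw [abs_le] at ha hb ⊢
  constructor <;> linarith

/-- The form of the point. -/
theorem Ak_eq (sh : Shape) (C : Cfg c w Q X₀ P₀ w₀ M Z σ p ℓ) (k : ℤ) (U X Θ : ℝ)
    (hX : (sh.st (c.ty (KNT.idx n k))).X 0 (KNT.ek c k * U) = X)
    (hΘ : (sh.st (c.ty (KNT.idx n k))).Θ 0 (KNT.ek c k * U) = Θ) (a b : ℤ)
    (ha : c.ea (KNT.idx n k) = KNT.idx n a) (hb : c.eb (KNT.idx n k) = KNT.idx n b)
    (hl : c.lf (c.ea (KNT.idx n k)) = KNT.idx n k ∨ c.rt (c.ea (KNT.idx n k)) = KNT.idx n k) :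
    KNT.Ak sh c w Q k U = (X₀ * M k + w₀ * X, P₀ * p a + (P₀ * p b - P₀ * p a) *
      sh.τ (KNT.ek c k * U), X₀ * P₀ * Z k + P₀ * p a * (w₀ * X) +
        w₀ * (P₀ * p b - P₀ * p a) * Θ) := by
  have h1 := line C _ _ hl
  have e1 := slope C a
  have e2 := slope C b
  unfold KNT.Ak KNT.Vc
  rw [KNT.vp_eq, hX, hΘ]
  unfold KNT.prj Comb.dl
  rw [C.w, C.pos]
  rw [C.hgt, C.pos] at h1
  rw [ha, hb, e1, e2]
  rw [ha, e1] at h1
  refine Prod.ext rfl (Prod.ext rfl ?_)
  simp only
  linear_combination h1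

end VXF

open VXF in
theorem t_VXF : Stmt_VXF := by
  intro n _ sh c w Q X₀ P₀ w₀ M Z σ p ℓ C k U
  have hv := C.valid
  have oa := hv.oka (KNT.idx n k)
  have ob := hv.okb (KNT.idx n k)
  have d1 := dir C k
  have d0 := dir C (k - 1)
  rw [sub_add_cancel] at d0
  have ne0 := KNT.lf_ne c Q C.len (KNT.idx n k)
  have ne1 := KNT.lf_ne c Q C.len (KNT.idx n (k - 1))
  have hne := hv.ne (KNT.idx n k)
  rcases KNT.cyc_vert c C.cyc k with ⟨ea, eb⟩ | ⟨ea, eb⟩
  · -- the outgoing edge is `eb`
    have hek : KNT.ek c k = 1 := by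
      unfold KNT.ek
      rw [if_pos eb]
    unfold Comb.OKa at oa
    unfold Comb.OKb at ob
    rw [ea] at oa
    rw [eb] at ob
    cases hty : c.ty (KNT.idx n k) with
    | P =>
      simp only [hty] at oa ob
      have s0 : σ (k - 1) = 1 := by
        rcases d0 with ⟨h, -, -⟩ | ⟨-, h, h'⟩
        · exact h
        · exact absurd (h.trans oa.symm) ne1
      have s1 : σ k = 1 := by
        rcases d1 with ⟨h, -, -⟩ | ⟨-, h, h'⟩
        · exact h
        · exact absurd (ob.trans h'.symm) ne0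
      have hchi : chi sh σ k U = U := by
        unfold chi
        rw [if_pos (by rw [s0, s1]), s1]
        push_cast
        ring
      refine ⟨sh.ΘP U, ?_, ?_, ?_, ?_⟩
      · rw [Ak_eq sh C k U U (sh.ΘP U) (by rw [hty, hek, one_mul]; rfl)
          (by rw [hty, hek, one_mul]; rfl) (k - 1) k ea eb (Or.inr (by rw [ea]; exact oa)), hchi,
          hek, one_mul]
        refine Prod.ext rfl (Prod.ext ?_ ?_) <;> simp only <;> ring
      · exact sh.ΘP_low U
      · intro h
        rw [hchi]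
        exact sh.ΘP_high U h
      · intro h
        have := sh.ΘP_bd U (by linarith)
        linarith
    | R =>
      simp only [hty] at oa ob
      have s0 : σ (k - 1) = 1 := by
        rcases d0 with ⟨h, -, -⟩ | ⟨-, h, h'⟩
        · exact h
        · exact absurd (h.trans oa.symm) ne1
      have s1 : σ k = -1 := by
        rcases d1 with ⟨-, h, h'⟩ | ⟨h, -, -⟩
        · exact absurd (h.trans ob.symm) ne0
        · exact h
      have hchi : chi sh σ k U = sh.ξ U := by
        unfold chi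
        rw [if_neg (by rw [s0, s1]; norm_num), s1]
        push_cast
        ring
      refine ⟨sh.ΘR U, ?_, ?_, ?_, ?_⟩
      · rw [Ak_eq sh C k U (sh.ξ U) (sh.ΘR U) (by rw [hty, hek, one_mul]; rfl)
          (by rw [hty, hek, one_mul]; rfl) (k - 1) k ea eb (Or.inr (by rw [ea]; exact oa)), hchi,
          hek, one_mul]
        refine Prod.ext rfl (Prod.ext ?_ ?_) <;> simp only <;> ring
      · exact sh.ΘR_low U
      · intro h
        rw [hchi, sh.ΘR_high U h, sh.ξ_out U (by rw [abs_of_nonneg (by linarith)]; exact h),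
          abs_of_nonneg (by linarith)]
      · intro h
        have := sh.ΘR_bd U (by linarith)
        linarith
    | L =>
      simp only [hty] at oa ob
      have s0 : σ (k - 1) = -1 := by
        rcases d0 with ⟨-, h, h'⟩ | ⟨h, -, -⟩
        · exact absurd (oa.trans h'.symm) ne1
        · exact h
      have s1 : σ k = 1 := by
        rcases d1 with ⟨h, -, -⟩ | ⟨-, h, h'⟩
        · exact h
        · exact absurd (ob.trans h'.symm) ne0
      have hchi : chi sh σ k U = -sh.ξ U := by
        unfold chi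
        rw [if_neg (by rw [s0, s1]; norm_num), s1]
        push_cast
        ring
      refine ⟨-sh.ΘR U, ?_, ?_, ?_, ?_⟩
      · rw [Ak_eq sh C k U (-sh.ξ U) (-sh.ΘR U) (by rw [hty, hek, one_mul]; rfl)
          (by rw [hty, hek, one_mul]; rfl) (k - 1) k ea eb (Or.inl (by rw [ea]; exact oa)), hchi,
          hek, one_mul]
        refine Prod.ext rfl (Prod.ext ?_ ?_) <;> simp only <;> ring
      · intro h
        rw [sh.ΘR_low U h, neg_zero]
      · intro h
        rw [hchi, sh.ΘR_high U h, sh.ξ_out U (by rw [abs_of_nonneg (by linarith)]; exact h),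
          abs_of_nonneg (by linarith)]
      · intro h
        have := sh.ΘR_bd U (by linarith)
        rw [abs_neg]
        linarith
  · -- the outgoing edge is `ea`
    have hek : KNT.ek c k = -1 := by
      unfold KNT.ek
      rw [if_neg]
      intro h
      exact hne (by rw [h, ea])
    unfold Comb.OKa at oa
    unfold Comb.OKb at ob
    rw [ea] at oa
    rw [eb] at ob
    have hτ := sh.τ_symm U
    cases hty : c.ty (KNT.idx n k) with
    | P =>
      simp only [hty] at oa ob
      have s1 : σ k = -1 := by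
        rcases d1 with ⟨-, h, h'⟩ | ⟨h, -, -⟩
        · exact absurd (h.trans oa.symm) ne0
        · exact h
      have s0 : σ (k - 1) = -1 := by
        rcases d0 with ⟨-, h, h'⟩ | ⟨h, -, -⟩
        · exact absurd (ob.trans h'.symm) ne1
        · exact h
      have hchi : chi sh σ k U = -U := by
        unfold chi
        rw [if_pos (by rw [s0, s1]), s1]
        push_cast
        ring
      refine ⟨-U - sh.ΘP (-U), ?_, ?_, ?_, ?_⟩
      · rw [Ak_eq sh C k U (-U) (sh.ΘP (-U)) (by rw [hty, hek, neg_one_mul]; rfl)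
          (by rw [hty, hek, neg_one_mul]; rfl) k (k - 1) ea eb (Or.inr (by rw [ea]; exact oa)),
          hchi, hek, neg_one_mul, hτ]
        refine Prod.ext rfl (Prod.ext ?_ ?_) <;> simp only <;> ring
      · intro h
        rw [sh.ΘP_high (-U) (by linarith), sub_self]
      · intro h
        rw [hchi, sh.ΘP_low (-U) (by linarith), sub_zero]
      · intro h
        exact abs_le_three (by rwa [abs_neg]) (sh.ΘP_bd _ (by rw [abs_neg]; linarith))
    | R =>
      simp only [hty] at oa ob
      have s1 : σ k = -1 := by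
        rcases d1 with ⟨-, h, h'⟩ | ⟨h, -, -⟩
        · exact absurd (h.trans oa.symm) ne0
        · exact h
      have s0 : σ (k - 1) = 1 := by
        rcases d0 with ⟨h, -, -⟩ | ⟨-, h, h'⟩
        · exact h
        · exact absurd (h.trans ob.symm) ne1
      have hchi : chi sh σ k U = sh.ξ U := by
        unfold chi
        rw [if_neg (by rw [s0, s1]; norm_num), s1]
        push_cast
        ring
      refine ⟨sh.ξ U - sh.ΘR (-U), ?_, ?_, ?_, ?_⟩
      · rw [Ak_eq sh C k U (sh.ξ U) (sh.ΘR (-U))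
          (by rw [hty, hek, neg_one_mul]; exact sh.ξ_even U)
          (by rw [hty, hek, neg_one_mul]; rfl) k (k - 1) ea eb (Or.inr (by rw [ea]; exact oa)),
          hchi, hek, neg_one_mul, hτ]
        refine Prod.ext rfl (Prod.ext ?_ ?_) <;> simp only <;> ring
      · intro h
        rw [sh.ΘR_high (-U) (by linarith), sh.ξ_out U (by rw [abs_of_nonpos (by linarith)]; linarith),
          abs_of_nonpos (by linarith)]
        ring
      · intro h
        rw [hchi, sh.ΘR_low (-U) (by linarith), sub_zero]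
      · intro h
        exact abs_le_three (sh.ξ_in U h) (sh.ΘR_bd _ (by rw [abs_neg]; linarith))
    | L =>
      simp only [hty] at oa ob
      have s1 : σ k = 1 := by
        rcases d1 with ⟨h, -, -⟩ | ⟨-, h, h'⟩
        · exact h
        · exact absurd (oa.trans h'.symm) ne0
      have s0 : σ (k - 1) = -1 := by
        rcases d0 with ⟨-, h, h'⟩ | ⟨h, -, -⟩
        · exact absurd (ob.trans h'.symm) ne1
        · exact h
      have hchi : chi sh σ k U = -sh.ξ U := by
        unfold chi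
        rw [if_neg (by rw [s0, s1]; norm_num), s1]
        push_cast
        ring
      refine ⟨-sh.ξ U - -sh.ΘR (-U), ?_, ?_, ?_, ?_⟩
      · rw [Ak_eq sh C k U (-sh.ξ U) (-sh.ΘR (-U))
          (by rw [hty, hek, neg_one_mul]; exact congrArg Neg.neg (sh.ξ_even U))
          (by rw [hty, hek, neg_one_mul]; rfl) k (k - 1) ea eb (Or.inl (by rw [ea]; exact oa)),
          hchi, hek, neg_one_mul, hτ]
        refine Prod.ext rfl (Prod.ext ?_ ?_) <;> simp only <;> ring
      · intro h
        rw [sh.ΘR_high (-U) (by linarith), sh.ξ_out U (by rw [abs_of_nonpos (by linarith)]; linarith),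
          abs_of_nonpos (by linarith)]
        ring
      · intro h
        rw [hchi, sh.ΘR_low (-U) (by linarith), neg_zero, sub_zero]
      · intro h
        refine abs_le_three (by rw [abs_neg]; exact sh.ξ_in U h) ?_
        rw [abs_neg]
        exact sh.ΘR_bd _ (by rw [abs_neg]; linarith)

end LHE
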