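import Pool.Agent.LHE.Stmts4

/-!
# VXT: the tangent lines of a knot along a grid polygon
-/

set_option autoImplicit false

namespace LHE

open Set LG LH LCA
open scoped ContDiff

namespace VXT

theorem abs_s {s : ℤ} (h : s = 1 ∨ s = -1) : |(s : ℝ)| = 1 := by
  rcases h with h | h <;> simp [h]

theorem sq_s {s : ℤ} (h : s = 1 ∨ s = -1) : (s : ℝ) * s = 1 := by
  rcases h with h | h <;> simp [h]

theorem chi_bd (sh : Shape) (σ : ℤ → ℤ) (hs : ∀ k, σ k = 1 ∨ σ k = -1) (k : ℤ) (U : ℝ) {B : ℝ}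
    (h1 : 1 ≤ B) (hU : |U| ≤ B) : |chi sh σ k U| ≤ B := by
  have h2 := abs_s (hs k)
  unfold chi
  split_ifs with h
  · rw [abs_mul, h2, one_mul]
    exact hU
  · rw [abs_mul, abs_neg, h2, one_mul]
    rcases le_total |U| 1 with h3 | h3
    · exact (sh.ξ_in U h3).trans h1
    · rw [sh.ξ_out U h3, abs_neg, abs_abs]
      exact hU

theorem xi_ge (sh : Shape) {U : ℝ} (h0 : 0 ≤ U) (h : sh.ξ U ≤ -1) : 1 ≤ U := by
  by_contra hc
  have hc : U < 1 := not_le.mp hc
  have h1 : sh.ξ 1 < sh.ξ U := sh.ξ_anti (show (0 : ℝ) ≤ U from h0) (show (0 : ℝ) ≤ 1 by norm_num) hc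
  have h2 : sh.ξ 1 = -|(1 : ℝ)| := sh.ξ_out 1 (by norm_num)
  rw [h2, abs_one] at h1
  linarith

section

variable {n : ℕ} [NeZero n] {Λ : LC.LegKnot} {sh : Shape} {c : Comb n n} {w : Fin n → ℝ}
  {Q : St n} {X₀ P₀ w₀ : ℝ} {M Z σ p ℓ : ℤ → ℤ}

theorem vert (hVXF : P_VXF) (hc : Cfg c w Q X₀ P₀ w₀ M Z σ p ℓ) (hp : Prm Λ sh c w Q) (k : ℤ)
    (t : ℝ) (ht : |t| ≤ 3 / 4) :
    ∃ Ψ : ℝ, Λ.x ((k + t) / n) = X₀ * M k + w₀ * chi sh σ k (KNT.Uk sh c w Q k t) ∧
      (∀ t' : ℝ, TL Λ ((k + t) / n) t' = X₀ * P₀ * Z k +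
        P₀ * (p (k - 1) + ((p k : ℝ) - p (k - 1)) * sh.τ (KNT.Uk sh c w Q k t)) *
          (t' - X₀ * M k) +
        w₀ * P₀ * ((p k : ℝ) - p (k - 1)) *
          (Ψ - sh.τ (KNT.Uk sh c w Q k t) * chi sh σ k (KNT.Uk sh c w Q k t))) ∧
      (KNT.Uk sh c w Q k t ≤ -1 → Ψ = 0) ∧
      (1 ≤ KNT.Uk sh c w Q k t → Ψ = chi sh σ k (KNT.Uk sh c w Q k t)) ∧
      (|KNT.Uk sh c w Q k t| ≤ 1 → |Ψ| ≤ 3) := by
  obtain ⟨Ψ, h1, h2, h3, h4⟩ := hVXF sh c w Q X₀ P₀ w₀ M Z σ p ℓ hc k (KNT.Uk sh c w Q k t)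
  have h5 := hp k t ht
  unfold KNT.Gk at h5
  rw [h1] at h5
  refine ⟨Ψ, ?_, ?_, h2, h3, h4⟩
  · unfold LC.LegKnot.x
    rw [h5]
  · intro t'
    unfold TL zz LC.LegKnot.x LC.LegKnot.y
    rw [h5]
    simp only
    ring

theorem line_out (hVXF : P_VXF) (hc : Cfg c w Q X₀ P₀ w₀ M Z σ p ℓ) (hp : Prm Λ sh c w Q) (k : ℤ)
    (t : ℝ) (ht : |t| ≤ 3 / 4) (hU : 1 ≤ KNT.Uk sh c w Q k t) (t' : ℝ) :
    TL Λ ((k + t) / n) t' = X₀ * P₀ * Z k + P₀ * p k * (t' - X₀ * M k) := by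
  obtain ⟨Ψ, -, h2, -, h4, -⟩ := vert hVXF hc hp k t ht
  rw [h2 t', h4 hU, sh.τ_high _ hU]
  ring

theorem line_in (hVXF : P_VXF) (hc : Cfg c w Q X₀ P₀ w₀ M Z σ p ℓ) (hp : Prm Λ sh c w Q) (k : ℤ)
    (t : ℝ) (ht : |t| ≤ 3 / 4) (hU : KNT.Uk sh c w Q k t ≤ -1) (t' : ℝ) :
    TL Λ ((k + t) / n) t' = X₀ * P₀ * Z k + P₀ * p (k - 1) * (t' - X₀ * M k) := by
  obtain ⟨Ψ, -, h2, h3, -, -⟩ := vert hVXF hc hp k t ht
  rw [h2 t', h3 hU, sh.τ_low _ hU]
  ring

theorem Uk_mono (hVXU : P_VXU) (sh : Shape) (hc : Cfg c w Q X₀ P₀ w₀ M Z σ p ℓ) (k : ℤ) :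
    StrictMono (KNT.Uk sh c w Q k) := by
  apply strictMono_of_deriv_pos
  intro t
  obtain ⟨d, hd, h⟩ := (hVXU sh c w Q X₀ P₀ w₀ M Z σ p ℓ hc k).2.1 t
  rw [h.deriv]
  exact hd

theorem Uk_zero (hVXU : P_VXU) (sh : Shape) (hc : Cfg c w Q X₀ P₀ w₀ M Z σ p ℓ) (k : ℤ) :
    KNT.Uk sh c w Q k 0 = 0 :=
  (hVXU sh c w Q X₀ P₀ w₀ M Z σ p ℓ hc k).1

/-- near the vertex `k` the curve is at distance at most `2 w₀` from it -/
theorem near (hVXF : P_VXF) (hc : Cfg c w Q X₀ P₀ w₀ M Z σ p ℓ) (hp : Prm Λ sh c w Q) (k : ℤ)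
    (t : ℝ) (ht : |t| ≤ 1 / 4) : |Λ.x ((k + t) / n) - X₀ * M k| ≤ X₀ / 50 := by
  obtain ⟨Ψ, h1, -⟩ := vert hVXF hc hp k t (ht.trans (by norm_num))
  have hw : ∀ i, 0 < w i := fun i => by rw [hc.w i]; exact hc.w0
  rw [h1, KNT.Uk_mid sh c w Q hw ht]
  have h2 : |chi sh σ k (8 * t)| ≤ 2 := by
    apply chi_bd sh σ hc.s1 k _ (by norm_num)
    rw [abs_mul, abs_of_pos (by norm_num : (0 : ℝ) < 8)]
    linarith
  have h3 : X₀ * (M k : ℝ) + w₀ * chi sh σ k (8 * t) - X₀ * M k = w₀ * chi sh σ k (8 * t) := by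
    ring
  rw [h3, abs_mul, abs_of_pos hc.w0]
  have h4 := hc.wX
  have h5 := hc.w0
  have h6 : w₀ * |chi sh σ k (8 * t)| ≤ w₀ * 2 := mul_le_mul_of_nonneg_left h2 h5.le
  linarith

theorem dist_ge (hc : Cfg c w Q X₀ P₀ w₀ M Z σ p ℓ) (k : ℤ) :
    X₀ ≤ |X₀ * M (k + 1) - X₀ * M k| := by
  have h1 : X₀ * (M (k + 1) : ℝ) - X₀ * M k = X₀ * (σ k * ℓ k) := by
    rw [hc.M1 k]
    push_cast
    ring
  have h2 : (1 : ℝ) ≤ ℓ k := by exact_mod_cast hc.l1 k
  rw [h1, abs_mul, abs_mul, abs_of_pos hc.X0, abs_s (hc.s1 k), one_mul,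
    abs_of_pos (by linarith : (0 : ℝ) < ℓ k)]
  have := hc.X0
  nlinarith

end

end VXT

open VXT in
theorem t_VXT : Stmt_VXT := by
  intro hVXF hVXU _ n _ Λ sh c w Q X₀ P₀ w₀ M Z σ p ℓ hc hp hsh
  have hn : (0 : ℝ) < n := by
    have := Nat.pos_of_ne_zero (NeZero.ne n)
    exact_mod_cast this
  have hw0 := hc.w0
  have hX0 := hc.X0
  have hP0 := hc.P0
  have hwX := hc.wX
  constructor
  · intro k u hu h1 h2 t'
    obtain ⟨t, rfl⟩ : ∃ t : ℝ, u = ((k : ℝ) + t) / n := ⟨n * u - k, by field_simp; ring⟩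
    have ht0 : 0 ≤ t := by
      have := hu.1
      rw [div_le_div_iff_of_pos_right hn] at this
      linarith
    have ht1 : t ≤ 1 := by
      have := hu.2
      rw [div_le_div_iff_of_pos_right hn] at this
      linarith
    rcases le_or_gt t (1 / 2) with ht | ht
    · have hta : |t| ≤ 3 / 4 := by rw [abs_of_nonneg ht0]; linarith
      obtain ⟨Ψ, hx, -⟩ := vert hVXF hc hp k t hta
      have hU0 : 0 ≤ KNT.Uk sh c w Q k t := by
        rw [← Uk_zero hVXU sh hc k]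
        exact (Uk_mono hVXU sh hc k).monotone ht0
      apply line_out hVXF hc hp k t hta
      rw [hx] at h1
      have hss := sq_s (hc.s1 k)
      have h3 : w₀ * 1 ≤ w₀ * ((σ k : ℝ) * chi sh σ k (KNT.Uk sh c w Q k t)) := by linarith
      have h4 := le_of_mul_le_mul_left h3 hw0
      unfold chi at h4
      split_ifs at h4 with hs
      · rw [← mul_assoc, hss, one_mul] at h4
        exact h4
      · apply xi_ge sh hU0
        have h5 : (σ k : ℝ) * (-(σ k : ℝ) * sh.ξ (KNT.Uk sh c w Q k t)) =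
            -((σ k : ℝ) * σ k) * sh.ξ (KNT.Uk sh c w Q k t) := by ring
        rw [h5, hss] at h4
        linarith
    · have hta : |t - 1| ≤ 3 / 4 := by rw [abs_le]; constructor <;> linarith
      obtain ⟨Ψ, hx, -⟩ := vert hVXF hc hp (k + 1) (t - 1) hta
      have hcast : (((k + 1 : ℤ) : ℝ) + (t - 1)) / n = ((k : ℝ) + t) / n := by
        push_cast
        ring
      have hU0 : KNT.Uk sh c w Q (k + 1) (t - 1) ≤ 0 := by
        rw [← Uk_zero hVXU sh hc (k + 1)]
        exact (Uk_mono hVXU sh hc (k + 1)).monotone (by linarith)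
      have hU : KNT.Uk sh c w Q (k + 1) (t - 1) ≤ -1 := by
        rw [hcast] at hx
        rw [hx] at h2
        have hss := sq_s (hc.s1 k)
        have h3 : w₀ * 1 ≤ w₀ * (-((σ k : ℝ) * chi sh σ (k + 1)
            (KNT.Uk sh c w Q (k + 1) (t - 1)))) := by linarith
        have h4 := le_of_mul_le_mul_left h3 hw0
        have hk1 : k + 1 - 1 = k := by ring
        unfold chi at h4
        rw [hk1] at h4
        split_ifs at h4 with hs
        · rw [← hs, ← mul_assoc, hss, one_mul] at h4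
          linarith
        · have hneg : σ (k + 1) = -σ k := by
            rcases hc.s1 k with e1 | e1 <;> rcases hc.s1 (k + 1) with e2 | e2
            · exact absurd (e1.trans e2.symm) hs
            · rw [e1, e2]
            · rw [e1, e2]; rfl
            · exact absurd (e1.trans e2.symm) hs
          rw [hneg] at h4
          have h5 : -((σ k : ℝ) * (-((-σ k : ℤ) : ℝ) *
              sh.ξ (KNT.Uk sh c w Q (k + 1) (t - 1)))) =
              -((σ k : ℝ) * σ k) * sh.ξ (KNT.Uk sh c w Q (k + 1) (t - 1)) := by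
            push_cast
            ring
          rw [h5, hss, ← sh.ξ_even] at h4
          have h6 := xi_ge sh (U := -KNT.Uk sh c w Q (k + 1) (t - 1)) (by linarith) (by linarith)
          linarith
      have h3 := line_in hVXF hc hp (k + 1) (t - 1) hta hU t'
      rw [hcast] at h3
      rw [h3]
      have hk1 : k + 1 - 1 = k := by ring
      rw [hk1, hc.M1 k, hc.Z1 k]
      push_cast
      ring
  · intro k u hu h1 t' h2
    obtain ⟨t, rfl⟩ : ∃ t : ℝ, u = ((k : ℝ) + t) / n := ⟨n * u - k, by field_simp; ring⟩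
    have ht0 : -1 ≤ t := by
      have := hu.1
      rw [div_le_div_iff_of_pos_right hn] at this
      linarith
    have ht1 : t ≤ 1 := by
      have := hu.2
      rw [div_le_div_iff_of_pos_right hn] at this
      linarith
    rcases le_or_gt |t| (3 / 4) with ht | ht
    · obtain ⟨Ψ, -, hT, h3, h4, h5⟩ := vert hVXF hc hp k t ht
      rw [hT t']
      set U := KNT.Uk sh c w Q k t with hU
      have hτ := sh.τ_mem U
      have hp1 := hc.p1 k
      have hp2 := hc.p1 (k - 1)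
      have hΨ : |Ψ - sh.τ U * chi sh σ k U| ≤ 4 := by
        rcases le_or_gt |U| 1 with hU1 | hU1
        · have e1 := h5 hU1
          have e2 := chi_bd sh σ hc.s1 k U le_rfl hU1
          have e3 : |sh.τ U * chi sh σ k U| ≤ 1 := by
            rw [abs_mul, abs_of_nonneg hτ.1]
            calc sh.τ U * |chi sh σ k U| ≤ 1 * 1 :=
                  mul_le_mul hτ.2 e2 (abs_nonneg _) (by norm_num)
              _ = 1 := by norm_num
          have e4 := abs_sub Ψ (sh.τ U * chi sh σ k U)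
          linarith
        · rcases lt_abs.mp hU1 with h | h
          · rw [h4 h.le, sh.τ_high _ h.le, one_mul, sub_self, abs_zero]
            norm_num
          · rw [h3 (by linarith), sh.τ_low _ (by linarith), zero_mul, sub_self, abs_zero]
            norm_num
      have hA : |(p (k - 1) : ℝ) + ((p k : ℝ) - p (k - 1)) * sh.τ U| ≤ 1 := by
        rw [abs_le]
        rcases hp1 with e1 | e1 <;> rcases hp2 with e2 | e2 <;> rw [e1, e2] <;> push_cast <;>
          constructor <;> linarith [hτ.1, hτ.2]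
      have hD : |(p k : ℝ) - p (k - 1)| ≤ 2 := by
        rw [abs_le]
        rcases hp1 with e1 | e1 <;> rcases hp2 with e2 | e2 <;> rw [e1, e2] <;> push_cast <;>
          constructor <;> norm_num
      have e1 : |P₀ * ((p (k - 1) : ℝ) + ((p k : ℝ) - p (k - 1)) * sh.τ U) * (t' - X₀ * M k)| ≤
          P₀ * 1 * (51 / 100 * X₀) := by
        rw [abs_mul, abs_mul, abs_of_pos hP0]
        exact mul_le_mul (mul_le_mul_of_nonneg_left hA hP0.le) h2 (abs_nonneg _) (by positivity)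
      have e2 : |w₀ * P₀ * ((p k : ℝ) - p (k - 1)) * (Ψ - sh.τ U * chi sh σ k U)| ≤
          w₀ * P₀ * 2 * 4 := by
        rw [abs_mul, abs_mul, abs_of_pos (mul_pos hw0 hP0)]
        exact mul_le_mul (mul_le_mul_of_nonneg_left hD (by positivity)) hΨ (abs_nonneg _)
          (by positivity)
      have e3 : 100 * w₀ * P₀ ≤ X₀ * P₀ := mul_le_mul_of_nonneg_right hwX hP0.le
      have e4 : 0 < X₀ * P₀ := mul_pos hX0 hP0
      rw [abs_le] at e1 e2 ⊢
      constructor <;> linarith [e1.1, e1.2, e2.1, e2.2]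
    · exfalso
      rcases lt_abs.mp ht with h | h
      · have hta : |t - 1| ≤ 1 / 4 := by rw [abs_le]; constructor <;> linarith
        have h3 := near hVXF hc hp (k + 1) (t - 1) hta
        have hcast : (((k + 1 : ℤ) : ℝ) + (t - 1)) / n = ((k : ℝ) + t) / n := by
          push_cast
          ring
        rw [hcast] at h3
        have h4 := dist_ge hc k
        have h5 : |X₀ * M (k + 1) - X₀ * M k| ≤
            |Λ.x (((k : ℝ) + t) / n) - X₀ * M k| +
              |Λ.x (((k : ℝ) + t) / n) - X₀ * M (k + 1)| := by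
          have := abs_sub (Λ.x (((k : ℝ) + t) / n) - X₀ * M k)
            (Λ.x (((k : ℝ) + t) / n) - X₀ * M (k + 1))
          have e : Λ.x (((k : ℝ) + t) / n) - X₀ * M k -
              (Λ.x (((k : ℝ) + t) / n) - X₀ * M (k + 1)) = X₀ * M (k + 1) - X₀ * M k := by ring
          rwa [e] at this
        linarith
      · have hta : |t + 1| ≤ 1 / 4 := by rw [abs_le]; constructor <;> linarith
        have h3 := near hVXF hc hp (k - 1) (t + 1) hta
        have hcast : (((k - 1 : ℤ) : ℝ) + (t + 1)) / n = ((k : ℝ) + t) / n := by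
          push_cast
          ring
        rw [hcast] at h3
        have h4 := dist_ge hc (k - 1)
        have hk1 : k - 1 + 1 = k := by ring
        rw [hk1] at h4
        have h5 : |X₀ * M k - X₀ * M (k - 1)| ≤
            |Λ.x (((k : ℝ) + t) / n) - X₀ * M (k - 1)| +
              |Λ.x (((k : ℝ) + t) / n) - X₀ * M k| := by
          have := abs_sub (Λ.x (((k : ℝ) + t) / n) - X₀ * M (k - 1))
            (Λ.x (((k : ℝ) + t) / n) - X₀ * M k)
          have e : Λ.x (((k : ℝ) + t) / n) - X₀ * M (k - 1) -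
              (Λ.x (((k : ℝ) + t) / n) - X₀ * M k) = X₀ * M k - X₀ * M (k - 1) := by ring
          rwa [e] at this
        linarith

end LHE
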