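import Pool.Agent.LHE.Stmts4

/-!
# VXU: the parameter function `Uk`
-/

namespace LHE

open Set LG LH LCA
open scoped ContDiff

namespace VXU

variable {n : ℕ} [NeZero n] {sh : Shape} {c : Comb n n} {w : Fin n → ℝ} {Q : St n}
  {X₀ P₀ w₀ : ℝ} {M Z σ p ℓ : ℤ → ℤ}

theorem hw (h : Cfg c w Q X₀ P₀ w₀ M Z σ p ℓ) (i : Fin n) : 0 < w i := by
  rw [h.w i]
  exact h.w0

theorem wk_eq (h : Cfg c w Q X₀ P₀ w₀ M Z σ p ℓ) (k : ℤ) : KNT.wk w k = w₀ := h.w _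

theorem Ln_eq (h : Cfg c w Q X₀ P₀ w₀ M Z σ p ℓ) (k : ℤ) : KNT.Ln c Q k = X₀ * ℓ k := by
  have h1 := KNT.xk_succ c Q h.cyc h.len k
  have h2 : KNT.xk Q (k + 1) = X₀ * M (k + 1) := h.pos (k + 1)
  have h3 : KNT.xk Q k = X₀ * M k := h.pos k
  have h4 : (M (k + 1) : ℝ) = M k + σ k * ℓ k := by
    rw [h.M1 k]
    push_cast
    ring
  rw [h2, h3, h4] at h1
  have h5 : X₀ * ((σ k : ℝ) * ℓ k) = KNT.sk c k * KNT.Ln c Q k := by linarith
  have hL : 0 < KNT.Ln c Q k := sub_pos.2 (h.len _)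
  have hX := h.X0
  have hl : (1 : ℝ) ≤ ℓ k := by exact_mod_cast h.l1 k
  have hXl : 0 < X₀ * ℓ k := mul_pos hX (by linarith)
  rcases KNT.sk_sq c k with hs | hs <;> rcases h.s1 k with hσ | hσ
  · rw [hs, hσ] at h5
    push_cast at h5
    linarith
  · rw [hs, hσ] at h5
    push_cast at h5
    nlinarith
  · rw [hs, hσ] at h5
    push_cast at h5
    nlinarith
  · rw [hs, hσ] at h5
    push_cast at h5
    linarith

theorem hL (h : Cfg c w Q X₀ P₀ w₀ M Z σ p ℓ) (e : Fin n) :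
    6 * (w (c.lf e) + w (c.rt e)) < Q.1 (c.rt e) - Q.1 (c.lf e) := by
  obtain ⟨k, rfl⟩ := KNT.idx_surj e
  have h1 := Ln_eq h k
  have h2 : KNT.Ln c Q k = Q.1 (c.rt (KNT.idx n k)) - Q.1 (c.lf (KNT.idx n k)) := rfl
  rw [← h2, h1, h.w, h.w]
  have hl : (1 : ℝ) ≤ ℓ k := by exact_mod_cast h.l1 k
  have h3 : X₀ * 1 ≤ X₀ * ℓ k := mul_le_mul_of_nonneg_left hl h.X0.le
  have := h.wX
  have := h.w0
  linarith

theorem der (sh : Shape) (h : Cfg c w Q X₀ P₀ w₀ M Z σ p ℓ) (k : ℤ) (t : ℝ) :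
    ∃ d : ℝ, 0 < d ∧ HasDerivAt (KNT.Uk sh c w Q k) d t := by
  have hw := hw h
  have hL := hL h
  have hC := h.cyc
  have hwk := KNT.wk_pos w hw k
  have hd : HasDerivAt (KNT.Uk sh c w Q k)
      ((KNT.dDk sh c w Q k t + KNT.dDk sh c w Q (k - 1) (t + 1)) / KNT.wk w k - 8) t := by
    have h1 : HasDerivAt (KNT.Dk sh c w Q k) (KNT.dDk sh c w Q k t) t := KNT.D_deriv sh _ _ _ t
    have h2 : HasDerivAt (KNT.Dk sh c w Q (k - 1)) (KNT.dDk sh c w Q (k - 1) (t + 1)) (t + 1) :=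
      KNT.D_deriv sh _ _ _ (t + 1)
    have h3 : HasDerivAt (fun t => KNT.Dk sh c w Q (k - 1) (t + 1))
        (KNT.dDk sh c w Q (k - 1) (t + 1)) t :=
      h2.comp_add_const t 1
    have h4 : HasDerivAt (fun t : ℝ => 8 * t) 8 t := by
      simpa using (hasDerivAt_id t).const_mul 8
    exact (((h1.add h3).sub_const _).div_const _).sub h4
  refine ⟨_, ?_, hd⟩
  rcases le_or_gt t (1 / 4) with h' | h'
  · have h1 : KNT.dDk sh c w Q k t = 8 * KNT.wk w k := by unfold KNT.dDk; rw [KNT.dD_low sh h']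
    have h2 : 0 < KNT.dDk sh c w Q (k - 1) (t + 1) :=
      KNT.dD_pos sh (KNT.wk_pos w hw _) (KNT.wk_pos w hw _) (KNT.Ln_big c w Q hC hL (k - 1)) _
    rw [h1]
    have : (8 * KNT.wk w k + KNT.dDk sh c w Q (k - 1) (t + 1)) / KNT.wk w k - 8 =
        KNT.dDk sh c w Q (k - 1) (t + 1) / KNT.wk w k := by field_simp; ring
    rw [this]
    positivity
  · have h1 : KNT.dDk sh c w Q (k - 1) (t + 1) = 8 * KNT.wk w k := by
      unfold KNT.dDk; rw [KNT.dD_high sh (by linarith), sub_add_cancel]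
    have h2 : 0 < KNT.dDk sh c w Q k t :=
      KNT.dD_pos sh (KNT.wk_pos w hw _) (KNT.wk_pos w hw _) (KNT.Ln_big c w Q hC hL k) _
    rw [h1]
    have : (KNT.dDk sh c w Q k t + 8 * KNT.wk w k) / KNT.wk w k - 8 =
        KNT.dDk sh c w Q k t / KNT.wk w k := by field_simp; ring
    rw [this]
    positivity

end VXU

theorem t_VXU : Stmt_VXU := by
  intro n _ sh c w Q X₀ P₀ w₀ M Z σ p ℓ h k
  have hw := VXU.hw h
  have hL := VXU.hL h
  have h0 := h.w0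
  refine ⟨?_, VXU.der sh h k, ?_, ?_⟩
  · rw [KNT.Uk_mid sh c w Q hw (by norm_num)]
    norm_num
  · intro t ht0 ht1
    rw [KNT.Uk_ge sh c w Q hw (by linarith), VXU.wk_eq h]
    have h1 : KNT.Dk sh c w Q k t ≤ KNT.Dk sh c w Q k (3 / 4) :=
      (KNT.Dk_mono sh c w Q h.cyc hw hL k).monotone ht1
    rw [KNT.Dk_three, VXU.wk_eq h, VXU.Ln_eq h] at h1
    exact div_le_div_of_nonneg_right (by linarith) h0.le
  · intro t ht0 ht1
    rw [KNT.Uk_le sh c w Q hw (by linarith), VXU.wk_eq h, VXU.Ln_eq h]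
    have h1 : KNT.Dk sh c w Q (k - 1) (1 / 4) ≤ KNT.Dk sh c w Q (k - 1) (t + 1) :=
      (KNT.Dk_mono sh c w Q h.cyc hw hL (k - 1)).monotone (by linarith)
    rw [KNT.Dk_quarter, VXU.wk_eq h] at h1
    rw [← neg_div]
    exact div_le_div_of_nonneg_right (by linarith) h0.le

end LHE
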