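import Pool.Agent.LHE.Stmts4

/-! # VXX: the `x`-coordinate of the knot of a grid polygon -/

namespace LHE

open Set LG LH LCA
open scoped ContDiff

namespace VXX

theorem xi_neg (sh : Shape) (u : ℝ) : deriv sh.ξ (-u) = -deriv sh.ξ u := by
  have h1 : (fun x => sh.ξ (-x)) = sh.ξ := funext fun x => sh.ξ_even x
  have h2 := deriv_comp_neg sh.ξ u
  rw [h1] at h2
  linarith

/-- The derivative of the profile. -/
noncomputable def dchi (sh : Shape) (σ : ℤ → ℤ) (k : ℤ) (U : ℝ) : ℝ :=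
  if σ (k - 1) = σ k then (σ k : ℝ) else -(σ k : ℝ) * deriv sh.ξ U

theorem chi_deriv (sh : Shape) (σ : ℤ → ℤ) (k : ℤ) (U : ℝ) :
    HasDerivAt (chi sh σ k) (dchi sh σ k U) U := by
  unfold dchi
  split_ifs with h
  · have : chi sh σ k = fun U => (σ k : ℝ) * U := by
      funext U; simp [chi, h]
    rw [this]
    simpa using (hasDerivAt_id U).const_mul (σ k : ℝ)
  · have : chi sh σ k = fun U => -(σ k : ℝ) * sh.ξ U := by
      funext U; simp [chi, h]
    rw [this]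
    have h2 : HasDerivAt sh.ξ (deriv sh.ξ U) U :=
      ((sh.ξ_smooth.differentiable (by simp)).differentiableAt).hasDerivAt
    exact h2.const_mul _

theorem chi_pass (sh : Shape) (σ : ℤ → ℤ) (k : ℤ) (h : σ (k - 1) = σ k) (U : ℝ) :
    chi sh σ k U = σ k * U := by simp [chi, h]

theorem chi_tip (sh : Shape) (σ : ℤ → ℤ) (k : ℤ) (h : σ (k - 1) ≠ σ k) (U : ℝ) :
    chi sh σ k U = -(σ k : ℝ) * sh.ξ U := by simp [chi, h]

section main

variable {n : ℕ} [NeZero n] (Λ : LC.LegKnot) (sh : Shape) (c : Comb n n) (w : Fin n → ℝ) (Q : St n)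
    (X₀ P₀ w₀ : ℝ) (M Z σ p ℓ : ℤ → ℤ)

theorem xf (hF : P_VXF) (hc : Cfg c w Q X₀ P₀ w₀ M Z σ p ℓ) (hP : Prm Λ sh c w Q) (k : ℤ) (t : ℝ)
    (ht : |t| ≤ 3 / 4) :
    Λ.x ((k + t) / n) = X₀ * M k + w₀ * chi sh σ k (KNT.Uk sh c w Q k t) := by
  obtain ⟨Ψ, h, -⟩ := hF sh c w Q X₀ P₀ w₀ M Z σ p ℓ hc k (KNT.Uk sh c w Q k t)
  unfold LC.LegKnot.x
  rw [hP k t ht, KNT.Gk, h]

theorem xd (hF : P_VXF) (hU : P_VXU) (hc : Cfg c w Q X₀ P₀ w₀ M Z σ p ℓ) (hP : Prm Λ sh c w Q)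
    (k : ℤ) (t : ℝ) (ht : |t| < 3 / 4) :
    ∃ r : ℝ, 0 < r ∧ deriv Λ.x ((k + t) / n) = r * dchi sh σ k (KNT.Uk sh c w Q k t) := by
  have hn : (0 : ℝ) < n := by exact_mod_cast Nat.pos_of_ne_zero (NeZero.ne n)
  obtain ⟨d, hd, hd'⟩ := (hU sh c w Q X₀ P₀ w₀ M Z σ p ℓ hc k).2.1 t
  refine ⟨w₀ * (d * n), mul_pos hc.w0 (mul_pos hd hn), ?_⟩
  have hev : Λ.x =ᶠ[nhds (((k : ℝ) + t) / n)]
      fun u => X₀ * M k + w₀ * chi sh σ k (KNT.Uk sh c w Q k (n * u - k)) := by
    have hcont : ContinuousAt (fun u : ℝ => |n * u - k|) (((k : ℝ) + t) / n) := by fun_prop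
    have hlt : (fun u : ℝ => |n * u - k|) (((k : ℝ) + t) / n) < 3 / 4 := by
      have : (n : ℝ) * (((k : ℝ) + t) / n) - k = t := by field_simp; ring
      simp only [this]; exact ht
    filter_upwards [hcont.eventually (Iio_mem_nhds hlt)] with u hu
    have := xf Λ sh c w Q X₀ P₀ w₀ M Z σ p ℓ hF hc hP k (n * u - k) (le_of_lt hu)
    rw [← this]
    congr 1
    field_simp
    ring
  rw [hev.deriv_eq]
  apply HasDerivAt.deriv
  have e : (n : ℝ) * (((k : ℝ) + t) / n) - k = t := by field_simp; ring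
  have h1 : HasDerivAt (fun u : ℝ => n * u - k) (n : ℝ) (((k : ℝ) + t) / n) := by
    simpa using ((hasDerivAt_id (((k : ℝ) + t) / n)).const_mul (n : ℝ)).sub_const (k : ℝ)
  have h2 : HasDerivAt (fun u : ℝ => KNT.Uk sh c w Q k (n * u - k)) (d * n)
      (((k : ℝ) + t) / n) := by
    have hd2 : HasDerivAt (KNT.Uk sh c w Q k) d ((fun u : ℝ => n * u - k) (((k : ℝ) + t) / n)) := by
      simp only [e]; exact hd'
    exact hd2.comp (((k : ℝ) + t) / n) h1
  have h3 : HasDerivAt (fun u : ℝ => chi sh σ k (KNT.Uk sh c w Q k (n * u - k)))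
      (dchi sh σ k (KNT.Uk sh c w Q k t) * (d * n)) (((k : ℝ) + t) / n) := by
    have hd3 : HasDerivAt (chi sh σ k) (dchi sh σ k (KNT.Uk sh c w Q k t))
        ((fun u : ℝ => KNT.Uk sh c w Q k (n * u - k)) (((k : ℝ) + t) / n)) := by
      simp only [e]; exact chi_deriv sh σ k _
    exact hd3.comp (((k : ℝ) + t) / n) h2
  have h4 := (h3.const_mul w₀).const_add (X₀ * M k)
  refine h4.congr_deriv ?_
  ring

theorem Umono (hU : P_VXU) (hc : Cfg c w Q X₀ P₀ w₀ M Z σ p ℓ) (k : ℤ) :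
    StrictMono (KNT.Uk sh c w Q k) := by
  apply strictMono_of_deriv_pos
  intro t
  obtain ⟨d, hd, hd'⟩ := (hU sh c w Q X₀ P₀ w₀ M Z σ p ℓ hc k).2.1 t
  rw [hd'.deriv]; exact hd

theorem sq1 {s : ℤ} (h : s = 1 ∨ s = -1) : (s : ℝ) * s = 1 := by
  rcases h with h | h <;> rw [h] <;> norm_num

end main

end VXX

open VXX in
theorem t_VXX : Stmt_VXX := by
  intro hF hU n _ Λ sh c w Q X₀ P₀ w₀ M Z σ p ℓ hc hP hS
  have hn : (0 : ℝ) < n := by exact_mod_cast Nat.pos_of_ne_zero (NeZero.ne n)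
  have hU0 : ∀ k, KNT.Uk sh c w Q k 0 = 0 := fun k =>
    (hU sh c w Q X₀ P₀ w₀ M Z σ p ℓ hc k).1
  have hmo := fun k => Umono sh c w Q X₀ P₀ w₀ M Z σ p ℓ hU hc k
  have hx0 : ∀ k : ℤ, Λ.x (k / n) = X₀ * M k + w₀ * chi sh σ k 0 := by
    intro k
    have := xf Λ sh c w Q X₀ P₀ w₀ M Z σ p ℓ hF hc hP k 0 (by norm_num)
    rw [hU0, add_zero] at this
    exact this
  refine ⟨?_, ?_, ?_, ?_⟩
  · intro k u hu
    have h1 : (k : ℝ) < n * u := by
      have := hu.1; rw [div_lt_iff₀ hn] at this; linarith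
    have h2 : (n : ℝ) * u < k + 1 := by
      have := hu.2; rw [lt_div_iff₀ hn] at this; linarith
    have hsk := sq1 (hc.s1 k)
    rcases le_or_gt (n * u - k) (1 / 2) with h | h
    · obtain ⟨r, hr, hr'⟩ := xd Λ sh c w Q X₀ P₀ w₀ M Z σ p ℓ hF hU hc hP k (n * u - k)
        (by rw [abs_lt]; constructor <;> linarith)
      have e : ((k : ℝ) + (n * u - k)) / n = u := by field_simp; ring
      rw [e] at hr'
      rw [hr']
      have hp : 0 < KNT.Uk sh c w Q k (n * u - k) := by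
        rw [← hU0 k]; exact hmo k (by linarith)
      unfold dchi
      split_ifs with h3
      · have : (σ k : ℝ) * (r * σ k) = r := by linear_combination r * hsk
        rw [this]; exact hr
      · have := hS.d _ hp
        have e2 : (σ k : ℝ) * (r * (-(σ k : ℝ) * deriv sh.ξ (KNT.Uk sh c w Q k (n * u - k)))) =
            r * -deriv sh.ξ (KNT.Uk sh c w Q k (n * u - k)) := by
          linear_combination -(r * deriv sh.ξ (KNT.Uk sh c w Q k (n * u - k))) * hsk
        rw [e2]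
        exact mul_pos hr (by linarith)
    · obtain ⟨r, hr, hr'⟩ := xd Λ sh c w Q X₀ P₀ w₀ M Z σ p ℓ hF hU hc hP (k + 1) (n * u - (k + 1))
        (by rw [abs_lt]; constructor <;> linarith)
      have e : (((k + 1 : ℤ) : ℝ) + (n * u - (k + 1))) / n = u := by push_cast; field_simp; ring
      rw [e] at hr'
      rw [hr']
      have hp : KNT.Uk sh c w Q (k + 1) (n * u - (k + 1)) < 0 := by
        rw [← hU0 (k + 1)]; exact hmo (k + 1) (by linarith)
      have e0 : k + 1 - 1 = k := by ring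
      unfold dchi
      rw [e0]
      split_ifs with h3
      · have : (σ k : ℝ) * (r * σ (k + 1)) = r := by
          rw [← h3]; linear_combination r * hsk
        rw [this]; exact hr
      · have h4 : σ (k + 1) = -σ k := by
          rcases hc.s1 k with h5 | h5 <;> rcases hc.s1 (k + 1) with h6 | h6 <;>
            rw [h5, h6] at h3 ⊢ <;> simp at h3 ⊢
        have h5 := hS.d (-KNT.Uk sh c w Q (k + 1) (n * u - (k + 1))) (by linarith)
        rw [xi_neg] at h5
        have e2 : (σ k : ℝ) * (r * (-(σ (k + 1) : ℝ) *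
            deriv sh.ξ (KNT.Uk sh c w Q (k + 1) (n * u - (k + 1))))) =
            r * deriv sh.ξ (KNT.Uk sh c w Q (k + 1) (n * u - (k + 1))) := by
          rw [h4]; push_cast
          linear_combination (r * deriv sh.ξ (KNT.Uk sh c w Q (k + 1) (n * u - (k + 1)))) * hsk
        rw [e2]
        exact mul_pos hr (by linarith)
  · intro k hk
    constructor
    · rw [hx0, chi_pass sh σ k hk]; ring
    · obtain ⟨r, hr, hr'⟩ := xd Λ sh c w Q X₀ P₀ w₀ M Z σ p ℓ hF hU hc hP k 0 (by norm_num)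
      rw [add_zero] at hr'
      rw [hr']
      have hsk := sq1 (hc.s1 k)
      unfold dchi
      rw [if_pos hk]
      have : (σ k : ℝ) * (r * σ k) = r := by linear_combination r * hsk
      rw [this]; exact hr
  · intro k hk
    rw [hx0, chi_tip sh σ k hk]
    have hsk := sq1 (hc.s1 k)
    have : (σ k : ℝ) * (X₀ * M k + w₀ * (-(σ k : ℝ) * sh.ξ 0)) =
        σ k * (X₀ * M k) - w₀ * sh.ξ 0 := by linear_combination -(w₀ * sh.ξ 0) * hsk
    rw [this]
    have := mul_nonneg hc.w0.le hS.h0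
    linarith
  · intro k
    rw [hx0]
    have e : X₀ * M k + w₀ * chi sh σ k 0 - X₀ * M k = w₀ * chi sh σ k 0 := by ring
    rw [e, abs_mul, abs_of_pos hc.w0, mul_comm]
    apply mul_le_mul_of_nonneg_right _ hc.w0.le
    by_cases hk : σ (k - 1) = σ k
    · rw [chi_pass sh σ k hk]; norm_num
    · rw [chi_tip sh σ k hk, abs_mul, abs_neg]
      have h1 : |(σ k : ℝ)| = 1 := by
        rcases hc.s1 k with h | h <;> rw [h] <;> norm_num
      rw [h1, one_mul, abs_of_nonneg hS.h0]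
      exact hS.h1

end LHE
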