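import Pool.Agent.LHE.Stmts4

/-!
# VXY: the derivative of `y` near the tips of a grid polygon
-/

set_option autoImplicit false

namespace LHE

open Set LG LH LCA
open scoped ContDiff

namespace VXY

theorem xi_bd (sh : Shape) {U : ℝ} (hU : |U| ≤ 2) : |sh.ξ U| ≤ 2 := by
  rcases le_total |U| 1 with h | h
  · exact (sh.ξ_in U h).trans (by norm_num)
  · rw [sh.ξ_out U h, abs_neg, abs_abs]
    exact hU

theorem chi_bd (sh : Shape) {σ : ℤ → ℤ} (hs : ∀ k, σ k = 1 ∨ σ k = -1) (k : ℤ) {U : ℝ}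
    (hU : |U| ≤ 2) : |chi sh σ k U| ≤ 2 := by
  have h1 : |((σ k : ℤ) : ℝ)| = 1 := by
    rcases hs k with h | h <;> rw [h] <;> norm_num
  unfold chi
  split_ifs
  · rw [abs_mul, h1, one_mul]
    exact hU
  · rw [abs_mul, abs_neg, h1, one_mul]
    exact xi_bd sh hU

theorem tau_deriv_nonneg (sh : Shape) (U : ℝ) : 0 ≤ deriv sh.τ U := by
  by_cases h1 : 1 ≤ U
  · have hm : IsLocalMax sh.τ U := by
      refine Filter.Eventually.of_forall fun v => ?_
      rw [sh.τ_high U h1]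
      exact (sh.τ_mem v).2
    rw [hm.deriv_eq_zero]
  · by_cases h2 : U ≤ -1
    · have hm : IsLocalMin sh.τ U := by
        refine Filter.Eventually.of_forall fun v => ?_
        rw [sh.τ_low U h2]
        exact (sh.τ_mem v).1
      rw [hm.deriv_eq_zero]
    · exact (sh.τ_deriv U (not_le.mp h2) (not_le.mp h1)).le

section

variable {n : ℕ} [NeZero n] {Λ : LC.LegKnot} {sh : Shape} {c : Comb n n} {w : Fin n → ℝ}
  {Q : St n} {X₀ P₀ w₀ : ℝ} {M Z σ p ℓ : ℤ → ℤ}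

/-- The curve near the vertex `k`. -/
theorem form (hF : P_VXF) (hc : Cfg c w Q X₀ P₀ w₀ M Z σ p ℓ) (hP : Prm Λ sh c w Q) (k : ℤ)
    (t : ℝ) (ht : |t| ≤ 3 / 4) :
    Λ.x ((k + t) / n) = X₀ * M k + w₀ * chi sh σ k (KNT.Uk sh c w Q k t) ∧
    Λ.y ((k + t) / n) = P₀ * (p (k - 1) + ((p k : ℝ) - p (k - 1)) *
      sh.τ (KNT.Uk sh c w Q k t)) := by
  have h1 := hP k t ht
  obtain ⟨Ψ, h2, _⟩ := hF sh c w Q X₀ P₀ w₀ M Z σ p ℓ hc k (KNT.Uk sh c w Q k t)
  have h3 : Λ.γ ((k + t) / n) = _ := h1.trans h2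
  constructor
  · exact congrArg (fun q : LC.R3 => q.1) h3
  · exact congrArg (fun q : LC.R3 => q.2.1) h3

/-- Close to the vertex. -/
theorem near (hF : P_VXF) (hc : Cfg c w Q X₀ P₀ w₀ M Z σ p ℓ) (hP : Prm Λ sh c w Q) (k : ℤ)
    (t : ℝ) (ht : |t| ≤ 1 / 4) : |Λ.x ((k + t) / n) - X₀ * M k| ≤ 2 * w₀ := by
  have hw : ∀ i, 0 < w i := fun i => by rw [hc.w i]; exact hc.w0
  have h1 := (form hF hc hP k t (by linarith)).1
  have h2 := KNT.Uk_mid sh c w Q hw (k := k) ht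
  rw [h2] at h1
  rw [h1]
  have h3 : |8 * t| ≤ 2 := by
    rw [abs_mul]
    have : |(8 : ℝ)| = 8 := by norm_num
    rw [this]
    linarith
  have h4 := chi_bd sh hc.s1 k h3
  have h5 : X₀ * (M k : ℝ) + w₀ * chi sh σ k (8 * t) - X₀ * M k = w₀ * chi sh σ k (8 * t) := by
    ring
  rw [h5, abs_mul, abs_of_pos hc.w0]
  nlinarith [hc.w0]

/-- The derivative of `y`. -/
theorem der (hF : P_VXF) (hU : P_VXU) (hc : Cfg c w Q X₀ P₀ w₀ M Z σ p ℓ)
    (hP : Prm Λ sh c w Q) (k : ℤ) (t : ℝ) (ht : |t| < 3 / 4) :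
    ∃ d : ℝ, 0 < d ∧ deriv Λ.y ((k + t) / n) =
      ((p k : ℝ) - p (k - 1)) * (d * deriv sh.τ (KNT.Uk sh c w Q k t)) := by
  have hn : (0 : ℝ) < n := by exact_mod_cast Nat.pos_of_ne_zero (NeZero.ne n)
  obtain ⟨d, hd, hd'⟩ := (hU sh c w Q X₀ P₀ w₀ M Z σ p ℓ hc k).2.1 t
  refine ⟨P₀ * (d * n), mul_pos hc.P0 (mul_pos hd hn), ?_⟩
  have hτ : HasDerivAt sh.τ (deriv sh.τ (KNT.Uk sh c w Q k t)) (KNT.Uk sh c w Q k t) :=
    ((sh.τ_smooth.differentiable (by norm_num)) _).hasDerivAt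
  have e1 : (n : ℝ) * ((k + t) / n) - k = t := by field_simp; ring
  have h1 : HasDerivAt (fun v : ℝ => (n : ℝ) * v - k) n ((k + t) / n) := by
    simpa using ((hasDerivAt_id ((k + t) / n : ℝ)).const_mul (n : ℝ)).sub_const (k : ℝ)
  have h2 : HasDerivAt (fun v : ℝ => KNT.Uk sh c w Q k ((n : ℝ) * v - k)) (d * n)
      ((k + t) / n) := by
    have := HasDerivAt.comp (h₂ := KNT.Uk sh c w Q k) (h := fun v : ℝ => (n : ℝ) * v - k)
      ((k + t) / n : ℝ) (h₂' := d) (h' := (n : ℝ)) (by rw [e1]; exact hd') h1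
    exact this
  have h3 : HasDerivAt (fun v : ℝ => sh.τ (KNT.Uk sh c w Q k ((n : ℝ) * v - k)))
      (deriv sh.τ (KNT.Uk sh c w Q k t) * (d * n)) ((k + t) / n) := by
    have := HasDerivAt.comp (h₂ := sh.τ)
      (h := fun v : ℝ => KNT.Uk sh c w Q k ((n : ℝ) * v - k))
      ((k + t) / n : ℝ) (h₂' := deriv sh.τ (KNT.Uk sh c w Q k t)) (h' := d * n)
      (by rw [e1]; exact hτ) h2
    exact this
  have h4 : HasDerivAt (fun v : ℝ => P₀ * ((p (k - 1) : ℝ) + ((p k : ℝ) - p (k - 1)) *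
      sh.τ (KNT.Uk sh c w Q k ((n : ℝ) * v - k))))
      (P₀ * (((p k : ℝ) - p (k - 1)) * (deriv sh.τ (KNT.Uk sh c w Q k t) * (d * n))))
      ((k + t) / n) := ((h3.const_mul _).const_add _).const_mul _
  have hev : Λ.y =ᶠ[nhds ((k + t) / n : ℝ)] (fun v : ℝ => P₀ * ((p (k - 1) : ℝ) +
      ((p k : ℝ) - p (k - 1)) * sh.τ (KNT.Uk sh c w Q k ((n : ℝ) * v - k)))) := by
    have hopen : {v : ℝ | |(n : ℝ) * v - k| < 3 / 4} ∈ nhds ((k + t) / n : ℝ) := by
      apply IsOpen.mem_nhds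
      · exact isOpen_lt (by fun_prop) continuous_const
      · change |(n : ℝ) * ((k + t) / n) - k| < 3 / 4
        rw [e1]
        exact ht
    filter_upwards [hopen] with v hv
    have h5 := (form hF hc hP k ((n : ℝ) * v - k) (le_of_lt hv)).2
    have e2 : ((k : ℝ) + ((n : ℝ) * v - k)) / n = v := by field_simp; ring
    rw [e2] at h5
    exact h5
  rw [hev.deriv_eq, h4.deriv]
  ring

/-- A point which is not close to the neighbouring vertices. -/
theorem loc (hF : P_VXF) (hc : Cfg c w Q X₀ P₀ w₀ M Z σ p ℓ) (hP : Prm Λ sh c w Q) (k : ℤ)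
    {u : ℝ} (hu : u ∈ Ioo (((k : ℝ) - 1) / n) (((k : ℝ) + 1) / n))
    (h1 : 2 * w₀ < |Λ.x u - X₀ * M (k + 1)|) (h2 : 2 * w₀ < |Λ.x u - X₀ * M (k - 1)|) :
    ∃ t : ℝ, |t| < 3 / 4 ∧ u = (k + t) / n := by
  have hn : (0 : ℝ) < n := by exact_mod_cast Nat.pos_of_ne_zero (NeZero.ne n)
  have e : u = (k + ((n : ℝ) * u - k)) / n := by field_simp; ring
  have hlo : -1 < (n : ℝ) * u - k := by
    have := (div_lt_iff₀ hn).mp hu.1
    linarith
  have hhi : (n : ℝ) * u - k < 1 := by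
    have := (lt_div_iff₀ hn).mp hu.2
    linarith
  refine ⟨(n : ℝ) * u - k, ?_, e⟩
  by_contra hcon
  rw [not_lt, le_abs] at hcon
  rcases hcon with h | h
  · have h3 := near hF hc hP (k + 1) ((n : ℝ) * u - k - 1) (by rw [abs_le]; constructor <;> linarith)
    have e2 : (((k + 1 : ℤ) : ℝ) + ((n : ℝ) * u - k - 1)) / n = u := by
      push_cast
      field_simp
      ring
    rw [e2] at h3
    linarith
  · have h3 := near hF hc hP (k - 1) ((n : ℝ) * u - k + 1) (by rw [abs_le]; constructor <;> linarith)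
    have e2 : (((k - 1 : ℤ) : ℝ) + ((n : ℝ) * u - k + 1)) / n = u := by
      push_cast
      field_simp
      ring
    rw [e2] at h3
    linarith

/-- The positions of the neighbouring vertices of a tip. -/
theorem nbr (hc : Cfg c w Q X₀ P₀ w₀ M Z σ p ℓ) (k : ℤ) (hk : σ (k - 1) ≠ σ k) :
    (X₀ ≤ (σ k : ℝ) * (X₀ * M (k + 1) - X₀ * M k)) ∧
    (X₀ ≤ (σ k : ℝ) * (X₀ * M (k - 1) - X₀ * M k)) := by
  have hX := hc.X0
  have h1 : (1 : ℝ) ≤ ℓ k := by exact_mod_cast hc.l1 k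
  have h2 : (1 : ℝ) ≤ ℓ (k - 1) := by exact_mod_cast hc.l1 (k - 1)
  have m1 : (M (k + 1) : ℝ) = M k + σ k * ℓ k := by exact_mod_cast hc.M1 k
  have m2 : (M k : ℝ) = M (k - 1) + σ (k - 1) * ℓ (k - 1) := by
    have := hc.M1 (k - 1)
    rw [sub_add_cancel] at this
    exact_mod_cast this
  have hs : (σ (k - 1) : ℝ) = -σ k := by
    rcases hc.s1 k with h | h <;> rcases hc.s1 (k - 1) with h' | h'
    · exact absurd (h'.trans h.symm) hk
    · rw [h, h']; norm_num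
    · rw [h, h']; norm_num
    · exact absurd (h'.trans h.symm) hk
  have hsq : (σ k : ℝ) * σ k = 1 := by
    rcases hc.s1 k with h | h <;> rw [h] <;> norm_num
  constructor
  · rw [m1]
    have e : (σ k : ℝ) * (X₀ * (M k + σ k * ℓ k) - X₀ * M k) = X₀ * ℓ k * (σ k * σ k) := by ring
    rw [e, hsq, mul_one]
    nlinarith
  · rw [hs] at m2
    have e : (σ k : ℝ) * (X₀ * M (k - 1) - X₀ * M k) = X₀ * ℓ (k - 1) * (σ k * σ k) := by
      rw [m2]; ring
    rw [e, hsq, mul_one]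
    nlinarith

end

end VXY

/-- VXY -/
theorem t_VXY : Stmt_VXY := by
  intro hF hU _ n _ Λ sh c w Q X₀ P₀ w₀ M Z σ p ℓ hc hP _
  have hw := hc.w0
  have hX := hc.X0
  have hwX := hc.wX
  refine ⟨?_, ?_⟩
  · intro k hk u hu hx
    obtain ⟨n1, n2⟩ := VXY.nbr hc k hk
    have hs : |(σ k : ℝ)| = 1 := by
      rcases hc.s1 k with h | h <;> rw [h] <;> norm_num
    have hb := abs_le.mp hx
    have key : ∀ y : ℝ, X₀ ≤ (σ k : ℝ) * (y - X₀ * M k) → 2 * w₀ < |Λ.x u - y| := by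
      intro y hy
      have h1 : X₀ ≤ |y - X₀ * M k| := by
        calc X₀ ≤ (σ k : ℝ) * (y - X₀ * M k) := hy
          _ ≤ |(σ k : ℝ) * (y - X₀ * M k)| := le_abs_self _
          _ = |y - X₀ * M k| := by rw [abs_mul, hs, one_mul]
      have h2 : |y - X₀ * M k| ≤ |Λ.x u - y| + |Λ.x u - X₀ * M k| := by
        have e : y - X₀ * M k = -(Λ.x u - y) + (Λ.x u - X₀ * M k) := by ring
        calc |y - X₀ * M k| = |-(Λ.x u - y) + (Λ.x u - X₀ * M k)| := by rw [← e]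
          _ ≤ |-(Λ.x u - y)| + |Λ.x u - X₀ * M k| := abs_add_le _ _
          _ = _ := by rw [abs_neg]
      linarith
    obtain ⟨t, ht, rfl⟩ := VXY.loc hF hc hP k hu (key _ n1) (key _ n2)
    obtain ⟨d, hd, hd'⟩ := VXY.der hF hU hc hP k t ht
    rw [hd']
    have h3 := VXY.tau_deriv_nonneg sh (KNT.Uk sh c w Q k t)
    have h4 : 0 ≤ d * deriv sh.τ (KNT.Uk sh c w Q k t) := mul_nonneg hd.le h3
    nlinarith [mul_nonneg (mul_self_nonneg ((p k : ℝ) - p (k - 1))) h4]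
  · intro k hk u hu hx
    obtain ⟨n1, n2⟩ := VXY.nbr hc k hk
    have hs : |(σ k : ℝ)| = 1 := by
      rcases hc.s1 k with h | h <;> rw [h] <;> norm_num
    have hsq : (σ k : ℝ) * σ k = 1 := by
      rcases hc.s1 k with h | h <;> rw [h] <;> norm_num
    have key : ∀ y : ℝ, X₀ ≤ (σ k : ℝ) * (y - X₀ * M k) → 2 * w₀ < |Λ.x u - y| := by
      intro y hy
      have h1 : (σ k : ℝ) * (y - Λ.x u) ≤ |Λ.x u - y| := by
        calc (σ k : ℝ) * (y - Λ.x u) ≤ |(σ k : ℝ) * (y - Λ.x u)| := le_abs_self _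
          _ = |Λ.x u - y| := by rw [abs_mul, hs, one_mul, abs_sub_comm]
      have h2 : (σ k : ℝ) * (y - Λ.x u) =
          (σ k : ℝ) * (y - X₀ * M k) - (σ k : ℝ) * (Λ.x u - X₀ * M k) := by ring
      linarith
    obtain ⟨t, ht, rfl⟩ := VXY.loc hF hc hP k hu (key _ n1) (key _ n2)
    obtain ⟨d, hd, hd'⟩ := VXY.der hF hU hc hP k t ht
    have h1 := (VXY.form hF hc hP k t ht.le).1
    rw [h1] at hx
    have h2 : (σ k : ℝ) * (X₀ * M k + w₀ * chi sh σ k (KNT.Uk sh c w Q k t) - X₀ * M k) =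
        -(w₀ * sh.ξ (KNT.Uk sh c w Q k t)) := by
      unfold chi
      rw [if_neg hk]
      linear_combination (-(w₀ * sh.ξ (KNT.Uk sh c w Q k t))) * hsq
    rw [h2] at hx
    have h3 : |KNT.Uk sh c w Q k t| < 1 := by
      by_contra hcon
      rw [not_lt] at hcon
      rw [sh.ξ_out _ hcon] at hx
      nlinarith
    have h4 := abs_lt.mp h3
    have h5 := sh.τ_deriv _ h4.1 h4.2
    rw [hd']
    have h6 : ((p k : ℝ) - p (k - 1)) ≠ 0 := by
      intro h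
      apply hc.alt k
      have : (p k : ℝ) = p (k - 1) := by linarith
      exact_mod_cast this.symm
    exact mul_ne_zero h6 (mul_pos hd h5).ne'

end LHE
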