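import Pool.Agent.LHE.JDA
import Pool.Agent.LHE.KNP
import Pool.Agent.LHE.SHX
import Pool.Agent.LHE.VXF
import Pool.Agent.LHE.VXU
import Pool.Agent.LHE.VXX
import Pool.Agent.LHE.VXT
import Pool.Agent.LHE.VXY
import Pool.Agent.LHE.VLS
import Pool.Agent.LHE.EST
import Pool.Agent.LHE.AR1
import Pool.Agent.LHE.AR2
import Pool.Agent.LHE.AR3
import Pool.Agent.LHE.AR4
import Pool.Agent.LHE.GDX
import Pool.Agent.LHE.GWA
import Pool.Agent.LHE.ORE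
import Pool.Agent.LHE.DST
import Pool.Agent.LHE.CMB
import Pool.Agent.LHE.SGM
import Pool.Agent.LHE.LNM
import Pool.Agent.LHE.ARD
import Pool.Agent.LHE.THT
import Pool.Agent.LHE.THI
import Pool.Agent.LHE.TSP
import Pool.Agent.LHE.LHD
import Pool.Agent.LHE.SPA
import Pool.Agent.LHE.HOR
import Pool.Agent.LHE.EPC
import Pool.Agent.LHE.CDM
import Pool.Agent.LHE.LAT
import Pool.Agent.LCA.All
import Pool.Agent.LCA.CapJ.C0

/-!
# The polygons of the knot `J` (T_J, analytic part)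
-/

namespace LHE

open Set LG LH LCA LCA.CapJ
open LHJ (mJ zJ)

/-- The polygons of a knot with a decomposition into arcs. -/
theorem p_SGM : P_SGM :=
  t_SGM (t_AR1 t_EST) (t_AR2 t_EST) (t_AR3 t_EST) (t_AR4 t_EST) t_GDX t_GWA t_ORE t_DST t_CMB

theorem p_ARD : P_ARD := t_ARD t_LNM

theorem p_THI : P_THI := t_THI t_LNM

theorem p_SPA : P_SPA := t_SPA t_LNM p_THI t_TSP t_LHD

theorem p_HOR : P_HOR := t_HOR t_LNM p_THI t_TSP t_LHD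

/-- The polygons of a knot along a lattice path. -/
theorem p_LAT : P_LAT :=
  t_LAT t_LNM p_ARD t_THT p_THI p_SPA p_HOR t_EPC t_CDM t_CMB t_ORE p_SGM

theorem p_VXX : P_VXX := t_VXX t_VXF t_VXU

theorem p_VXT : P_VXT := t_VXT t_VXF t_VXU p_VXX

theorem p_VXY : P_VXY := t_VXY t_VXF t_VXU p_VXX

/-- A knot along a grid polygon. -/
theorem vtS_of {n : ℕ} [NeZero n] (Λ : LC.LegKnot) (sh : Shape) (c : Comb n n) (w : Fin n → ℝ)
    (Q : St n) (X₀ P₀ w₀ : ℝ) (M Z σ p ℓ : ℤ → ℤ) (hC : Cfg c w Q X₀ P₀ w₀ M Z σ p ℓ)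
    (hP : Prm Λ sh c w Q) (hs : SHok sh) : VtS Λ X₀ P₀ w₀ n M Z σ p := by
  obtain ⟨h1, h2, h3, h4⟩ := p_VXX Λ sh c w Q X₀ P₀ w₀ M Z σ p ℓ hC hP hs
  obtain ⟨h5, h6⟩ := p_VXT Λ sh c w Q X₀ P₀ w₀ M Z σ p ℓ hC hP hs
  obtain ⟨h7, h8⟩ := p_VXY Λ sh c w Q X₀ P₀ w₀ M Z σ p ℓ hC hP hs
  exact ⟨Nat.pos_of_ne_zero (NeZero.ne n), hC.X0, hC.P0, hC.w0, hC.wX, h1, h2, h3, h4, h5, h6, h7,
    h8⟩

/-- The facts from the check of the beginning of a program. -/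
theorem beg_facts {n : ℕ} {A A' : SD} (hA : stOK n n A = true) (hA' : stOK n n A' = true)
    (hbg : bgOK n A A' = true) :
    (A.cb n n).Valid ∧ (A.cb n n).Cyc ∧ (∀ i, 0 < A.W n i) ∧
      (A.cb n n).Cert (A.W n) (A.Q n) (0, (A.Q n).2) ∧
      (∀ e, 6 * (A.W n ((A.cb n n).lf e) + A.W n ((A.cb n n).rt e)) <
        (A.Q n).1 ((A.cb n n).rt e) - (A.Q n).1 ((A.cb n n).lf e)) := by
  obtain ⟨hbnd, hbor, hilt, hieq, -, -, -, hallL, hallI, -, -, -⟩ := p_CBL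
  obtain ⟨-, -, hnif, -, -⟩ := t_CB2 p_CBL
  have FA := p_STF n n A hA
  have VA := p_SVL n n A FA
  unfold bgOK at hbg
  simp only [hbnd] at hbg
  obtain ⟨hgo, hv, -, hE, hV⟩ := hbg
  rw [hallL VS vs0] at hv
  rw [hallI ES es0] at hE
  rw [hallI VS vs0] at hV
  obtain ⟨go, -, -⟩ := p_GOK n n 1 A A' hA hA' hgo
  obtain ⟨-, h2⟩ := p_GOC _ _ _ _ _ _ _ go
  have hcert : (A.cb n n).Cert (A.W n) (A.Q n) (A.V n) := by
    have h3 := h2 0 ⟨le_refl _, zero_le_one⟩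
    rw [sub_zero, one_smul, zero_smul, add_zero] at h3
    exact h3
  have hvel : A.V n = (0, (A.Q n).2) := by
    apply STB.vel
    intro i hi
    have h3 := hv i (by rw [FA.lenV]; exact hi)
    simp only [hbnd, hieq] at h3
    exact h3
  have hE' : ∀ k < n + 1, ((((A.e k).lf = k ∧ (A.e k).rt = if k = n then 0 else k + 1) ∨
      ((A.e k).rt = k ∧ (A.e k).lf = if k = n then 0 else k + 1)) ∧
      3 * ((A.e k).il - (A.e k).xl) + 3 * ((A.e k).xr - (A.e k).ir) <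
        (A.e k).xr - (A.e k).xl) := by
    intro k hk
    have h3 := hE k (by rw [FA.lenE]; exact hk)
    simp only [hbnd, hbor, hilt, hnif, Nat.beq_eq] at h3
    exact h3
  have hV' : ∀ k < n + 1, ((A.v k).ea = (if k = 0 then n else k - 1) ∧ (A.v k).eb = k) ∨
      ((A.v k).eb = (if k = 0 then n else k - 1) ∧ (A.v k).ea = k) := by
    intro k hk
    have h3 := hV k (by rw [FA.lenV]; exact hk)
    simp only [hbnd, hbor, hnif, Nat.beq_eq] at h3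
    exact h3
  rw [hvel] at hcert
  exact ⟨VA.valid, STB.cyc VA (fun k hk => (hE' k hk).1) hV', VA.wpos, hcert,
    STB.len6 VA (fun k hk => (hE' k hk).2)⟩

namespace JSX

theorem facts : (S0.cb 23 23).Valid ∧ (S0.cb 23 23).Cyc ∧ (∀ i, 0 < S0.W 23 i) ∧
    (S0.cb 23 23).Cert (S0.W 23) (S0.Q 23) (0, (S0.Q 23).2) ∧
    (∀ e, 6 * (S0.W 23 ((S0.cb 23 23).lf e) + S0.W 23 ((S0.cb 23 23).rt e)) <
      (S0.Q 23).1 ((S0.cb 23 23).rt e) - (S0.Q 23).1 ((S0.cb 23 23).lf e)) :=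
  beg_facts ok0 ok1 f0

theorem dat : ∀ r : Fin 24, (S0.v (r : ℕ)).w = 8 ∧
    (S0.v (r : ℕ)).x = 2 ^ 24 * MJ ((r : ℕ) : ℤ) ∧
    (S0.v (r : ℕ)).F = 2 ^ 24 * 2 ^ 70 * ZJ ((r : ℕ) : ℤ) := by
  decide +kernel

theorem idx_res (r : Fin (23 + 1)) (q : ℤ) :
    KNT.idx (23 + 1) (((r : ℕ) : ℤ) + 24 * q) = r := by
  apply Fin.ext
  have h := KNT.idx_val (n := 23 + 1) (((r : ℕ) : ℤ) + 24 * q)
  have hr := r.2
  have h2 : (((23 + 1 : ℕ)) : ℤ) = 24 := by norm_num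
  rw [h2] at h
  omega

end JSX

/-- The data of the knot `J`. -/
theorem cfg_J : Cfg (n := 23 + 1) (S0.cb 23 23) (S0.W 23) (S0.Q 23) (2 ^ 24) (2 ^ 70) 8
    MJ ZJ sJ pJ lJ where
  valid := JSX.facts.1
  cyc := JSX.facts.2.1
  len e := by
    have h1 := JSX.facts.2.2.2.2 e
    have h2 := JSX.facts.2.2.1 ((S0.cb 23 23).lf e)
    have h3 := JSX.facts.2.2.1 ((S0.cb 23 23).rt e)
    linarith
  X0 := by norm_num
  P0 := by norm_num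
  w0 := by norm_num
  wX := by norm_num
  w i := by
    have h := (JSX.dat i).1
    show (((S0.v (i : ℕ)).w : ℤ) : ℝ) = 8
    rw [h]; norm_num
  pos k := by
    obtain ⟨r, q, rfl⟩ := JDA.res24 k
    rw [JDA.Mp]
    have h := (JSX.dat r).2.1
    have h2 := JSX.idx_res r q
    rw [h2]
    show (((S0.v (r : ℕ)).x : ℤ) : ℝ) = _
    rw [h]; push_cast; ring
  hgt k := by
    obtain ⟨r, q, rfl⟩ := JDA.res24 k
    rw [JDA.Zp]
    have h := (JSX.dat r).2.2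
    have h2 := JSX.idx_res r q
    rw [h2]
    show (((S0.v (r : ℕ)).F : ℤ) : ℝ) = _
    rw [h]; push_cast; ring
  s1 := ver_J.s1
  p1 := ver_J.p1
  l1 := ver_J.l1
  M1 k := by
    obtain ⟨r, q, rfl⟩ := JDA.res24 k
    rw [show ((r : ℕ) : ℤ) + 24 * q + 1 = (((r : ℕ) : ℤ) + 1) + 24 * q by ring]
    simp only [JDA.Mp, JDA.sp, JDA.lp]
    exact (JDA.e1 r).2.2.2.2.2.2.1
  Z1 k := by
    obtain ⟨r, q, rfl⟩ := JDA.res24 k
    rw [show ((r : ℕ) : ℤ) + 24 * q + 1 = (((r : ℕ) : ℤ) + 1) + 24 * q by ring]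
    simp only [JDA.Zp, JDA.sp, JDA.lp, JDA.pp]
    exact (JDA.e1 r).2.2.2.2.2.2.2
  alt := ver_J.alt

/-- T_J, analytic part: the knot `J` and the walks of its polygons. -/
theorem t_TJ1 : ∃ (sh : Shape) (Λ : LC.LegKnot),
    Λ.carrier = (S0.cb 23 23).knot sh (S0.W 23) (S0.Q 23) ∧
    ∃ N₀ : ℕ, 0 < N₀ ∧ ∀ N ≥ N₀, ∀ P : Pg N, IsPN Λ N P → ∃ X w, GoodX P X ∧ GW P X w ∧
      ∀ M, Rp (ents (cPts 120 mJ zJ)) M → Rp (lst P w) M := by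
  obtain ⟨sh, hs⟩ := t_SHX
  obtain ⟨Λ, hc, hP⟩ := t_KNP p_PST p_CER p_VLN p_PIN sh (S0.cb 23 23) (S0.W 23) (S0.Q 23)
    JSX.facts.1 JSX.facts.2.1 JSX.facts.2.2.1 JSX.facts.2.2.2.1 JSX.facts.2.2.2.2
  have hV := vtS_of Λ sh (S0.cb 23 23) (S0.W 23) (S0.Q 23) _ _ _ _ _ _ _ _ cfg_J hP hs
  obtain ⟨ν, hL⟩ := t_VLS Λ _ _ _ 24 120 MJ ZJ sJ pJ lJ mJ zJ jJ (by norm_num) hV ver_J
  obtain ⟨N₀, h0, hN⟩ := p_LAT Λ _ _ _ 120 mJ zJ ν latD_J hL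
  exact ⟨sh, Λ, hc, N₀, h0, hN⟩

end LHE
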