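import Pool.Agent.LHE.Stmts2

/-!
# ORE: lists with the same order have the same representations
-/

namespace LHE

open Set LG LH

namespace ORE

open Classical in
/-- The position in `w` of the point with the position `q` in `w'`. -/
noncomputable def pick (w w' : List Pt) (P : Pt → Prop) (c : Pt → Q) (q : Q) : Q :=
  if h : ∃ i, ∃ (h : i < w.length) (h' : i < w'.length), P w[i] ∧ c w'[i] = q then
    c (w[h.choose]'h.choose_spec.choose) else q

theorem pick_eq {w w' : List Pt} {P : Pt → Prop} {c : Pt → Q}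
    (H : ∀ i j (_ : i < w.length) (_ : i < w'.length) (_ : j < w.length) (_ : j < w'.length),
      P w[i] → P w[j] → (c w[i] < c w[j] ↔ c w'[i] < c w'[j]))
    (i : ℕ) (h : i < w.length) (h' : i < w'.length) (hp : P w[i]) :
    pick w w' P c (c w'[i]) = c w[i] := by
  have hex : ∃ j, ∃ (_ : j < w.length) (_ : j < w'.length), P w[j] ∧ c w'[j] = c w'[i] :=
    ⟨i, h, h', hp, rfl⟩
  unfold pick
  rw [dif_pos hex]
  obtain ⟨h1, h2⟩ := hex.choose_spec
  obtain ⟨h2, h3, h4⟩ := h2
  rcases lt_trichotomy (c (w[hex.choose]'h1)) (c w[i]) with h5 | h5 | h5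
  · have := (H _ _ h1 h2 h h' h3 hp).1 h5
    rw [h4] at this
    exact absurd this (lt_irrefl _)
  · exact h5
  · have := (H _ _ h h' h1 h2 hp h3).1 h5
    rw [h4] at this
    exact absurd this (lt_irrefl _)

theorem flat {w w' : List Pt} {φ : En → En}
    (h : List.Forall₂ (fun p q => ent p = (ent q).map φ) w w') : ents w = (ents w').map φ := by
  unfold ents
  induction h with
  | nil => simp
  | cons h1 _ ih =>
    rw [List.flatMap_cons, List.flatMap_cons, List.map_append, h1, ih]

theorem ent_eq {p q : Pt} {α β : Q → Q} (hk : p.k = q.k) (hα : hc p → α q.c = p.c)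
    (hβ : hr p → β q.r = p.r) : ent p = (ent q).map (Sum.map α β) := by
  unfold ent
  rw [← hk]
  unfold hc at hα
  unfold hr at hβ
  rcases hp : p.k with _ | _ | _ | _
  · simp only [List.map_cons, Sum.map_inl, Sum.map_inr, List.map_nil]
    rw [hα (by rw [hp]; decide), hβ (by rw [hp]; decide)]
  · simp only [List.map_cons, Sum.map_inl, Sum.map_inr, List.map_nil]
    rw [hα (by rw [hp]; decide), hβ (by rw [hp]; decide)]
  · simp only [List.map_cons, Sum.map_inl, List.map_nil]
    rw [hα (by rw [hp]; decide)]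
  · simp only [List.map_cons, Sum.map_inr, List.map_nil]
    rw [hβ (by rw [hp]; decide)]

theorem mem_inl {w : List Pt} {a : Q} (h : (Sum.inl a : En) ∈ ents w) :
    ∃ i, ∃ (h : i < w.length), hc w[i] ∧ (w[i]).c = a := by
  unfold ents at h
  rw [List.mem_flatMap] at h
  obtain ⟨p, hp, hpa⟩ := h
  obtain ⟨i, hi, rfl⟩ := List.mem_iff_getElem.mp hp
  refine ⟨i, hi, ?_⟩
  unfold ent at hpa
  unfold hc
  rcases hk : (w[i]).k with _ | _ | _ | _ <;> rw [hk] at hpa <;> simp at hpa ⊢ <;> exact hpa.symm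

theorem mem_inr {w : List Pt} {a : Q} (h : (Sum.inr a : En) ∈ ents w) :
    ∃ i, ∃ (h : i < w.length), hr w[i] ∧ (w[i]).r = a := by
  unfold ents at h
  rw [List.mem_flatMap] at h
  obtain ⟨p, hp, hpa⟩ := h
  obtain ⟨i, hi, rfl⟩ := List.mem_iff_getElem.mp hp
  refine ⟨i, hi, ?_⟩
  unfold ent at hpa
  unfold hr
  rcases hk : (w[i]).k with _ | _ | _ | _ <;> rw [hk] at hpa <;> simp at hpa ⊢ <;> exact hpa.symm

theorem inl_mem {w : List Pt} {i : ℕ} (h : i < w.length) (hp : hc w[i]) :
    (Sum.inl (w[i]).c : En) ∈ ents w := by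
  unfold ents
  rw [List.mem_flatMap]
  refine ⟨w[i], List.getElem_mem h, ?_⟩
  unfold hc at hp
  unfold ent
  rcases hk : (w[i]).k with _ | _ | _ | _
  · simp
  · simp
  · simp
  · exact absurd hk hp

theorem inr_mem {w : List Pt} {i : ℕ} (h : i < w.length) (hp : hr w[i]) :
    (Sum.inr (w[i]).r : En) ∈ ents w := by
  unfold ents
  rw [List.mem_flatMap]
  refine ⟨w[i], List.getElem_mem h, ?_⟩
  unfold hr at hp
  unfold ent
  rcases hk : (w[i]).k with _ | _ | _ | _
  · simp
  · simp
  · exact absurd hk hp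
  · simp

end ORE

open ORE in
theorem t_ORE : Stmt_ORE := by
  intro w w' h M hM
  obtain ⟨hnd, f, g, hf, hg, hrot⟩ := hM
  set α := pick w w' hc Pt.c with hαd
  set β := pick w w' hr Pt.r with hβd
  have hα : ∀ i (hi : i < w.length) (hi' : i < w'.length), hc w[i] → α (w'[i]).c = (w[i]).c :=
    fun i hi hi' hp => pick_eq (fun i j a b c d e f => h.c i j a b c d e f) i hi hi' hp
  have hβ : ∀ i (hi : i < w.length) (hi' : i < w'.length), hr w[i] → β (w'[i]).r = (w[i]).r :=
    fun i hi hi' hp => pick_eq (fun i j a b c d e f => h.r i j a b c d e f) i hi hi' hp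
  have hents : ents w = (ents w').map (Sum.map α β) := by
    apply flat
    rw [List.forall₂_iff_get]
    refine ⟨h.len, ?_⟩
    intro i hi hi'
    exact ent_eq (h.k i hi hi') (hα i hi hi') (hβ i hi hi')
  refine ⟨?_, f ∘ α, g ∘ β, ?_, ?_, ?_⟩
  · rw [hents] at hnd
    exact hnd.of_map _
  · intro a b ha hb hab
    obtain ⟨i, hi', hci, rfl⟩ := mem_inl ha
    obtain ⟨j, hj', hcj, rfl⟩ := mem_inl hb
    have hi : i < w.length := by rw [h.len]; exact hi'
    have hj : j < w.length := by rw [h.len]; exact hj'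
    have h1 : hc w[i] := by unfold hc at hci ⊢; rw [h.k i hi hi']; exact hci
    have h2 : hc w[j] := by unfold hc at hcj ⊢; rw [h.k j hj hj']; exact hcj
    simp only [Function.comp_apply]
    rw [hα i hi hi' h1, hα j hj hj' h2]
    exact hf _ _ (inl_mem hi h1) (inl_mem hj h2) ((h.c i j hi hi' hj hj' h1 h2).2 hab)
  · intro a b ha hb hab
    obtain ⟨i, hi', hci, rfl⟩ := mem_inr ha
    obtain ⟨j, hj', hcj, rfl⟩ := mem_inr hb
    have hi : i < w.length := by rw [h.len]; exact hi'
    have hj : j < w.length := by rw [h.len]; exact hj'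
    have h1 : hr w[i] := by unfold hr at hci ⊢; rw [h.k i hi hi']; exact hci
    have h2 : hr w[j] := by unfold hr at hcj ⊢; rw [h.k j hj hj']; exact hcj
    simp only [Function.comp_apply]
    rw [hβ i hi hi' h1, hβ j hj hj' h2]
    exact hg _ _ (inr_mem hi h1) (inr_mem hj h2) ((h.r i j hi hi' hj hj' h1 h2).2 hab)
  · rw [hents, List.map_map, Sum.map_comp_map] at hrot
    exact hrot

end LHE
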