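import Pool.Agent.LHE.Base
import Pool.Agent.LH.Stmts2

/-!
# Stabilised knots (task T_S): statements
-/

namespace LHE

open Set LG LH

variable {N : ℕ}

/-! ### the polygons of a knot -/

/-- EST: the polygons approximate the knot. -/
def Stmt_EST : Prop :=
  ∀ Λ : LC.LegKnot, ∃ K > (0 : ℝ), ∃ N₀ : ℕ, 0 < N₀ ∧ ∀ N ≥ N₀, ∀ P : Pg N, IsPN Λ N P →
    |mu Λ N| ≤ K ∧ ∀ i : ℤ, |P.y i - Λ.y ((i + 1 / 2) / N)| ≤ K / N ∧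
      |P.z i - (zz Λ (i / N) - zz Λ 0)| ≤ K / N ∧ |P.x (i + 1) - P.x i| ≤ K / N ∧
      |P.x (i + 2) - 2 * P.x (i + 1) + P.x i| ≤ K / N ^ 2 ∧ |P.y i| ≤ K

/-! ### the zigzag of a stabilised knot -/

/-- The data in the definition of a stabilisation. -/
structure StD (Λ' Λ : LC.LegKnot) (a c d b : ℝ) (D : Set (ℝ × ℝ)) : Prop where
  ac : a < c
  cd : c < d
  db : d < b
  ba : b < a + 1
  out : ∀ u ∈ Icc b (a + 1), Λ'.γ u = Λ.γ u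
  op : IsOpen D
  cv : Convex ℝ D
  outD : ∀ u ∈ Icc b (a + 1), LC.front (Λ.γ u) ∉ D
  inD : ∀ u ∈ Ioo a b, LC.front (Λ.γ u) ∈ D ∧ deriv Λ.x u ≠ 0
  inD' : ∀ u ∈ Ioo a b, LC.front (Λ'.γ u) ∈ D
  inj : InjOn (fun u => LC.front (Λ'.γ u)) (Icc a b)
  cr : ∀ u ∈ Icc a b, deriv Λ'.x u = 0 ↔ u = c ∨ u = d
  c2 : deriv (deriv Λ'.x) c ≠ 0
  d2 : deriv (deriv Λ'.x) d ≠ 0
  zz : deriv Λ'.y c * deriv Λ'.y d < 0

/-- ZMO: the signs of the derivative of `x` on the three arcs. -/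
def Stmt_ZMO : Prop :=
  ∀ (Λ' Λ : LC.LegKnot) (a c d b : ℝ) (D : Set (ℝ × ℝ)), StD Λ' Λ a c d b D →
    ∃ s : Bool, (∀ u ∈ Ico a c, 0 < sn s * deriv Λ'.x u) ∧
      (∀ u ∈ Ioo c d, sn s * deriv Λ'.x u < 0) ∧ (∀ u ∈ Ioc d b, 0 < sn s * deriv Λ'.x u) ∧
      sn s * Λ'.x a < sn s * Λ'.x b

/-- CUS: the order of the two arcs at a cusp. -/
def Stmt_CUS : Prop :=
  ∀ (Λ : LC.LegKnot) (s o : Bool) (a c d : ℝ), a < c → c < d →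
    (∀ u ∈ Ioo a c, 0 < sn s * deriv Λ.x u) → (∀ u ∈ Ioo c d, sn s * deriv Λ.x u < 0) →
    InjOn (fun u => LC.front (Λ.γ u)) (Icc a d) → 0 < sn o * (sn s * deriv Λ.y c) →
    ∀ u₁ ∈ Icc a c, ∀ u₂ ∈ Icc c d, Λ.x u₁ = Λ.x u₂ → u₁ ≠ c → sn o * zz Λ u₂ < sn o * zz Λ u₁

/-- ZGS: a stabilised knot has a zigzag. -/
def P_ZGS : Prop :=
  ∀ (Λ' Λ : LC.LegKnot), LC.IsStabilization Λ' Λ →
    ∃ (s : Bool) (a c d b ξ₁ ξ₂ : ℝ) (o : Bool), ZigS Λ' s a c d b ξ₁ ξ₂ o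

/-- ZGS -/
def Stmt_ZGS : Prop := Stmt_ZMO → Stmt_CUS → P_ZGS

/-! ### from the knot to the polygons -/

/-- The indices `A`, `C`, `D` are close to the parameters `a`, `c`, `d`; `C` is a tip. -/
structure Ixs (P : Pg N) (s : Bool) (a c d : ℝ) (A C D : ℤ) : Prop where
  a : |(A : ℝ) - a * N| ≤ 1
  c : |(C : ℝ) - c * N| ≤ 1
  d : |(D : ℝ) - d * N| ≤ 1
  xa : sn s * P.x A ≤ sn s * P.x (A + 1)
  xc : sn s * P.x (C - 1) ≤ sn s * P.x C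
  xc' : sn s * P.x (C + 1) ≤ sn s * P.x C
  xd : sn s * P.x D ≤ sn s * P.x (D - 1)

/-- FGP: fingers of the polygons. -/
def P_FGP : Prop :=
  ∀ (Λ : LC.LegKnot) (s : Bool) (a c d τ : ℝ), FgS Λ s a c d τ →
    ∃ δ₀ > (0 : ℝ), ∀ δ, 0 < δ → δ ≤ δ₀ → ∃ N₀ : ℕ, ∀ N ≥ N₀, ∀ P : Pg N, IsPN Λ N P →
      ∀ A C D : ℤ, Ixs P s a c d A C D → Fg P s A C D τ δ

/-- FGP -/
def Stmt_FGP : Prop := Stmt_EST → P_FGP

/-- FGO: the order of the two arcs of a finger for the polygons. -/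
def P_FGO : Prop :=
  ∀ (Λ : LC.LegKnot) (s o : Bool) (a c d τ : ℝ), FgS Λ s a c d τ → OdS Λ s a c d o →
    ∃ N₀ : ℕ, ∀ N ≥ N₀, ∀ P : Pg N, IsPN Λ N P →
      ∀ A C D : ℤ, Ixs P s a c d A C D → OdP P s A C D τ o

/-- FGO -/
def Stmt_FGO : Prop := Stmt_EST → P_PGB → P_FGO

/-- IDX: the choice of the indices. -/
def Stmt_IDX : Prop :=
  ∀ (Λ : LC.LegKnot) (s : Bool) (a c d b : ℝ), a < c → c < d → d < b →
    StrictMonoOn (fun u => sn s * Λ.x u) (Icc a c) →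
    StrictAntiOn (fun u => sn s * Λ.x u) (Icc c d) →
    StrictMonoOn (fun u => sn s * Λ.x u) (Icc d b) →
    ∃ N₀ : ℕ, ∀ N ≥ N₀, ∀ P : Pg N, IsPN Λ N P → ∃ A C D B : ℤ,
      Ixs P s a c d A C D ∧ Ixs P (!s) c d b C D B

/-- The polygons of a stabilised knot have a zigzag. -/
def P_ZPN : Prop :=
  ∀ Λ' Λ : LC.LegKnot, LC.IsStabilization Λ' Λ → ∃ (s : Bool) (ξ₁ ξ₂ δ : ℝ) (o : Bool) (N₀ : ℕ),
    0 < N₀ ∧ ∀ N ≥ N₀, ∀ P : Pg N, IsPN Λ' N P → ∃ A C D B : ℤ, ZigP P s A C D B ξ₁ ξ₂ δ o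

/-- ZPN -/
def Stmt_ZPN : Prop := Stmt_EST → P_ZGS → P_FGP → P_FGO → Stmt_IDX → P_ZPN

/-! ### walks -/

/-- The cells have width less than `ε`. -/
def Mesh (X : Finset ℝ) (ε : ℝ) : Prop := ∀ a b, AdjX X a b → b - a < ε

/-- MSH: there is a line in a given interval. -/
def Stmt_MSH : Prop :=
  ∀ (N : ℕ) (P : Pg N) (X : Finset ℝ) (s : Bool) (ξ₁ ξ₂ : ℝ) (i j : ℤ), GoodX P X →
    Mesh X (ξ₂ - ξ₁) → ξ₁ < ξ₂ → sn s * P.x i < ξ₁ → ξ₂ < sn s * P.x j →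
    ∃ t ∈ X, ξ₁ < sn s * t ∧ sn s * t < ξ₂

/-- CRE: there is an edge which crosses a line. -/
def Stmt_CRE : Prop :=
  ∀ (N : ℕ) (P : Pg N) (X : Finset ℝ) (s : Bool) (A C : ℤ), GoodX P X → A < C →
    ∀ t ∈ X, sn s * P.x A < sn s * t → sn s * t < sn s * P.x C → ∃ e ∈ Ico A C, Crs P s t e

/-- ROT: rotation and shift of a walk. -/
def Stmt_ROT : Prop :=
  ∀ (N : ℕ) (P : Pg N) (X : Finset ℝ) (w : List It), GW P X w → ∀ j ∈ w, ∀ k : ℤ,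
    ∃ w' : List It, GW P X ({ j with e := j.e + k * N } :: w') ∧
      ((({ j with e := j.e + k * N } : It) :: w').map (pt P)).IsRotated (w.map (pt P))

/-- The item is a turn. -/
def Tn (i : It) : Prop := i.k = .R ∨ i.k = .L

/-- FNG: the first finger of a chain of items. -/
def Stmt_FNG : Prop :=
  ∀ (N : ℕ) (P : Pg N) (X : Finset ℝ) (s : Bool) (A C D : ℤ), GoodX P X → A < C → C < D →
    MonotoneOn (fun i => sn s * P.x i) (Icc A C) → AntitoneOn (fun i => sn s * P.x i) (Icc C D) →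
    ∀ (i : It) (l : List It), List.IsChain (Lnk P X) (i :: l) → (∀ j ∈ i :: l, ItOK P j) →
      List.IsChain (fun i j => ¬ (Tn i ∧ Tn j)) (i :: l) → i.k = pass s → i.e ∈ Ico A C →
      i.t ∈ X → sn s * P.x D < sn s * i.t → (∃ j ∈ l, D ≤ j.e) →
      ∃ (F : List It) (j : It) (l' : List It), l = F ++ j :: l' ∧ j.k = pass (!s) ∧ j.t = i.t ∧
        j.e ∈ Ico C D ∧ FI P s A C D X i.t F

/-- ADJ: no point of the walk is between the two arcs of a finger. -/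
def Stmt_ADJ : Prop :=
  ∀ (N : ℕ) (P : Pg N) (X : Finset ℝ) (s : Bool) (A C D : ℤ) (τ δ : ℝ) (i : It) (w : List It),
    GoodX P X → Mesh X δ → GW P X (i :: w) → ¬ Tn i → Fg P s A C D τ δ →
    (∀ i, |P.x (i + 1) - P.x i| < δ) → ∀ t ∈ X, τ ≤ sn s * t → ∀ e ∈ Ico A C, ∀ f ∈ Ico C D,
      Crs P s t e → Crs P (!s) t f → AdjW ((i :: w).map (pt P)) t (P.l e t) (P.l f t)

/-- A walk with two fingers of opposite directions between three adjacent points of one line. -/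
structure TwoF (w : List Pt) (s o : Bool) (ξ h₁ h₂ h₃ : ℝ) (F G r : List Pt) : Prop where
  eq : w = ⟨pass s, ξ, h₁⟩ :: (F ++ ⟨pass (!s), ξ, h₂⟩ :: (G ++ ⟨pass s, ξ, h₃⟩ :: r))
  f : PF s (AO w o) ξ F
  g : PF (!s) (AO w o) ξ G
  a₁ : AO w o ξ h₁ h₂
  a₂ : AO w o ξ h₂ h₃

/-- The walk of a polygon with a zigzag has two fingers. -/
def P_EXT : Prop :=
  ∀ (N : ℕ) (P : Pg N) (X : Finset ℝ) (s : Bool) (A C D B : ℤ) (ξ₁ ξ₂ δ : ℝ) (o : Bool)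
    (w : List It), ZigP P s A C D B ξ₁ ξ₂ δ o → GoodX P X → GW P X w → Mesh X δ →
    Mesh X (ξ₂ - ξ₁) →
    ∃ (w' : List Pt) (ξ h₁ h₂ h₃ : ℝ) (F G r : List Pt), w'.IsRotated (w.map (pt P)) ∧
      TwoF w' s o ξ h₁ h₂ h₃ F G r

/-- EXT -/
def Stmt_EXT : Prop :=
  P_WON → Stmt_MSH → Stmt_CRE → Stmt_ROT → Stmt_FNG → Stmt_ADJ → P_EXT

/-! ### retraction of the fingers -/

/-- The elementary retraction of a finger. -/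
def P_RET : Prop :=
  ∀ (s o : Bool) (t₀ t t' g₁ g₂ h₁ h₂ h' : ℝ) (r w : List Pt),
    w = ⟨pass s, t₀, g₁⟩ :: ⟨pass s, t, h₁⟩ :: ⟨turn s, t', h'⟩ :: ⟨pass (!s), t, h₂⟩ ::
      ⟨pass (!s), t₀, g₂⟩ :: r → CW w → AO w o t h₁ h₂ → sn o * g₂ < sn o * g₁ →
    CW (⟨pass s, t₀, g₁⟩ :: ⟨turn s, t, h₁⟩ :: ⟨pass (!s), t₀, g₂⟩ :: r) ∧
      WE (ents w) (ents (⟨pass s, t₀, g₁⟩ :: ⟨turn s, t, h₁⟩ :: ⟨pass (!s), t₀, g₂⟩ :: r))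

/-- RET: from the statements for the right and for the left. -/
def Stmt_RET : Prop := P_RTR → P_RTL → P_WEB → P_CWA → P_RET

/-- FRT: retraction of a finger. -/
def P_FRT : Prop :=
  ∀ (s o : Bool) (w F r : List Pt) (t h₁ h₂ : ℝ),
    w = ⟨pass s, t, h₁⟩ :: (F ++ ⟨pass (!s), t, h₂⟩ :: r) → CW w → PF s (AO w o) t F →
    sn o * h₂ < sn o * h₁ →
    ∃ t' h', up s t t' ∧ CW (⟨pass s, t, h₁⟩ :: ⟨turn s, t', h'⟩ :: ⟨pass (!s), t, h₂⟩ :: r) ∧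
      WE (ents w) (ents (⟨pass s, t, h₁⟩ :: ⟨turn s, t', h'⟩ :: ⟨pass (!s), t, h₂⟩ :: r))

/-- FRT -/
def Stmt_FRT : Prop := P_RET → P_WEB → P_CWA → P_FRT

/-- A zigzag of two short fingers kills one of the two classes. -/
def P_WRG : Prop :=
  ∀ (s o : Bool) (ξ t' t'' h₁ h₂ h₃ h' h'' : ℝ) (r w : List Pt),
    w = ⟨pass s, ξ, h₁⟩ :: ⟨turn s, t', h'⟩ :: ⟨pass (!s), ξ, h₂⟩ :: ⟨turn (!s), t'', h''⟩ ::
      ⟨pass s, ξ, h₃⟩ :: r → CW w → AO w o ξ h₁ h₂ → AO w o ξ h₂ h₃ →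
    ∃ M, Rp (ents w) M ∧ (VL M ∨ VP M)

/-- WRG: from the statements for the right and for the left. -/
def Stmt_WRG : Prop := P_WZR → P_WZL → Stmt_RPE → P_CWA → P_WRG

/-- The class of a walk with two opposite fingers. -/
def P_TWF : Prop :=
  ∀ (w : List Pt) (s o : Bool) (ξ h₁ h₂ h₃ : ℝ) (F G r : List Pt), CW w →
    TwoF w s o ξ h₁ h₂ h₃ F G r → ∃ M, Rp (ents w) M ∧ (VL M ∨ VP M)

/-- TWF -/
def Stmt_TWF : Prop := P_FRT → P_WRG → P_LEQ → P_WEB → P_CWA → Stmt_RPE → P_TWF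

/-- TSF: the polygons of a stabilised knot. -/
def Stmt_TSF : Prop := P_ZPN → P_TEX → P_CWG → P_EXT → P_TWF → P_CWA → P_WEB → T_S

end LHE
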