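import Pool.Agent.LHE.Stmts1

/-!
# The knot `J` (task T_J), first part: from a decomposition of the knot into arcs to the walks of
its polygons
-/

namespace LHE

open Set LG LH

/-! ### arcs of a knot -/

/-- The tangent line of the front at the parameter `u`, evaluated at `t`. -/
noncomputable def TL (Λ : LC.LegKnot) (u t : ℝ) : ℝ := zz Λ u + Λ.y u * (t - Λ.x u)

/-- `k` and `l` are congruent modulo `K`. -/
def Cg (K : ℕ) (k l : ℤ) : Prop := ∃ j : ℤ, l = k + j * K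

/-- Combinatorial data of the arcs: the arc `k` starts on the line `s k` in the direction `g k`
and lies over the cell `(a k, b k)` of `X`; the arc `k + 1` starts at its end. -/
structure ArcD (K : ℕ) (s a b : ℤ → ℝ) (g : ℤ → Bool) (X : Finset ℝ) : Prop where
  Kpos : 0 < K
  ps : ∀ k, s (k + K) = s k
  pa : ∀ k, a (k + K) = a k
  pb : ∀ k, b (k + K) = b k
  pg : ∀ k, g (k + K) = g k
  adj : ∀ k, AdjX X (a k) (b k)
  st : ∀ k, s k = if g k then a k else b k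
  en : ∀ k, s (k + 1) = if g (k + 1) then b k else a k
  tr : ∃ k, g k = g (k + 1)

/-- A decomposition of a knot into arcs over cells: the arc `k` is `[θ k, θ (k + 1)]`. -/
structure Arcs (Λ : LC.LegKnot) (K : ℕ) (θ s a b : ℤ → ℝ) (g : ℤ → Bool) (X : Finset ℝ) :
    Prop where
  d : ArcD K s a b g X
  mono : ∀ k, θ k < θ (k + 1)
  pθ : ∀ k, θ (k + K) = θ k + 1
  hit : ∀ k, Λ.x (θ k) = s k
  der : ∀ k, 0 < sn (g k) * deriv Λ.x (θ k)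
  ins : ∀ k, ∀ u ∈ Ioo (θ k) (θ (k + 1)), a k < Λ.x u ∧ Λ.x u < b k
  ty : ∀ k, (∀ u ∈ Icc (θ k) (θ (k + 1)), deriv Λ.x u ≠ 0) ∨
    ∀ u ∈ Icc (θ k) (θ (k + 1)), deriv Λ.y u ≠ 0
  sep : ∀ k l, ¬ Cg K k l → a k = a l → ∀ t, t = a k ∨ t = b k →
    (∀ u ∈ Icc (θ k) (θ (k + 1)), ∀ v ∈ Icc (θ l) (θ (l + 1)), TL Λ u t < TL Λ v t) ∨
      ∀ u ∈ Icc (θ k) (θ (k + 1)), ∀ v ∈ Icc (θ l) (θ (l + 1)), TL Λ v t < TL Λ u t
  lo : ∃ a ∈ X, ∀ u, a < Λ.x u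
  hi : ∃ b ∈ X, ∀ u, Λ.x u < b
  irr : ∀ t ∈ X, ∀ q : ℚ, Λ.x q ≠ t

/-- The line of the turn of the arc `k`. -/
def oL (a b : ℤ → ℝ) (g : ℤ → Bool) (k : ℤ) : ℝ := if g k then b k else a k

/-- The points of the arc `k`: its start, and the turn if it is a turning arc. -/
def aPt (s o : ℤ → ℝ) (g : ℤ → Bool) (H V : ℤ → ℝ) (k : ℤ) : List Pt :=
  if g k = g (k + 1) then [⟨pass (g k), s k, H k⟩]
  else [⟨pass (g k), s k, H k⟩, ⟨turn (g k), o k, V k⟩]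

/-- The walk of the arcs. -/
def aPts (K : ℕ) (s o : ℤ → ℝ) (g : ℤ → Bool) (H V : ℤ → ℝ) : List Pt :=
  (List.range K).flatMap fun k => aPt s o g H V k

/-- The items of the arc `k`. -/
def aIt (s o : ℤ → ℝ) (g : ℤ → Bool) (e : ℤ → ℤ) (k : ℤ) : List It :=
  if g k = g (k + 1) then [⟨pass (g k), s k, e k⟩]
  else [⟨pass (g k), s k, e k⟩, ⟨turn (g k), o k, e k⟩]

/-- The walk of the arcs. -/
def aIts (K : ℕ) (s o : ℤ → ℝ) (g : ℤ → Bool) (e : ℤ → ℤ) : List It :=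
  (List.range K).flatMap fun k => aIt s o g e k

/-! ### arcs of a polygon -/

/-- A decomposition of a polygon into arcs: the arc `k` consists of the edges `e k, ..., e (k + 1)`. -/
structure ArcP {N : ℕ} (P : Pg N) (K : ℕ) (e : ℤ → ℤ) (s a b : ℤ → ℝ) (g : ℤ → Bool)
    (X : Finset ℝ) : Prop where
  d : ArcD K s a b g X
  mono : ∀ k, e k < e (k + 1)
  pe : ∀ k, e (k + K) = e k + N
  crs : ∀ k, Crs P (g k) (s k) (e k)
  ins : ∀ k i, e k < i → i ≤ e (k + 1) → a k < P.x i ∧ P.x i < b k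
  ty : ∀ k, Ty P (e k) (e (k + 1))
  sep : ∀ k l, ¬ Cg K k l → a k = a l → ∀ t, t = a k ∨ t = b k →
    Sep P (e k) (e (k + 1)) (e l) (e (l + 1)) t
  lo : ∃ a ∈ X, ∀ i, a < P.x i
  hi : ∃ b ∈ X, ∀ i, P.x i < b
  sm : ∀ c d, AdjX X c d → ∀ i, |P.x (i + 1) - P.x i| < d - c

/-- AR1: the indices. -/
def P_AR1 : Prop :=
  ∀ (Λ : LC.LegKnot) (K : ℕ) (θ s a b : ℤ → ℝ) (g : ℤ → Bool) (X : Finset ℝ),
    Arcs Λ K θ s a b g X → ∃ N₀ : ℕ, 0 < N₀ ∧ ∀ N ≥ N₀, ∀ P : Pg N, IsPN Λ N P →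
      (∀ k : ℤ, ⌊N * θ k⌋ < ⌊N * θ (k + 1)⌋) ∧ (∀ k : ℤ, ⌊N * θ (k + K)⌋ = ⌊N * θ k⌋ + N) ∧
      (∀ k, Crs P (g k) (s k) ⌊N * θ k⌋) ∧
      (∀ k i, ⌊N * θ k⌋ < i → i ≤ ⌊N * θ (k + 1)⌋ → a k < P.x i ∧ P.x i < b k) ∧
      (∃ a ∈ X, ∀ i, a < P.x i) ∧ (∃ b ∈ X, ∀ i, P.x i < b) ∧
      ∀ c d, AdjX X c d → ∀ i, |P.x (i + 1) - P.x i| < d - c

/-- AR1 -/
def Stmt_AR1 : Prop := Stmt_EST → P_AR1

/-- AR2: the arcs of the polygons are monotone. -/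
def P_AR2 : Prop :=
  ∀ (Λ : LC.LegKnot) (K : ℕ) (θ s a b : ℤ → ℝ) (g : ℤ → Bool) (X : Finset ℝ),
    Arcs Λ K θ s a b g X → ∃ N₀ : ℕ, 0 < N₀ ∧ ∀ N ≥ N₀, ∀ P : Pg N, IsPN Λ N P →
      ∀ k : ℤ, Ty P ⌊N * θ k⌋ ⌊N * θ (k + 1)⌋

/-- AR2 -/
def Stmt_AR2 : Prop := Stmt_EST → P_AR2

/-- AR3: the arcs of the polygons are separated. -/
def P_AR3 : Prop :=
  ∀ (Λ : LC.LegKnot) (K : ℕ) (θ s a b : ℤ → ℝ) (g : ℤ → Bool) (X : Finset ℝ),
    Arcs Λ K θ s a b g X → ∃ N₀ : ℕ, 0 < N₀ ∧ ∀ N ≥ N₀, ∀ P : Pg N, IsPN Λ N P →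
      ∀ k l : ℤ, ¬ Cg K k l → a k = a l → ∀ t, t = a k ∨ t = b k →
        Sep P ⌊N * θ k⌋ ⌊N * θ (k + 1)⌋ ⌊N * θ l⌋ ⌊N * θ (l + 1)⌋ t

/-- AR3 -/
def Stmt_AR3 : Prop := Stmt_EST → P_AR3

/-- AR4: the heights of the points of the walk. -/
def P_AR4 : Prop :=
  ∀ (Λ : LC.LegKnot) (K : ℕ) (θ s a b : ℤ → ℝ) (g : ℤ → Bool) (X : Finset ℝ),
    Arcs Λ K θ s a b g X → ∀ ε > (0 : ℝ), ∃ N₀ : ℕ, 0 < N₀ ∧ ∀ N ≥ N₀, ∀ P : Pg N,
      IsPN Λ N P → ∀ k : ℤ, |P.l ⌊N * θ k⌋ (s k) - (zz Λ (θ k) - zz Λ 0)| < ε ∧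
        |P.l ⌊N * θ k⌋ (oL a b g k) - (TL Λ (θ k) (oL a b g k) - zz Λ 0)| < ε

/-- AR4 -/
def Stmt_AR4 : Prop := Stmt_EST → P_AR4

/-- GDX: a polygon with a decomposition into arcs has good cells. -/
def P_GDX : Prop :=
  ∀ (N : ℕ) (P : Pg N) (K : ℕ) (e : ℤ → ℤ) (s a b : ℤ → ℝ) (g : ℤ → Bool) (X : Finset ℝ),
    ArcP P K e s a b g X → GoodX P X

/-- GDX -/
def Stmt_GDX : Prop := P_GDX

/-- GWA: the arcs give a walk. -/
def P_GWA : Prop :=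
  ∀ (N : ℕ) (P : Pg N) (K : ℕ) (e : ℤ → ℤ) (s a b : ℤ → ℝ) (g : ℤ → Bool) (X : Finset ℝ),
    ArcP P K e s a b g X → GW P X (aIts K s (oL a b g) g e)

/-- GWA -/
def Stmt_GWA : Prop := P_GWA

/-- The point has a column. -/
def hc (p : Pt) : Prop := p.k ≠ .L

/-- The point has a row. -/
def hr (p : Pt) : Prop := p.k ≠ .R

/-- Two lists of points of the same kinds with the same order of the columns and of the rows. -/
structure SO (w w' : List Pt) : Prop where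
  len : w.length = w'.length
  k : ∀ i (h : i < w.length) (h' : i < w'.length), (w[i]).k = (w'[i]).k
  c : ∀ i j (h : i < w.length) (h' : i < w'.length) (l : j < w.length) (l' : j < w'.length),
    hc w[i] → hc w[j] → ((w[i]).c < (w[j]).c ↔ (w'[i]).c < (w'[j]).c)
  r : ∀ i j (h : i < w.length) (h' : i < w'.length) (l : j < w.length) (l' : j < w'.length),
    hr w[i] → hr w[j] → ((w[i]).r < (w[j]).r ↔ (w'[i]).r < (w'[j]).r)

/-- ORE: lists with the same order have the same representations. -/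
def P_ORE : Prop := ∀ w w' : List Pt, SO w w' → ∀ M, Rp (ents w) M → Rp (ents w') M

/-- ORE -/
def Stmt_ORE : Prop := P_ORE

/-- DST: different points of the walk of the arcs have different positions. -/
def P_DST : Prop :=
  ∀ (Λ : LC.LegKnot) (K : ℕ) (θ s a b : ℤ → ℝ) (g : ℤ → Bool) (X : Finset ℝ),
    Arcs Λ K θ s a b g X →
    (∀ k l, ¬ Cg K k l → s k = s l → zz Λ (θ k) ≠ zz Λ (θ l)) ∧
    (∀ k l, g k ≠ g (k + 1) → s l = oL a b g k → TL Λ (θ k) (oL a b g k) ≠ zz Λ (θ l)) ∧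
    ∀ k l, ¬ Cg K k l → g k ≠ g (k + 1) → g l ≠ g (l + 1) → g k = g l →
      oL a b g k = oL a b g l → TL Λ (θ k) (oL a b g k) ≠ TL Λ (θ l) (oL a b g l)

/-- DST -/
def Stmt_DST : Prop := P_DST

/-- CMB: the walk of the polygon has the same order as the walk of the arcs, if the heights are
close. `H`, `V`: the heights of the passing points and of the turns. -/
def P_CMB : Prop :=
  ∀ (K : ℕ) (s a b : ℤ → ℝ) (g : ℤ → Bool) (X : Finset ℝ) (H V H' V' : ℤ → ℝ), ArcD K s a b g X →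
    (∀ k l, ¬ Cg K k l → s k = s l → (H k < H l ↔ H' k < H' l)) →
    (∀ k l, g k ≠ g (k + 1) → s l = oL a b g k →
      (V k < H l ↔ V' k < H' l) ∧ (H l < V k ↔ H' l < V' k)) →
    (∀ k l, ¬ Cg K k l → g k ≠ g (k + 1) → g l ≠ g (l + 1) → g k = g l →
      oL a b g k = oL a b g l → (V k < V l ↔ V' k < V' l)) →
    SO (aPts K s (oL a b g) g H V) (aPts K s (oL a b g) g H' V')

/-- CMB -/
def Stmt_CMB : Prop := P_CMB

/-- The polygons of a knot with a decomposition into arcs. -/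
def P_SGM : Prop :=
  ∀ (Λ : LC.LegKnot) (K : ℕ) (θ s a b : ℤ → ℝ) (g : ℤ → Bool) (X : Finset ℝ),
    Arcs Λ K θ s a b g X → ∃ N₀ : ℕ, 0 < N₀ ∧ ∀ N ≥ N₀, ∀ P : Pg N, IsPN Λ N P →
      ∃ w, GoodX P X ∧ GW P X w ∧
        ∀ M, Rp (ents (aPts K s (oL a b g) g (fun k => zz Λ (θ k))
          (fun k => TL Λ (θ k) (oL a b g k)))) M → Rp (lst P w) M

/-- SGM: assembly. -/
def Stmt_SGM : Prop :=
  P_AR1 → P_AR2 → P_AR3 → P_AR4 → P_GDX → P_GWA → P_ORE → P_DST → P_CMB → P_SGM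

end LHE
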