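import Pool.Agent.LHE.Stmts2

/-!
# The knot `J` (task T_J), second part: knots along lattice paths

A lattice path: the points `(m i, z i)`, `i : ℤ`, periodic with period `L`; `σ i = sg m i = ±1` is the
direction of the edge `i` from the point `i` to the point `i + 1`, `sl m z i = ±1` is its slope.
The point `i` is a tip if `σ (i - 1) ≠ σ i`.
-/

namespace LHE

open Set LG LH

/-- The direction of the edge `i`. -/
def sg (m : ℤ → ℤ) (i : ℤ) : ℤ := m (i + 1) - m i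

/-- The slope of the edge `i`. -/
def sl (m z : ℤ → ℤ) (i : ℤ) : ℤ := (z (i + 1) - z i) * (m (i + 1) - m i)

/-- A closed lattice path which is the front of a knot. -/
structure LatD (L : ℕ) (m z : ℤ → ℤ) : Prop where
  Lpos : 0 < L
  pm : ∀ i, m (i + L) = m i
  pz : ∀ i, z (i + L) = z i
  dm : ∀ i, m (i + 1) = m i + 1 ∨ m (i + 1) = m i - 1
  dz : ∀ i, z (i + 1) = z i + 1 ∨ z (i + 1) = z i - 1
  nb : ∀ i, sg m (i - 1) ≠ sg m i → sl m z (i - 1) ≠ sl m z i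
  dis : ∀ i j, ¬ Cg L i j → m i = m j → z i = z j → sg m (i - 1) = sg m i ∧
    sl m z (i - 1) = sl m z i ∧ sg m (j - 1) = sg m j ∧ sl m z (j - 1) = sl m z j ∧
    sl m z i ≠ sl m z j

/-- A knot along a lattice path with the scales `X₀`, `P₀` (for `x` and for the slopes) and the
widths `w` of the corners; `ν i` is the parameter of the point `i`. -/
structure LatS (Λ : LC.LegKnot) (X₀ P₀ w : ℝ) (L : ℕ) (m z : ℤ → ℤ) (ν : ℤ → ℝ) : Prop where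
  X0 : 0 < X₀
  P0 : 0 < P₀
  w0 : 0 < w
  wX : 100 * w ≤ X₀
  mono : ∀ i, ν i < ν (i + 1)
  pν : ∀ i, ν (i + L) = ν i + 1
  dx : ∀ i, ∀ u ∈ Ioo (ν i) (ν (i + 1)), 0 < (sg m i : ℝ) * deriv Λ.x u
  vx : ∀ i, sg m (i - 1) = sg m i → Λ.x (ν i) = X₀ * m i ∧ 0 < (sg m i : ℝ) * deriv Λ.x (ν i)
  tx : ∀ i, sg m (i - 1) ≠ sg m i → (sg m i : ℝ) * Λ.x (ν i) ≤ sg m i * (X₀ * m i)
  tb : ∀ i, |Λ.x (ν i) - X₀ * m i| ≤ 3 / 4 * w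
  zs : ∀ i, sg m (i - 1) = sg m i → sl m z (i - 1) = sl m z i →
    ∀ u ∈ Icc (ν (i - 1)) (ν (i + 1)), |Λ.x u - X₀ * m i| ≤ 3 / 4 * X₀ →
    ∀ t, TL Λ u t = X₀ * P₀ * z i + P₀ * sl m z i * (t - X₀ * m i)
  zb : ∀ i, ∀ u ∈ Icc (ν (i - 1)) (ν (i + 1)), |Λ.x u - X₀ * m i| ≤ 3 / 4 * X₀ →
    ∀ t, |t - X₀ * m i| ≤ 51 / 100 * X₀ → |TL Λ u t - X₀ * P₀ * z i| ≤ 5 / 8 * (X₀ * P₀)
  zi : ∀ i, ∀ u ∈ Icc (ν (i - 1)) (ν i), w ≤ -(sg m (i - 1) : ℝ) * (Λ.x u - X₀ * m i) →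
    -(sg m (i - 1) : ℝ) * (Λ.x u - X₀ * m i) ≤ 3 / 4 * X₀ →
    ∀ t, TL Λ u t = X₀ * P₀ * z i + P₀ * sl m z (i - 1) * (t - X₀ * m i)
  zo : ∀ i, ∀ u ∈ Icc (ν i) (ν (i + 1)), w ≤ (sg m i : ℝ) * (Λ.x u - X₀ * m i) →
    (sg m i : ℝ) * (Λ.x u - X₀ * m i) ≤ 3 / 4 * X₀ →
    ∀ t, TL Λ u t = X₀ * P₀ * z i + P₀ * sl m z i * (t - X₀ * m i)
  ym : ∀ i, sg m (i - 1) ≠ sg m i → ∀ u ∈ Ioo (ν (i - 1)) (ν (i + 1)),
    |Λ.x u - X₀ * m i| ≤ 3 / 4 * X₀ → 0 ≤ ((sl m z i : ℝ) - sl m z (i - 1)) * deriv Λ.y u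
  yt : ∀ i, sg m (i - 1) ≠ sg m i → ∀ u ∈ Ioo (ν (i - 1)) (ν (i + 1)),
    (sg m i : ℝ) * (Λ.x u - X₀ * m i) < w → deriv Λ.y u ≠ 0

/-! ### the lines and the combinatorics of the arcs -/

/-- The line with the code `n`: `3 m`, `3 m + 1`, `3 m + 2` are the lines shortly before and
shortly after `X₀ m`, and in the middle between `X₀ m` and `X₀ (m + 1)`. -/
noncomputable def ln (X₀ w ε : ℝ) (n : ℤ) : ℝ :=
  X₀ * (n / 3 : ℤ) + (if n % 3 = 0 then -(7 / 8 * w) else if n % 3 = 1 then 7 / 8 * w else X₀ / 2) + ε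

/-- The code of the line of the start of the arc `k`. The arcs `3 i`, `3 i + 1`, `3 i + 2` start
in the middle of the edge `i - 1`, shortly before the point `i`, shortly after the point `i`. -/
def cs (m : ℤ → ℤ) (k : ℤ) : ℤ :=
  if k % 3 = 0 then (if sg m (k / 3 - 1) = 1 then 3 * m (k / 3) - 1 else 3 * m (k / 3) + 2)
  else if k % 3 = 1 then (if sg m (k / 3 - 1) = 1 then 3 * m (k / 3) else 3 * m (k / 3) + 1)
  else (if sg m (k / 3) = 1 then 3 * m (k / 3) + 1 else 3 * m (k / 3))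

/-- The code of the left line of the cell of the arc `k`. -/
def ca (m : ℤ → ℤ) (k : ℤ) : ℤ :=
  if k % 3 = 0 then (if sg m (k / 3 - 1) = 1 then 3 * m (k / 3) - 1 else 3 * m (k / 3) + 1)
  else if k % 3 = 1 then 3 * m (k / 3)
  else (if sg m (k / 3) = 1 then 3 * m (k / 3) + 1 else 3 * m (k / 3) - 1)

/-- The direction at the start of the arc `k`. -/
def gd (m : ℤ → ℤ) (k : ℤ) : Bool :=
  if k % 3 = 2 then decide (sg m (k / 3) = 1) else decide (sg m (k / 3 - 1) = 1)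

/-- The code of the height of the start of the arc `k`. -/
def hcd (m z : ℤ → ℤ) (k : ℤ) : ℤ :=
  if k % 3 = 0 then 2 * z (k / 3) - sg m (k / 3 - 1) * sl m z (k / 3 - 1)
  else if k % 3 = 1 then 4 * z (k / 3) - sg m (k / 3 - 1) * sl m z (k / 3 - 1)
  else 4 * z (k / 3) + sg m (k / 3) * sl m z (k / 3)

/-- The code of the height of the turn of the arc `k`. -/
def vcd (z : ℤ → ℤ) (k : ℤ) : ℤ := 4 * z (k / 3)

/-- The lines of the arcs. -/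
noncomputable def sR (X₀ w ε : ℝ) (m : ℤ → ℤ) (k : ℤ) : ℝ := ln X₀ w ε (cs m k)

/-- The left lines of the cells. -/
noncomputable def aR (X₀ w ε : ℝ) (m : ℤ → ℤ) (k : ℤ) : ℝ := ln X₀ w ε (ca m k)

/-- The right lines of the cells. -/
noncomputable def bR (X₀ w ε : ℝ) (m : ℤ → ℤ) (k : ℤ) : ℝ := ln X₀ w ε (ca m k + 1)

/-- All lines. -/
noncomputable def XL (X₀ w ε : ℝ) (lo hi : ℤ) : Finset ℝ := (Finset.Icc lo hi).image (ln X₀ w ε)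

/-- The range of the codes. -/
def Rng (m : ℤ → ℤ) (lo hi : ℤ) : Prop := ∀ i, lo + 3 ≤ 3 * m i ∧ 3 * m i + 4 ≤ hi

/-- LNM: the lines are increasing; adjacent lines are adjacent codes. -/
def P_LNM : Prop :=
  ∀ (X₀ w ε : ℝ), 0 < X₀ → 0 < w → 100 * w ≤ X₀ → StrictMono (ln X₀ w ε) ∧
    ∀ lo hi c d, AdjX (XL X₀ w ε lo hi) c d ↔
      ∃ n, lo ≤ n ∧ n + 1 ≤ hi ∧ c = ln X₀ w ε n ∧ d = ln X₀ w ε (n + 1)

/-- LNM -/
def Stmt_LNM : Prop := P_LNM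

/-- ARD: the combinatorial data of the arcs. -/
def P_ARD : Prop :=
  ∀ (X₀ w ε : ℝ) (L : ℕ) (m z : ℤ → ℤ) (lo hi : ℤ), 0 < X₀ → 0 < w → 100 * w ≤ X₀ → LatD L m z →
    Rng m lo hi →
    ArcD (3 * L) (sR X₀ w ε m) (aR X₀ w ε m) (bR X₀ w ε m) (gd m) (XL X₀ w ε lo hi)

/-- ARD -/
def Stmt_ARD : Prop := P_LNM → P_ARD

/-- The positions of the parameters of the arcs. -/
structure Tht (Λ : LC.LegKnot) (X₀ w ε : ℝ) (L : ℕ) (m : ℤ → ℤ) (ν θ : ℤ → ℝ) : Prop where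
  pθ : ∀ k, θ (k + (3 * L : ℕ)) = θ k + 1
  h₀ : ∀ i : ℤ, ν (i - 1) < θ (3 * i)
  h₁ : ∀ i : ℤ, θ (3 * i) < θ (3 * i + 1)
  h₂ : ∀ i : ℤ, θ (3 * i + 1) < ν i
  h₃ : ∀ i : ℤ, ν i < θ (3 * i + 2)
  h₄ : ∀ i : ℤ, θ (3 * i + 2) < θ (3 * i + 3)
  hit : ∀ k, Λ.x (θ k) = sR X₀ w ε m k

/-- THT: the parameters of the arcs. -/
def P_THT : Prop :=
  ∀ (Λ : LC.LegKnot) (X₀ P₀ w ε : ℝ) (L : ℕ) (m z : ℤ → ℤ) (ν : ℤ → ℝ), LatD L m z →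
    LatS Λ X₀ P₀ w L m z ν → 0 < ε → ε < w / 16 → ∃ θ, Tht Λ X₀ w ε L m ν θ

/-- THT -/
def Stmt_THT : Prop := P_THT

/-- THI: the arcs are over their cells; the derivatives at their ends. -/
def P_THI : Prop :=
  ∀ (Λ : LC.LegKnot) (X₀ P₀ w ε : ℝ) (L : ℕ) (m z : ℤ → ℤ) (ν θ : ℤ → ℝ), LatD L m z →
    LatS Λ X₀ P₀ w L m z ν → 0 < ε → ε < w / 16 → Tht Λ X₀ w ε L m ν θ →
    (∀ k, θ k < θ (k + 1)) ∧ (∀ k, 0 < sn (gd m k) * deriv Λ.x (θ k)) ∧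
    (∀ k, ∀ u ∈ Ioo (θ k) (θ (k + 1)), aR X₀ w ε m k < Λ.x u ∧ Λ.x u < bR X₀ w ε m k) ∧
    ∀ k, (∀ u ∈ Icc (θ k) (θ (k + 1)), deriv Λ.x u ≠ 0) ∨
      ∀ u ∈ Icc (θ k) (θ (k + 1)), deriv Λ.y u ≠ 0

/-- THI -/
def Stmt_THI : Prop := P_LNM → P_THI

/-- TSP: the two sides of a tip are separated. -/
def P_TSP : Prop :=
  ∀ (Λ : LC.LegKnot) (X₀ P₀ w : ℝ) (L : ℕ) (m z : ℤ → ℤ) (ν : ℤ → ℝ), LatD L m z →
    LatS Λ X₀ P₀ w L m z ν → ∀ i, sg m (i - 1) ≠ sg m i → ∀ α β β' α' a b : ℝ,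
      ν (i - 1) < α → α < β → β < ν i → ν i < β' → β' < α' → α' < ν (i + 1) →
      Λ.x α = a → Λ.x α' = a → Λ.x β = b → Λ.x β' = b →
      w ≤ (sg m i : ℝ) * (a - X₀ * m i) → (sg m i : ℝ) * (a - X₀ * m i) ≤ 3 / 4 * X₀ →
      0 < (sg m i : ℝ) * (b - X₀ * m i) → (sg m i : ℝ) * b ≤ sg m i * a →
      ∀ u ∈ Icc α β, ∀ v ∈ Icc β' α', ∀ t, t = a ∨ t = b →
        0 < ((sg m i : ℝ) * sl m z i) * (TL Λ v t - TL Λ u t)

/-- TSP -/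
def Stmt_TSP : Prop := P_TSP

/-- LHD: the heights in the middle of the edges are different. -/
def P_LHD : Prop :=
  ∀ (L : ℕ) (m z : ℤ → ℤ), LatD L m z →
    (∀ i j, m i = m j → (z i - z j) % 2 = 0) ∧
    ∀ i j, ¬ Cg L i j → cs m (3 * i) = cs m (3 * j) → hcd m z (3 * i) ≠ hcd m z (3 * j) ∧
      (hcd m z (3 * i) - hcd m z (3 * j)) % 2 = 0

/-- LHD -/
def Stmt_LHD : Prop := P_LHD

/-- SPA: the arcs are separated. -/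
def P_SPA : Prop :=
  ∀ (Λ : LC.LegKnot) (X₀ P₀ w ε : ℝ) (L : ℕ) (m z : ℤ → ℤ) (ν θ : ℤ → ℝ), LatD L m z →
    LatS Λ X₀ P₀ w L m z ν → 0 < ε → ε < w / 16 → Tht Λ X₀ w ε L m ν θ →
    ∀ k l, ¬ Cg (3 * L) k l → ca m k = ca m l → ∀ n, n = ca m k ∨ n = ca m k + 1 →
      (∀ u ∈ Icc (θ k) (θ (k + 1)), ∀ v ∈ Icc (θ l) (θ (l + 1)),
        TL Λ u (ln X₀ w ε n) < TL Λ v (ln X₀ w ε n)) ∨
      ∀ u ∈ Icc (θ k) (θ (k + 1)), ∀ v ∈ Icc (θ l) (θ (l + 1)),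
        TL Λ v (ln X₀ w ε n) < TL Λ u (ln X₀ w ε n)

/-- SPA -/
def Stmt_SPA : Prop := P_LNM → P_THI → P_TSP → P_LHD → P_SPA

/-- HOR: the order of the heights is the order of the codes. -/
def P_HOR : Prop :=
  ∀ (Λ : LC.LegKnot) (X₀ P₀ w ε : ℝ) (L : ℕ) (m z : ℤ → ℤ) (ν θ : ℤ → ℝ), LatD L m z →
    LatS Λ X₀ P₀ w L m z ν → 0 < ε → ε < w / 16 → Tht Λ X₀ w ε L m ν θ →
    (∀ k l, ¬ Cg (3 * L) k l → cs m k = cs m l →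
      (zz Λ (θ k) < zz Λ (θ l) ↔ hcd m z k < hcd m z l)) ∧
    (∀ k l, gd m k ≠ gd m (k + 1) → cs m l = (if gd m k then ca m k + 1 else ca m k) →
      (TL Λ (θ k) (sR X₀ w ε m l) < zz Λ (θ l) ↔ vcd z k < hcd m z l) ∧
      (zz Λ (θ l) < TL Λ (θ k) (sR X₀ w ε m l) ↔ hcd m z l < vcd z k)) ∧
    ∀ k l, ¬ Cg (3 * L) k l → gd m k ≠ gd m (k + 1) → gd m l ≠ gd m (l + 1) → gd m k = gd m l →
      ca m k = ca m l → ∀ n, n = (if gd m k then ca m k + 1 else ca m k) →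
      (TL Λ (θ k) (ln X₀ w ε n) < TL Λ (θ l) (ln X₀ w ε n) ↔ vcd z k < vcd z l)

/-- HOR -/
def Stmt_HOR : Prop := P_LNM → P_THI → P_TSP → P_LHD → P_HOR

/-- EPC: the shift of the lines can be chosen such that no line contains a point with a rational
parameter. -/
def P_EPC : Prop :=
  ∀ (Λ : LC.LegKnot) (X₀ w : ℝ) (lo hi : ℤ), 0 < w →
    ∃ ε, 0 < ε ∧ ε < w / 16 ∧ ∀ t ∈ XL X₀ w ε lo hi, ∀ q : ℚ, Λ.x q ≠ t

/-- EPC -/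
def Stmt_EPC : Prop := P_EPC

/-- The code of the line of the turn of the arc `k`. -/
def co (m : ℤ → ℤ) (k : ℤ) : ℤ := if gd m k then ca m k + 1 else ca m k

/-- The walk of the lattice path in terms of the codes. -/
noncomputable def cPts (L : ℕ) (m z : ℤ → ℤ) : List Pt :=
  aPts (3 * L) (fun k => (cs m k : ℝ)) (fun k => (co m k : ℝ)) (gd m)
    (fun k => (hcd m z k : ℝ)) (fun k => (vcd z k : ℝ))

/-- CDM: the lines can be replaced by their codes. -/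
def P_CDM : Prop :=
  ∀ (K : ℕ) (c o : ℤ → ℤ) (g : ℤ → Bool) (H V : ℤ → ℝ) (f : ℤ → ℝ), StrictMono f →
    SO (aPts K (fun k => (c k : ℝ)) (fun k => (o k : ℝ)) g H V)
      (aPts K (fun k => f (c k)) (fun k => f (o k)) g H V)

/-- CDM -/
def Stmt_CDM : Prop := P_CDM

/-- The polygons of a knot along a lattice path. -/
def P_LAT : Prop :=
  ∀ (Λ : LC.LegKnot) (X₀ P₀ w : ℝ) (L : ℕ) (m z : ℤ → ℤ) (ν : ℤ → ℝ), LatD L m z →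
    LatS Λ X₀ P₀ w L m z ν → ∃ N₀ : ℕ, 0 < N₀ ∧ ∀ N ≥ N₀, ∀ P : Pg N, IsPN Λ N P →
      ∃ X w, GoodX P X ∧ GW P X w ∧ ∀ M, Rp (ents (cPts L m z)) M → Rp (lst P w) M

/-- LAT: assembly. -/
def Stmt_LAT : Prop :=
  P_LNM → P_ARD → P_THT → P_THI → P_SPA → P_HOR → P_EPC → P_CDM → P_CMB → P_ORE → P_SGM → P_LAT

end LHE
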