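import Pool.Agent.LHE.Stmts3
import Pool.Agent.LCA.KNT

/-!
# The knot `J` (task T_J), third part: the knot of a grid polygon is a knot along a lattice path
-/

namespace LHE

open Set LG LH LCA
open scoped ContDiff

/-! ### the parametrisation -/

/-- The parametrisation of the knot of a cyclic polygon: the vertex `k` is at the parameter
`k / n`. -/
def Prm {n : ℕ} [NeZero n] (Λ : LC.LegKnot) (sh : Shape) (c : Comb n n) (w : Fin n → ℝ)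
    (Q : St n) : Prop :=
  ∀ (k : ℤ) (t : ℝ), |t| ≤ 3 / 4 → Λ.γ ((k + t) / n) = KNT.Gk sh c w Q k t

/-- KNP: the knot of a cyclic polygon with its parametrisation. -/
def Stmt_KNP : Prop :=
  Stmt_PST → Stmt_CER → Stmt_VLN → Stmt_PIN →
  ∀ {n : ℕ} [NeZero n] (sh : Shape) (c : Comb n n) (w : Fin n → ℝ) (Q : St n), c.Valid → c.Cyc →
    (∀ i, 0 < w i) → c.Cert w Q (0, Q.2) →
    (∀ e, 6 * (w (c.lf e) + w (c.rt e)) < Q.1 (c.rt e) - Q.1 (c.lf e)) →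
    ∃ Λ : LC.LegKnot, Λ.carrier = c.knot sh w Q ∧ Prm Λ sh c w Q

/-- A shape with a strictly monotone tip which is not too long. -/
structure SHok (sh : Shape) : Prop where
  h0 : 0 ≤ sh.ξ 0
  h1 : sh.ξ 0 ≤ 3 / 4
  d : ∀ u, 0 < u → deriv sh.ξ u < 0

/-- SHX: such a shape exists. -/
def Stmt_SHX : Prop := ∃ sh : Shape, SHok sh

/-- The data of a grid polygon: the vertex `k` is at `(X₀ M k, X₀ P₀ Z k)`, the edge `k` goes in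
the direction `σ k`, has the slope `P₀ p k` and the length `X₀ ℓ k`. -/
structure Cfg {n : ℕ} [NeZero n] (c : Comb n n) (w : Fin n → ℝ) (Q : St n) (X₀ P₀ w₀ : ℝ)
    (M Z σ p ℓ : ℤ → ℤ) : Prop where
  valid : c.Valid
  cyc : c.Cyc
  len : ∀ e, Q.1 (c.lf e) < Q.1 (c.rt e)
  X0 : 0 < X₀
  P0 : 0 < P₀
  w0 : 0 < w₀
  wX : 100 * w₀ ≤ X₀
  w : ∀ i, w i = w₀
  pos : ∀ k : ℤ, Q.1 (KNT.idx n k) = X₀ * M k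
  hgt : ∀ k : ℤ, Q.2 (KNT.idx n k) = X₀ * P₀ * Z k
  s1 : ∀ k, σ k = 1 ∨ σ k = -1
  p1 : ∀ k, p k = 1 ∨ p k = -1
  l1 : ∀ k, 1 ≤ ℓ k
  M1 : ∀ k, M (k + 1) = M k + σ k * ℓ k
  Z1 : ∀ k, Z (k + 1) = Z k + σ k * p k * ℓ k
  alt : ∀ k, p (k - 1) ≠ p k

/-- The profile of `x` at the vertex `k`, in the direction of the path. -/
noncomputable def chi (sh : Shape) (σ : ℤ → ℤ) (k : ℤ) (U : ℝ) : ℝ :=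
  if σ (k - 1) = σ k then (σ k : ℝ) * U else -(σ k : ℝ) * sh.ξ U

/-- VXF: the curve near the vertex `k` in terms of the path. -/
def P_VXF : Prop :=
  ∀ {n : ℕ} [NeZero n] (sh : Shape) (c : Comb n n) (w : Fin n → ℝ) (Q : St n) (X₀ P₀ w₀ : ℝ)
    (M Z σ p ℓ : ℤ → ℤ), Cfg c w Q X₀ P₀ w₀ M Z σ p ℓ → ∀ (k : ℤ) (U : ℝ), ∃ Ψ : ℝ,
      KNT.Ak sh c w Q k U = (X₀ * M k + w₀ * chi sh σ k U,
        P₀ * (p (k - 1) + ((p k : ℝ) - p (k - 1)) * sh.τ U),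
        X₀ * P₀ * Z k + P₀ * p (k - 1) * (w₀ * chi sh σ k U) +
          w₀ * P₀ * ((p k : ℝ) - p (k - 1)) * Ψ) ∧
      (U ≤ -1 → Ψ = 0) ∧ (1 ≤ U → Ψ = chi sh σ k U) ∧ (|U| ≤ 1 → |Ψ| ≤ 3)

/-- VXF -/
def Stmt_VXF : Prop := P_VXF

/-- VXU: the function `Uk`. -/
def P_VXU : Prop :=
  ∀ {n : ℕ} [NeZero n] (sh : Shape) (c : Comb n n) (w : Fin n → ℝ) (Q : St n) (X₀ P₀ w₀ : ℝ)
    (M Z σ p ℓ : ℤ → ℤ), Cfg c w Q X₀ P₀ w₀ M Z σ p ℓ → ∀ k : ℤ,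
      KNT.Uk sh c w Q k 0 = 0 ∧
      (∀ t, ∃ d : ℝ, 0 < d ∧ HasDerivAt (KNT.Uk sh c w Q k) d t) ∧
      (∀ t, 0 ≤ t → t ≤ 3 / 4 → KNT.Uk sh c w Q k t ≤ (X₀ * ℓ k - w₀) / w₀) ∧
      ∀ t, -(3 / 4) ≤ t → t ≤ 0 → -((X₀ * ℓ (k - 1) - w₀) / w₀) ≤ KNT.Uk sh c w Q k t

/-- VXU -/
def Stmt_VXU : Prop := P_VXU

/-- A knot along a grid polygon; the vertex `k` is at the parameter `k / n`. -/
structure VtS (Λ : LC.LegKnot) (X₀ P₀ w : ℝ) (n : ℕ) (M Z σ p : ℤ → ℤ) : Prop where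
  n0 : 0 < n
  X0 : 0 < X₀
  P0 : 0 < P₀
  w0 : 0 < w
  wX : 100 * w ≤ X₀
  dx : ∀ k : ℤ, ∀ u ∈ Ioo ((k : ℝ) / n) (((k : ℝ) + 1) / n), 0 < (σ k : ℝ) * deriv Λ.x u
  vx : ∀ k : ℤ, σ (k - 1) = σ k → Λ.x (k / n) = X₀ * M k ∧ 0 < (σ k : ℝ) * deriv Λ.x (k / n)
  tx : ∀ k : ℤ, σ (k - 1) ≠ σ k → (σ k : ℝ) * Λ.x (k / n) ≤ σ k * (X₀ * M k)
  tb : ∀ k : ℤ, |Λ.x (k / n) - X₀ * M k| ≤ 3 / 4 * w
  zi : ∀ k : ℤ, ∀ u ∈ Icc ((k : ℝ) / n) (((k : ℝ) + 1) / n),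
    w ≤ (σ k : ℝ) * (Λ.x u - X₀ * M k) → w ≤ (σ k : ℝ) * (X₀ * M (k + 1) - Λ.x u) →
    ∀ t, TL Λ u t = X₀ * P₀ * Z k + P₀ * p k * (t - X₀ * M k)
  zb : ∀ k : ℤ, ∀ u ∈ Icc (((k : ℝ) - 1) / n) (((k : ℝ) + 1) / n),
    |Λ.x u - X₀ * M k| ≤ 3 / 4 * X₀ → ∀ t, |t - X₀ * M k| ≤ 51 / 100 * X₀ →
    |TL Λ u t - X₀ * P₀ * Z k| ≤ 5 / 8 * (X₀ * P₀)
  ym : ∀ k : ℤ, σ (k - 1) ≠ σ k → ∀ u ∈ Ioo (((k : ℝ) - 1) / n) (((k : ℝ) + 1) / n),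
    |Λ.x u - X₀ * M k| ≤ 3 / 4 * X₀ → 0 ≤ ((p k : ℝ) - p (k - 1)) * deriv Λ.y u
  yt : ∀ k : ℤ, σ (k - 1) ≠ σ k → ∀ u ∈ Ioo (((k : ℝ) - 1) / n) (((k : ℝ) + 1) / n),
    (σ k : ℝ) * (Λ.x u - X₀ * M k) < w → deriv Λ.y u ≠ 0

/-- VXX: the part of `VtS` about `x`. -/
def P_VXX : Prop :=
  ∀ {n : ℕ} [NeZero n] (Λ : LC.LegKnot) (sh : Shape) (c : Comb n n) (w : Fin n → ℝ) (Q : St n)
    (X₀ P₀ w₀ : ℝ) (M Z σ p ℓ : ℤ → ℤ), Cfg c w Q X₀ P₀ w₀ M Z σ p ℓ → Prm Λ sh c w Q →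
    SHok sh →
    (∀ k : ℤ, ∀ u ∈ Ioo ((k : ℝ) / n) (((k : ℝ) + 1) / n), 0 < (σ k : ℝ) * deriv Λ.x u) ∧
    (∀ k : ℤ, σ (k - 1) = σ k → Λ.x (k / n) = X₀ * M k ∧ 0 < (σ k : ℝ) * deriv Λ.x (k / n)) ∧
    (∀ k : ℤ, σ (k - 1) ≠ σ k → (σ k : ℝ) * Λ.x (k / n) ≤ σ k * (X₀ * M k)) ∧
    ∀ k : ℤ, |Λ.x (k / n) - X₀ * M k| ≤ 3 / 4 * w₀

/-- VXX -/
def Stmt_VXX : Prop := P_VXF → P_VXU → P_VXX

/-- VXT: the part of `VtS` about the tangent lines. -/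
def P_VXT : Prop :=
  ∀ {n : ℕ} [NeZero n] (Λ : LC.LegKnot) (sh : Shape) (c : Comb n n) (w : Fin n → ℝ) (Q : St n)
    (X₀ P₀ w₀ : ℝ) (M Z σ p ℓ : ℤ → ℤ), Cfg c w Q X₀ P₀ w₀ M Z σ p ℓ → Prm Λ sh c w Q →
    SHok sh →
    (∀ k : ℤ, ∀ u ∈ Icc ((k : ℝ) / n) (((k : ℝ) + 1) / n),
      w₀ ≤ (σ k : ℝ) * (Λ.x u - X₀ * M k) → w₀ ≤ (σ k : ℝ) * (X₀ * M (k + 1) - Λ.x u) →
      ∀ t, TL Λ u t = X₀ * P₀ * Z k + P₀ * p k * (t - X₀ * M k)) ∧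
    ∀ k : ℤ, ∀ u ∈ Icc (((k : ℝ) - 1) / n) (((k : ℝ) + 1) / n),
      |Λ.x u - X₀ * M k| ≤ 3 / 4 * X₀ → ∀ t, |t - X₀ * M k| ≤ 51 / 100 * X₀ →
      |TL Λ u t - X₀ * P₀ * Z k| ≤ 5 / 8 * (X₀ * P₀)

/-- VXT -/
def Stmt_VXT : Prop := P_VXF → P_VXU → P_VXX → P_VXT

/-- VXY: the part of `VtS` about the derivative of `y`. -/
def P_VXY : Prop :=
  ∀ {n : ℕ} [NeZero n] (Λ : LC.LegKnot) (sh : Shape) (c : Comb n n) (w : Fin n → ℝ) (Q : St n)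
    (X₀ P₀ w₀ : ℝ) (M Z σ p ℓ : ℤ → ℤ), Cfg c w Q X₀ P₀ w₀ M Z σ p ℓ → Prm Λ sh c w Q →
    SHok sh →
    (∀ k : ℤ, σ (k - 1) ≠ σ k → ∀ u ∈ Ioo (((k : ℝ) - 1) / n) (((k : ℝ) + 1) / n),
      |Λ.x u - X₀ * M k| ≤ 3 / 4 * X₀ → 0 ≤ ((p k : ℝ) - p (k - 1)) * deriv Λ.y u) ∧
    ∀ k : ℤ, σ (k - 1) ≠ σ k → ∀ u ∈ Ioo (((k : ℝ) - 1) / n) (((k : ℝ) + 1) / n),
      (σ k : ℝ) * (Λ.x u - X₀ * M k) < w₀ → deriv Λ.y u ≠ 0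

/-- VXY -/
def Stmt_VXY : Prop := P_VXF → P_VXU → P_VXX → P_VXY

/-- The vertices of the polygon are points of the lattice path: the vertex `k` is the point
`jx k`. -/
structure Ver (n L : ℕ) (M Z σ p ℓ m z jx : ℤ → ℤ) : Prop where
  jp : ∀ k, jx (k + n) = jx k + L
  js : ∀ k, jx (k + 1) = jx k + ℓ k
  l1 : ∀ k, 1 ≤ ℓ k
  s1 : ∀ k, σ k = 1 ∨ σ k = -1
  p1 : ∀ k, p k = 1 ∨ p k = -1
  alt : ∀ k, p (k - 1) ≠ p k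
  mp : ∀ i, m (i + L) = m i
  mm : ∀ k d, 0 ≤ d → d ≤ ℓ k → m (jx k + d) = M k + σ k * d
  zz : ∀ k d, 0 ≤ d → d ≤ ℓ k → z (jx k + d) = Z k + σ k * p k * d

/-- VLS: a knot along a grid polygon is a knot along the lattice path. -/
def P_VLS : Prop :=
  ∀ (Λ : LC.LegKnot) (X₀ P₀ w : ℝ) (n L : ℕ) (M Z σ p ℓ m z jx : ℤ → ℤ), 0 < L →
    VtS Λ X₀ P₀ w n M Z σ p → Ver n L M Z σ p ℓ m z jx → ∃ ν, LatS Λ X₀ P₀ w L m z ν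

/-- VLS -/
def Stmt_VLS : Prop := P_VLS

end LHE
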