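import Pool.Agent.LHE.Stmts1

/-!
# A zigzag of two short fingers kills one of the two classes
-/

namespace LHE

open Set LG LH

namespace WRG

/-- Two points of a walk with a common entry are equal. -/
theorem eq_of_ent {w : List Pt} (h : (ents w).Nodup) {x y : Pt} (hx : x ∈ w) (hy : y ∈ w)
    {e : En} (h1 : e ∈ ent x) (h2 : e ∈ ent y) : x = y := by
  unfold ents at h
  rw [List.nodup_flatMap] at h
  by_contra hne
  have h3 : ∀ ⦃a : Pt⦄, a ∈ w → ∀ ⦃b : Pt⦄, b ∈ w → a ≠ b → (Function.onFun List.Disjoint ent) a b :=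
    haveI : Std.Symm (Function.onFun List.Disjoint ent) := ⟨fun a b h => List.Disjoint.symm h⟩
    List.Pairwise.forall h.2
  exact h3 hx hy hne h1 h2

theorem col_mem {x : Pt} (h : x.k ≠ .L) : Sum.inl x.c ∈ ent x := by
  obtain ⟨k, t, hh⟩ := x
  cases k <;> simp_all [ent]

theorem row_mem {x : Pt} (h : x.k ≠ .R) : Sum.inr x.r ∈ ent x := by
  obtain ⟨k, t, hh⟩ := x
  cases k <;> simp_all [ent]

/-- A position strictly between two positions of the same line. -/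
theorem btw_lex {ξ h₁ h₃ t h : ℝ} (hb : LH.Btw (toLex (ξ, h₁) : Q) (toLex (ξ, h₃)) (toLex (t, h))) :
    t = ξ ∧ LH.Btw h₁ h₃ h := by
  unfold LH.Btw at hb ⊢
  rcases hb with ⟨h1, h2⟩ | ⟨h1, h2⟩
  · rw [Prod.Lex.toLex_lt_toLex] at h1 h2
    simp only at h1 h2
    rcases h1 with h1 | h1
    · rcases h2 with h2 | h2
      · exact absurd (h1.trans h2) (lt_irrefl _)
      · rw [h2.1] at h1
        exact absurd h1 (lt_irrefl _)
    · rcases h2 with h2 | h2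
      · rw [h1.1] at h2
        exact absurd h2 (lt_irrefl _)
      · exact ⟨h2.1, Or.inl ⟨h1.2, h2.2⟩⟩
  · rw [Prod.Lex.toLex_lt_toLex] at h1 h2
    simp only at h1 h2
    rcases h1 with h1 | h1
    · rcases h2 with h2 | h2
      · exact absurd (h1.trans h2) (lt_irrefl _)
      · rw [h2.1] at h1
        exact absurd h1 (lt_irrefl _)
    · rcases h2 with h2 | h2
      · rw [h1.1] at h2
        exact absurd h2 (lt_irrefl _)
      · exact ⟨h2.1, Or.inr ⟨h1.2, h2.2⟩⟩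

/-- The height strictly between the two outer heights is the middle one. -/
theorem mid {w : List Pt} {o : Bool} {ξ h₁ h₂ h₃ : ℝ} (ha : AO w o ξ h₁ h₂)
    (hb : AO w o ξ h₂ h₃) {x : Pt} (hx : x ∈ w) (ht : x.t = ξ) (h : LH.Btw h₁ h₃ x.h) :
    x.h = h₂ := by
  have h1 := ha.1 x hx ht
  have h2 := hb.1 x hx ht
  have h3 := ha.2
  have h4 := hb.2
  unfold LH.Btw at h h1 h2
  rcases sn_or o with ho | ho
  · rw [ho] at h3 h4
    by_contra hne
    rcases lt_or_gt_of_ne hne with h5 | h5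
    · rcases h with h6 | h6
      · linarith [h6.1, h6.2]
      · exact h2 (Or.inr ⟨h6.1, h5⟩)
    · rcases h with h6 | h6
      · linarith [h6.1, h6.2]
      · exact h1 (Or.inr ⟨h5, h6.2⟩)
  · rw [ho] at h3 h4
    by_contra hne
    rcases lt_or_gt_of_ne hne with h5 | h5
    · rcases h with h6 | h6
      · exact h1 (Or.inl ⟨h6.1, h5⟩)
      · linarith [h6.1, h6.2]
    · rcases h with h6 | h6
      · exact h2 (Or.inl ⟨h5, h6.2⟩)
      · linarith [h6.1, h6.2]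

theorem tri {w : List Pt} {o : Bool} {ξ h₁ h₂ h₃ : ℝ} {k₁ k₂ k₃ : Kd} (hw : CW w)
    (hk : k₂ ≠ .L ∧ k₂ ≠ .R) (hm : (⟨k₂, ξ, h₂⟩ : Pt) ∈ w) (ha : AO w o ξ h₁ h₂)
    (hb : AO w o ξ h₂ h₃) : Tri w ⟨k₁, ξ, h₁⟩ ⟨k₂, ξ, h₂⟩ ⟨k₃, ξ, h₃⟩ where
  t₂ := rfl
  t₃ := rfl
  col := by
    intro x hx hxk hxb
    obtain ⟨ht, hh⟩ := btw_lex hxb
    have h1 := mid ha hb hx ht hh
    have h2 : x.c = (⟨k₂, ξ, h₂⟩ : Pt).c := by
      change (toLex (x.t, x.h) : Q) = toLex (ξ, h₂)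
      rw [ht, h1]
    refine eq_of_ent hw.nd hx hm (col_mem hxk) ?_
    rw [h2]
    exact col_mem hk.1
  row := by
    intro x hx hxk hxb
    obtain ⟨ht, hh⟩ := btw_lex hxb
    have ht' : x.t = ξ := neg_injective ht
    have h1 := mid ha hb hx ht' hh
    have h2 : x.r = (⟨k₂, ξ, h₂⟩ : Pt).r := by
      change (toLex (-x.t, x.h) : Q) = toLex (-ξ, h₂)
      rw [ht', h1]
    refine eq_of_ent hw.nd hx hm (row_mem hxk) ?_
    rw [h2]
    exact row_mem hk.2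

end WRG

/-- WRG: from the statements for the right and for the left. -/
theorem t_WRG : Stmt_WRG := by
  intro hR hL hE hC s o ξ t' t'' h₁ h₂ h₃ h' h'' r w hw hcw ha hb
  obtain ⟨M, hM⟩ := hE (ents w) (hC.alt w hcw) hcw.nd
  refine ⟨M, hM, ?_⟩
  have hm : (⟨pass (!s), ξ, h₂⟩ : Pt) ∈ w := by rw [hw]; simp
  have hkey : (h₃ < h₂ → h₂ < h₁ → VL M) ∧ (h₁ < h₂ → h₂ < h₃ → VP M) := by
    cases s with
    | true =>
      have ht := WRG.tri (k₁ := .rt) (k₃ := .rt) hcw (k₂ := .lt) (by decide) hm ha hb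
      subst hw
      exact hR ⟨.rt, ξ, h₁⟩ ⟨.R, t', h'⟩ ⟨.lt, ξ, h₂⟩ ⟨.L, t'', h''⟩ ⟨.rt, ξ, h₃⟩ r
        ⟨hcw, rfl, rfl, rfl, rfl, rfl, ht⟩ M hM
    | false =>
      have ht := WRG.tri (k₁ := .lt) (k₃ := .lt) hcw (k₂ := .rt) (by decide) hm ha hb
      subst hw
      exact hL ⟨.lt, ξ, h₁⟩ ⟨.L, t', h'⟩ ⟨.rt, ξ, h₂⟩ ⟨.R, t'', h''⟩ ⟨.lt, ξ, h₃⟩ r
        ⟨hcw, rfl, rfl, rfl, rfl, rfl, ht⟩ M hM
  have h1 := ha.2
  have h2 := hb.2
  rcases sn_or o with ho | ho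
  · rw [ho] at h1 h2
    exact Or.inl (hkey.1 (by linarith) (by linarith))
  · rw [ho] at h1 h2
    exact Or.inr (hkey.2 (by linarith) (by linarith))

end LHE
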